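import Pool.Agent.H159.Defs

/-!
# Quiver Hecke algebras of type `A∞` and modules of Arthur type
-/

namespace Pool.Agent.H159

/-- A simply laced quiver without loops or 2-cycles. -/
class KQuiver (I : Type) where
  /-- the arrows -/
  arr : I → I → Prop
  irrefl : ∀ a, ¬ arr a a
  asymm : ∀ a b, arr a b → ¬ arr b a

open KQuiver

open Classical in
/-- the polynomial `Q_ab(u, v)` -/
noncomputable def Qop {I : Type} [KQuiver I] {A : Type*} [Ring A] (a b : I) (u v : A) : A :=
  if a = b then 0 else if arr a b then u - v else if arr b a then v - u else 1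

open Classical in
/-- the constant in the braid relation -/
noncomputable def epsk (k : Type*) [Ring k] {I : Type} [KQuiver I] (a b : I) : k :=
  if arr a b then 1 else if arr b a then -1 else 0

open Classical in
/-- the indicator of equality -/
noncomputable def dlt (k : Type*) [Ring k] {I : Type} (a b : I) : k := if a = b then 1 else 0

/-- Generators of the quiver Hecke algebra: idempotents `e(l)`, dots `x_j`, crossings `t_j`. -/
inductive KGen (I : Type) : Type
  | e (l : List I)
  | x (j : ℕ)
  | t (j : ℕ)

section defs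

variable (k I : Type) [CommRing k] [KQuiver I]

/-- the free generator `e(l)` -/
def ge (l : List I) : FreeAlgebra k (KGen I) := FreeAlgebra.ι k (KGen.e l)

/-- the free generator `x_j` -/
def gx (j : ℕ) : FreeAlgebra k (KGen I) := FreeAlgebra.ι k (KGen.x j)

/-- the free generator `t_j` -/
def gt (j : ℕ) : FreeAlgebra k (KGen I) := FreeAlgebra.ι k (KGen.t j)

/-- The defining relations of the quiver Hecke algebra attached to a finite set of words. -/
inductive KRel (Ω : Finset (List I)) : FreeAlgebra k (KGen I) → FreeAlgebra k (KGen I) → Prop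
  | e_self (l : List I) : KRel Ω (ge k I l * ge k I l) (ge k I l)
  | e_ne (l l' : List I) (h : l ≠ l') : KRel Ω (ge k I l * ge k I l') 0
  | e_sum : KRel Ω (∑ l ∈ Ω, ge k I l) 1
  | x_e (j : ℕ) (l : List I) : KRel Ω (gx k I j * ge k I l) (ge k I l * gx k I j)
  | x_e_zero (j : ℕ) (l : List I) (h : l.length ≤ j) : KRel Ω (gx k I j * ge k I l) 0
  | t_e (p : List I) (a b : I) (q : List I) :
      KRel Ω (gt k I p.length * ge k I (p ++ a :: b :: q))
        (ge k I (p ++ b :: a :: q) * gt k I p.length)
  | t_e_zero (j : ℕ) (l : List I) (h : l.length ≤ j + 1) : KRel Ω (gt k I j * ge k I l) 0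
  | x_x (i j : ℕ) : KRel Ω (gx k I i * gx k I j) (gx k I j * gx k I i)
  | t_x (i j : ℕ) (h : j ≠ i) (h' : j ≠ i + 1) :
      KRel Ω (gt k I i * gx k I j) (gx k I j * gt k I i)
  | t_t (i j : ℕ) (h : i + 2 ≤ j) : KRel Ω (gt k I i * gt k I j) (gt k I j * gt k I i)
  | tx (p : List I) (a b : I) (q : List I) :
      KRel Ω (gt k I p.length * gx k I (p.length + 1) * ge k I (p ++ a :: b :: q))
        (gx k I p.length * gt k I p.length * ge k I (p ++ a :: b :: q) +
          dlt k a b • ge k I (p ++ a :: b :: q))
  | xt (p : List I) (a b : I) (q : List I) :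
      KRel Ω (gx k I (p.length + 1) * gt k I p.length * ge k I (p ++ a :: b :: q))
        (gt k I p.length * gx k I p.length * ge k I (p ++ a :: b :: q) +
          dlt k a b • ge k I (p ++ a :: b :: q))
  | tt (p : List I) (a b : I) (q : List I) :
      KRel Ω (gt k I p.length * gt k I p.length * ge k I (p ++ a :: b :: q))
        (Qop a b (gx k I p.length) (gx k I (p.length + 1)) * ge k I (p ++ a :: b :: q))
  | br_ne (p : List I) (a b c : I) (q : List I) (h : a ≠ c) :
      KRel Ω (gt k I (p.length + 1) * gt k I p.length * gt k I (p.length + 1) *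
          ge k I (p ++ a :: b :: c :: q))
        (gt k I p.length * gt k I (p.length + 1) * gt k I p.length *
          ge k I (p ++ a :: b :: c :: q))
  | br_eq (p : List I) (a b : I) (q : List I) :
      KRel Ω (gt k I (p.length + 1) * gt k I p.length * gt k I (p.length + 1) *
          ge k I (p ++ a :: b :: a :: q))
        (gt k I p.length * gt k I (p.length + 1) * gt k I p.length *
          ge k I (p ++ a :: b :: a :: q) + epsk k a b • ge k I (p ++ a :: b :: a :: q))

/-- The quiver Hecke algebra attached to a finite set of words. -/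
abbrev KLR (Ω : Finset (List I)) : Type := RingQuot (KRel k I Ω)

end defs

section defs2

variable (k I : Type) [CommRing k] [KQuiver I] (Ω : Finset (List I))

/-- the quotient map -/
noncomputable def kmk : FreeAlgebra k (KGen I) →ₐ[k] KLR k I Ω :=
  RingQuot.mkAlgHom k (KRel k I Ω)

end defs2

open Classical in
/-- the degree of a crossing of strands with colours `a` and `b` -/
noncomputable def tdeg {I : Type} [KQuiver I] (a b : I) : ℤ :=
  if a = b then -2 else if arr a b ∨ arr b a then 1 else 0

/-- The arrows `(ρ, s) → (ρ, s + 2)`. -/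
def LineArr {R : Type} (a b : R × ℤ) : Prop := a.1 = b.1 ∧ b.2 = a.2 + 2

theorem lineArr_irrefl {R : Type} (a : R × ℤ) : ¬ LineArr a a := fun h => by
  have := h.2
  omega

theorem lineArr_asymm {R : Type} (a b : R × ℤ) (h : LineArr a b) : ¬ LineArr b a := fun h' => by
  have := h.2
  have := h'.2
  omega

/-- The quiver of type `A∞`, one copy for each element of `R`: arrows `(ρ, s) → (ρ, s + 2)`. -/
instance lineQuiver (R : Type) : KQuiver (R × ℤ) where
  arr := LineArr
  irrefl := lineArr_irrefl
  asymm := lineArr_asymm

section mult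

open MvPolynomial

variable {R : Type}

open Classical in
/-- Removal of the first cuspidal `c` from a segment, extended to a derivation. -/
noncomputable def dlet (c : R × ℤ) :
    Derivation ℤ (MvPolynomial (Seg R) ℤ) (MvPolynomial (Seg R) ℤ) :=
  MvPolynomial.mkDerivation ℤ fun Δ : Seg R =>
    if (Δ.1, Δ.2.1) = c then segClass Δ.1 (Δ.2.1 + 2) Δ.2.2 else 0

/-- The multiplicity of the word `u` in the class `f`. -/
noncomputable def wordMult (f : MvPolynomial (Seg R) ℤ) (u : List (R × ℤ)) : ℤ :=
  constantCoeff (u.foldl (fun g c => dlet c g) f)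

end mult

section

variable {k I : Type} [Field k] [KQuiver I] {Ω : Finset (List I)}

variable (k Ω) in
/-- A grading of a module over the quiver Hecke algebra: the idempotents have degree `0`, the dots
degree `2`, and a crossing of strands with colours `a`, `b` has degree `tdeg a b`. -/
structure IsKGrading {X : Type} [AddCommGroup X] [Module k X] [Module (KLR k I Ω) X]
    (A : ℤ → Submodule k X) : Prop where
  internal : DirectSum.IsInternal A
  e_mem : ∀ (l : List I) (d : ℤ), ∀ y ∈ A d, kmk k I Ω (ge k I l) • y ∈ A d
  x_mem : ∀ (j : ℕ) (d : ℤ), ∀ y ∈ A d, kmk k I Ω (gx k I j) • y ∈ A (d + 2)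
  t_mem : ∀ (p : List I) (a b : I) (q : List I) (d : ℤ), ∀ y ∈ A d,
    kmk k I Ω (gt k I p.length) • kmk k I Ω (ge k I (p ++ a :: b :: q)) • y ∈ A (d + tdeg a b)

end

section arthur

variable (k : Type) [Field k] {R : Type} (Ω : Finset (List (R × ℤ)))

/-- The word space `e(u) X` of a module over the quiver Hecke algebra. -/
noncomputable def wordSpace (X : Type) [AddCommGroup X] [Module k X]
    [Module (KLR k (R × ℤ) Ω) X] [IsScalarTower k (KLR k (R × ℤ) Ω) X] (u : List (R × ℤ)) :
    Submodule k X :=
  LinearMap.range (Algebra.lsmul k k X (kmk k (R × ℤ) Ω (ge k (R × ℤ) u)))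

/-- A module `X` over the quiver Hecke algebra `KLR k (R × ℤ) Ω` is of Arthur type `ψ` if it is
finite-dimensional, the dimension of its word space `e(u) X` is, for each word `u`, the multiplicity
of `u` in the class of the representation of Arthur type `ψ` (Tadić's determinantal formula), and
it is gradable or it is simple with nilpotent dots. -/
structure IsArthurModule (ψ : Multiset (Block R)) (X : Type) [AddCommGroup X] [Module k X]
    [Module (KLR k (R × ℤ) Ω) X] [IsScalarTower k (KLR k (R × ℤ) Ω) X] : Prop where
  finite : Module.Finite k X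
  dim_eq : ∀ u : List (R × ℤ),
    (Module.finrank k (wordSpace k Ω X u) : ℤ) = wordMult (arthurClass ψ) u
  gradable_or_simple : (∃ A : ℤ → Submodule k X, IsKGrading k Ω A) ∨
    (IsSimpleModule (KLR k (R × ℤ) Ω) X ∧
      ∀ j, ∃ N : ℕ, ∀ y : X, kmk k (R × ℤ) Ω (gx k (R × ℤ) j) ^ N • y = 0)

end arthur

end Pool.Agent.H159
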