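import Pool.Agent.H159.Cat

/-!
# Euler-Poincare characteristics of induced modules, shifts
-/

set_option linter.unusedSectionVars false
set_option linter.style.haveILetI false

namespace Pool.Agent.H159

open KQuiver

section

variable {I : Type} [DecidableEq I] [KQuiver I]

/-- Every list of nonempty chains is a list of single letters or can be cut. -/
theorem sing_or_cut (ss : List (List I)) (h : ∀ s ∈ ss, s ≠ []) :
    ss = sing ss.flatten ∨ ∃ A s b C, s ≠ [] ∧ ss = A ++ (s ++ [b]) :: C := by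
  induction ss with
  | nil => left; rfl
  | cons s ss ih =>
    rcases ih (fun s' hs' => h s' (by simp [hs'])) with h1 | ⟨A, s', b, C, hs', rfl⟩
    · rcases List.eq_nil_or_concat s with h2 | ⟨t, b, h2⟩
      · exact absurd h2 (h s (by simp))
      · rw [List.concat_eq_append] at h2
        by_cases ht : t = []
        · left
          subst ht h2
          have h3 : sing ([[] ++ [b]] ++ ss).flatten = [b] :: sing ss.flatten := by
            simp [sing]
          have h4 : ([] ++ [b]) :: ss = [[] ++ [b]] ++ ss := rfl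
          rw [h4, h3, ← h1]
          rfl
        · right
          exact ⟨[], t, b, ss, ht, by rw [h2]; rfl⟩
    · right
      exact ⟨s :: A, s', b, C, hs', rfl⟩

theorem length_le_flatten {ss : List (List I)} (h : ∀ s ∈ ss, s ≠ []) :
    ss.length ≤ ss.flatten.length := by
  induction ss with
  | nil => simp
  | cons s ss ih =>
    rw [List.flatten_cons, List.length_append, List.length_cons]
    have h1 := ih (fun s' hs' => h s' (by simp [hs']))
    have h2 := List.length_pos_iff.mpr (h s (by simp))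
    omega

/-- induction on chains -/
theorem chain_induction {P : List (List I) → Prop} (h1 : ∀ l, P (sing l))
    (h2 : ∀ A s b C, s ≠ [] → GC (A ++ (s ++ [b]) :: C) → P (A ++ s :: [b] :: C) →
      P (A ++ [b] :: s :: C) → P (A ++ (s ++ [b]) :: C)) : ∀ ss, GC ss → P ss := by
  have key : ∀ n, ∀ ss : List (List I), GC ss → ss.flatten.length - ss.length = n → P ss := by
    intro n
    induction n with
    | zero =>
      intro ss hg hn
      rcases sing_or_cut ss (fun s hs => (hg s hs).2) with h | ⟨A, s, b, C, hs, rfl⟩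
      · rw [h]; exact h1 _
      · exfalso
        have h3 := length_le_flatten (fun r hr => ((hg.cut hs) r hr).2)
        simp only [List.flatten_append, List.flatten_cons, List.length_append,
          List.length_cons, List.length_nil] at hn h3
        omega
    | succ n ih =>
      intro ss hg hn
      rcases sing_or_cut ss (fun s hs => (hg s hs).2) with h | ⟨A, s, b, C, hs, rfl⟩
      · rw [h]; exact h1 _
      · have e0 : (A ++ (s ++ [b]) :: C).flatten.length - (A ++ (s ++ [b]) :: C).length =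
            n + 1 := hn
        apply h2 A s b C hs hg
        · apply ih _ (hg.cut hs)
          simp only [List.flatten_append, List.flatten_cons, List.length_append,
            List.length_cons, List.length_nil] at e0 ⊢
          omega
        · apply ih _ (hg.swap hs)
          simp only [List.flatten_append, List.flatten_cons, List.length_append,
            List.length_cons, List.length_nil] at e0 ⊢
          omega
  intro ss hg
  exact key _ ss hg rfl

end

section

variable {k I : Type} [Field k] [DecidableEq I] [KQuiver I] {Ω : Finset (List I)}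

/-- Ω is stable under permutations -/
def PC (Ω : Finset (List I)) : Prop := ∀ l ∈ Ω, ∀ l', l.Perm l' → l' ∈ Ω

theorem perm_cut (A C : List (List I)) (s : List I) (b : I) :
    (A ++ (s ++ [b]) :: C).flatten.Perm (A ++ s :: [b] :: C).flatten := by
  simp

theorem perm_swap (A C : List (List I)) (s : List I) (b : I) :
    (A ++ (s ++ [b]) :: C).flatten.Perm (A ++ [b] :: s :: C).flatten := by
  have h1 : (A ++ (s ++ [b]) :: C).flatten = A.flatten ++ (s ++ ([b] ++ C.flatten)) := by simp
  have h2 : (A ++ [b] :: s :: C).flatten = A.flatten ++ ([b] ++ (s ++ C.flatten)) := by simp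
  rw [h1, h2]
  apply List.Perm.append_left
  rw [← List.append_assoc, ← List.append_assoc]
  exact List.Perm.append_right _ List.perm_append_comm

variable (Y : Type) [AddCommGroup Y] [Module k Y] [Module (GKLR k I Ω) Y]
  [IsScalarTower k (GKLR k I Ω) Y] [Module.Finite k Y]

variable (k Ω) in
/-- Euler-Poincare characteristic of an induced module -/
noncomputable def gD (ss : List (List I)) (d : ℤ) (i : ℕ) : ℤ :=
  epM k (R := GKLR k I Ω) (Dm k Ω ss d i) Y

theorem gD_sing (l : List I) (d : ℤ) : gD k Ω Y (sing l) d 0 = bd k Ω Y l d :=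
  (efM_sing l d).2

variable {Y}

theorem efD (hΩ : PC Ω) : ∀ ss : List (List I), GC ss → ss.flatten ∈ Ω →
    ∀ d, efM k (R := GKLR k I Ω) (Dm k Ω ss d 0) Y := by
  apply chain_induction (P := fun ss => ss.flatten ∈ Ω →
    ∀ d, efM k (R := GKLR k I Ω) (Dm k Ω ss d 0) Y)
  · intro l _ d
    exact (efM_sing l d).1
  · intro A s b C hs hg h1 h2 hw d
    have w1 := hΩ _ hw _ (perm_cut A C s b)
    have w2 := hΩ _ hw _ (perm_swap A C s b)
    exact (efM_third (phi k Ω hg hs d) (rho k Ω A C s b d) (rho_exact hg hs d)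
      (phi_inj hΩ hg hs w1 d) (rho_surj A C s b d) (h2 w2 (d + 1)) (h1 w1 d)).1

theorem gD_cut (hΩ : PC Ω) {A C : List (List I)} {s : List I} {b : I} (hs : s ≠ [])
    (hg : GC (A ++ (s ++ [b]) :: C)) (hw : (A ++ (s ++ [b]) :: C).flatten ∈ Ω) (d : ℤ) :
    gD k Ω Y (A ++ (s ++ [b]) :: C) d 0 =
      gD k Ω Y (A ++ s :: [b] :: C) d 0 - gD k Ω Y (A ++ [b] :: s :: C) (d + 1) 0 := by
  have w1 := hΩ _ hw _ (perm_cut A C s b)
  have w2 := hΩ _ hw _ (perm_swap A C s b)
  exact (efM_third (phi k Ω hg hs d) (rho k Ω A C s b d) (rho_exact hg hs d)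
    (phi_inj hΩ hg hs w1 d) (rho_surj A C s b d) (efD hΩ _ (hg.swap hs) w2 (d + 1))
    (efD hΩ _ (hg.cut hs) w1 d)).2

theorem efDi (hΩ : PC Ω) {ss : List (List I)} (hg : GC ss) (hw : ss.flatten ∈ Ω) (i : ℕ)
    (hi : i ≤ ss.length) : ∀ d, efM k (R := GKLR k I Ω) (Dm k Ω ss d i) Y := by
  induction i with
  | zero => exact efD hΩ ss hg hw
  | succ i ih =>
    intro d
    exact (efM_third (mu k Ω hg d ⟨i, hi⟩) (mpi k Ω ss d i) (mu_exact hg d ⟨i, hi⟩)
      (mu_inj hΩ hg hw d ⟨i, hi⟩) (mpi_surj ss d i) (ih (by omega) (d + 2))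
      (ih (by omega) d)).1

theorem gD_succ (hΩ : PC Ω) {ss : List (List I)} (hg : GC ss) (hw : ss.flatten ∈ Ω) (i : ℕ)
    (hi : i < ss.length) (d : ℤ) :
    gD k Ω Y ss d (i + 1) = gD k Ω Y ss d i - gD k Ω Y ss (d + 2) i :=
  (efM_third (mu k Ω hg d ⟨i, hi⟩) (mpi k Ω ss d i) (mu_exact hg d ⟨i, hi⟩)
      (mu_inj hΩ hg hw d ⟨i, hi⟩) (mpi_surj ss d i) (efDi hΩ hg hw i (by omega) (d + 2))
      (efDi hΩ hg hw i (by omega) d)).2

end

/-! ### shifts -/

section shift

variable {k I : Type} [Field k] [DecidableEq I] [KQuiver I] {Ω : Finset (List I)}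

/-- shifted degree idempotents -/
def GStr.shift {A : Type} [Ring A] [Algebra k A] {O : AOps k I A} (G : GStr A O) (c : ℤ) :
    GStr A O where
  f d := G.f (d - c)
  f_self d := G.f_self _
  f_ne d d' h := G.f_ne _ _ (by omega)
  f_e d l := G.f_e _ _
  x_f j d := by
    have := G.x_f j (d - c)
    rw [show d - c + 2 = d + 2 - c by ring] at this
    exact this
  t_f p a b q d := by
    have := G.t_f p a b q (d - c)
    rw [show d - c + tdeg a b = d + tdeg a b - c by ring] at this
    exact this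

variable (Y : Type) [AddCommGroup Y] [Module k Y] [Module (GKLR k I Ω) Y]
  [IsScalarTower k (GKLR k I Ω) Y]

variable (k Ω) in
/-- the shift of a graded module -/
abbrev Sh (c : ℤ) : Type := GWrap (Ω := Ω) ((mstr k I Ω Y).shift c) mops_sum

variable {Y}

variable (k Ω) in
/-- view as an element of the shift -/
def toSh (c : ℤ) (y : Y) : Sh k Ω Y c := y

variable (k Ω) in
/-- view as an element of the module -/
def unSh (c : ℤ) (y : Sh k Ω Y c) : Y := y

theorem sh_e (c : ℤ) (l : List I) (y : Y) :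
    (gops k I Ω).e l • toSh k Ω c y = toSh k Ω c ((gops k I Ω).e l • y) := by
  rw [gwrap_smul, glift_e]; rfl

theorem sh_x (c : ℤ) (j : ℕ) (y : Y) :
    (gops k I Ω).x j • toSh k Ω c y = toSh k Ω c ((gops k I Ω).x j • y) := by
  rw [gwrap_smul, glift_x]; rfl

theorem sh_t (c : ℤ) (j : ℕ) (y : Y) :
    (gops k I Ω).t j • toSh k Ω c y = toSh k Ω c ((gops k I Ω).t j • y) := by
  rw [gwrap_smul, glift_t]; rfl

theorem sh_f (c d : ℤ) (y : Y) :
    (gstr k I Ω).f d • toSh k Ω c y = toSh k Ω c ((gstr k I Ω).f (d - c) • y) := by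
  rw [gwrap_smul, glift_f]; rfl

theorem sh_bihom (c d : ℤ) (l : List I) (y : Y) :
    BiHom (k := k) (Ω := Ω) l d (toSh k Ω c y) ↔ BiHom (k := k) (Ω := Ω) l (d - c) y := by
  rw [bihom_iff, bihom_iff, sh_e, sh_f]
  rfl

theorem bd_shift (c d : ℤ) (l : List I) :
    bd k Ω (Sh k Ω Y c) l d = bd k Ω Y l (d - c) := by
  unfold bd
  congr 1
  apply LinearEquiv.finrank_eq
  refine ⟨⟨⟨fun y => ⟨unSh k Ω c y.1, ?_⟩, ?_⟩, ?_⟩, fun y => ⟨toSh k Ω c y.1, ?_⟩, ?_, ?_⟩
  · exact mem_bh.mpr ((sh_bihom c d l (unSh k Ω c y.1)).mp (mem_bh.mp y.2))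
  · intro a b; rfl
  · intro a b; rfl
  · exact mem_bh.mpr ((sh_bihom c d l y.1).mpr (mem_bh.mp y.2))
  · intro y; rfl
  · intro y; rfl

instance [h : Module.Finite k Y] (c : ℤ) : Module.Finite k (Sh k Ω Y c) := h

theorem gD_shift0 [Module.Finite k Y] (hΩ : PC Ω) (c : ℤ) : ∀ ss : List (List I), GC ss →
    ss.flatten ∈ Ω → ∀ d, gD k Ω (Sh k Ω Y c) ss d 0 = gD k Ω Y ss (d - c) 0 := by
  apply chain_induction (P := fun ss => ss.flatten ∈ Ω →
    ∀ d, gD k Ω (Sh k Ω Y c) ss d 0 = gD k Ω Y ss (d - c) 0)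
  · intro l _ d
    rw [gD_sing, gD_sing, bd_shift]
  · intro A s b C hs hg h1 h2 hw d
    have w1 := hΩ _ hw _ (perm_cut A C s b)
    have w2 := hΩ _ hw _ (perm_swap A C s b)
    rw [gD_cut hΩ hs hg hw, gD_cut hΩ hs hg hw, h1 w1, h2 w2]
    congr 2
    ring

theorem gD_shift [Module.Finite k Y] (hΩ : PC Ω) (c : ℤ) {ss : List (List I)} (hg : GC ss)
    (hw : ss.flatten ∈ Ω) (i : ℕ) (hi : i ≤ ss.length) :
    ∀ d, gD k Ω (Sh k Ω Y c) ss d i = gD k Ω Y ss (d - c) i := by
  induction i with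
  | zero => exact gD_shift0 hΩ c ss hg hw
  | succ i ih =>
    intro d
    rw [gD_succ hΩ hg hw i hi, gD_succ hΩ hg hw i hi, ih (by omega), ih (by omega)]
    congr 2
    ring

end shift

/-! ### finiteness of the set of degrees -/

section fu

variable {k I : Type} [Field k] [DecidableEq I] [KQuiver I] {Ω : Finset (List I)}

variable (k Ω) in
/-- the module is the sum of finitely many of its degree parts -/
def FU (M : Type) [AddCommGroup M] [Module (GKLR k I Ω) M] : Prop :=
  ∃ S : Finset ℤ, ∀ y : M, ∑ d ∈ S, (gstr k I Ω).f d • y = y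

theorem FU.f_zero {M : Type} [AddCommGroup M] [Module (GKLR k I Ω) M] (h : FU k Ω M) :
    ∃ S : Finset ℤ, ∀ d ∉ S, ∀ y : M, (gstr k I Ω).f d • y = 0 := by
  obtain ⟨S, hS⟩ := h
  refine ⟨S, fun d hd y => ?_⟩
  rw [← hS y, Finset.smul_sum]
  apply Finset.sum_eq_zero
  intro d' hd'
  rw [smul_smul, (gstr k I Ω).f_ne d d' (by rintro rfl; exact hd hd'), zero_smul]

variable {Y : Type} [AddCommGroup Y] [Module k Y] [Module (GKLR k I Ω) Y]
  [IsScalarTower k (GKLR k I Ω) Y]

theorem FU.bd_zero (h : FU k Ω Y) :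
    ∃ S : Finset ℤ, ∀ d ∉ S, ∀ l, bd k Ω Y l d = 0 := by
  obtain ⟨S, hS⟩ := h.f_zero
  refine ⟨S, fun d hd l => ?_⟩
  unfold bd
  have : bh k Ω Y l d = ⊥ := by
    rw [eq_bot_iff]
    intro y hy
    rw [mem_bh, bihom_iff, hS d hd] at hy
    exact hy.2.symm
  rw [this]
  simp

/-- the Euler-Poincare characteristics vanish in almost all degrees -/
theorem gD_zero [Module.Finite k Y] (hΩ : PC Ω) (h : FU k Ω Y) : ∀ ss : List (List I), GC ss →
    ss.flatten ∈ Ω → ∃ N : ℤ, ∀ d, N ≤ |d| → gD k Ω Y ss d 0 = 0 := by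
  obtain ⟨S, hS⟩ := h.bd_zero
  obtain ⟨N, hN⟩ : ∃ N : ℤ, ∀ d ∈ S, |d| < N := by
    refine ⟨(∑ d ∈ S, |d|) + 1, fun d hd => ?_⟩
    have := Finset.single_le_sum (f := fun d : ℤ => |d|) (fun i _ => abs_nonneg i) hd
    have h2 : |d| ≤ ∑ d ∈ S, |d| := this
    omega
  apply chain_induction (P := fun ss => ss.flatten ∈ Ω →
    ∃ N : ℤ, ∀ d, N ≤ |d| → gD k Ω Y ss d 0 = 0)
  · intro l _
    refine ⟨N, fun d hd => ?_⟩
    rw [gD_sing]
    apply hS
    intro h'
    have := hN d h'
    omega
  · intro A s b C hs hg h1 h2 hw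
    have w1 := hΩ _ hw _ (perm_cut A C s b)
    have w2 := hΩ _ hw _ (perm_swap A C s b)
    obtain ⟨N1, hN1⟩ := h1 w1
    obtain ⟨N2, hN2⟩ := h2 w2
    refine ⟨max N1 (N2 + 1), fun d hd => ?_⟩
    rw [gD_cut hΩ hs hg hw, hN1 d (by omega), hN2 (d + 1), sub_zero]
    have h3 : |d| ≤ |d + 1| + 1 := by
      have := abs_sub_abs_le_abs_sub d (d + 1)
      have h4 : |d - (d + 1)| = 1 := by
        rw [show d - (d + 1) = -1 by ring]; simp
      omega
    omega

end fu

end Pool.Agent.H159
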