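import Pool.Agent.H159.Shift
import Pool.Agent.H159.EPD

/-!
# Vanishing of Ext between different blocks
-/

set_option linter.unusedSectionVars false

namespace Pool.Agent.H159

open KQuiver

section

variable {k I : Type} [Field k] [DecidableEq I] [KQuiver I] {Ω : Finset (List I)}

theorem kops_notin {l : List I} (hl : l ∉ Ω) : (kops k I Ω).e l = 0 := by
  rw [← mul_one ((kops k I Ω).e l), ← kops_sum, Finset.mul_sum]
  apply Finset.sum_eq_zero
  intro l' hl'
  exact (kops k I Ω).e_ne l l' (by rintro rfl; exact hl hl')

open Classical in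
variable (k Ω) in
/-- the central idempotent of a set of words -/
noncomputable def cid (P : List I → Prop) : KLR k I Ω :=
  ∑ l ∈ Ω.filter P, (kops k I Ω).e l

theorem cid_e_pos {P : List I → Prop} {l : List I} (h : P l) :
    cid k Ω P * (kops k I Ω).e l = (kops k I Ω).e l := by
  classical
  by_cases hl : l ∈ Ω
  · unfold cid
    rw [Finset.sum_mul, Finset.sum_eq_single l]
    · exact (kops k I Ω).e_self l
    · intro l' _ hne
      exact (kops k I Ω).e_ne l' l hne
    · intro h'
      exact absurd (Finset.mem_filter.mpr ⟨hl, h⟩) h'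
  · rw [kops_notin hl, mul_zero]

theorem cid_e_neg {P : List I → Prop} {l : List I} (h : ¬ P l) :
    cid k Ω P * (kops k I Ω).e l = 0 := by
  classical
  unfold cid
  rw [Finset.sum_mul]
  apply Finset.sum_eq_zero
  intro l' hl'
  rw [Finset.mem_filter] at hl'
  exact (kops k I Ω).e_ne l' l (by rintro rfl; exact h hl'.2)

theorem e_cid_pos {P : List I → Prop} {l : List I} (h : P l) :
    (kops k I Ω).e l * cid k Ω P = (kops k I Ω).e l := by
  classical
  by_cases hl : l ∈ Ω
  · unfold cid
    rw [Finset.mul_sum, Finset.sum_eq_single l]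
    · exact (kops k I Ω).e_self l
    · intro l' _ hne
      exact (kops k I Ω).e_ne l l' (Ne.symm hne)
    · intro h'
      exact absurd (Finset.mem_filter.mpr ⟨hl, h⟩) h'
  · rw [kops_notin hl, zero_mul]

theorem e_cid_neg {P : List I → Prop} {l : List I} (h : ¬ P l) :
    (kops k I Ω).e l * cid k Ω P = 0 := by
  classical
  unfold cid
  rw [Finset.mul_sum]
  apply Finset.sum_eq_zero
  intro l' hl'
  rw [Finset.mem_filter] at hl'
  exact (kops k I Ω).e_ne l l' (by rintro rfl; exact h hl'.2)

theorem ext_e {a b : KLR k I Ω} (h : ∀ l ∈ Ω, a * (kops k I Ω).e l = b * (kops k I Ω).e l) :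
    a = b := by
  rw [← mul_one a, ← mul_one b, ← kops_sum, Finset.mul_sum, Finset.mul_sum]
  exact Finset.sum_congr rfl h

/-- The idempotent of a permutation-closed set of words is central. -/
theorem cid_comm {P : List I → Prop} (hP : ∀ l l', l.Perm l' → P l → P l') (r : KLR k I Ω) :
    cid k Ω P * r = r * cid k Ω P := by
  induction r using klr_induction with
  | he l =>
    by_cases h : P l
    · rw [cid_e_pos h, e_cid_pos h]
    · rw [cid_e_neg h, e_cid_neg h]
  | hx j =>
    unfold cid
    rw [Finset.sum_mul, Finset.mul_sum]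
    apply Finset.sum_congr rfl
    intro l _
    exact ((kops k I Ω).x_e j l).symm
  | ht j =>
    apply ext_e
    intro l _
    rw [mul_assoc, mul_assoc]
    by_cases hj : j + 1 < l.length
    · obtain ⟨p, a, b, q, rfl, rfl⟩ := Ops.split_two hj
      have hperm : (p ++ a :: b :: q).Perm (p ++ b :: a :: q) :=
        List.Perm.append_left _ (List.Perm.swap _ _ _)
      rw [(kops k I Ω).t_e]
      by_cases h : P (p ++ a :: b :: q)
      · rw [cid_e_pos h, ← mul_assoc, cid_e_pos (hP _ _ hperm h), ← (kops k I Ω).t_e]
      · rw [cid_e_neg h, mul_zero, ← mul_assoc,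
          cid_e_neg (fun h' => h (hP _ _ hperm.symm h')), zero_mul]
    · rw [(kops k I Ω).t_e_zero j l (by omega), mul_zero]
      by_cases h : P l
      · rw [cid_e_pos h, (kops k I Ω).t_e_zero j l (by omega)]
      · rw [cid_e_neg h, mul_zero]
  | hc c => exact (Algebra.commutes c _).symm
  | hadd a b ha hb => rw [mul_add, add_mul, ha, hb]
  | hmul a b ha hb => rw [← mul_assoc, ha, mul_assoc, hb, mul_assoc]

theorem cid_self {P : List I → Prop} : cid k Ω P * cid k Ω P = cid k Ω P := by
  classical
  apply ext_e
  intro l _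
  by_cases h : P l
  · rw [mul_assoc, cid_e_pos h, cid_e_pos h]
  · rw [mul_assoc, cid_e_neg h, mul_zero]

theorem cid_smul_zero {M : Type} [AddCommGroup M] [Module (KLR k I Ω) M] {P : List I → Prop}
    {y : M} (h : ∀ l ∈ Ω, P l → (kops k I Ω).e l • y = 0) : cid k Ω P • y = 0 := by
  classical
  unfold cid
  rw [Finset.sum_smul]
  apply Finset.sum_eq_zero
  intro l hl
  rw [Finset.mem_filter] at hl
  exact h l hl.1 hl.2

theorem cid_smul_self {M : Type} [AddCommGroup M] [Module (KLR k I Ω) M] {P : List I → Prop}
    {y : M} (h : ∀ l ∈ Ω, ¬ P l → (kops k I Ω).e l • y = 0) : cid k Ω P • y = y := by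
  classical
  have h3 : ∑ l ∈ Ω, (kops k I Ω).e l • y = y := by
    rw [← Finset.sum_smul, kops_sum, one_smul]
  unfold cid
  rw [Finset.sum_smul]
  refine Eq.trans ?_ h3
  apply Finset.sum_subset (Finset.filter_subset _ _)
  intro l hl hl'
  apply h l hl
  intro h4
  exact hl' (Finset.mem_filter.mpr ⟨hl, h4⟩)

section cent

variable {R : Type} [Ring R] {c : R} (hc : ∀ r, c * r = r * c) (hcc : c * c = c)

/-- the part of a module on which a central idempotent is the identity -/
def cpart (hc : ∀ r, c * r = r * c) (F : Type) [AddCommGroup F] [Module R F] :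
    Submodule R F where
  carrier := {y | c • y = y}
  add_mem' := by
    intro a b ha hb
    change c • a = a at ha
    change c • b = b at hb
    show c • (a + b) = a + b
    rw [smul_add, ha, hb]
  zero_mem' := smul_zero c
  smul_mem' := by
    intro r y hy
    change c • y = y at hy
    show c • r • y = r • y
    rw [smul_smul, hc, mul_smul, hy]

include hcc in
theorem cpart_projective (F : Type) [AddCommGroup F] [Module R F] [Module.Projective R F] :
    Module.Projective R (cpart hc F) := by
  let s : F →ₗ[R] cpart hc F :=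
    { toFun := fun y => ⟨c • y, by
        show c • c • y = c • y
        rw [smul_smul, hcc]⟩
      map_add' := fun y z => Subtype.ext (smul_add c y z)
      map_smul' := fun r y => Subtype.ext (by
        show c • r • y = r • c • y
        rw [smul_smul, smul_smul, hc]) }
  apply Module.Projective.of_split (cpart hc F).subtype s
  apply LinearMap.ext
  intro y
  exact Subtype.ext y.2

include hc hcc in
theorem ve_block_step {Y : Type} [AddCommGroup Y] [Module R Y] {n : ℕ}
    (ih : ∀ (M : Type) [AddCommGroup M] [Module R M], (∀ y : M, c • y = y) → VE R M Y n)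
    {M F : Type} [AddCommGroup M] [Module R M] [AddCommGroup F] [Module R F]
    [Module.Projective R F] (hM : ∀ y : M, c • y = y) (π₀ : F →ₗ[R] M)
    (hπ₀ : Function.Surjective π₀) : VE R M Y (n + 1) := by
  have hF : Module.Projective R (cpart hc F) := cpart_projective hc hcc F
  let π : cpart hc F →ₗ[R] M := π₀ ∘ₗ (cpart hc F).subtype
  have hπ : Function.Surjective π := by
    intro y
    obtain ⟨z, hz⟩ := hπ₀ y
    refine ⟨⟨c • z, ?_⟩, ?_⟩
    · show c • c • z = c • z
      rw [smul_smul, hcc]
    · show π₀ (c • z) = y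
      rw [map_smul, hz, hM]
  let ι : LinearMap.ker π →ₗ[R] cpart hc F := (LinearMap.ker π).subtype
  have hex : ∀ z, π z = 0 ↔ ∃ y, ι y = z := by
    intro z
    exact ⟨fun hz => ⟨⟨z, hz⟩, rfl⟩, by rintro ⟨y, rfl⟩; exact y.2⟩
  have hinj : Function.Injective ι := Submodule.subtype_injective _
  have hK : VE R (LinearMap.ker π) Y n := by
    apply ih
    intro y
    apply Subtype.ext
    apply Subtype.ext
    exact y.1.2
  exact ve_of_shift (K := LinearMap.ker π) (P := cpart hc F) ι π hex hinj hπ n hK

include hc hcc in
/-- Ext groups between modules in different blocks vanish. -/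
theorem ve_block {Y : Type} [AddCommGroup Y] [Module R Y] (hY : ∀ y : Y, c • y = 0) (n : ℕ) :
    ∀ (M : Type) [AddCommGroup M] [Module R M], (∀ y : M, c • y = y) → VE R M Y n := by
  induction n with
  | zero =>
    intro M _ _ hM
    rw [ve_zero]
    intro φ
    apply LinearMap.ext
    intro y
    rw [← hM y, map_smul, hY]
    rfl
  | succ n ih =>
    intro M _ _ hM
    refine ve_block_step hc hcc ih hM (Finsupp.linearCombination R (id : M → M)) ?_
    intro y
    exact ⟨Finsupp.single y 1, by rw [Finsupp.linearCombination_single, one_smul]; rfl⟩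

end cent

end

end Pool.Agent.H159
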