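import Pool.Agent.H159.MaxWord

/-!
# The value of a Serre function at its largest word
-/

set_option linter.unusedSectionVars false
set_option linter.unusedSimpArgs false

namespace Pool.Agent.H159

open KQuiver

section heis

variable {R : Type} [Ring R] (S : Subring R) {A B C : R}

theorem heis_one (h : A * B = B * A + C) (hB : C * B = B * C) (n : ℕ) :
    A * B ^ (n + 1) = B ^ (n + 1) * A + (n + 1) • (B ^ n * C) := by
  induction n with
  | zero => simp [h]
  | succ n ih =>
    have hBn : C * B = B * C := hB
    calc A * B ^ (n + 1 + 1) = (A * B ^ (n + 1)) * B := by rw [pow_succ (n := n + 1), mul_assoc]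
      _ = B ^ (n + 1) * (A * B) + (n + 1) • (B ^ n * (C * B)) := by
        rw [ih, add_mul, mul_assoc, smul_mul_assoc, mul_assoc]
      _ = B ^ (n + 1 + 1) * A + (n + 1 + 1) • (B ^ (n + 1) * C) := by
        rw [h, hBn, mul_add, ← mul_assoc, ← mul_assoc, ← pow_succ, ← pow_succ,
          add_smul (n + 1) 1, one_smul]
        abel

theorem heis (h : A * B = B * A + C) (hB : C * B = B * C) (hSA : A ∈ S)
    (hSB : B ∈ S) (hSC : C ∈ S) (m : ℕ) : ∀ j, ∃ y ∈ S, A ^ m * B ^ (m + j) =
      ((m + j).descFactorial m) • (B ^ j * C ^ m) + B ^ (j + 1) * y := by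
  induction m with
  | zero =>
    intro j
    exact ⟨0, S.zero_mem, by simp⟩
  | succ m ih =>
    intro j
    obtain ⟨y, hy, h1⟩ := ih (j + 1)
    have e1 : m + 1 + j = m + (j + 1) := by omega
    refine ⟨((m + (j + 1)).descFactorial m) • (A * C ^ m) + B * A * y + (j + 1 + 1) • (C * y),
      ?_, ?_⟩
    · apply S.add_mem (S.add_mem _ _)
      · exact nsmul_mem (S.mul_mem hSC hy) _
      · exact nsmul_mem (S.mul_mem hSA (S.pow_mem hSC m)) _
      · exact S.mul_mem (S.mul_mem hSB hSA) hy
    · have e2 : (m + (j + 1)).descFactorial (m + 1) =
          (j + 1) * (m + (j + 1)).descFactorial m := by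
        rw [Nat.descFactorial_succ]
        congr 1
        omega
      have e3 : m + 1 + j = m + (j + 1) := by omega
      rw [e3, e2]
      generalize (m + (j + 1)).descFactorial m = D at h1 ⊢
      have h2 : A * (B ^ (j + 1) * C ^ m) = B ^ (j + 1) * (A * C ^ m) +
          (j + 1) • (B ^ j * C ^ (m + 1)) := by
        rw [← mul_assoc, heis_one h hB, add_mul, mul_assoc, smul_mul_assoc, mul_assoc,
          ← pow_succ']
      have h3 : A * (B ^ (j + 1 + 1) * y) = B ^ (j + 1) * (B * A * y) +
          (j + 1 + 1) • (B ^ (j + 1) * (C * y)) := by
        rw [← mul_assoc, heis_one h hB, add_mul, smul_mul_assoc, pow_succ B (j + 1)]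
        simp only [mul_assoc]
      rw [pow_succ' A m, mul_assoc, h1, mul_add, mul_smul_comm, h2, h3, smul_add, mul_add,
        mul_add, mul_smul_comm, mul_smul_comm, mul_smul (j + 1) D, smul_comm D (j + 1)]
      abel

end heis

variable {I : Type} [LinearOrder I] [KQuiver I] [LinQ I]

/-- the word of blocks of equal letters attached to a chain and a multiplicity -/
def nw (s : List I) (m : ℕ) : List I := s.flatMap (fun c => List.replicate m c)

theorem ue_pow_apply (b : I) (m : ℕ) (X : UU I) (f : FF I) (p : List I) :
    ((ue b ^ m * X) f).1 p = (X f).1 (p ++ List.replicate m b) := by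
  induction m generalizing p with
  | zero => simp
  | succ m ih =>
    rw [pow_succ', mul_assoc, ue_mul_apply, ih, List.replicate_succ]
    simp

/-- powers of root vectors and block words -/
theorem EE_pow_nw {f : FF I} {p s : List I} (hs : s ≠ []) (hch : s.IsChain arr)
    (hd : ∀ c ∈ s.tail, dead f (p ++ [c])) (m : ℕ) {X : UU I} (hX : X ∈ U0 I) :
    ((m.factorial : ℤ) ^ (s.length - 1)) * ((EE s ^ m * X) f).1 p =
      (X f).1 (p ++ nw s m) := by
  induction s using List.reverseRecOn generalizing X with
  | nil => exact absurd rfl hs
  | append_singleton t b ih =>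
    by_cases ht : t = []
    · subst ht
      rw [List.nil_append, EE_single, ue_pow_apply]
      simp [nw]
    · have hgood := good_of_chain hch
      have htail : (t ++ [b]).tail = t.tail ++ [b] := List.tail_append_of_ne_nil ht
      have hdb : dead f (p ++ [b]) := hd b (by rw [htail]; simp)
      have hC : EE (t ++ [b]) = br (EE t) (ue b) := EE_concat ht b
      have h1 : EE t * ue b = ue b * EE t + EE (t ++ [b]) := by
        rw [hC]; unfold br; abel
      have h2 : EE (t ++ [b]) * ue b = ue b * EE (t ++ [b]) :=
        comm_of_br (EE_mem hgood (by simp))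
      obtain ⟨y, hy, h3⟩ := heis (U0 I) h1 h2 (EE_mem_U0 t) (ue_mem b) (EE_mem_U0 _) m 0
      rw [add_zero, Nat.descFactorial_self, pow_zero, one_mul, zero_add, pow_one] at h3
      have h4 : (m.factorial : ℤ) * ((EE (t ++ [b]) ^ m * X) f).1 p =
          ((EE t ^ m * (ue b ^ m * X)) f).1 p := by
        have h5 : ((EE t ^ m * (ue b ^ m * X)) f).1 p =
            (m.factorial : ℤ) * ((EE (t ++ [b]) ^ m * X) f).1 p +
              ((ue b * (y * X)) f).1 p := by
          rw [← mul_assoc, h3, add_mul, mul_assoc, smul_mul_assoc]
          show (m.factorial • ((EE (t ++ [b]) ^ m * X) f)).1 p + _ = _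
          simp
        have h6 : ((ue b * (y * X)) f).1 p = 0 := by
          rw [ue_mul_apply]
          have := dead_apply (Subring.mul_mem _ hy hX) hdb []
          rwa [List.append_nil] at this
        rw [h5, h6, add_zero]
      have h5 := ih ht (List.isChain_append.mp hch).1
        (fun c hc => hd c (by rw [htail]; simp [hc]))
        (X := ue b ^ m * X) (Subring.mul_mem _ (Subring.pow_mem _ (ue_mem b) m) hX)
      have h6 : (t ++ [b]).length - 1 = (t.length - 1) + 1 := by
        have := List.length_pos_iff.mpr ht
        rw [List.length_append, List.length_singleton]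
        omega
      rw [h6, pow_succ, mul_assoc, h4, h5, ue_pow_apply]
      unfold nw
      rw [List.flatMap_append]
      simp

/-- powers of root vectors and the largest word -/
theorem EE_pow_lead {f : FF I} {s : List I} (hs : s ≠ []) (hch : s.IsChain arr) {X : UU I}
    (hX : X ∈ U0 I) (r : List I) (m : ℕ) : ∀ p, IsMaxW f (p ++ ((List.replicate m s).flatten ++ r)) →
    ((EE s ^ m * X) f).1 p = (X f).1 (p ++ (List.replicate m s).flatten) := by
  induction m with
  | zero => intro p _; simp
  | succ m ih =>
    intro p h
    obtain ⟨a, s, rfl⟩ := List.exists_cons_of_ne_nil hs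
    have hlt := lt_of_mem_tail hch
    have h' : IsMaxW f (p ++ a :: (s ++ ((List.replicate m (a :: s)).flatten ++ r))) := by
      rw [List.replicate_succ] at h
      simpa using h
    rw [pow_succ', mul_assoc, EE_lead (by simp)
      (fun c hc => h'.dead (hlt c (by simpa using hc)))
      (Subring.mul_mem _ (Subring.pow_mem _ (EE_mem_U0 _) m) hX)]
    rw [ih (p ++ a :: s) (by simpa using h'), List.replicate_succ]
    simp

/-- the word of a list of blocks -/
def bw : List (List I × ℕ) → List I
  | [] => []
  | q :: bs => (List.replicate q.2 q.1).flatten ++ bw bs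

/-- the sorted word of a list of blocks -/
def bn : List (List I × ℕ) → List I
  | [] => []
  | q :: bs => nw q.1 q.2 ++ bn bs

/-- products of powers of factorials -/
def bk : List (List I × ℕ) → ℕ
  | [] => 1
  | q :: bs => q.2.factorial ^ (q.1.length - 1) * bk bs

/-- products of factorials -/
def bf : List (List I × ℕ) → ℕ
  | [] => 1
  | q :: bs => q.2.factorial * bf bs

/-- good blocks -/
def BG (bs : List (List I × ℕ)) : Prop := ∀ q ∈ bs, q.1.IsChain arr ∧ q.1 ≠ [] ∧ 1 ≤ q.2

theorem bn_value (bs : List (List I × ℕ)) (hbs : BG bs) {f : FF I} : ∀ p : List I,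
    IsMaxW f (p ++ bw bs) → f.1 (p ++ bn bs) = (bk bs : ℤ) * f.1 (p ++ bw bs) := by
  induction bs with
  | nil => intro p _; simp [bn, bk, bw]
  | cons q bs ih =>
    intro p h
    obtain ⟨s, m⟩ := q
    obtain ⟨hch, hs, hm⟩ := hbs (s, m) (by simp)
    simp only at hch hs hm
    have h1 := wdU_apply (bn bs) f (p ++ nw s m)
    have h2 : f.1 (p ++ bn ((s, m) :: bs)) = ((wdU (bn bs)) f).1 (p ++ nw s m) := by
      rw [h1]; simp [bn]
    have hdead : ∀ c ∈ s.tail, dead f (p ++ [c]) := by
      intro c hc
      obtain ⟨a, s, rfl⟩ := List.exists_cons_of_ne_nil hs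
      obtain ⟨m, rfl⟩ : ∃ m', m = m' + 1 := ⟨m - 1, by omega⟩
      have h' : IsMaxW f (p ++ a :: (s ++ ((List.replicate m (a :: s)).flatten ++ bw bs))) := by
        unfold bw at h
        rw [List.replicate_succ] at h
        simpa using h
      exact h'.dead (lt_of_mem_tail hch c (by simpa using hc))
    rw [h2, ← EE_pow_nw hs hch hdead m (wdU_mem _), EE_pow_lead hs hch (wdU_mem _) (bw bs) m p
      (by simpa [bw] using h), wdU_apply]
    have h3 := ih (fun q hq => hbs q (by simp [hq])) (p ++ (List.replicate m s).flatten) (by
      simpa [bw] using h)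
    rw [h3]
    simp only [bk, bw]
    push_cast
    rw [mul_assoc]
    simp

/-- grouping equal chains -/
theorem exists_blocks : ∀ ss : List (List I), SC ss → ∃ bs : List (List I × ℕ), BG bs ∧
    bw bs = ss.flatten ∧ bf bs = fct ss ∧ ∀ s, s ∈ ss ↔ ∃ q ∈ bs, q.1 = s := by
  intro ss
  have key : SC ss → ∃ bs : List (List I × ℕ), BG bs ∧
      bw bs = ss.flatten ∧ bf bs = fct ss ∧
      (∀ s, s ∈ ss ↔ ∃ q ∈ bs, q.1 = s) ∧
      (∀ q bs', bs = q :: bs' → ss.count q.1 = q.2 ∧ ∃ ss', ss = q.1 :: ss') := by
    induction ss with
    | nil =>
      intro _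
      exact ⟨[], by intro q hq; simp at hq, rfl, rfl, by simp, by intro q bs' h; simp at h⟩
    | cons s ss ih =>
      intro h
      obtain ⟨bs, h1, h2, h3, h4, h5⟩ := ih h.tail
      have hs := h.1 s (by simp)
      rcases bs with _ | ⟨⟨t, m⟩, bs⟩
      · have hss : ss = [] := by
          rw [List.eq_nil_iff_forall_not_mem]
          intro x hx
          obtain ⟨q, hq, -⟩ := (h4 x).mp hx
          simp at hq
        subst hss
        refine ⟨[(s, 1)], ?_, ?_, ?_, ?_, ?_⟩
        · intro q hq
          rw [List.mem_singleton] at hq
          subst hq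
          exact ⟨hs.1, hs.2, le_rfl⟩
        · simp [bw]
        · simp [bf, fct]
        · intro x; simp [eq_comm]
        · intro q bs' hq
          obtain ⟨rfl, -⟩ := List.cons_eq_cons.mp hq
          exact ⟨by simp, [], rfl⟩
      · obtain ⟨h6, ss', h7⟩ := h5 (t, m) bs rfl
        simp only at h6 h7
        by_cases hst : t = s
        · subst hst
          refine ⟨(t, m + 1) :: bs, ?_, ?_, ?_, ?_, ?_⟩
          · intro q hq
            rcases List.mem_cons.mp hq with rfl | hq
            · exact ⟨hs.1, hs.2, by simp⟩
            · exact h1 q (by simp [hq])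
          · rw [List.flatten_cons, ← h2]
            simp [bw, List.replicate_succ]
          · simp only [bf, fct] at h3 ⊢
            rw [← h3, List.count_cons_self, h6, Nat.factorial_succ]
            ring
          · intro x
            rw [List.mem_cons, h4 x]
            simp [eq_comm]
          · intro q bs' hq
            obtain ⟨rfl, -⟩ := List.cons_eq_cons.mp hq
            exact ⟨by simp [h6], ss, rfl⟩
        · refine ⟨(s, 1) :: (t, m) :: bs, ?_, ?_, ?_, ?_, ?_⟩
          · intro q hq
            rcases List.mem_cons.mp hq with rfl | hq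
            · exact ⟨hs.1, hs.2, le_rfl⟩
            · exact h1 q hq
          · rw [List.flatten_cons, ← h2]
            simp [bw]
          · have hcount : (s :: ss).count s = 1 := by
              rw [List.count_cons_self]
              have : ss.count s = 0 := by
                rw [List.count_eq_zero]
                intro hmem
                have hle : t ≤ s := by
                  have := h.2
                  rw [List.pairwise_cons] at this
                  exact this.1 t (by rw [h7]; simp)
                have hge : s ≤ t := by
                  have h8 := h.tail.2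
                  rw [h7, List.pairwise_cons] at h8
                  rw [h7] at hmem
                  rcases List.mem_cons.mp hmem with h9 | h9
                  · exact h9.le
                  · exact h8.1 s h9
                exact hst (le_antisymm hle hge)
              rw [this]
            simp only [bf, fct] at h3 ⊢
            rw [hcount, ← h3]
            simp
          · intro x
            rw [List.mem_cons, h4 x]
            simp [eq_comm]
          · intro q bs' hq
            obtain ⟨rfl, -⟩ := List.cons_eq_cons.mp hq
            refine ⟨?_, ss, rfl⟩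
            simp only
            rw [List.count_cons_self]
            have : ss.count s = 0 := by
              rw [List.count_eq_zero]
              intro hmem
              have hle : t ≤ s := by
                have := h.2
                rw [List.pairwise_cons] at this
                exact this.1 t (by rw [h7]; simp)
              have hge : s ≤ t := by
                have h8 := h.tail.2
                rw [h7, List.pairwise_cons] at h8
                rw [h7] at hmem
                rcases List.mem_cons.mp hmem with h9 | h9
                · exact h9.le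
                · exact h8.1 s h9
              exact hst (le_antisymm hle hge)
            rw [this]
  intro h
  obtain ⟨bs, h1, h2, h3, h4, -⟩ := key h
  exact ⟨bs, h1, h2, h3, h4⟩

end Pool.Agent.H159
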