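import Mathlib

/-!
# Euler-Poincare characteristics in linear abelian categories
-/

set_option linter.unusedSectionVars false

namespace Pool.Agent.H159

open CategoryTheory CategoryTheory.Abelian

universe u v w

theorem finite_of_exact {k A B C : Type*} [Field k] [AddCommGroup A] [Module k A]
    [AddCommGroup B] [Module k B] [AddCommGroup C] [Module k C] (f : A →ₗ[k] B) (g : B →ₗ[k] C)
    (h : LinearMap.ker g ≤ LinearMap.range f) [Module.Finite k A] [Module.Finite k C] :
    Module.Finite k B := by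
  have h1 : Module.Finite k (LinearMap.range f) := inferInstance
  have h2 : Module.Finite k (LinearMap.range g) := inferInstance
  have h3 : Module.Finite k (LinearMap.ker g) :=
    Module.Finite.of_injective (Submodule.inclusion h) (Submodule.inclusion_injective h)
  have h4 : Module.Finite k (B ⧸ LinearMap.ker g) :=
    Module.Finite.equiv g.quotKerEquivRange.symm
  exact Module.Finite.of_submodule_quotient (LinearMap.ker g)

theorem subsingleton_of_exact {k A B C : Type*} [Field k] [AddCommGroup A] [Module k A]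
    [AddCommGroup B] [Module k B] [AddCommGroup C] [Module k C] (f : A →ₗ[k] B) (g : B →ₗ[k] C)
    (h : LinearMap.ker g ≤ LinearMap.range f) [Subsingleton A] [Subsingleton C] :
    Subsingleton B := by
  refine subsingleton_of_forall_eq 0 ?_
  intro b
  have h1 : b ∈ LinearMap.ker g := by
    rw [LinearMap.mem_ker]
    exact Subsingleton.elim _ _
  obtain ⟨a, rfl⟩ := h h1
  rw [Subsingleton.elim a 0, map_zero]

variable (k : Type) [Field k] {C : Type u} [Category.{v} C] [Abelian C] [Linear k C]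
  [HasExt.{w} C]

/-- all Ext groups are finite dimensional and almost all vanish -/
def EFin (X Y : C) : Prop :=
  (∀ n, Module.Finite k (Ext X Y n)) ∧ ∃ N, ∀ n, N ≤ n → Subsingleton (Ext X Y n)

/-- the Euler-Poincare characteristic -/
noncomputable def ep (X Y : C) : ℤ :=
  ∑ᶠ n : ℕ, (-1) ^ n * (Module.finrank k (Ext X Y n) : ℤ)

variable {k}

theorem ep_eq_sum {X Y : C} {N : ℕ} (h : ∀ n, N ≤ n → Subsingleton (Ext X Y n)) :
    ep k X Y = ∑ n ∈ Finset.range N, (-1) ^ n * (Module.finrank k (Ext X Y n) : ℤ) := by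
  unfold ep
  apply finsum_eq_sum_of_support_subset
  intro n hn
  by_contra hn'
  rw [Finset.coe_range, Set.mem_Iio, not_lt] at hn'
  have := h n hn'
  apply hn
  simp [Module.finrank_zero_of_subsingleton]

theorem ep_eq_zero {X Y : C} (h : ∀ n, Subsingleton (Ext X Y n)) : ep k X Y = 0 := by
  rw [ep_eq_sum (N := 0) (fun n _ => h n)]
  simp

section LES

variable {S : ShortComplex C} (hS : S.ShortExact) (Y : C)

variable (k S) in
/-- restriction along `S.f` -/
noncomputable def lF (n : ℕ) : Ext S.X₂ Y n →ₗ[k] Ext S.X₁ Y n :=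
  (Ext.mk₀ S.f).precompOfLinear k Y (zero_add n)

variable (k S) in
/-- pullback along `S.g` -/
noncomputable def lG (n : ℕ) : Ext S.X₃ Y n →ₗ[k] Ext S.X₂ Y n :=
  (Ext.mk₀ S.g).precompOfLinear k Y (zero_add n)

variable (k) in
/-- connecting map -/
noncomputable def lD (n : ℕ) : Ext S.X₁ Y n →ₗ[k] Ext S.X₃ Y (n + 1) :=
  hS.extClass.precompOfLinear k Y (add_comm 1 n)

include hS

theorem ker_lF (n : ℕ) : LinearMap.ker (lF k S Y n) = LinearMap.range (lG k S Y n) := by
  apply le_antisymm
  · intro x hx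
    obtain ⟨y, hy⟩ := Ext.contravariant_sequence_exact₂ hS Y x hx
    exact ⟨y, hy⟩
  · rintro _ ⟨y, rfl⟩
    rw [LinearMap.mem_ker]
    show (Ext.mk₀ S.f).comp ((Ext.mk₀ S.g).comp y (zero_add n)) (zero_add n) = 0
    rw [← Ext.comp_assoc_of_second_deg_zero, Ext.mk₀_comp_mk₀, S.zero, Ext.mk₀_zero,
      Ext.zero_comp]

theorem ker_lD (n : ℕ) : LinearMap.ker (lD k hS Y n) = LinearMap.range (lF k S Y n) := by
  apply le_antisymm
  · intro x hx
    obtain ⟨y, hy⟩ := Ext.contravariant_sequence_exact₁ hS Y x (add_comm 1 n) hx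
    exact ⟨y, hy⟩
  · rintro _ ⟨y, rfl⟩
    rw [LinearMap.mem_ker]
    show hS.extClass.comp ((Ext.mk₀ S.f).comp y (zero_add n)) (add_comm 1 n) = 0
    rw [← Ext.comp_assoc_of_second_deg_zero, hS.extClass_comp, Ext.zero_comp]

theorem ker_lG (n : ℕ) : LinearMap.ker (lG k S Y (n + 1)) = LinearMap.range (lD k hS Y n) := by
  apply le_antisymm
  · intro x hx
    obtain ⟨y, hy⟩ := Ext.contravariant_sequence_exact₃ hS Y x hx (add_comm 1 n)
    exact ⟨y, hy⟩
  · rintro _ ⟨y, rfl⟩
    rw [LinearMap.mem_ker]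
    show (Ext.mk₀ S.g).comp (hS.extClass.comp y (add_comm 1 n)) (zero_add (n + 1)) = 0
    rw [← Ext.comp_assoc, hS.comp_extClass, Ext.zero_comp]
    all_goals omega

theorem ker_lG_zero : LinearMap.ker (lG k S Y 0) = ⊥ := by
  rw [eq_bot_iff]
  intro x hx
  rw [LinearMap.mem_ker] at hx
  obtain ⟨f, rfl⟩ := Ext.addEquiv₀.symm.surjective x
  have h1 : (Ext.mk₀ S.g).comp (Ext.addEquiv₀.symm f) (zero_add 0) = 0 := hx
  rw [Ext.addEquiv₀_symm_apply, Ext.mk₀_comp_mk₀] at h1
  have h2 : S.g ≫ f = 0 := by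
    have := (Ext.mk₀_eq_zero_iff (S.g ≫ f)).mp h1
    exact this
  have := hS.epi_g
  have h3 : f = 0 := by
    rw [← cancel_epi S.g, h2, Limits.comp_zero]
  rw [h3]
  simp

theorem efin_mid (h1 : EFin k S.X₁ Y) (h3 : EFin k S.X₃ Y) : EFin k S.X₂ Y := by
  constructor
  · intro n
    have := h1.1 n
    have := h3.1 n
    exact finite_of_exact (lG k S Y n) (lF k S Y n) (ker_lF hS Y n).le
  · obtain ⟨N1, hN1⟩ := h1.2
    obtain ⟨N3, hN3⟩ := h3.2
    refine ⟨max N1 N3, fun n hn => ?_⟩
    have := hN1 n (by omega)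
    have := hN3 n (by omega)
    exact subsingleton_of_exact (lG k S Y n) (lF k S Y n) (ker_lF hS Y n).le

theorem efin_third (h1 : EFin k S.X₁ Y) (h2 : EFin k S.X₂ Y) : EFin k S.X₃ Y := by
  constructor
  · intro n
    have := h2.1 n
    rcases n with _ | n
    · have hinj : Function.Injective (lG k S Y 0) := by
        rw [← LinearMap.ker_eq_bot]
        exact ker_lG_zero hS Y
      exact Module.Finite.of_injective _ hinj
    · have := h1.1 n
      exact finite_of_exact (lD k hS Y n) (lG k S Y (n + 1)) (ker_lG hS Y n).le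
  · obtain ⟨N1, hN1⟩ := h1.2
    obtain ⟨N2, hN2⟩ := h2.2
    refine ⟨max N1 N2 + 1, fun n hn => ?_⟩
    obtain ⟨m, rfl⟩ : ∃ m, n = m + 1 := ⟨n - 1, by omega⟩
    have := hN1 m (by omega)
    have := hN2 (m + 1) (by omega)
    exact subsingleton_of_exact (lD k hS Y m) (lG k S Y (m + 1)) (ker_lG hS Y m).le

omit hS in
theorem rank_id {A B : Type*} [AddCommGroup A] [Module k A] [AddCommGroup B] [Module k B]
    [Module.Finite k A] (f : A →ₗ[k] B) :
    (Module.finrank k A : ℤ) = Module.finrank k (LinearMap.range f) +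
      Module.finrank k (LinearMap.ker f) := by
  rw [← LinearMap.finrank_range_add_finrank_ker f]
  push_cast
  rfl

theorem ep_add (h1 : EFin k S.X₁ Y) (h3 : EFin k S.X₃ Y) (h2 : EFin k S.X₂ Y) :
    ep k S.X₂ Y = ep k S.X₁ Y + ep k S.X₃ Y := by
  have f1 := h1.1
  have f2 := h2.1
  have f3 := h3.1
  obtain ⟨N1, hN1⟩ := h1.2
  obtain ⟨N2, hN2⟩ := h2.2
  obtain ⟨N3, hN3⟩ := h3.2
  set N := max N1 (max N2 N3) with hN
  have key : ∀ n, ∑ i ∈ Finset.range (n + 1), (-1 : ℤ) ^ i *
      ((Module.finrank k (Ext S.X₁ Y i) : ℤ) - Module.finrank k (Ext S.X₂ Y i) +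
        Module.finrank k (Ext S.X₃ Y i)) =
      (-1) ^ n * (Module.finrank k (LinearMap.range (lD k hS Y n)) : ℤ) := by
    intro n
    induction n with
    | zero =>
      rw [Finset.sum_range_one, rank_id (lD k hS Y 0), rank_id (lF k S Y 0),
        rank_id (lG k S Y 0), ker_lD, ker_lF hS, ker_lG_zero hS]
      simp
      ring
    | succ n ih =>
      rw [Finset.sum_range_succ, ih, rank_id (lD k hS Y (n + 1)), rank_id (lF k S Y (n + 1)),
        rank_id (lG k S Y (n + 1)), ker_lD, ker_lF hS, ker_lG hS]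
      ring
  have hzero : Module.finrank k (LinearMap.range (lD k hS Y N)) = 0 := by
    have := hN1 N (by omega)
    have h5 : Subsingleton (LinearMap.range (lD k hS Y N)) := by
      refine subsingleton_of_forall_eq 0 ?_
      rintro ⟨_, x, rfl⟩
      rw [Subsingleton.elim x 0]
      ext
      simp
    exact Module.finrank_zero_of_subsingleton
  have h6 := key N
  rw [hzero] at h6
  rw [ep_eq_sum (N := N + 1) (fun n hn => hN1 n (by omega)),
    ep_eq_sum (N := N + 1) (fun n hn => hN2 n (by omega)),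
    ep_eq_sum (N := N + 1) (fun n hn => hN3 n (by omega)), ← sub_eq_zero,
    ← Finset.sum_add_distrib, ← Finset.sum_sub_distrib]
  rw [mul_eq_zero_of_right _ (by simp)] at h6
  rw [← neg_eq_zero, ← Finset.sum_neg_distrib, ← h6]
  apply Finset.sum_congr rfl
  intro i _
  ring

end LES

theorem efin_proj {P Y : C} [Projective P] (h : Module.Finite k (P ⟶ Y)) : EFin k P Y := by
  constructor
  · intro n
    rcases n with _ | n
    · exact Module.Finite.equiv (Ext.linearEquiv₀ (R := k)).symm
    · have : Subsingleton (Ext P Y (n + 1)) :=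
        subsingleton_of_forall_eq 0 (fun x => Ext.eq_zero_of_projective x)
      infer_instance
  · refine ⟨1, fun n hn => ?_⟩
    obtain ⟨m, rfl⟩ : ∃ m, n = m + 1 := ⟨n - 1, by omega⟩
    exact subsingleton_of_forall_eq 0 (fun x => Ext.eq_zero_of_projective x)

theorem ep_proj {P Y : C} [Projective P] : ep k P Y = Module.finrank k (P ⟶ Y) := by
  rw [ep_eq_sum (N := 1)]
  · rw [Finset.sum_range_one, pow_zero, one_mul,
      LinearEquiv.finrank_eq (Ext.linearEquiv₀ (R := k) (X := P) (Y := Y))]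
  · intro n hn
    obtain ⟨m, rfl⟩ : ∃ m, n = m + 1 := ⟨n - 1, by omega⟩
    exact subsingleton_of_forall_eq 0 (fun x => Ext.eq_zero_of_projective x)

end Pool.Agent.H159
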