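import Pool.Agent.H159.Swap
import Pool.Agent.H159.EP

/-!
# Euler-Poincare characteristics of induced modules
-/

set_option linter.unusedSectionVars false
set_option linter.style.haveILetI false

namespace Pool.Agent.H159

open KQuiver CategoryTheory CategoryTheory.Abelian

section ses

variable (k : Type) [Field k] {R : Type} [Ring R] [Algebra k R]

/-- finiteness for modules -/
def efM (M Y : Type) [AddCommGroup M] [Module R M] [AddCommGroup Y] [Module R Y] : Prop :=
  EFin k (ModuleCat.of R M) (ModuleCat.of R Y)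

/-- Euler-Poincare characteristic for modules -/
noncomputable def epM (M Y : Type) [AddCommGroup M] [Module R M] [AddCommGroup Y] [Module R Y] :
    ℤ := ep k (ModuleCat.of R M) (ModuleCat.of R Y)

variable {k}
variable {A B C Y : Type} [AddCommGroup A] [Module R A] [AddCommGroup B] [Module R B]
  [AddCommGroup C] [Module R C] [AddCommGroup Y] [Module R Y]

/-- the short complex of two maps -/
abbrev scx (f : A →ₗ[R] B) (g : B →ₗ[R] C) (h : ∀ z, g z = 0 ↔ ∃ y, f y = z) :
    ShortComplex (ModuleCat.{0} R) :=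
  ShortComplex.mk (ModuleCat.ofHom f) (ModuleCat.ofHom g) (by
    ext z
    exact (h _).mpr ⟨z, rfl⟩)

theorem scx_exact (f : A →ₗ[R] B) (g : B →ₗ[R] C) (h : ∀ z, g z = 0 ↔ ∃ y, f y = z)
    (hf : Function.Injective f) (hg : Function.Surjective g) : (scx f g h).ShortExact := by
  apply ModuleCat.shortComplex_shortExact
  · intro z
    exact h z
  · exact hf
  · exact hg

theorem efM_third (f : A →ₗ[R] B) (g : B →ₗ[R] C) (h : ∀ z, g z = 0 ↔ ∃ y, f y = z)
    (hf : Function.Injective f) (hg : Function.Surjective g)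
    (hA : efM k (R := R) A Y) (hB : efM k (R := R) B Y) :
    efM k (R := R) C Y ∧ epM k (R := R) C Y = epM k (R := R) B Y - epM k (R := R) A Y := by
  have hS := scx_exact f g h hf hg
  have h1 : efM k (R := R) C Y := efin_third hS (ModuleCat.of R Y) hA hB
  refine ⟨h1, ?_⟩
  have h2 := ep_add hS (ModuleCat.of R Y) hA h1 hB
  unfold epM
  change ep k (ModuleCat.of R B) _ = ep k (ModuleCat.of R A) _ + ep k (ModuleCat.of R C) _ at h2
  rw [h2]; ring

theorem efM_mid (f : A →ₗ[R] B) (g : B →ₗ[R] C) (h : ∀ z, g z = 0 ↔ ∃ y, f y = z)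
    (hf : Function.Injective f) (hg : Function.Surjective g)
    (hA : efM k (R := R) A Y) (hC : efM k (R := R) C Y) :
    efM k (R := R) B Y ∧ epM k (R := R) B Y = epM k (R := R) A Y + epM k (R := R) C Y := by
  have hS := scx_exact f g h hf hg
  have h1 : efM k (R := R) B Y := efin_mid hS (ModuleCat.of R Y) hA hC
  exact ⟨h1, ep_add hS (ModuleCat.of R Y) hA hC h1⟩

theorem efM_subsingleton [Subsingleton A] :
    efM k (R := R) A Y ∧ epM k (R := R) A Y = 0 := by
  have hz : Limits.IsZero (ModuleCat.of R A) := ModuleCat.isZero_of_subsingleton _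
  have h : ∀ n, Subsingleton (Ext (ModuleCat.of R A) (ModuleCat.of R Y) n) := by
    intro n
    refine subsingleton_of_forall_eq 0 (fun x => ?_)
    have h1 : (Ext.mk₀ (𝟙 (ModuleCat.of R A))).comp x (zero_add n) = x := Ext.mk₀_id_comp x
    rw [← h1, hz.eq_of_src (𝟙 _) 0, Ext.mk₀_zero, Ext.zero_comp]
  refine ⟨⟨?_, 0, fun n _ => h n⟩, ep_eq_zero h⟩
  intro n
  have := h n
  infer_instance

end ses

section

variable {k I : Type} [Field k] [DecidableEq I] [KQuiver I] {Ω : Finset (List I)}

variable {Y : Type} [AddCommGroup Y] [Module k Y] [Module (GKLR k I Ω) Y]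
  [IsScalarTower k (GKLR k I Ω) Y]

variable (k Ω Y) in
/-- the bihomogeneous part -/
noncomputable def bh (l : List I) (d : ℤ) : Submodule k Y :=
  LinearMap.ker ((mops k I Ω Y).e l - 1) ⊓ LinearMap.ker ((mstr k I Ω Y).f d - 1)

theorem mem_bh {l : List I} {d : ℤ} {y : Y} :
    y ∈ bh k Ω Y l d ↔ BiHom (k := k) (Ω := Ω) l d y := by
  unfold bh BiHom
  rw [Submodule.mem_inf, LinearMap.mem_ker, LinearMap.mem_ker, LinearMap.sub_apply,
    LinearMap.sub_apply, sub_eq_zero, sub_eq_zero]
  rfl

variable (k Ω Y) in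
/-- dimension of the bihomogeneous part -/
noncomputable def bd (l : List I) (d : ℤ) : ℤ := Module.finrank k (bh k Ω Y l d)

/-- the chains of single letters -/
def sing (l : List I) : List (List I) := l.map (fun a => [a])

theorem sing_flatten (l : List I) : (sing l).flatten = l := by
  unfold sing
  induction l with
  | nil => rfl
  | cons a l ih => rw [List.map_cons, List.flatten_cons, ih]; rfl

theorem sing_ins (l : List I) (p j : ℕ) : ¬ Ins p (sing l) j := by
  unfold sing
  induction l generalizing p with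
  | nil => exact id
  | cons a l ih =>
    rintro (h | h)
    · simp only [List.length_singleton] at h; omega
    · exact ih _ h

theorem sing_rel {l : List I} {d : ℤ} {y : Y} (hy : BiHom (k := k) (Ω := Ω) l d y) :
    ∀ s ∈ RS k Ω (sing l) d 0, s • y = 0 :=
  RS_iff'.mpr ⟨⟨by rw [sing_flatten]; exact hy, fun j hj => absurd hj (sing_ins l 0 j)⟩,
    by intro i' hi'; omega⟩

theorem sing_gen (l : List I) (d : ℤ) :
    BiHom (k := k) (Ω := Ω) l d (dgen k Ω (sing l) d 0) := by
  have := (dgen_DP (k := k) (Ω := Ω) (sing l) d 0).1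
  rw [sing_flatten] at this
  exact this

theorem cy_hom_ext {S : Set (GKLR k I Ω)} {M : Type*} [AddCommGroup M]
    [Module (GKLR k I Ω) M] {f g : Cy S →ₗ[GKLR k I Ω] M} (h : f (cgen S) = g (cgen S)) :
    f = g := by
  apply LinearMap.ext
  intro z
  obtain ⟨r, rfl⟩ := cy_surj z
  rw [map_smul, map_smul, h]

theorem bihom_iff {M : Type} [AddCommGroup M] [Module k M] [Module (GKLR k I Ω) M]
    [IsScalarTower k (GKLR k I Ω) M] {l : List I} {d : ℤ} {y : M} :
    BiHom (k := k) (Ω := Ω) l d y ↔ (gops k I Ω).e l • y = y ∧ (gstr k I Ω).f d • y = y :=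
  Iff.rfl

theorem BiHom.map {M M' : Type} [AddCommGroup M] [Module k M] [Module (GKLR k I Ω) M]
    [IsScalarTower k (GKLR k I Ω) M] [AddCommGroup M'] [Module k M'] [Module (GKLR k I Ω) M']
    [IsScalarTower k (GKLR k I Ω) M'] {l : List I} {d : ℤ} {y : M}
    (h : BiHom (k := k) (Ω := Ω) l d y) (g : M →ₗ[GKLR k I Ω] M') :
    BiHom (k := k) (Ω := Ω) l d (g y) := by
  rw [bihom_iff] at h ⊢
  rw [← map_smul, ← map_smul, h.1, h.2]
  exact ⟨rfl, rfl⟩

open scoped ModuleCat in
/-- maps out of the projective module attached to a word -/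
noncomputable def singHom (l : List I) (d : ℤ) (Y' : ModuleCat.{0} (GKLR k I Ω)) :
    (ModuleCat.of (GKLR k I Ω) (Dm k Ω (sing l) d 0) ⟶ Y') ≃ₗ[k] bh k Ω Y' l d where
  toFun f := ⟨f.hom (dgen k Ω (sing l) d 0), mem_bh.mpr ((sing_gen l d).map f.hom)⟩
  map_add' f g := rfl
  map_smul' c f := rfl
  invFun y := ModuleCat.ofHom (clift _ y.1 (sing_rel (mem_bh.mp y.2)))
  left_inv f := by
    apply ModuleCat.hom_ext
    apply cy_hom_ext
    exact clift_gen (sing_rel (mem_bh.mp (mem_bh.mpr ((sing_gen l d).map f.hom))))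
  right_inv y := by
    apply Subtype.ext
    exact clift_gen (sing_rel (mem_bh.mp y.2))

theorem bihom_proj {M : Type} [AddCommGroup M] [Module k M] [Module (GKLR k I Ω) M]
    [IsScalarTower k (GKLR k I Ω) M] (l : List I) (d : ℤ) (y : M) :
    BiHom (k := k) (Ω := Ω) l d ((gops k I Ω).e l • (gstr k I Ω).f d • y) := by
  rw [bihom_iff]
  constructor
  · rw [smul_smul, (gops k I Ω).e_self]
  · rw [smul_smul, (gstr k I Ω).f_e, mul_smul, smul_smul ((gstr k I Ω).f d),
      (gstr k I Ω).f_self]

instance sing_projective (l : List I) (d : ℤ) :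
    Projective (ModuleCat.of (GKLR k I Ω) (Dm k Ω (sing l) d 0)) where
  factors := by
    intro E X f e he
    have hsurj : Function.Surjective e := (ModuleCat.epi_iff_surjective e).mp he
    obtain ⟨y, hy⟩ := hsurj (f.hom (dgen k Ω (sing l) d 0))
    let _ : Module k E := ModuleCat.moduleOfAlgebraModule E
    have _ : IsScalarTower k (GKLR k I Ω) E := ModuleCat.isScalarTower_of_algebra_moduleCat E
    have h1 := sing_gen (k := k) (Ω := Ω) l d
    rw [bihom_iff] at h1
    have hy2 := bihom_proj (k := k) (Ω := Ω) l d y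
    refine ⟨ModuleCat.ofHom (clift _ _ (sing_rel hy2)), ?_⟩
    apply ModuleCat.hom_ext
    apply cy_hom_ext
    have h2 : clift _ _ (sing_rel hy2) (dgen k Ω (sing l) d 0) =
        (gops k I Ω).e l • (gstr k I Ω).f d • y := clift_gen _
    refine (congrArg e.hom h2).trans ?_
    have hy' : e.hom y = f.hom (dgen k Ω (sing l) d 0) := hy
    rw [map_smul, map_smul, hy', ← map_smul, ← map_smul, h1.2, h1.1]

/-- the compatible scalar action is unique -/
theorem module_eq {Y : Type} [AddCommGroup Y] [Module (GKLR k I Ω) Y] (i1 i2 : Module k Y)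
    (h1 : letI := i1; IsScalarTower k (GKLR k I Ω) Y)
    (h2 : letI := i2; IsScalarTower k (GKLR k I Ω) Y) : i1 = i2 := by
  apply Module.ext'
  intro c y
  have e1 : (haveI := i1; c • y) = (algebraMap k (GKLR k I Ω) c) • y := by
    letI := i1
    haveI := h1
    exact (algebraMap_smul (GKLR k I Ω) c y).symm
  have e2 : (haveI := i2; c • y) = (algebraMap k (GKLR k I Ω) c) • y := by
    letI := i2
    haveI := h2
    exact (algebraMap_smul (GKLR k I Ω) c y).symm
  exact e1.trans e2.symm

open scoped ModuleCat in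
theorem ef_singCat (Y' : ModuleCat.{0} (GKLR k I Ω)) (hf : Module.Finite k Y') (l : List I)
    (d : ℤ) : EFin k (ModuleCat.of (GKLR k I Ω) (Dm k Ω (sing l) d 0)) Y' ∧
      ep k (ModuleCat.of (GKLR k I Ω) (Dm k Ω (sing l) d 0)) Y' =
        Module.finrank k (bh k Ω Y' l d) := by
  have h1 := singHom (k := k) l d Y'
  have h2 : Module.Finite k (ModuleCat.of (GKLR k I Ω) (Dm k Ω (sing l) d 0) ⟶ Y') :=
    Module.Finite.equiv h1.symm
  refine ⟨efin_proj h2, ?_⟩
  rw [ep_proj, LinearEquiv.finrank_eq h1]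

/-- Euler-Poincare characteristic of the projective module of a word -/
theorem efM_sing {Y : Type} [AddCommGroup Y] [iM : Module k Y] [Module (GKLR k I Ω) Y]
    [iT : IsScalarTower k (GKLR k I Ω) Y] [hf : Module.Finite k Y] (l : List I) (d : ℤ) :
    efM k (R := GKLR k I Ω) (Dm k Ω (sing l) d 0) Y ∧
      epM k (R := GKLR k I Ω) (Dm k Ω (sing l) d 0) Y = bd k Ω Y l d := by
  have e : iM = ModuleCat.moduleOfAlgebraModule (ModuleCat.of (GKLR k I Ω) Y) :=
    module_eq _ _ iT (ModuleCat.isScalarTower_of_algebra_moduleCat (ModuleCat.of (GKLR k I Ω) Y))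
  subst e
  exact ef_singCat (ModuleCat.of (GKLR k I Ω) Y) hf l d

end

end Pool.Agent.H159
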