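import Pool.Agent.H159.MDim

/-!
# Finite-dimensional modules are built from induced modules with all dots killed
-/

set_option linter.unusedSectionVars false
set_option linter.unusedSimpArgs false

namespace Pool.Agent.H159

open KQuiver

theorem finite_sub {k R X : Type} [Field k] [Ring R] [Algebra k R] [AddCommGroup X] [Module k X]
    [Module R X] [IsScalarTower k R X] [Module.Finite k X] (N : Submodule R X) :
    Module.Finite k N :=
  Module.Finite.of_injective (N.subtype.restrictScalars k) (Submodule.subtype_injective N)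

theorem finite_quot {k R X : Type} [Field k] [Ring R] [Algebra k R] [AddCommGroup X] [Module k X]
    [Module R X] [IsScalarTower k R X] [Module.Finite k X] (N : Submodule R X) :
    Module.Finite k (X ⧸ N) :=
  Module.Finite.of_surjective (N.mkQ.restrictScalars k) (Submodule.mkQ_surjective N)

variable {k I : Type} [Field k] [LinearOrder I] [KQuiver I] [LinQ I] {Ω : Finset (List I)}

section

variable {X : Type} [AddCommGroup X] [Module k X] [Module (GKLR k I Ω) X]
  [IsScalarTower k (GKLR k I Ω) X]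

theorem wdm_eq_zero_iff [Module.Finite k X] {u : List I} :
    wdm (mops k I Ω X) u = 0 ↔ ∀ y : X, (mops k I Ω X).Hom u y → y = 0 := by
  unfold wdm
  rw [Nat.cast_eq_zero, Submodule.finrank_eq_zero, Submodule.eq_bot_iff]
  exact ⟨fun h y hy => h y (mem_wsp.mpr hy), fun h y hy => h y (mem_wsp.mp hy)⟩

theorem wdm_nonneg (u : List I) : 0 ≤ wdm (mops k I Ω X) u := by
  unfold wdm
  exact Int.natCast_nonneg _

theorem wdm_notin [Module.Finite k X] {u : List I} (hu : u ∉ Ω) :
    wdm (mops k I Ω X) u = 0 := by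
  rw [wdm_eq_zero_iff]
  intro y hy
  rw [← sum_e_apply (k := k) (Ω := Ω) y]
  apply Finset.sum_eq_zero
  intro l hl
  exact hy.e_ne (by rintro rfl; exact hu hl)

/-- a vector of top degree -/
theorem exists_top [Module.Finite k X] (hX : FU k Ω X) {u : List I}
    (hu : wdm (mops k I Ω X) u ≠ 0) :
    ∃ (d : ℤ) (v : X), v ≠ 0 ∧ BiHom (k := k) (Ω := Ω) u d v ∧
      ∀ j, (gops k I Ω).x j • v = 0 := by
  classical
  rw [Ne, wdm_eq_zero_iff] at hu
  push Not at hu
  obtain ⟨z, hz, hz0⟩ := hu
  obtain ⟨S, hS⟩ := hX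
  have h1 : ∃ d ∈ S, (gstr k I Ω).f d • z ≠ 0 := by
    by_contra h
    push Not at h
    apply hz0
    rw [← hS z]
    exact Finset.sum_eq_zero h
  have hf : ∀ d ∉ S, ∀ y : X, (gstr k I Ω).f d • y = 0 := by
    intro d hd y
    rw [← hS y, Finset.smul_sum]
    apply Finset.sum_eq_zero
    intro d' hd'
    rw [smul_smul, (gstr k I Ω).f_ne d d' (by rintro rfl; exact hd hd'), zero_smul]
  set T := S.filter (fun d => ∃ v : X, v ≠ 0 ∧ BiHom (k := k) (Ω := Ω) u d v) with hT
  have hTne : T.Nonempty := by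
    obtain ⟨d, hd, hd0⟩ := h1
    refine ⟨d, ?_⟩
    rw [hT, Finset.mem_filter]
    refine ⟨hd, _, hd0, ?_⟩
    rw [bihom_iff]
    have hz' : (gops k I Ω).e u • z = z := hz
    constructor
    · rw [smul_smul, ← (gstr k I Ω).f_e, mul_smul, hz']
    · rw [smul_smul, (gstr k I Ω).f_self]
  obtain ⟨d, hd⟩ : ∃ d, d = T.max' hTne := ⟨_, rfl⟩
  have hdT : d ∈ T := by rw [hd]; exact Finset.max'_mem _ _
  rw [hT, Finset.mem_filter] at hdT
  obtain ⟨hdS, v, hv, hvb⟩ := hdT
  refine ⟨d, v, hv, hvb, ?_⟩
  intro j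
  by_contra hne
  have h2 := hvb.x j
  have h3 : d + 2 ∈ T := by
    rw [hT, Finset.mem_filter]
    refine ⟨?_, _, hne, h2⟩
    by_contra h4
    apply hne
    rw [← h2.2]
    exact hf _ h4 _
  have h4 := Finset.le_max' T _ h3
  rw [← hd] at h4
  omega

/-- the lower bound at the largest word -/
theorem lower_bound [Module.Finite k X] (hX : FU k Ω X) {ss : List (List I)} (hss : SC ss)
    (hmax : IsMaxW (wff (mops k I Ω X)) ss.flatten) :
    (fct ss : ℤ) ≤ wdm (mops k I Ω X) ss.flatten := by
  obtain ⟨bs, h1, h2, h3, -⟩ := exists_blocks ss hss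
  rw [← h2] at hmax ⊢
  have h4 := bn_value bs h1 (f := wff (mops k I Ω X)) [] hmax
  rw [List.nil_append, List.nil_append] at h4
  have h4' : wdm (mops k I Ω X) (bn bs) = (bk bs : ℤ) * wdm (mops k I Ω X) (bw bs) := h4
  have hbk : 0 < bk bs := by
    clear hmax h4 h4' h2 h3
    induction bs with
    | nil => exact Nat.one_pos
    | cons q bs ih =>
      unfold bk
      exact Nat.mul_pos (Nat.pow_pos (Nat.factorial_pos _)) (ih (fun q hq => h1 q (by simp [hq])))
  have h5 : wdm (mops k I Ω X) (bn bs) ≠ 0 := by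
    rw [h4']
    exact mul_ne_zero (by exact_mod_cast hbk.ne') hmax.1
  obtain ⟨d, v, hv0, hvb, hvx⟩ := exists_top hX h5
  have h6 := nil_bound (O := mops k I Ω X) (blkL bs) (v := v)
    (by rw [blkw_blkL]; exact hvb.1) hvx hv0
  rw [blkw_blkL, blkL_prod (fun q hq => (h1 q hq).2.1), h4'] at h6
  push_cast at h6
  rw [← h3]
  have hbk' : (0 : ℤ) < bk bs := by exact_mod_cast hbk
  exact le_of_mul_le_mul_left h6 hbk'

end

theorem sh_perm {J : Type} [DecidableEq J] : ∀ (u : List J) (ss : List (List J)),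
    sh ss u ≠ 0 → u.Perm ss.flatten := by
  intro u
  induction u with
  | nil =>
    intro ss h
    unfold sh at h
    split_ifs at h with h1
    · rw [h1]
    · exact absurd rfl h
  | cons c u ih =>
    intro ss h
    unfold sh at h
    have h1 : ∃ q ∈ picks c ss, sh q.2 u ≠ 0 := by
      by_contra hne
      push Not at hne
      apply h
      apply List.sum_eq_zero
      intro x hx
      rw [List.mem_map] at hx
      obtain ⟨q, hq, rfl⟩ := hx
      exact hne q hq
    obtain ⟨q, hq, hq2⟩ := h1
    obtain ⟨A, d, C, h2, h3⟩ := picks_spec hq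
    rw [h3] at hq2
    have h4 := ih _ hq2
    rw [h2]
    simp only [List.flatten_append, List.flatten_cons] at h4 ⊢
    have h5 : (c :: u).Perm (c :: (A.flatten ++ (d ++ C.flatten))) := h4.cons c
    refine h5.trans ?_
    rw [List.cons_append]
    exact List.perm_middle.symm

theorem SC.gc {ss : List (List I)} (h : SC ss) : GC ss :=
  fun s hs => ⟨good_of_chain (h.1 s hs).1, (h.1 s hs).2⟩

variable (k Ω) in
/-- modules whose Euler-Poincare characteristics and word dimensions are controlled by induced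
modules -/
def TH (P : List I → Prop) (X : Type) [AddCommGroup X] [Module k X] [Module (GKLR k I Ω) X]
    [IsScalarTower k (GKLR k I Ω) X] : Prop :=
  ∃ a : (List (List I) × ℤ) →₀ ℤ, (∀ q ∈ a.support, SC q.1 ∧ q.1.flatten ∈ Ω ∧ P q.1.flatten) ∧
    (∀ (Y : Type) [AddCommGroup Y] [Module k Y] [Module (GKLR k I Ω) Y]
      [IsScalarTower k (GKLR k I Ω) Y] [Module.Finite k Y],
      efM k (R := GKLR k I Ω) X Y ∧ epM k (R := GKLR k I Ω) X Y =
        a.sum fun q c => c * gD k Ω Y q.1 q.2 q.1.length) ∧
    ∀ u, wdm (mops k I Ω X) u = a.sum fun q c => c * (sh q.1 u : ℤ)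

section

variable {P : List I → Prop}

variable {A B C : Type} [AddCommGroup A] [Module k A] [Module (GKLR k I Ω) A]
  [IsScalarTower k (GKLR k I Ω) A] [AddCommGroup B] [Module k B] [Module (GKLR k I Ω) B]
  [IsScalarTower k (GKLR k I Ω) B] [AddCommGroup C] [Module k C] [Module (GKLR k I Ω) C]
  [IsScalarTower k (GKLR k I Ω) C]

theorem th_third (f : A →ₗ[GKLR k I Ω] B) (g : B →ₗ[GKLR k I Ω] C)
    (h : ∀ z, g z = 0 ↔ ∃ y, f y = z) (hf : Function.Injective f) (hg : Function.Surjective g)
    [Module.Finite k B] (hA : TH k Ω P A) (hB : TH k Ω P B) : TH k Ω P C := by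
  classical
  obtain ⟨a, a1, a2, a3⟩ := hA
  obtain ⟨b, b1, b2, b3⟩ := hB
  refine ⟨b - a, ?_, ?_, ?_⟩
  · intro q hq
    rcases Finset.mem_union.mp (Finsupp.support_sub hq) with h1 | h1
    · exact b1 q h1
    · exact a1 q h1
  · intro Y _ _ _ _ _
    have h1 := efM_third f g h hf hg (a2 Y).1 (b2 Y).1
    refine ⟨h1.1, ?_⟩
    rw [h1.2, (a2 Y).2, (b2 Y).2, Finsupp.sum_sub_index]
    intro q c c'
    ring
  · intro u
    have h1 := wdm_exact f g h hf hg u
    rw [a3, b3] at h1
    rw [Finsupp.sum_sub_index (by intro q c c'; ring), h1]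
    ring

theorem th_mid (f : A →ₗ[GKLR k I Ω] B) (g : B →ₗ[GKLR k I Ω] C)
    (h : ∀ z, g z = 0 ↔ ∃ y, f y = z) (hf : Function.Injective f) (hg : Function.Surjective g)
    [Module.Finite k B] (hA : TH k Ω P A) (hC : TH k Ω P C) : TH k Ω P B := by
  classical
  obtain ⟨a, a1, a2, a3⟩ := hA
  obtain ⟨b, b1, b2, b3⟩ := hC
  refine ⟨a + b, ?_, ?_, ?_⟩
  · intro q hq
    rcases Finset.mem_union.mp (Finsupp.support_add hq) with h1 | h1
    · exact a1 q h1
    · exact b1 q h1
  · intro Y _ _ _ _ _
    have h1 := efM_mid f g h hf hg (a2 Y).1 (b2 Y).1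
    refine ⟨h1.1, ?_⟩
    rw [h1.2, (a2 Y).2, (b2 Y).2, Finsupp.sum_add_index']
    · intro q; ring
    · intro q c c'; ring
  · intro u
    rw [wdm_exact f g h hf hg u, a3, b3, Finsupp.sum_add_index']
    · intro q; ring
    · intro q c c'; ring

theorem th_zero [Subsingleton A] : TH k Ω P A := by
  refine ⟨0, by simp, ?_, ?_⟩
  · intro Y _ _ _ _ _
    have := efM_subsingleton (k := k) (R := GKLR k I Ω) (A := A) (Y := Y)
    exact ⟨this.1, by rw [this.2]; simp⟩
  · intro u
    rw [Finsupp.sum_zero_index]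
    unfold wdm
    rw [Module.finrank_zero_of_subsingleton]
    rfl

theorem th_D (hΩ : PC Ω) {ss : List (List I)} (h : SC ss) (hw : ss.flatten ∈ Ω)
    (hP : P ss.flatten) (d : ℤ) :
    TH k Ω P (Dm k Ω ss d ss.length) := by
  classical
  refine ⟨Finsupp.single (ss, d) 1, ?_, ?_, ?_⟩
  · intro q hq
    have := Finsupp.support_single_subset hq
    rw [Finset.mem_singleton] at this
    subst this
    exact ⟨h, hw, hP⟩
  · intro Y _ _ _ _ _
    refine ⟨efDi hΩ h.gc hw _ le_rfl d, ?_⟩
    rw [Finsupp.sum_single_index (by simp), one_mul]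
    rfl
  · intro u
    rw [Finsupp.sum_single_index (by simp), one_mul]
    exact (dm_wdm hΩ h.gc hw d u).2

end

/-- Thick generation. -/
theorem thick_aux (hΩ : PC Ω) {P : List I → Prop} (hP : ∀ l l', l.Perm l' → P l → P l') :
    ∀ n : ℕ, ∀ w ∈ Ω, (Ω.filter (· < w)).card = n → ∀ m : ℕ,
    ∀ (X : Type) [AddCommGroup X] [Module k X] [Module (GKLR k I Ω) X]
      [IsScalarTower k (GKLR k I Ω) X] [Module.Finite k X], FU k Ω X →
      (∀ u, wdm (mops k I Ω X) u ≠ 0 → P u) →
      (∀ u, w < u → wdm (mops k I Ω X) u = 0) → wdm (mops k I Ω X) w = m → TH k Ω P X := by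
  intro n
  induction n using Nat.strong_induction_on with
  | _ n ihn =>
  intro w hw hn m
  induction m using Nat.strong_induction_on with
  | _ m ihm =>
  intro X _ _ _ _ _ hX hXP hmax hm
  rcases Nat.eq_zero_or_pos m with h0 | h0
  · subst h0
    by_cases hex : ∃ u ∈ Ω, wdm (mops k I Ω X) u ≠ 0
    · set T := Ω.filter (fun u => wdm (mops k I Ω X) u ≠ 0) with hT
      have hTne : T.Nonempty := by
        obtain ⟨u, hu, hu'⟩ := hex
        exact ⟨u, by rw [hT, Finset.mem_filter]; exact ⟨hu, hu'⟩⟩
      obtain ⟨w', hw'⟩ : ∃ w', w' = T.max' hTne := ⟨_, rfl⟩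
      have hwT : w' ∈ T := by rw [hw']; exact Finset.max'_mem _ _
      have hwT' := hwT
      rw [hT, Finset.mem_filter] at hwT
      have hlt : w' < w := by
        by_contra hge
        rw [not_lt] at hge
        rcases hge.lt_or_eq with h1 | h1
        · exact hwT.2 (hmax w' h1)
        · rw [h1] at hm
          exact hwT.2 (by simpa using hm)
      have hcard : (Ω.filter (· < w')).card < n := by
        rw [← hn]
        apply Finset.card_lt_card
        refine ⟨?_, ?_⟩
        · intro u hu
          rw [Finset.mem_filter] at hu ⊢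
          exact ⟨hu.1, lt_trans hu.2 hlt⟩
        · intro hsub
          have h1 : w' ∈ Ω.filter (· < w) := by
            rw [Finset.mem_filter]; exact ⟨hwT.1, hlt⟩
          have h2 := hsub h1
          rw [Finset.mem_filter] at h2
          exact lt_irrefl _ h2.2
      have hmax' : ∀ u, w' < u → wdm (mops k I Ω X) u = 0 := by
        intro u hu
        by_cases huΩ : u ∈ Ω
        · by_contra hne
          have h1 : u ∈ T := by rw [hT, Finset.mem_filter]; exact ⟨huΩ, hne⟩
          have h2 := Finset.le_max' T u h1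
          rw [← hw'] at h2
          exact absurd hu (not_lt.mpr h2)
        · exact wdm_notin huΩ
      obtain ⟨m', hm'⟩ := Int.eq_ofNat_of_zero_le (wdm_nonneg (k := k) (Ω := Ω) (X := X) w')
      exact ihn _ hcard w' hwT.1 rfl m' X hX hXP hmax' hm'
    · push Not at hex
      have : Subsingleton X := by
        refine subsingleton_of_forall_eq 0 (fun y => ?_)
        rw [← sum_e_apply (k := k) (Ω := Ω) y]
        apply Finset.sum_eq_zero
        intro u hu
        exact wdm_eq_zero_iff.mp (hex u hu) _ (Ops.hom_e _ _ _)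
      exact th_zero
  · have hmw : IsMaxW (wff (mops k I Ω X)) w := by
      refine ⟨?_, hmax⟩
      show wdm (mops k I Ω X) w ≠ 0
      rw [hm]
      exact_mod_cast h0.ne'
    obtain ⟨ss, hss, rfl⟩ := max_sorted hmw
    obtain ⟨d, v, hv0, hvb, hvx⟩ := exists_top hX hmw.1
    have hDP : DP k Ω ss d v := by
      refine ⟨hvb, ?_⟩
      intro j hj
      obtain ⟨A, s₁, a, b, s₂, C, h1, h2⟩ := ins_split hj
      have hch := (hss.1 (s₁ ++ a :: b :: s₂) (by rw [h1]; simp)).1
      have harr : arr a b := by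
        have := (List.isChain_append.mp hch).2.1
        rw [List.isChain_cons_cons] at this
        exact this.1
      have hwd : ss.flatten = (A.flatten ++ s₁) ++ a :: b :: (s₂ ++ C.flatten) := by
        rw [h1]; simp
      have h3 := hvb
      rw [hwd] at h3
      have h4 := h3.1.t (j := j) (by rw [h2, List.length_append]; omega)
      have h5 : wdm (mops k I Ω X) ((A.flatten ++ s₁) ++ b :: a :: (s₂ ++ C.flatten)) = 0 := by
        apply hmax
        rw [hwd]
        apply List.append_left_lt
        rw [List.cons_lt_cons_iff]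
        exact Or.inl (LinQ.lt_of_arr harr)
      exact wdm_eq_zero_iff.mp h5 _ h4
    have hrel : ∀ s ∈ RS k Ω ss d ss.length, s • v = 0 :=
      RS_iff'.mpr ⟨hDP, fun i' _ _ => hvx _⟩
    obtain ⟨φ, hφ⟩ : ∃ φ : Dm k Ω ss d ss.length →ₗ[GKLR k I Ω] X,
      φ (dgen k Ω ss d ss.length) = v := ⟨clift _ v hrel, clift_gen hrel⟩
    have hDfin : Module.Finite k (Dm k Ω ss d ss.length) :=
      finite_of_wsp (fun u => (dm_wdm hΩ hss.gc hw d u).1)
    have hDwdm := fun u => (dm_wdm (k := k) hΩ hss.gc hw d u).2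
    have hDFU : FU k Ω (Dm k Ω ss d ss.length) :=
      FU.of_gen (dgen_DP ss d ss.length).1 (fun z => cy_surj z)
    have hKfin : Module.Finite k (LinearMap.ker φ) := finite_sub _
    have hIfin : Module.Finite k (LinearMap.range φ) := finite_sub _
    have hQfin : Module.Finite k (X ⧸ LinearMap.range φ) := finite_quot _
    have hKFU : FU k Ω (LinearMap.ker φ) :=
      hDFU.sub (LinearMap.ker φ).subtype (Submodule.subtype_injective _)
    have hIFU : FU k Ω (LinearMap.range φ) :=
      hX.sub (LinearMap.range φ).subtype (Submodule.subtype_injective _)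
    have hQFU : FU k Ω (X ⧸ LinearMap.range φ) :=
      hX.quot (LinearMap.range φ).mkQ (Submodule.mkQ_surjective _)
    have ex1 : ∀ z, φ.rangeRestrict z = 0 ↔ ∃ y, (LinearMap.ker φ).subtype y = z := by
      intro z
      constructor
      · intro hz
        exact ⟨⟨z, LinearMap.mem_ker.mpr (congrArg Subtype.val hz)⟩, rfl⟩
      · rintro ⟨y, rfl⟩
        exact Subtype.ext (LinearMap.mem_ker.mp y.2)
    have ex2 : ∀ z, (LinearMap.range φ).mkQ z = 0 ↔ ∃ y, (LinearMap.range φ).subtype y = z := by
      intro z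
      rw [Submodule.mkQ_apply, Submodule.Quotient.mk_eq_zero]
      exact ⟨fun hz => ⟨⟨z, hz⟩, rfl⟩, by rintro ⟨y, rfl⟩; exact y.2⟩
    have w1 : ∀ u, wdm (mops k I Ω (Dm k Ω ss d ss.length)) u =
        wdm (mops k I Ω (LinearMap.ker φ)) u + wdm (mops k I Ω (LinearMap.range φ)) u := by
      intro u
      exact wdm_exact (LinearMap.ker φ).subtype φ.rangeRestrict ex1
        (Submodule.subtype_injective _) (LinearMap.surjective_rangeRestrict φ) u
    have w2 : ∀ u, wdm (mops k I Ω X) u =
        wdm (mops k I Ω (LinearMap.range φ)) u +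
          wdm (mops k I Ω (X ⧸ LinearMap.range φ)) u := by
      intro u
      exact wdm_exact (LinearMap.range φ).subtype (LinearMap.range φ).mkQ ex2
        (Submodule.subtype_injective _) (Submodule.mkQ_surjective _) u
    -- the image has largest word `w`
    have hIw : wdm (mops k I Ω (LinearMap.range φ)) ss.flatten ≠ 0 := by
      rw [Ne, wdm_eq_zero_iff]
      intro h
      have h1 := h ⟨v, ⟨_, hφ⟩⟩ (by
        show (gops k I Ω).e _ • (⟨v, ⟨_, hφ⟩⟩ : LinearMap.range φ) = ⟨v, ⟨_, hφ⟩⟩
        apply Subtype.ext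
        exact hvb.1)
      exact hv0 (congrArg Subtype.val h1)
    have hImax : IsMaxW (wff (mops k I Ω (LinearMap.range φ))) ss.flatten := by
      refine ⟨hIw, fun u hu => ?_⟩
      show wdm (mops k I Ω (LinearMap.range φ)) u = 0
      have h1 := w2 u
      rw [hmax u hu] at h1
      have h2 := wdm_nonneg (k := k) (Ω := Ω) (X := LinearMap.range φ) u
      have h3 := wdm_nonneg (k := k) (Ω := Ω) (X := X ⧸ LinearMap.range φ) u
      omega
    have hIlow := lower_bound hIFU hss hImax
    have hfct : 0 < fct ss := by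
      obtain ⟨bs, h1, h2, h3, -⟩ := exists_blocks ss hss
      rw [← h3]
      clear h2 h3
      induction bs with
      | nil => exact Nat.one_pos
      | cons q bs ih =>
        unfold bf
        exact Nat.mul_pos (Nat.factorial_pos _) (ih (fun q hq => h1 q (by simp [hq])))
    have hsort := sh_sorted ss hss
    have hKw : wdm (mops k I Ω (LinearMap.ker φ)) ss.flatten = (0 : ℕ) := by
      have h1 := w1 ss.flatten
      rw [hDwdm, hsort.2] at h1
      have h2 := wdm_nonneg (k := k) (Ω := Ω) (X := LinearMap.ker φ) ss.flatten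
      push_cast
      omega
    have hKmax : ∀ u, ss.flatten < u → wdm (mops k I Ω (LinearMap.ker φ)) u = 0 := by
      intro u hu
      have h1 := w1 u
      have h0 : sh ss u = 0 := by
        by_contra hne
        exact absurd hu (not_lt.mpr (hsort.1 u hne))
      rw [hDwdm, h0] at h1
      have h2 := wdm_nonneg (k := k) (Ω := Ω) (X := LinearMap.ker φ) u
      have h3 := wdm_nonneg (k := k) (Ω := Ω) (X := LinearMap.range φ) u
      push_cast at h1
      omega
    have hKP : ∀ u, wdm (mops k I Ω (LinearMap.ker φ)) u ≠ 0 → P u := by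
      intro u hu
      have h1 := w1 u
      rw [hDwdm] at h1
      have h2 := wdm_nonneg (k := k) (Ω := Ω) (X := LinearMap.ker φ) u
      have h3 := wdm_nonneg (k := k) (Ω := Ω) (X := LinearMap.range φ) u
      have h4 : sh ss u ≠ 0 := by
        intro h5
        rw [h5] at h1
        push_cast at h1
        omega
      exact hP _ _ (sh_perm u ss h4).symm (hXP _ hmw.1)
    have hQP : ∀ u, wdm (mops k I Ω (X ⧸ LinearMap.range φ)) u ≠ 0 → P u := by
      intro u hu
      apply hXP
      have h1 := w2 u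
      have h2 := wdm_nonneg (k := k) (Ω := Ω) (X := LinearMap.range φ) u
      have h3 := wdm_nonneg (k := k) (Ω := Ω) (X := X ⧸ LinearMap.range φ) u
      omega
    have hK : TH k Ω P (LinearMap.ker φ) := ihm 0 h0 (LinearMap.ker φ) hKFU hKP hKmax hKw
    have hI : TH k Ω P (LinearMap.range φ) :=
      th_third (LinearMap.ker φ).subtype φ.rangeRestrict ex1
        (Submodule.subtype_injective _) (LinearMap.surjective_rangeRestrict φ) hK
        (th_D hΩ hss hw (hXP _ hmw.1) d)
    obtain ⟨m', hm'⟩ := Int.eq_ofNat_of_zero_le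
      (wdm_nonneg (k := k) (Ω := Ω) (X := X ⧸ LinearMap.range φ) ss.flatten)
    have hm'lt : m' < m := by
      have h1 := w2 ss.flatten
      rw [hm, hm'] at h1
      have h2 : (0 : ℤ) < fct ss := by exact_mod_cast hfct
      have h3 : (m' : ℤ) < m := by
        have : Int.ofNat m' = (m' : ℤ) := rfl
        omega
      exact_mod_cast h3
    have hQ : TH k Ω P (X ⧸ LinearMap.range φ) := by
      apply ihm m' hm'lt (X ⧸ LinearMap.range φ) hQFU hQP _ hm'
      intro u hu
      have h1 := w2 u
      rw [hmax u hu] at h1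
      have h2 := wdm_nonneg (k := k) (Ω := Ω) (X := LinearMap.range φ) u
      have h3 := wdm_nonneg (k := k) (Ω := Ω) (X := X ⧸ LinearMap.range φ) u
      omega
    exact th_mid (LinearMap.range φ).subtype (LinearMap.range φ).mkQ ex2
      (Submodule.subtype_injective _) (Submodule.mkQ_surjective _) hI hQ

theorem thick (hΩ : PC Ω) {P : List I → Prop} (hP : ∀ l l', l.Perm l' → P l → P l') (X : Type) [AddCommGroup X] [Module k X] [Module (GKLR k I Ω) X]
    [IsScalarTower k (GKLR k I Ω) X] [Module.Finite k X] (hX : FU k Ω X)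
    (hXP : ∀ u, wdm (mops k I Ω X) u ≠ 0 → P u) : TH k Ω P X := by
  rcases Ω.eq_empty_or_nonempty with h | h
  · subst h
    have : Subsingleton X := by
      refine subsingleton_of_forall_eq 0 (fun y => ?_)
      rw [← sum_e_apply (k := k) (I := I) (Ω := ∅) y, Finset.sum_empty]
    exact th_zero
  · have h1 : ∀ u, Ω.max' h < u → wdm (mops k I Ω X) u = 0 := by
      intro u hu
      apply wdm_notin
      intro hu'
      exact absurd hu (not_lt.mpr (Finset.le_max' _ _ hu'))
    obtain ⟨m', hm'⟩ := Int.eq_ofNat_of_zero_le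
      (wdm_nonneg (k := k) (Ω := Ω) (X := X) (Ω.max' h))
    exact thick_aux hΩ hP _ (Ω.max' h) (Finset.max'_mem _ _) rfl m' X hX hXP h1 hm'

end Pool.Agent.H159
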