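import Pool.Agent.H159.Homog
import Pool.Agent.H159.Thick

/-!
# Word multiplicities of classes
-/

set_option linter.unusedSectionVars false
set_option linter.unusedSimpArgs false

open MvPolynomial

namespace Pool.Agent.H159

open KQuiver

theorem arr_iff {R : Type} {a b : R × ℤ} : arr a b ↔ a.1 = b.1 ∧ b.2 = a.2 + 2 := Iff.rfl

variable {R : Type}

theorem dlet_X (c : R × ℤ) (Δ : Seg R) [Decidable ((Δ.1, Δ.2.1) = c)] :
    dlet c (X Δ) = if (Δ.1, Δ.2.1) = c then segClass Δ.1 (Δ.2.1 + 2) Δ.2.2 else 0 := by
  unfold dlet
  rw [mkDerivation_X]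
  congr

/-- the class of a chain -/
noncomputable def xv : List (R × ℤ) → MvPolynomial (Seg R) ℤ
  | [] => 1
  | c :: r => X (c.1, c.2, r.length)

/-- the segment of a nonempty chain -/
def sg : List (R × ℤ) → Option (Seg R)
  | [] => none
  | c :: r => some (c.1, c.2, r.length)

/-- the chain of a segment -/
def chn (ρ : R) : ℤ → ℕ → List (R × ℤ)
  | s, 0 => [(ρ, s)]
  | s, l + 1 => (ρ, s) :: chn ρ (s + 2) l

theorem chn_length (ρ : R) (s : ℤ) (l : ℕ) : (chn ρ s l).length = l + 1 := by
  induction l generalizing s with
  | zero => rfl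
  | succ l ih => rw [chn, List.length_cons, ih]

theorem chn_cons (ρ : R) (s : ℤ) (l : ℕ) : ∃ r, chn ρ s l = (ρ, s) :: r ∧ r.length = l := by
  cases l with
  | zero => exact ⟨[], rfl, rfl⟩
  | succ l => exact ⟨chn ρ (s + 2) l, rfl, chn_length _ _ _⟩

theorem chn_chain (ρ : R) (s : ℤ) (l : ℕ) : (chn ρ s l).IsChain arr := by
  induction l generalizing s with
  | zero => simp [chn]
  | succ l ih =>
    obtain ⟨r, h1, -⟩ := chn_cons ρ (s + 2) l
    have h2 := ih (s + 2)
    rw [h1] at h2
    rw [chn, h1, List.isChain_cons_cons]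
    exact ⟨⟨rfl, rfl⟩, h2⟩

theorem xv_chn (ρ : R) (s : ℤ) (l : ℕ) : xv (chn ρ s l) = X (ρ, s, l) := by
  obtain ⟨r, h1, h2⟩ := chn_cons ρ s l
  rw [h1, xv, h2]

/-- a chain is determined by its first letter and its length -/
theorem chain_unique {a : R × ℤ} : ∀ {s t : List (R × ℤ)}, (a :: s).IsChain arr →
    (a :: t).IsChain arr → s.length = t.length → s = t := by
  intro s
  induction s generalizing a with
  | nil =>
    intro t _ _ h
    exact (List.length_eq_zero_iff.mp h.symm).symm
  | cons b s ih =>
    intro t h1 h2 h3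
    rcases t with _ | ⟨c, t⟩
    · simp at h3
    · rw [List.isChain_cons_cons] at h1 h2
      have hbc : b = c := by
        obtain ⟨b1, b2⟩ := b
        obtain ⟨c1, c2⟩ := c
        have h4 := h1.1
        have h5 := h2.1
        rw [arr_iff] at h4 h5
        simp only at h4 h5
        rw [Prod.mk.injEq]
        exact ⟨h4.1.symm.trans h5.1, by omega⟩
      subst hbc
      rw [ih h1.2 h2.2 (by simpa using h3)]

theorem dlet_xv_nil (c : R × ℤ) : dlet c (xv []) = 0 := by
  rw [xv]
  exact (dlet c).map_one_eq_zero

theorem dlet_xv_cons {c d : R × ℤ} {r : List (R × ℤ)} (h : (d :: r).IsChain arr)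
    [Decidable (d = c)] : dlet c (xv (d :: r)) = if d = c then xv r else 0 := by
  classical
  rw [xv, dlet_X]
  have h1 : ((d.1, d.2) = c) ↔ d = c := Iff.rfl
  by_cases hd : d = c
  · rw [if_pos (h1.mpr hd), if_pos hd]
    rcases r with _ | ⟨b, r⟩
    · simp [segClass, xv]
    · rw [List.isChain_cons_cons] at h
      obtain ⟨h2, h3⟩ := h.1
      simp only [segClass, xv, List.length_cons]
      rw [if_neg (by omega), if_neg (by omega), h2, h3]
      congr 3
      simp
  · rw [if_neg (fun h' => hd (h1.mp h')), if_neg hd]

/-- the derivation of a chain -/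
noncomputable def Dl : List (R × ℤ) →
    Derivation ℤ (MvPolynomial (Seg R) ℤ) (MvPolynomial (Seg R) ℤ)
  | [] => 0
  | a :: r => r.foldl (fun D b => ⁅dlet b, D⁆) (dlet a)

theorem Dl_single (a : R × ℤ) : Dl [a] = dlet a := rfl

theorem Dl_concat {s : List (R × ℤ)} (hs : s ≠ []) (b : R × ℤ) :
    Dl (s ++ [b]) = ⁅dlet b, Dl s⁆ := by
  rcases s with _ | ⟨a, r⟩
  · exact absurd rfl hs
  · show (r ++ [b]).foldl _ _ = _
    rw [List.foldl_append]
    rfl

theorem chain_head_lt {a b : R × ℤ} {r : List (R × ℤ)} (h : (a :: (r ++ [b])).IsChain arr) :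
    a.2 < b.2 := by
  induction r generalizing a with
  | nil =>
    rw [List.nil_append, List.isChain_cons_cons] at h
    have := h.1.2
    omega
  | cons c r ih =>
    rw [List.cons_append, List.isChain_cons_cons] at h
    have h1 := ih h.2
    have h2 := h.1.2
    omega

/-- the derivation of a chain removes an initial part -/
theorem Dl_xv {s : List (R × ℤ)} (hs : s ≠ []) (hch : s.IsChain arr) : ∀ {t : List (R × ℤ)},
    t.IsChain arr →
    (∀ r, t = s ++ r → Dl s (xv t) = xv r) ∧ ((¬ ∃ r, t = s ++ r) → Dl s (xv t) = 0) := by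
  classical
  induction s using List.reverseRecOn with
  | nil => exact absurd rfl hs
  | append_singleton s b ih =>
    intro t ht
    by_cases hs' : s = []
    · subst hs'
      rw [List.nil_append, Dl_single]
      rcases t with _ | ⟨d, r⟩
      · refine ⟨?_, fun _ => dlet_xv_nil b⟩
        intro r hr
        simp at hr
      · rw [dlet_xv_cons ht]
        constructor
        · intro r' hr
          rw [List.singleton_append, List.cons_eq_cons] at hr
          rw [if_pos hr.1, hr.2]
        · intro hr
          rw [if_neg]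
          rintro rfl
          exact hr ⟨r, rfl⟩
    · have ih' : ∀ {t : List (R × ℤ)}, t.IsChain arr →
          (∀ r, t = s ++ r → Dl s (xv t) = xv r) ∧
          ((¬ ∃ r, t = s ++ r) → Dl s (xv t) = 0) :=
        fun {t} ht => ih hs' (List.isChain_append.mp hch).1 ht
      have hzero : Dl s (dlet b (xv t)) = 0 := by
        rcases t with _ | ⟨d, r⟩
        · rw [dlet_xv_nil, map_zero]
        · rw [dlet_xv_cons ht]
          by_cases hd : d = b
          · rw [if_pos hd]
            apply (ih' ht.tail).2
            rintro ⟨r', hr'⟩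
            obtain ⟨a, s, rfl⟩ := List.exists_cons_of_ne_nil hs'
            have h1 := chain_head_lt hch
            change r = _ at hr'
            rw [hr', List.cons_append, List.isChain_cons_cons] at ht
            have h2 := ht.1.2
            rw [hd] at h2
            omega
          · rw [if_neg hd, map_zero]
      constructor
      · intro r hr
        rw [Dl_concat hs', Derivation.commutator_apply, hzero, sub_zero,
          (ih' ht).1 (b :: r) (by rw [hr]; simp)]
        have h1 : (b :: r).IsChain arr := by
          rw [hr, List.append_assoc] at ht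
          exact (List.isChain_append.mp ht).2.1
        rw [dlet_xv_cons h1, if_pos rfl]
      · intro hr
        rw [Dl_concat hs', Derivation.commutator_apply, hzero, sub_zero]
        by_cases h1 : ∃ r', t = s ++ r'
        · obtain ⟨r', hr'⟩ := h1
          rw [(ih' ht).1 r' hr']
          have h2 : r'.IsChain arr := by
            rw [hr'] at ht
            exact (List.isChain_append.mp ht).2.1
          rcases r' with _ | ⟨d, r''⟩
          · exact dlet_xv_nil b
          · rw [dlet_xv_cons h2, if_neg]
            rintro rfl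
            exact hr ⟨r'', by rw [hr']; simp⟩
        · rw [(ih' ht).2 h1, map_zero]

/-- composition of the derivations of a list of chains -/
noncomputable def Wl : List (List (R × ℤ)) →
    (MvPolynomial (Seg R) ℤ →ₗ[ℤ] MvPolynomial (Seg R) ℤ)
  | [] => LinearMap.id
  | s :: ss => (Wl ss) ∘ₗ ((Dl s : MvPolynomial (Seg R) ℤ →ₗ[ℤ] MvPolynomial (Seg R) ℤ))

theorem Wl_cons (s : List (R × ℤ)) (ss : List (List (R × ℤ))) (f : MvPolynomial (Seg R) ℤ) :
    Wl (s :: ss) f = Wl ss (Dl s f) := rfl

theorem Wl_append (A B : List (List (R × ℤ))) (f : MvPolynomial (Seg R) ℤ) :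
    Wl (A ++ B) f = Wl B (Wl A f) := by
  induction A generalizing f with
  | nil => rfl
  | cons s A ih => rw [List.cons_append, Wl_cons, Wl_cons, ih]

/-- the pairing with an induced module -/
noncomputable def hh (f : MvPolynomial (Seg R) ℤ) (ss : List (List (R × ℤ))) : ℤ :=
  constantCoeff (Wl ss f)

theorem wordMult_eq (f : MvPolynomial (Seg R) ℤ) (u : List (R × ℤ)) :
    wordMult f u = hh f (sing u) := by
  unfold wordMult hh
  congr 1
  induction u generalizing f with
  | nil => rfl
  | cons c u ih =>
    rw [List.foldl_cons, ih]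
    rfl

theorem hh_cut (f : MvPolynomial (Seg R) ℤ) (A C : List (List (R × ℤ))) {s : List (R × ℤ)}
    (hs : s ≠ []) (b : R × ℤ) :
    hh f (A ++ (s ++ [b]) :: C) = hh f (A ++ s :: [b] :: C) - hh f (A ++ [b] :: s :: C) := by
  unfold hh
  rw [Wl_append, Wl_append, Wl_append, Wl_cons, Wl_cons, Wl_cons, Wl_cons, Wl_cons,
    Dl_concat hs, Derivation.commutator_apply, map_sub, map_sub, Dl_single]

/-- the class of a list of chains -/
noncomputable def mon (ss : List (List (R × ℤ))) : MvPolynomial (Seg R) ℤ := (ss.map xv).prod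

section

variable [DecidableEq (R × ℤ)]

theorem dlet_mon (c : R × ℤ) (ss : List (List (R × ℤ))) (h : ∀ s ∈ ss, s.IsChain arr) :
    dlet c (mon ss) = ((picks c ss).map fun q => mon q.2).sum := by
  induction ss with
  | nil =>
    show dlet c (1 : MvPolynomial (Seg R) ℤ) = 0
    exact (dlet c).map_one_eq_zero
  | cons s ss ih =>
    have ih' := ih (fun s' hs' => h s' (by simp [hs']))
    have e1 : mon (s :: ss) = xv s * mon ss := by simp [mon]
    rw [e1, Derivation.leibniz, ih', picks, List.map_append, List.sum_append, smul_eq_mul,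
      smul_eq_mul, List.map_map, add_comm]
    congr 1
    · rcases s with _ | ⟨d, s'⟩
      · rw [dlet_xv_nil, mul_zero]
        rfl
      · rw [dlet_xv_cons (h _ (by simp)), hpick]
        by_cases hd : d = c
        · rw [if_pos hd, if_pos hd]
          simp [mon, mul_comm]
        · rw [if_neg hd, if_neg hd]
          simp
    · rw [← List.sum_map_mul_left]
      congr 1

theorem hh_mon (u : List (R × ℤ)) : ∀ ss : List (List (R × ℤ)), (∀ s ∈ ss, s.IsChain arr) →
    hh (mon ss) (sing u) = sh ss u := by
  induction u with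
  | nil =>
    intro ss _
    show constantCoeff (mon ss) = _
    unfold sh mon
    rw [map_list_prod, List.map_map]
    by_cases h : ss.flatten = []
    · rw [if_pos h]
      rw [List.flatten_eq_nil_iff] at h
      push_cast
      apply List.prod_eq_one
      intro x hx
      rw [List.mem_map] at hx
      obtain ⟨s, hs, rfl⟩ := hx
      rw [h s hs]
      simp [xv]
    · rw [if_neg h]
      rw [List.flatten_eq_nil_iff] at h
      push Not at h
      obtain ⟨s, hs, hs'⟩ := h
      push_cast
      rw [List.prod_eq_zero_iff, List.mem_map]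
      refine ⟨s, hs, ?_⟩
      obtain ⟨a, s, rfl⟩ := List.exists_cons_of_ne_nil hs'
      simp [xv]
  | cons c u ih =>
    intro ss h
    have e1 : hh (mon ss) (sing (c :: u)) = hh (dlet c (mon ss)) (sing u) := rfl
    have e2 : sh ss (c :: u) = ((picks c ss).map fun q => sh q.2 u).sum := rfl
    rw [e1, dlet_mon c ss h, e2]
    have hlin : ∀ L : List (MvPolynomial (Seg R) ℤ), hh L.sum (sing u) =
        (L.map fun g => hh g (sing u)).sum := by
      intro L
      induction L with
      | nil => simp [hh]
      | cons g L ihL =>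
        rw [List.sum_cons, List.map_cons, List.sum_cons, ← ihL]
        unfold hh
        rw [map_add, map_add]
    rw [hlin, List.map_map]
    push_cast
    rw [List.map_map]
    congr 1
    apply List.map_congr_left
    intro q hq
    apply ih
    intro s hs
    obtain ⟨A, d, C, h2, h3⟩ := picks_spec hq
    rw [h3] at hs
    simp only [List.mem_append, List.mem_cons] at hs
    rcases hs with hs | rfl | hs
    · exact h s (by rw [h2]; simp [hs])
    · exact (h (c :: s) (by rw [h2]; simp)).tail
    · exact h s (by rw [h2]; simp [hs])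

end

end Pool.Agent.H159
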