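import Mathlib

/-!
# Positivity of a signed double-coset count in a symmetric group

`Ω` is a finite set with a row function `val`, and `b₁`, `b₂` are two block functions, each of them
injective on every row. `e⁺` is the sum of the elements of the row group and `e⁻_i` the signed sum
of the elements of the group preserving `b_i`. Then the coefficient of `1` in
`e⁻_2 e⁺ e⁻_1 e⁺` is positive.
-/

open Finset Equiv

namespace Pool.Agent.H159

section basics

variable {G : Type*} [Group G]

/-- the coefficient of the identity -/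
def tr (x : MonoidAlgebra ℤ G) : ℤ := x.coeff 1

theorem tr_add (x y : MonoidAlgebra ℤ G) : tr (x + y) = tr x + tr y := rfl

theorem tr_zero : tr (0 : MonoidAlgebra ℤ G) = 0 := rfl

theorem tr_smul (n : ℤ) (x : MonoidAlgebra ℤ G) : tr (n • x) = n * tr x := rfl

theorem tr_sum {ι : Type*} (s : Finset ι) (f : ι → MonoidAlgebra ℤ G) :
    tr (∑ i ∈ s, f i) = ∑ i ∈ s, tr (f i) := by
  classical
  induction s using Finset.induction_on with
  | empty => simp [tr_zero]
  | insert a s ha ih => rw [Finset.sum_insert ha, Finset.sum_insert ha, tr_add, ih]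

theorem coeff_of [DecidableEq G] (g h : G) :
    (MonoidAlgebra.of ℤ G g).coeff h = if g = h then 1 else 0 := by
  rw [MonoidAlgebra.of_apply, MonoidAlgebra.coeff_single, Finsupp.single_apply]

theorem tr_of [DecidableEq G] (g : G) : tr (MonoidAlgebra.of ℤ G g) = if g = 1 then 1 else 0 := by
  unfold tr
  rw [coeff_of]

theorem tr_mul_comm (x y : MonoidAlgebra ℤ G) : tr (x * y) = tr (y * x) := by
  classical
  induction x using MonoidAlgebra.induction_on with
  | of g =>
    induction y using MonoidAlgebra.induction_on with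
    | of h =>
      rw [← map_mul, ← map_mul, tr_of, tr_of]
      congr 1
      rw [eq_iff_iff]
      rw [mul_eq_one_iff_eq_inv, mul_eq_one_iff_eq_inv]
      constructor <;> (intro h; rw [h]; simp)
    | add a b ha hb => rw [mul_add, add_mul, tr_add, tr_add, ha, hb]
    | smul n a ha => rw [mul_smul_comm, smul_mul_assoc, tr_smul, tr_smul, ha]
  | add a b ha hb => rw [mul_add, add_mul, tr_add, tr_add, ha, hb]
  | smul n a ha => rw [mul_smul_comm, smul_mul_assoc, tr_smul, tr_smul, ha]

/-- the anti-involution sending a group element to its inverse -/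
noncomputable def st : MonoidAlgebra ℤ G →+ MonoidAlgebra ℤ G where
  toFun x := MonoidAlgebra.mapDomain (fun g : G => g⁻¹) x
  map_zero' := by simp
  map_add' x y := by rw [MonoidAlgebra.mapDomain_add]

theorem st_of (g : G) : st (MonoidAlgebra.of ℤ G g) = MonoidAlgebra.of ℤ G g⁻¹ := by
  simp [st, MonoidAlgebra.of_apply]

theorem st_smul (n : ℤ) (x : MonoidAlgebra ℤ G) : st (n • x) = n • st x := map_zsmul st n x

theorem st_mul (x y : MonoidAlgebra ℤ G) : st (x * y) = st y * st x := by
  induction x using MonoidAlgebra.induction_on with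
  | of g =>
    induction y using MonoidAlgebra.induction_on with
    | of h => rw [← map_mul, st_of, st_of, st_of, ← map_mul, mul_inv_rev]
    | add a b ha hb => rw [mul_add, map_add, map_add, add_mul, ha, hb]
    | smul n a ha => rw [mul_smul_comm, st_smul, st_smul, smul_mul_assoc, ha]
  | add a b ha hb => rw [add_mul, map_add, map_add, mul_add, ha, hb]
  | smul n a ha => rw [smul_mul_assoc, st_smul, st_smul, mul_smul_comm, ha]

theorem tr_mul_st [Fintype G] (x y : MonoidAlgebra ℤ G) :
    tr (x * st y) = ∑ g, x.coeff g * y.coeff g := by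
  classical
  induction x using MonoidAlgebra.induction_on with
  | of g =>
    induction y using MonoidAlgebra.induction_on with
    | of h =>
      rw [st_of, ← map_mul, tr_of]
      simp only [coeff_of]
      simp [mul_inv_eq_one]
    | add a b ha hb =>
      rw [map_add, mul_add, tr_add, ha, hb, ← Finset.sum_add_distrib]
      refine Finset.sum_congr rfl fun i _ => ?_
      rw [MonoidAlgebra.coeff_add, Finsupp.add_apply]; ring
    | smul n a ha =>
      rw [st_smul, mul_smul_comm, tr_smul, ha, Finset.mul_sum]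
      refine Finset.sum_congr rfl fun i _ => ?_
      rw [MonoidAlgebra.coeff_smul, Finsupp.smul_apply, smul_eq_mul]; ring
  | add a b ha hb =>
    rw [add_mul, tr_add, ha, hb, ← Finset.sum_add_distrib]
    refine Finset.sum_congr rfl fun i _ => ?_
    rw [MonoidAlgebra.coeff_add, Finsupp.add_apply]; ring
  | smul n a ha =>
    rw [smul_mul_assoc, tr_smul, ha, Finset.mul_sum]
    refine Finset.sum_congr rfl fun i _ => ?_
    rw [MonoidAlgebra.coeff_smul, Finsupp.smul_apply, smul_eq_mul]; ring

theorem tr_mul_st_self_pos [Fintype G] (x : MonoidAlgebra ℤ G) (hx : x ≠ 0) :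
    0 < tr (x * st x) := by
  rw [tr_mul_st]
  have h0 : ∀ g ∈ (Finset.univ : Finset G), 0 ≤ x.coeff g * x.coeff g :=
    fun g _ => mul_self_nonneg _
  rcases (Finset.sum_nonneg h0).lt_or_eq with h | h
  · exact h
  · exfalso
    apply hx
    have h1 := (Finset.sum_eq_zero_iff_of_nonneg h0).mp h.symm
    ext g
    have := h1 g (Finset.mem_univ g)
    simpa using this

end basics


section perms

set_option linter.unusedSectionVars false

variable {Ω : Type*} [Fintype Ω] [DecidableEq Ω]

/-- the group algebra of the symmetric group on `Ω` -/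
abbrev GA (Ω : Type*) := MonoidAlgebra ℤ (Perm Ω)

/-- the group element inside the group algebra -/
noncomputable abbrev δ (g : Perm Ω) : GA Ω := MonoidAlgebra.of ℤ (Perm Ω) g

theorem δ_mul (g h : Perm Ω) : δ (g * h) = δ g * δ h := map_mul _ _ _

theorem δ_one : δ (1 : Perm Ω) = 1 := map_one _

/-- the permutations preserving a function -/
def stab {V : Type*} [DecidableEq V] (f : Ω → V) : Finset (Perm Ω) :=
  Finset.univ.filter fun g => ∀ x, f (g x) = f x

theorem mem_stab {V : Type*} [DecidableEq V] {f : Ω → V} {g : Perm Ω} :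
    g ∈ stab f ↔ ∀ x, f (g x) = f x := by
  simp [stab]

theorem one_mem_stab {V : Type*} [DecidableEq V] (f : Ω → V) : (1 : Perm Ω) ∈ stab f := by
  simp [mem_stab]

theorem mul_mem_stab {V : Type*} [DecidableEq V] {f : Ω → V} {g h : Perm Ω} (hg : g ∈ stab f)
    (hh : h ∈ stab f) : g * h ∈ stab f := by
  rw [mem_stab] at *
  intro x
  rw [Perm.mul_apply, hg, hh]

theorem inv_mem_stab {V : Type*} [DecidableEq V] {f : Ω → V} {g : Perm Ω} (hg : g ∈ stab f) :
    g⁻¹ ∈ stab f := by
  rw [mem_stab] at *
  intro x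
  have := hg (g⁻¹ x)
  have h2 : g (g⁻¹ x) = x := by
    rw [← Perm.mul_apply, mul_inv_cancel, Perm.one_apply]
  rw [h2] at this
  exact this.symm

/-- the sum of the elements of the row group -/
noncomputable def rsum {V : Type*} [DecidableEq V] (f : Ω → V) : GA Ω := ∑ g ∈ stab f, δ g

/-- the signed sum of the elements of the group preserving the blocks -/
noncomputable def asum {V : Type*} [DecidableEq V] (f : Ω → V) : GA Ω :=
  ∑ g ∈ stab f, (Perm.sign g : ℤ) • δ g

section absorb

variable {V : Type*} [DecidableEq V] {f : Ω → V} {u : Perm Ω}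

theorem δ_mul_rsum (hu : u ∈ stab f) : δ u * rsum f = rsum f := by
  unfold rsum
  rw [Finset.mul_sum]
  refine Finset.sum_bij' (fun g _ => u * g) (fun g _ => u⁻¹ * g) ?_ ?_ ?_ ?_ ?_
  · intro g hg; exact mul_mem_stab hu hg
  · intro g hg; exact mul_mem_stab (inv_mem_stab hu) hg
  · intro g hg; simp
  · intro g hg; simp
  · intro g hg; rw [δ_mul]

theorem rsum_mul_δ (hu : u ∈ stab f) : rsum f * δ u = rsum f := by
  unfold rsum
  rw [Finset.sum_mul]
  refine Finset.sum_bij' (fun g _ => g * u) (fun g _ => g * u⁻¹) ?_ ?_ ?_ ?_ ?_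
  · intro g hg; exact mul_mem_stab hg hu
  · intro g hg; exact mul_mem_stab hg (inv_mem_stab hu)
  · intro g hg; simp
  · intro g hg; simp
  · intro g hg; rw [δ_mul]

theorem δ_mul_asum (hu : u ∈ stab f) : δ u * asum f = (Perm.sign u : ℤ) • asum f := by
  unfold asum
  rw [Finset.mul_sum, Finset.smul_sum]
  refine Finset.sum_bij' (fun g _ => u * g) (fun g _ => u⁻¹ * g) ?_ ?_ ?_ ?_ ?_
  · intro g hg; exact mul_mem_stab hu hg
  · intro g hg; exact mul_mem_stab (inv_mem_stab hu) hg
  · intro g hg; simp
  · intro g hg; simp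
  · intro g hg
    rw [δ_mul, Perm.sign_mul, smul_smul, mul_smul_comm]
    congr 1
    push_cast
    rw [← mul_assoc]
    have : ((Perm.sign u : ℤ)) * (Perm.sign u : ℤ) = 1 := by
      rw [← Units.val_mul, Int.units_mul_self, Units.val_one]
    rw [this, one_mul]

theorem asum_mul_δ (hu : u ∈ stab f) : asum f * δ u = (Perm.sign u : ℤ) • asum f := by
  unfold asum
  rw [Finset.sum_mul, Finset.smul_sum]
  refine Finset.sum_bij' (fun g _ => g * u) (fun g _ => g * u⁻¹) ?_ ?_ ?_ ?_ ?_
  · intro g hg; exact mul_mem_stab hg hu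
  · intro g hg; exact mul_mem_stab hg (inv_mem_stab hu)
  · intro g hg; simp
  · intro g hg; simp
  · intro g hg
    rw [δ_mul, Perm.sign_mul, smul_smul, smul_mul_assoc]
    congr 1
    push_cast
    rw [mul_comm (Perm.sign g : ℤ), ← mul_assoc]
    have : ((Perm.sign u : ℤ)) * (Perm.sign u : ℤ) = 1 := by
      rw [← Units.val_mul, Int.units_mul_self, Units.val_one]
    rw [this, one_mul]

theorem sign_sq (u : Perm Ω) : (Perm.sign u : ℤ) * (Perm.sign u : ℤ) = 1 := by
  rw [← Units.val_mul, Int.units_mul_self, Units.val_one]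

theorem rsum_mul_rsum (f : Ω → V) : rsum f * rsum f = ((stab f).card : ℤ) • rsum f := by
  conv_lhs => lhs; unfold rsum
  rw [Finset.sum_mul, Finset.sum_congr rfl (fun u hu => δ_mul_rsum hu), Finset.sum_const]
  simp

theorem asum_mul_asum (f : Ω → V) : asum f * asum f = ((stab f).card : ℤ) • asum f := by
  conv_lhs => lhs; unfold asum
  rw [Finset.sum_mul]
  have : ∀ u ∈ stab f, ((Perm.sign u : ℤ) • δ u) * asum f = asum f := by
    intro u hu
    rw [smul_mul_assoc, δ_mul_asum hu, smul_smul, sign_sq, one_smul]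
  rw [Finset.sum_congr rfl this, Finset.sum_const]
  simp

theorem st_rsum (f : Ω → V) : st (rsum f) = rsum f := by
  unfold rsum
  rw [map_sum]
  refine Finset.sum_bij' (fun g _ => g⁻¹) (fun g _ => g⁻¹) ?_ ?_ ?_ ?_ ?_
  · intro g hg; exact inv_mem_stab hg
  · intro g hg; exact inv_mem_stab hg
  · intro g hg; simp
  · intro g hg; simp
  · intro g hg; rw [st_of]

theorem st_asum (f : Ω → V) : st (asum f) = asum f := by
  unfold asum
  rw [map_sum]
  refine Finset.sum_bij' (fun g _ => g⁻¹) (fun g _ => g⁻¹) ?_ ?_ ?_ ?_ ?_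
  · intro g hg; exact inv_mem_stab hg
  · intro g hg; exact inv_mem_stab hg
  · intro g hg; simp
  · intro g hg; simp
  · intro g hg; rw [st_smul, st_of, Perm.sign_inv]

theorem asum_conj (f : Ω → V) (g : Perm Ω) :
    asum (f ∘ g) = δ g⁻¹ * asum f * δ g := by
  unfold asum
  rw [Finset.mul_sum, Finset.sum_mul]
  refine Finset.sum_bij' (fun h _ => g * h * g⁻¹) (fun h _ => g⁻¹ * h * g) ?_ ?_ ?_ ?_ ?_
  · intro h hh
    rw [mem_stab] at *
    intro x
    have := hh (g⁻¹ x)
    simpa using this
  · intro h hh
    rw [mem_stab] at *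
    intro x
    simp [hh (g x)]
  · intro h hh; simp [mul_assoc]
  · intro h hh; simp [mul_assoc]
  · intro h hh
    rw [mul_smul_comm, smul_mul_assoc, ← δ_mul, ← δ_mul]
    congr 1
    · rw [Perm.sign_mul, Perm.sign_mul, Perm.sign_inv]
      push_cast
      rw [mul_comm, ← mul_assoc, sign_sq, one_mul]
    · congr 1; group

end absorb

section rows

variable {V : Type*} [DecidableEq V]

/-- `f` is injective on every row -/
def RowInj (val : Ω → V) (f : Ω → ℕ) : Prop := ∀ x y, val x = val y → f x = f y → x = y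

/-- the rank of an element within its row -/
def lev (val : Ω → V) (b : Ω → ℕ) (x : Ω) : ℕ :=
  (Finset.univ.filter fun y => val y = val x ∧ b y < b x).card

theorem lev_lt_of {val : Ω → V} {b : Ω → ℕ} {x y : Ω} (h : val x = val y) (hb : b x < b y) :
    lev val b x < lev val b y := by
  unfold lev
  apply Finset.card_lt_card
  rw [Finset.ssubset_iff_of_subset]
  · refine ⟨x, ?_, ?_⟩
    · simp [h, hb]
    · simp
  · intro z hz
    simp only [Finset.mem_filter, Finset.mem_univ, true_and] at hz ⊢
    exact ⟨hz.1.trans h, hz.2.trans hb⟩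

theorem le_of_lev_le {val : Ω → V} {b : Ω → ℕ} {x y : Ω} (h : val x = val y)
    (hl : lev val b x ≤ lev val b y) : b x ≤ b y := by
  by_contra hb
  push Not at hb
  exact absurd (lev_lt_of h.symm hb) (not_lt.mpr hl)

theorem lev_rowInj {val : Ω → V} {b : Ω → ℕ} (hb : RowInj val b) : RowInj val (lev val b) := by
  intro x y hxy hl
  apply hb x y hxy
  exact le_antisymm (le_of_lev_le hxy hl.le) (le_of_lev_le hxy.symm hl.ge)

/-- the row over `v` -/
def row (val : Ω → V) (v : V) : Finset Ω := Finset.univ.filter fun x => val x = v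

theorem mem_row {val : Ω → V} {v : V} {x : Ω} : x ∈ row val v ↔ val x = v := by simp [row]

theorem card_image_row {val : Ω → V} {f : Ω → ℕ} (hf : RowInj val f) (v : V) :
    ((row val v).image f).card = (row val v).card := by
  apply Finset.card_image_of_injOn
  intro x hx y hy hxy
  rw [Finset.mem_coe, mem_row] at hx hy
  exact hf x y (hx.trans hy.symm) hxy

/-- `l` numbers every row from `0` upwards -/
def IsLev (val : Ω → V) (l : Ω → ℕ) : Prop :=
  RowInj val l ∧ ∀ v, (row val v).image l = Finset.range (row val v).card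

theorem lev_isLev {val : Ω → V} {b : Ω → ℕ} (hb : RowInj val b) : IsLev val (lev val b) := by
  refine ⟨lev_rowInj hb, fun v => ?_⟩
  apply Finset.eq_of_subset_of_card_le
  · intro n hn
    rw [Finset.mem_image] at hn
    obtain ⟨x, hx, rfl⟩ := hn
    rw [mem_row] at hx
    rw [Finset.mem_range]
    unfold lev
    apply Finset.card_lt_card
    rw [Finset.ssubset_iff_of_subset]
    · refine ⟨x, mem_row.mpr hx, by simp⟩
    · intro z hz
      simp only [Finset.mem_filter, Finset.mem_univ, true_and] at hz
      exact mem_row.mpr (hz.1.trans hx)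
  · rw [Finset.card_range, card_image_row (lev_rowInj hb)]

theorem exists_row_perm {val : Ω → V} {f f' : Ω → ℕ} (hf' : RowInj val f')
    (h : ∀ v, (row val v).image f' = (row val v).image f) :
    ∃ g ∈ stab val, ∀ x, f (g x) = f' x := by
  have h1 : ∀ x, ∃ y, val y = val x ∧ f y = f' x := by
    intro x
    have : f' x ∈ (row val (val x)).image f := by
      rw [← h]
      exact Finset.mem_image_of_mem _ (mem_row.mpr rfl)
    rw [Finset.mem_image] at this
    obtain ⟨y, hy, hy'⟩ := this
    exact ⟨y, mem_row.mp hy, hy'⟩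
  choose γ hγ1 hγ2 using h1
  have hinj : Function.Injective γ := by
    intro x y hxy
    apply hf' x y
    · rw [← hγ1 x, ← hγ1 y, hxy]
    · rw [← hγ2 x, ← hγ2 y, hxy]
  refine ⟨Equiv.ofBijective γ (Finite.injective_iff_bijective.mp hinj), ?_, ?_⟩
  · rw [mem_stab]; intro x; exact hγ1 x
  · intro x; exact hγ2 x

theorem sum_range_card_le (t : Finset ℕ) : ∑ i ∈ Finset.range t.card, i ≤ ∑ i ∈ t, i := by
  induction t using Finset.induction_on_max with
  | empty => simp
  | insert a s hs ih =>
    have ha : a ∉ s := fun h => lt_irrefl _ (hs a h)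
    rw [Finset.card_insert_of_notMem ha, Finset.sum_range_succ, Finset.sum_insert ha, add_comm]
    have h2 : s.card ≤ a := by
      have : s ⊆ Finset.range a := fun x hx => Finset.mem_range.mpr (hs x hx)
      simpa using Finset.card_le_card this
    exact add_le_add h2 ih

theorem eq_range_of_sum_le (t : Finset ℕ) (h : ∑ i ∈ t, i ≤ ∑ i ∈ Finset.range t.card, i) :
    t = Finset.range t.card := by
  induction t using Finset.induction_on_max with
  | empty => simp
  | insert a s hs ih =>
    have ha : a ∉ s := fun h => lt_irrefl _ (hs a h)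
    rw [Finset.card_insert_of_notMem ha, Finset.sum_range_succ, Finset.sum_insert ha] at h
    have h1 := sum_range_card_le s
    have h2 : s.card ≤ a := by
      have : s ⊆ Finset.range a := fun x hx => Finset.mem_range.mpr (hs x hx)
      simpa using Finset.card_le_card this
    have h3 : a = s.card := by omega
    have h4 : s = Finset.range s.card := ih (by omega)
    rw [Finset.card_insert_of_notMem ha, Finset.range_add_one, ← h4, ← h3]

theorem sum_rows (val : Ω → V) (f : Ω → ℕ) :
    ∑ v ∈ Finset.univ.image val, ∑ x ∈ row val v, f x = ∑ x, f x := by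
  unfold row
  exact Finset.sum_fiberwise_of_maps_to (fun x _ => Finset.mem_image_of_mem _ (Finset.mem_univ x)) f

theorem isLev_of_rowInj {val : Ω → V} {l : Ω → ℕ} (hl : IsLev val l) {π : Perm Ω}
    (h : RowInj val (fun x => l (π x))) : IsLev val (fun x => l (π x)) := by
  refine ⟨h, ?_⟩
  have hsum : ∑ x, l (π x) = ∑ x, l x := Equiv.sum_comp π l
  have key : ∀ v ∈ Finset.univ.image val,
      ∑ x ∈ row val v, l x = ∑ x ∈ row val v, l (π x) := by
    rw [← Finset.sum_eq_sum_iff_of_le]
    · rw [sum_rows, sum_rows, hsum]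
    · intro v _
      have e1 : ∑ x ∈ row val v, l x = ∑ i ∈ (row val v).image l, i := by
        rw [Finset.sum_image]
        intro x hx y hy hxy
        rw [Finset.mem_coe, mem_row] at hx hy
        exact hl.1 x y (hx.trans hy.symm) hxy
      have e2 : ∑ x ∈ row val v, l (π x) = ∑ i ∈ (row val v).image (fun x => l (π x)), i := by
        rw [Finset.sum_image]
        intro x hx y hy hxy
        rw [Finset.mem_coe, mem_row] at hx hy
        exact h x y (hx.trans hy.symm) hxy
      rw [e1, e2, hl.2 v, ← card_image_row h v]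
      exact sum_range_card_le _
  intro v
  by_cases hv : v ∈ Finset.univ.image val
  · have e2 : ∑ x ∈ row val v, l (π x) = ∑ i ∈ (row val v).image (fun x => l (π x)), i := by
      rw [Finset.sum_image]
      intro x hx y hy hxy
      rw [Finset.mem_coe, mem_row] at hx hy
      exact h x y (hx.trans hy.symm) hxy
    have e1 : ∑ x ∈ row val v, l x = ∑ i ∈ (row val v).image l, i := by
      rw [Finset.sum_image]
      intro x hx y hy hxy
      rw [Finset.mem_coe, mem_row] at hx hy
      exact hl.1 x y (hx.trans hy.symm) hxy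
    have := key v hv
    rw [e1, e2, hl.2 v, ← card_image_row h v] at this
    rw [eq_range_of_sum_le _ this.ge, card_image_row h v]
  · have : row val v = ∅ := by
      rw [Finset.eq_empty_iff_forall_notMem]
      intro x hx
      apply hv
      rw [mem_row] at hx
      rw [← hx]
      exact Finset.mem_image_of_mem _ (Finset.mem_univ x)
    rw [this]; simp

theorem eq_zero_of_eq_neg' {x : GA Ω} (h : x = -x) : x = 0 := by
  have h2 : x + x = 0 := by
    nth_rewrite 2 [h]; simp
  ext g
  have h3 := congrArg (fun z : GA Ω => z.coeff g) h2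
  simp only [MonoidAlgebra.coeff_add, Finsupp.add_apply, MonoidAlgebra.coeff_zero,
    Finsupp.coe_zero, Pi.zero_apply] at h3 ⊢
  omega

/-- von Neumann's lemma -/
theorem vonNeumann {val : Ω → V} {l : Ω → ℕ} (hl : IsLev val l) (x : GA Ω) :
    ∃ n : ℤ, rsum val * x * asum l = n • (rsum val * asum l) := by
  induction x using MonoidAlgebra.induction_on with
  | of π =>
    by_cases h : RowInj val (fun x => l (π⁻¹ x))
    · have h2 := isLev_of_rowInj hl h
      obtain ⟨g, hg, hg'⟩ := exists_row_perm (f := fun x => l (π⁻¹ x)) hl.1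
        (fun v => by rw [hl.2 v]; exact (h2.2 v).symm)
      refine ⟨(Perm.sign (g⁻¹ * π) : ℤ), ?_⟩
      have hs : g⁻¹ * π ∈ stab l := by
        have : π⁻¹ * g ∈ stab l := by
          rw [mem_stab]; intro x; exact hg' x
        have := inv_mem_stab this
        simpa using this
      have e : MonoidAlgebra.of ℤ (Perm Ω) π = δ g * δ (g⁻¹ * π) := by
        rw [← δ_mul]; simp
      rw [e, ← mul_assoc, rsum_mul_δ hg, mul_assoc, δ_mul_asum hs, mul_smul_comm]
    · unfold RowInj at h
      push Not at h
      obtain ⟨x, y, hv, hxy, hne⟩ := h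
      refine ⟨0, ?_⟩
      rw [zero_smul]
      have ht : Equiv.swap x y ∈ stab val := by
        rw [mem_stab]
        intro z
        rcases eq_or_ne z x with rfl | h1
        · rw [Equiv.swap_apply_left]; exact hv.symm
        · rcases eq_or_ne z y with rfl | h2
          · rw [Equiv.swap_apply_right]; exact hv
          · rw [Equiv.swap_apply_of_ne_of_ne h1 h2]
      have ht' : π⁻¹ * Equiv.swap x y * π ∈ stab l := by
        rw [mem_stab]
        intro z
        rw [Perm.mul_apply, Perm.mul_apply]
        rcases eq_or_ne (π z) x with h1 | h1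
        · rw [h1, Equiv.swap_apply_left, ← hxy, ← h1, ← Perm.mul_apply, inv_mul_cancel,
            Perm.one_apply]
        · rcases eq_or_ne (π z) y with h2 | h2
          · rw [h2, Equiv.swap_apply_right, hxy, ← h2, ← Perm.mul_apply, inv_mul_cancel,
              Perm.one_apply]
          · rw [Equiv.swap_apply_of_ne_of_ne h1 h2, ← Perm.mul_apply, inv_mul_cancel,
              Perm.one_apply]
      have hsgn : Perm.sign (π⁻¹ * Equiv.swap x y * π) = -1 := by
        rw [Perm.sign_mul, Perm.sign_mul, Perm.sign_inv, Perm.sign_swap hne, mul_comm,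
          ← mul_assoc, Int.units_mul_self, one_mul]
      have e1 : rsum val * MonoidAlgebra.of ℤ (Perm Ω) π * asum l
          = - (rsum val * MonoidAlgebra.of ℤ (Perm Ω) π * asum l) := by
        calc rsum val * MonoidAlgebra.of ℤ (Perm Ω) π * asum l
            = (rsum val * δ (Equiv.swap x y)) * δ π * asum l := by rw [rsum_mul_δ ht]
          _ = rsum val * (δ (Equiv.swap x y * π)) * asum l := by rw [δ_mul]; simp only [mul_assoc]
          _ = rsum val * (δ (π * (π⁻¹ * Equiv.swap x y * π))) * asum l := by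
              congr 3; group
          _ = rsum val * δ π * (δ (π⁻¹ * Equiv.swap x y * π) * asum l) := by
              rw [δ_mul]; simp only [mul_assoc]
          _ = _ := by rw [δ_mul_asum ht', hsgn]; simp
      exact eq_zero_of_eq_neg' e1
  | add a b ha hb =>
    obtain ⟨n, hn⟩ := ha
    obtain ⟨m, hm⟩ := hb
    exact ⟨n + m, by rw [mul_add, add_mul, hn, hm, add_smul]⟩
  | smul k a ha =>
    obtain ⟨n, hn⟩ := ha
    exact ⟨k * n, by rw [mul_smul_comm, smul_mul_assoc, hn, smul_smul]⟩

theorem rigid {val : Ω → V} {b : Ω → ℕ} (hb : RowInj val b) {w σ τ : Perm Ω}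
    (hw : w ∈ stab val) (hσ : σ ∈ stab b) (hτ : τ ∈ stab (lev val b)) (h : w * σ * τ = 1) :
    w = 1 := by
  have hu : w⁻¹ = σ * τ := by
    rw [inv_eq_iff_mul_eq_one, ← mul_assoc]; exact h
  have hwu : w⁻¹ ∈ stab val := inv_mem_stab hw
  rw [mem_stab] at hwu hσ hτ
  have key : ∀ l : ℕ, ∀ η, lev val b η = l → w⁻¹ η = η := by
    intro l
    induction l using Nat.strong_induction_on with
    | _ l ih =>
      have hge : ∀ η, lev val b η = l → b η ≤ b (w⁻¹ η) := by
        intro η hη
        apply le_of_lev_le (hwu η).symm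
        by_contra hlt
        push Not at hlt
        have := ih _ (hη ▸ hlt) (w⁻¹ η) rfl
        have h3 := w⁻¹.injective this
        rw [h3] at hlt
        exact lt_irrefl _ hlt
      have hs : ∑ η ∈ Finset.univ.filter (fun η => lev val b η = l), b (w⁻¹ η)
          = ∑ η ∈ Finset.univ.filter (fun η => lev val b η = l), b η := by
        have e1 : ∀ η, b (w⁻¹ η) = b (τ η) := by
          intro η; rw [hu, Perm.mul_apply, hσ]
        simp only [e1]
        refine Finset.sum_bij' (fun η _ => τ η) (fun η _ => τ⁻¹ η) ?_ ?_ ?_ ?_ ?_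
        · intro η hη
          simp only [Finset.mem_filter, Finset.mem_univ, true_and] at hη ⊢
          rw [hτ, hη]
        · intro η hη
          simp only [Finset.mem_filter, Finset.mem_univ, true_and] at hη ⊢
          have := hτ (τ⁻¹ η)
          rw [← this, ← Perm.mul_apply, mul_inv_cancel, Perm.one_apply, hη]
        · intro η _; simp
        · intro η _; simp
        · intro η _; rfl
      have hall := (Finset.sum_eq_sum_iff_of_le (fun η hη => hge η (by simpa using hη))).mp hs.symm
      intro η hη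
      have := hall η (by simpa using hη)
      exact hb _ _ (hwu η) this.symm
  have : w⁻¹ = 1 := by
    ext η
    rw [key _ η rfl, Perm.one_apply]
  exact inv_eq_one.mp this

theorem tr_abc_pos {val : Ω → V} {b : Ω → ℕ} (hb : RowInj val b) :
    0 < tr (rsum val * asum b * asum (lev val b)) := by
  have e : tr (rsum val * asum b * asum (lev val b)) =
      ∑ w ∈ stab val, ∑ σ ∈ stab b, ∑ τ ∈ stab (lev val b),
        (Perm.sign σ : ℤ) * (Perm.sign τ : ℤ) * (if w * σ * τ = 1 then 1 else 0) := by
    unfold rsum asum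
    simp only [Finset.sum_mul, Finset.mul_sum, tr_sum]
    rw [Finset.sum_comm, Finset.sum_comm (s := stab val)]
    refine Finset.sum_congr rfl fun σ _ => ?_
    rw [Finset.sum_comm]
    refine Finset.sum_congr rfl fun w _ => ?_
    refine Finset.sum_congr rfl fun τ _ => ?_
    rw [mul_smul_comm, mul_smul_comm, smul_mul_assoc, smul_smul, ← δ_mul, ← δ_mul, tr_smul, tr_of]
    ring
  rw [e]
  have hterm : ∀ w ∈ stab val, ∀ σ ∈ stab b, ∀ τ ∈ stab (lev val b),
      0 ≤ (Perm.sign σ : ℤ) * (Perm.sign τ : ℤ) * (if w * σ * τ = 1 then 1 else 0) := by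
    intro w hw σ hσ τ hτ
    split_ifs with h
    · have h1 := rigid hb hw hσ hτ h
      rw [h1, one_mul] at h
      have : τ = σ⁻¹ := (eq_inv_of_mul_eq_one_right h)
      rw [this, Perm.sign_inv, sign_sq]; norm_num
    · simp
  have h1 := one_mem_stab val
  have h2 := one_mem_stab b
  have h3 := one_mem_stab (lev val b)
  apply Finset.sum_pos'
  · intro w hw
    exact Finset.sum_nonneg fun σ hσ => Finset.sum_nonneg fun τ hτ => hterm w hw σ hσ τ hτ
  · refine ⟨1, h1, ?_⟩
    apply Finset.sum_pos'
    · intro σ hσ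
      exact Finset.sum_nonneg fun τ hτ => hterm 1 h1 σ hσ τ hτ
    · refine ⟨1, h2, ?_⟩
      apply Finset.sum_pos'
      · intro τ hτ
        exact hterm 1 h1 1 h2 τ hτ
      · exact ⟨1, h3, by simp⟩

theorem exists_nonzero {val : Ω → V} {b : Ω → ℕ} (hb : RowInj val b) :
    ∃ n : ℤ, n ≠ 0 ∧ rsum val * asum b * asum (lev val b) = n • (rsum val * asum (lev val b)) ∧
      tr (rsum val * asum (lev val b)) ≠ 0 := by
  obtain ⟨n, hn⟩ := vonNeumann (lev_isLev hb) (asum b)
  have hpos := tr_abc_pos hb
  rw [hn, tr_smul] at hpos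
  refine ⟨n, ?_, hn, ?_⟩
  · rintro rfl; simp at hpos
  · intro h; rw [h] at hpos; simp at hpos

theorem y_ne_zero {val : Ω → V} {b₁ b₂ : Ω → ℕ} (h₁ : RowInj val b₁) (h₂ : RowInj val b₂) :
    asum b₂ * rsum val * asum b₁ ≠ 0 := by
  obtain ⟨n₁, hn₁, e₁, t₁⟩ := exists_nonzero h₁
  obtain ⟨n₂, hn₂, e₂, -⟩ := exists_nonzero h₂
  have l₁ := lev_isLev h₁
  have l₂ := lev_isLev h₂
  obtain ⟨g, hg, hg'⟩ := exists_row_perm (f := lev val b₁) l₂.1
    (fun v => by rw [l₁.2 v]; exact l₂.2 v)
  have hlev : lev val b₂ = lev val b₁ ∘ g := by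
    funext x; exact (hg' x).symm
  set c := asum (lev val b₁) with hc
  have hc2 : asum (lev val b₂) = δ g⁻¹ * c * δ g := by rw [hlev, asum_conj]
  have hcancel : ∀ x y : GA Ω, x * δ g = y * δ g → x = y := by
    intro x y hxy
    have := congrArg (fun z => z * δ g⁻¹) hxy
    simp only [mul_assoc, ← δ_mul, mul_inv_cancel, δ_one, mul_one] at this
    exact this
  have e₃ : rsum val * asum b₂ * δ g⁻¹ * c = n₂ • (rsum val * c) := by
    apply hcancel
    rw [hc2] at e₂
    have e4 : rsum val * (δ g⁻¹ * c * δ g) = rsum val * c * δ g := by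
      rw [← mul_assoc, ← mul_assoc, rsum_mul_δ (inv_mem_stab hg)]
    rw [e4] at e₂
    rw [smul_mul_assoc, ← e₂]
    simp only [mul_assoc]
  have e₄ : c * δ g * asum b₂ * rsum val = n₂ • (c * rsum val) := by
    have := congrArg st e₃
    rw [st_mul, st_mul, st_mul, st_smul, st_mul, st_of, st_rsum, hc, st_asum,
      inv_inv, st_asum] at this
    rw [hc, ← this]
    simp only [mul_assoc]
  intro hy
  have h0 : c * δ g * (asum b₂ * rsum val * asum b₁) * c = 0 := by rw [hy]; simp
  have h5 : c * δ g * (asum b₂ * rsum val * asum b₁) * c = (n₁ * n₂) • (c * rsum val * c) := by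
    calc c * δ g * (asum b₂ * rsum val * asum b₁) * c
        = (c * δ g * asum b₂ * rsum val) * (asum b₁ * c) := by simp only [mul_assoc]
      _ = n₂ • (c * (rsum val * asum b₁ * c)) := by
          rw [e₄, smul_mul_assoc]; simp only [mul_assoc]
      _ = _ := by
          rw [e₁, mul_smul_comm, smul_smul, mul_comm n₂, mul_assoc]
  rw [h5] at h0
  have h6 := congrArg tr h0
  rw [tr_smul, tr_mul_comm, ← mul_assoc, hc, asum_mul_asum, smul_mul_assoc, tr_smul,
    tr_mul_comm, tr_zero] at h6
  have hcard : (0 : ℤ) < ((stab (lev val b₁)).card : ℤ) := by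
    have := Finset.card_pos.mpr ⟨1, one_mem_stab (lev val b₁)⟩
    exact_mod_cast this
  have := mul_ne_zero (mul_ne_zero hn₁ hn₂) (mul_ne_zero hcard.ne' t₁)
  exact this h6

theorem tr_baba_pos {val : Ω → V} {b₁ b₂ : Ω → ℕ} (h₁ : RowInj val b₁) (h₂ : RowInj val b₂) :
    0 < tr (asum b₂ * rsum val * asum b₁ * rsum val) := by
  have hpos := tr_mul_st_self_pos _ (y_ne_zero h₁ h₂)
  rw [st_mul, st_mul, st_asum, st_asum, st_rsum] at hpos
  have e : tr (asum b₂ * rsum val * asum b₁ * (asum b₁ * (rsum val * asum b₂))) =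
      ((stab b₁).card : ℤ) * (((stab b₂).card : ℤ) *
        tr (asum b₂ * rsum val * asum b₁ * rsum val)) := by
    have e1 : asum b₂ * rsum val * asum b₁ * (asum b₁ * (rsum val * asum b₂)) =
        ((stab b₁).card : ℤ) • (asum b₂ * rsum val * asum b₁ * rsum val * asum b₂) := by
      calc asum b₂ * rsum val * asum b₁ * (asum b₁ * (rsum val * asum b₂))
          = asum b₂ * rsum val * (asum b₁ * asum b₁) * rsum val * asum b₂ := by
            simp only [mul_assoc]
        _ = _ := by
            rw [asum_mul_asum, mul_smul_comm, smul_mul_assoc, smul_mul_assoc]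
    rw [e1, tr_smul, tr_mul_comm, ← mul_assoc, ← mul_assoc, ← mul_assoc, asum_mul_asum,
      smul_mul_assoc, smul_mul_assoc, smul_mul_assoc, tr_smul]
  rw [e] at hpos
  have hc1 : (0 : ℤ) < ((stab b₁).card : ℤ) := by
    exact_mod_cast Finset.card_pos.mpr ⟨1, one_mem_stab b₁⟩
  have hc2 : (0 : ℤ) < ((stab b₂).card : ℤ) := by
    exact_mod_cast Finset.card_pos.mpr ⟨1, one_mem_stab b₂⟩
  exact pos_of_mul_pos_right (pos_of_mul_pos_right hpos hc1.le) hc2.le

/-- The positivity statement in combinatorial form. -/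
theorem core_pos {val : Ω → V} {b₁ b₂ : Ω → ℕ} (h₁ : RowInj val b₁) (h₂ : RowInj val b₂) :
    0 < ∑ σ ∈ stab b₁, ∑ τ ∈ stab b₂, (Perm.sign σ : ℤ) * (Perm.sign τ : ℤ) *
      (((stab val).filter fun g => τ * g * σ⁻¹ ∈ stab val).card : ℤ) := by
  have hpos := tr_baba_pos h₁ h₂
  have e : tr (asum b₂ * rsum val * asum b₁ * rsum val) =
      ∑ σ ∈ stab b₁, ∑ τ ∈ stab b₂, (Perm.sign σ : ℤ) * (Perm.sign τ : ℤ) *
      (((stab val).filter fun g => τ * g * σ⁻¹ ∈ stab val).card : ℤ) := by
    rw [Finset.sum_comm]
    conv_lhs => unfold asum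
    rw [Finset.sum_mul, Finset.sum_mul, Finset.sum_mul, tr_sum]
    refine Finset.sum_congr rfl fun τ _ => ?_
    rw [Finset.mul_sum, Finset.sum_mul, tr_sum]
    refine Finset.sum_bij' (fun σ _ => σ⁻¹) (fun σ _ => σ⁻¹) ?_ ?_ ?_ ?_ ?_
    · intro g hg; exact inv_mem_stab hg
    · intro g hg; exact inv_mem_stab hg
    · intro g hg; simp
    · intro g hg; simp
    · intro σ hσ
      rw [smul_mul_assoc, smul_mul_assoc, smul_mul_assoc, mul_smul_comm, smul_mul_assoc,
        smul_smul, tr_smul, Perm.sign_inv, inv_inv, mul_comm (Perm.sign τ : ℤ)]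
      congr 1
      unfold rsum
      simp only [Finset.mul_sum, Finset.sum_mul, tr_sum]
      rw [Finset.card_filter]
      push_cast
      rw [Finset.sum_comm]
      refine Finset.sum_congr rfl fun g _ => ?_
      have : ∀ h ∈ stab val, tr (δ τ * δ g * δ σ * δ h) = if h = (τ * g * σ)⁻¹ then 1 else 0 := by
        intro h _
        rw [← δ_mul, ← δ_mul, ← δ_mul, tr_of]
        congr 1
        rw [eq_iff_iff, mul_eq_one_iff_eq_inv]
        constructor
        · intro h'; rw [h']; simp
        · intro h'; rw [h']; simp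
      rw [Finset.sum_congr rfl this, Finset.sum_ite_eq']
      congr 1
      rw [eq_iff_iff]
      constructor
      · intro h'; simpa using inv_mem_stab h'
      · intro h'; exact inv_mem_stab h'
  rw [← e]
  exact hpos

end rows

end perms

end Pool.Agent.H159
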