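import Mathlib

/-!
# Integer sequences with finite support
-/

namespace Pool.Agent.H159

/-- vanishing for all large arguments -/
def Bd (F : ℤ → ℤ) : Prop := ∃ N : ℤ, ∀ d, N ≤ |d| → F d = 0

/-- the sum of all values -/
noncomputable def tot (F : ℤ → ℤ) : ℤ := ∑ᶠ d, F d

/-- second difference with step two -/
def dl (F : ℤ → ℤ) : ℤ → ℤ := fun d => F d - F (d + 2)

variable {F G : ℤ → ℤ}

theorem Bd.finite (h : Bd F) : (Function.support F).Finite := by
  obtain ⟨N, hN⟩ := h
  apply (Set.finite_Icc (-|N|) |N|).subset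
  intro d hd
  rw [Function.mem_support] at hd
  have h1 : |d| < N := by
    by_contra h2
    exact hd (hN d (not_lt.mp h2))
  have h2 : N ≤ |N| := le_abs_self N
  rw [Set.mem_Icc]
  rw [abs_lt] at h1
  omega

theorem Bd.add (hF : Bd F) (hG : Bd G) : Bd (fun d => F d + G d) := by
  obtain ⟨N, hN⟩ := hF
  obtain ⟨M, hM⟩ := hG
  refine ⟨max N M, fun d hd => ?_⟩
  show F d + G d = 0
  rw [hN d (by omega), hM d (by omega), add_zero]

theorem Bd.smul (hF : Bd F) (a : ℤ) : Bd (fun d => a * F d) := by
  obtain ⟨N, hN⟩ := hF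
  exact ⟨N, fun d hd => by simp only; rw [hN d hd, mul_zero]⟩

theorem Bd.shift (hF : Bd F) (a : ℤ) : Bd (fun d => F (d + a)) := by
  obtain ⟨N, hN⟩ := hF
  refine ⟨N + |a|, fun d hd => hN _ ?_⟩
  have h1 := abs_sub_abs_le_abs_sub d (-a)
  rw [abs_neg, sub_neg_eq_add] at h1
  omega

theorem Bd.refl (hF : Bd F) (a : ℤ) : Bd (fun c => F (a - c)) := by
  obtain ⟨N, hN⟩ := hF
  refine ⟨N + |a|, fun c hc => hN _ ?_⟩
  have h1 := abs_sub_abs_le_abs_sub c a
  rw [abs_sub_comm] at h1
  omega

theorem Bd.dl (hF : Bd F) : Bd (dl F) := by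
  have h := hF.add ((hF.shift 2).smul (-1))
  have e : Pool.Agent.H159.dl F = fun d => F d + -1 * F (d + 2) := by
    funext d
    unfold Pool.Agent.H159.dl
    ring
  rw [e]
  exact h

theorem Bd.iter (hF : Bd F) (n : ℕ) : Bd (Pool.Agent.H159.dl^[n] F) := by
  induction n with
  | zero => exact hF
  | succ n ih => rw [Function.iterate_succ_apply']; exact ih.dl

theorem tot_add (hF : Bd F) (hG : Bd G) : tot (fun d => F d + G d) = tot F + tot G :=
  finsum_add_distrib hF.finite hG.finite

theorem tot_smul (_ : Bd F) (a : ℤ) : tot (fun d => a * F d) = a * tot F :=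
  (mul_finsum F a).symm

theorem tot_shift (F : ℤ → ℤ) (a : ℤ) : tot (fun d => F (d + a)) = tot F :=
  finsum_comp_equiv (Equiv.addRight a) (f := F)

theorem tot_refl (F : ℤ → ℤ) (a : ℤ) : tot (fun c => F (a - c)) = tot F :=
  finsum_comp_equiv (Equiv.subLeft a) (f := F)

theorem tot_dl (hF : Bd F) : tot (dl F) = 0 := by
  have e : dl F = fun d => F d + -1 * F (d + 2) := by
    funext d
    unfold dl
    ring
  rw [e, tot_add hF ((hF.shift 2).smul (-1)), tot_smul (hF.shift 2), tot_shift]
  ring

theorem tot_sub (hF : Bd F) (hG : Bd G) : tot (fun d => F d - G d) = tot F - tot G := by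
  have h := tot_add hF (hG.smul (-1))
  rw [tot_smul hG] at h
  have e : (fun d => F d - G d) = fun d => F d + -1 * G d := by
    funext d; ring
  rw [e, h]; ring

theorem Bd.sub (hF : Bd F) (hG : Bd G) : Bd (fun d => F d - G d) := by
  have h := hF.add (hG.smul (-1))
  have e : (fun d => F d - G d) = fun d => F d + -1 * G d := by
    funext d; ring
  rw [e]; exact h

theorem Bd.zero : Bd (fun _ => 0) := ⟨0, fun _ _ => rfl⟩

theorem Bd.sum {S : Type} (s : Finset S) (F : S → ℤ → ℤ) (h : ∀ i ∈ s, Bd (F i)) :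
    Bd (fun d => ∑ i ∈ s, F i d) := by
  classical
  induction s using Finset.induction_on with
  | empty => simpa using Bd.zero
  | insert i s hi ih =>
    have h1 := (h i (Finset.mem_insert_self i s)).add
      (ih (fun j hj => h j (Finset.mem_insert_of_mem hj)))
    simpa [Finset.sum_insert hi] using h1

theorem tot_zero : tot (fun _ => 0) = 0 := finsum_zero

theorem tot_sum {S : Type} (s : Finset S) (F : S → ℤ → ℤ) (h : ∀ i ∈ s, Bd (F i)) :
    tot (fun d => ∑ i ∈ s, F i d) = ∑ i ∈ s, tot (F i) := by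
  classical
  induction s using Finset.induction_on with
  | empty => simpa using tot_zero
  | insert i s hi ih =>
    have h1 := tot_add (h i (Finset.mem_insert_self i s))
      (Bd.sum s F (fun j hj => h j (Finset.mem_insert_of_mem hj)))
    rw [Finset.sum_insert hi, ← ih (fun j hj => h j (Finset.mem_insert_of_mem hj)), ← h1]
    simp [Finset.sum_insert hi]

theorem eq_zero_of_periodic (hF : Bd F) (h : ∀ c, F c = F (c - 2)) : ∀ c, F c = 0 := by
  intro c
  have h1 : ∀ n : ℕ, F c = F (c - 2 * n) := by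
    intro n
    induction n with
    | zero => simp
    | succ n ih =>
      rw [ih, h]
      congr 1
      push_cast
      ring
  obtain ⟨N, hN⟩ := hF
  rw [h1 (c.natAbs + N.natAbs)]
  apply hN
  have h2 : |c| = c.natAbs := Int.abs_eq_natAbs c
  have h3 : N ≤ N.natAbs := Int.le_natAbs
  have h4 := neg_abs_le (c - 2 * ((c.natAbs + N.natAbs : ℕ) : ℤ))
  have h5 := le_abs_self c
  have h6 : ((c.natAbs + N.natAbs : ℕ) : ℤ) = (c.natAbs : ℤ) + N.natAbs := by push_cast; rfl
  rw [h6] at h4 ⊢
  omega

/-- Dividing by a power of `1 - T²` and evaluating at `T = 1`. -/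
theorem moments {S : Type} (s : Finset S) (a : S → ℤ) (len : S → ℕ) (e : S → ℤ)
    (g : S → ℤ → ℤ) (hb : ∀ q ∈ s, Bd (g q)) (r : ℕ) (hr : ∀ q ∈ s, r ≤ len q)
    (h : ∀ c, ∑ q ∈ s, a q * (dl^[len q] (g q)) (e q - c) = 0) :
    ∑ q ∈ s, (if len q = r then a q * tot (g q) else 0) = 0 := by
  have hB : ∀ j, ∀ q ∈ s, Bd (fun c => a q * (dl^[len q - r + j] (g q)) (e q - c)) :=
    fun j q hq => (((hb q hq).iter _).refl (e q)).smul (a q)
  have key : ∀ j, j ≤ r → ∀ c, ∑ q ∈ s, a q * (dl^[len q - r + (r - j)] (g q)) (e q - c) = 0 := by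
    intro j
    induction j with
    | zero =>
      intro _ c
      rw [← h c]
      apply Finset.sum_congr rfl
      intro q hq
      have := hr q hq
      have e1 : len q - r + (r - 0) = len q := by omega
      rw [e1]
    | succ j ih =>
      intro hj
      have ih' := ih (by omega)
      apply eq_zero_of_periodic (F := fun c => ∑ q ∈ s,
        a q * (dl^[len q - r + (r - (j + 1))] (g q)) (e q - c)) (Bd.sum _ _ (hB _))
      intro c
      rw [← sub_eq_zero, ← ih' c, ← Finset.sum_sub_distrib]
      apply Finset.sum_congr rfl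
      intro q _
      have e1 : len q - r + (r - j) = (len q - r + (r - (j + 1))) + 1 := by omega
      rw [e1, Function.iterate_succ_apply']
      unfold dl
      have e2 : e q - (c - 2) = e q - c + 2 := by ring
      rw [e2]
      ring
  have h0 := key r le_rfl
  have h1 : tot (fun c => ∑ q ∈ s, a q * (dl^[len q - r + (r - r)] (g q)) (e q - c)) = 0 := by
    have : (fun c => ∑ q ∈ s, a q * (dl^[len q - r + (r - r)] (g q)) (e q - c)) =
        fun _ => 0 := funext h0
    rw [this, tot_zero]
  rw [tot_sum _ _ (hB _)] at h1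
  refine Eq.trans ?_ h1
  apply Finset.sum_congr rfl
  intro q hq
  have h2 := hr q hq
  rw [tot_smul (((hb q hq).iter _).refl (e q)), tot_refl]
  by_cases hl : len q = r
  · rw [if_pos hl]
    have e1 : len q - r + (r - r) = 0 := by omega
    rw [e1]
    rfl
  · rw [if_neg hl]
    have e1 : len q - r + (r - r) = (len q - r - 1) + 1 := by omega
    rw [e1, Function.iterate_succ_apply', tot_dl ((hb q hq).iter _), mul_zero]

end Pool.Agent.H159
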