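import Pool.Agent.H159.Low
import Pool.Agent.H159.Moments

/-!
# Vanishing of Euler-Poincare characteristics and the Fischer pairing
-/

set_option linter.unusedSectionVars false
set_option linter.unusedSimpArgs false

open MvPolynomial

namespace Pool.Agent.H159

open KQuiver

section bdtot

variable {k I : Type} [Field k] [DecidableEq I] [KQuiver I] {Ω : Finset (List I)}

variable {X : Type} [AddCommGroup X] [Module k X] [Module (GKLR k I Ω) X]
  [IsScalarTower k (GKLR k I Ω) X] [Module.Finite k X]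

/-- the word space is the sum of its degree parts -/
theorem sum_bd {S : Finset ℤ} (hS : ∀ y : X, ∑ d ∈ S, (gstr k I Ω).f d • y = y) (l : List I) :
    ∑ d ∈ S, bd k Ω X l d = wdm (mops k I Ω X) l := by
  classical
  have hb : ∀ (d : ℤ) (y : X), (mops k I Ω X).Hom l y →
      BiHom (k := k) (Ω := Ω) l d ((gstr k I Ω).f d • y) := by
    intro d y hy
    have hy' : (gops k I Ω).e l • y = y := hy
    rw [bihom_iff]
    constructor
    · rw [smul_smul, ← (gstr k I Ω).f_e, mul_smul, hy']
    · rw [smul_smul, (gstr k I Ω).f_self]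
  let e : wsp (mops k I Ω X) l ≃ₗ[k] ((d : S) → bh k Ω X l d) :=
    { toFun := fun y d => ⟨(gstr k I Ω).f d • y.1, mem_bh.mpr (hb d y.1 (mem_wsp.mp y.2))⟩
      map_add' := by
        intro y z
        funext d
        apply Subtype.ext
        show (gstr k I Ω).f d • (y.1 + z.1) = _
        rw [smul_add]
        rfl
      map_smul' := by
        intro c y
        funext d
        apply Subtype.ext
        show (gstr k I Ω).f d • (c • y.1) = _
        rw [smul_comm]
        rfl
      invFun := fun z => ⟨∑ d : S, (z d).1, by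
        apply Submodule.sum_mem
        intro d _
        exact mem_wsp.mpr (mem_bh.mp (z d).2).1⟩
      left_inv := by
        intro y
        apply Subtype.ext
        show ∑ d : S, (gstr k I Ω).f d • y.1 = y.1
        conv_rhs => rw [← hS y.1]
        exact Finset.sum_coe_sort S (fun d => (gstr k I Ω).f d • y.1)
      right_inv := by
        intro z
        funext d
        apply Subtype.ext
        show (gstr k I Ω).f d • ∑ d' : S, (z d').1 = (z d).1
        rw [Finset.smul_sum, Finset.sum_eq_single d]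
        · exact (mem_bh.mp (z d).2).2
        · intro d' _ hd'
          exact f_smul_ne (mem_bh.mp (z d').2).2 (fun h => hd' (Subtype.ext h.symm))
        · intro h'; exact absurd (Finset.mem_univ _) h' }
  unfold wdm
  rw [e.finrank_eq, Module.finrank_pi_fintype]
  push_cast
  unfold bd
  exact (Finset.sum_coe_sort S (fun d => (Module.finrank k (bh k Ω X l d) : ℤ))).symm

theorem tot_bd (hX : FU k Ω X) (l : List I) :
    Bd (fun d => bd k Ω X l d) ∧ tot (fun d => bd k Ω X l d) = wdm (mops k I Ω X) l := by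
  obtain ⟨S, hS⟩ := hX
  have h0 : ∀ d ∉ S, bd k Ω X l d = 0 := by
    intro d hd
    unfold bd
    have : bh k Ω X l d = ⊥ := by
      rw [eq_bot_iff]
      intro y hy
      rw [mem_bh, bihom_iff] at hy
      rw [Submodule.mem_bot, ← hy.2, ← hS y, Finset.smul_sum]
      apply Finset.sum_eq_zero
      intro d' hd'
      rw [smul_smul, (gstr k I Ω).f_ne d d' (by rintro rfl; exact hd hd'), zero_smul]
    rw [this]
    simp
  constructor
  · refine ⟨(∑ d ∈ S, |d|) + 1, fun d hd => h0 d ?_⟩
    intro hdS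
    have := Finset.single_le_sum (f := fun d : ℤ => |d|) (fun i _ => abs_nonneg i) hdS
    have h2 : |d| ≤ ∑ d ∈ S, |d| := this
    omega
  · unfold tot
    rw [finsum_eq_sum_of_support_subset (s := S), sum_bd hS]
    intro d hd
    by_contra h
    exact hd (h0 d (by simpa using h))

variable {Y : Type} [AddCommGroup Y] [Module k Y] [Module (GKLR k I Ω) Y]
  [IsScalarTower k (GKLR k I Ω) Y] [Module.Finite k Y]

theorem gD_iter (hΩ : PC Ω) {ss : List (List I)} (hg : GC ss) (hw : ss.flatten ∈ Ω) (i : ℕ)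
    (hi : i ≤ ss.length) : ∀ d, gD k Ω Y ss d i = (dl^[i] (fun d => gD k Ω Y ss d 0)) d := by
  induction i with
  | zero => intro d; rfl
  | succ i ih =>
    intro d
    rw [gD_succ hΩ hg hw i (by omega), ih (by omega), ih (by omega),
      Function.iterate_succ_apply']
    rfl

end bdtot

section

variable {R : Type}

theorem hh_add (f g : MvPolynomial (Seg R) ℤ) (ss : List (List (R × ℤ))) :
    hh (f + g) ss = hh f ss + hh g ss := by
  unfold hh; rw [map_add, map_add]

theorem hh_zero (ss : List (List (R × ℤ))) : hh (0 : MvPolynomial (Seg R) ℤ) ss = 0 := by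
  unfold hh; rw [map_zero, map_zero]

theorem hh_smul (c : ℤ) (f : MvPolynomial (Seg R) ℤ) (ss : List (List (R × ℤ))) :
    hh (c • f) ss = c * hh f ss := by
  unfold hh
  rw [LinearMap.map_smul, map_zsmul, smul_eq_mul]

theorem hh_sum {S : Type} (s : Finset S) (a : S → ℤ) (F : S → MvPolynomial (Seg R) ℤ)
    (ss : List (List (R × ℤ))) :
    hh (∑ q ∈ s, a q • F q) ss = ∑ q ∈ s, a q * hh (F q) ss := by
  classical
  induction s using Finset.induction_on with
  | empty => simp [hh_zero]
  | insert q s hq ih => rw [Finset.sum_insert hq, Finset.sum_insert hq, hh_add, hh_smul, ih]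

theorem GC.chain {R : Type} {ss : List (List (R × ℤ))} (h : GC ss) :
    ∀ s ∈ ss, s.IsChain arr ∧ s ≠ [] := by
  intro s hs
  refine ⟨?_, (h s hs).2⟩
  have hgood := (h s hs).1
  rw [List.isChain_iff_forall_rel_of_append_cons_cons]
  intro a b l₁ l₂ hsplit
  exact (hgood l₁ a [] b l₂ (by rw [hsplit]; rfl)).2.1 rfl

end

variable {k R : Type} [Field k] [LinearOrder (R × ℤ)] [LinQ (R × ℤ)]
  {Ω : Finset (List (R × ℤ))}

/-- The pairing of a module with induced modules. -/
theorem tot_gD {Y : Type} [AddCommGroup Y] [Module k Y] [Module (GKLR k (R × ℤ) Ω) Y]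
    [IsScalarTower k (GKLR k (R × ℤ) Ω) Y] [Module.Finite k Y] (hΩ : PC Ω)
    (hY : FU k Ω Y) {f : MvPolynomial (Seg R) ℤ}
    (hf : ∀ u, wdm (mops k (R × ℤ) Ω Y) u = wordMult f u) : ∀ ss : List (List (R × ℤ)), GC ss →
    ss.flatten ∈ Ω → Bd (fun d => gD k Ω Y ss d 0) ∧ tot (fun d => gD k Ω Y ss d 0) = hh f ss := by
  apply chain_induction (P := fun ss => ss.flatten ∈ Ω → Bd (fun d => gD k Ω Y ss d 0) ∧
    tot (fun d => gD k Ω Y ss d 0) = hh f ss)
  · intro l _
    have h1 := tot_bd hY l
    have e : (fun d => gD k Ω Y (sing l) d 0) = fun d => bd k Ω Y l d :=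
      funext fun d => gD_sing Y l d
    rw [e]
    exact ⟨h1.1, by rw [h1.2, hf, wordMult_eq]⟩
  · intro A s b C hs hg h1 h2 hw
    have w1 := hΩ _ hw _ (perm_cut A C s b)
    have w2 := hΩ _ hw _ (perm_swap A C s b)
    obtain ⟨b1, t1⟩ := h1 w1
    obtain ⟨b2, t2⟩ := h2 w2
    have e : (fun d => gD k Ω Y (A ++ (s ++ [b]) :: C) d 0) = fun d =>
        gD k Ω Y (A ++ s :: [b] :: C) d 0 -
          (fun d => gD k Ω Y (A ++ [b] :: s :: C) d 0) (d + 1) :=
      funext fun d => gD_cut hΩ hs hg hw d
    rw [e]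
    refine ⟨b1.sub (b2.shift 1), ?_⟩
    have t3 : tot (fun d => gD k Ω Y (A ++ [b] :: s :: C) (d + 1) 0) =
        hh f (A ++ [b] :: s :: C) :=
      (tot_shift (fun d => gD k Ω Y (A ++ [b] :: s :: C) d 0) 1).trans t2
    rw [tot_sub b1 (b2.shift 1), t1, t3, hh_cut f A C hs b]

/-- The numerical heart: vanishing Euler-Poincare characteristics force the Fischer pairing of the
lowest parts to vanish. -/
theorem numeric [DecidableEq (Seg R)] (hΩ : PC Ω) {X Y : Type}
    [AddCommGroup X] [Module k X] [Module (GKLR k (R × ℤ) Ω) X]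
    [IsScalarTower k (GKLR k (R × ℤ) Ω) X] [Module.Finite k X]
    [AddCommGroup Y] [Module k Y] [Module (GKLR k (R × ℤ) Ω) Y]
    [IsScalarTower k (GKLR k (R × ℤ) Ω) Y] [Module.Finite k Y]
    (hX : FU k Ω X) (hY : FU k Ω Y) {f₁ f₂ : MvPolynomial (Seg R) ℤ}
    (hf₁ : ∀ u, wdm (mops k (R × ℤ) Ω X) u = wordMult f₁ u)
    (hf₂ : ∀ u, wdm (mops k (R × ℤ) Ω Y) u = wordMult f₂ u) {r : ℕ}
    (hr₁ : ∀ m ∈ f₁.support, r ≤ m.degree) (hr₂ : ∀ m ∈ f₂.support, r ≤ m.degree)
    {P : List (R × ℤ) → Prop} (hP : ∀ l l', l.Perm l' → P l → P l')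
    (hXP : ∀ u, wdm (mops k (R × ℤ) Ω X) u ≠ 0 → P u)
    (hPr : ∀ ss : List (List (R × ℤ)), SC ss → P ss.flatten → r ≤ ss.length)
    (hep : ∀ c, epM k (R := GKLR k (R × ℤ) Ω) X (Sh k Ω Y c) = 0) :
    fis (homogeneousComponent r f₁) (homogeneousComponent r f₂) = 0 := by
  obtain ⟨a, a1, a2, a3⟩ := thick hΩ hP X hX hXP
  have hlen : ∀ q ∈ a.support, r ≤ q.1.length := fun q hq =>
    hPr _ (a1 q hq).1 (a1 q hq).2.2
  set F₁ : MvPolynomial (Seg R) ℤ := ∑ q ∈ a.support, a q • mon q.1 with hF₁
  have hmon : ∀ q ∈ a.support, mon q.1 = monomial (mo (sgm q.1)) 1 := fun q hq =>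
    mon_eq (fun s hs => ((a1 q hq).1.1 s hs).2)
  -- word multiplicities agree
  have hw : ∀ u, hh F₁ (sing u) = hh f₁ (sing u) := by
    intro u
    rw [← wordMult_eq f₁, ← hf₁, a3, hF₁, hh_sum]
    unfold Finsupp.sum
    apply Finset.sum_congr rfl
    intro q hq
    rw [hh_mon u q.1 (fun s hs => ((a1 q hq).1.1 s hs).1)]
  have hall : ∀ ss : List (List (R × ℤ)), GC ss → hh F₁ ss = hh f₁ ss := by
    apply chain_induction (P := fun ss => hh F₁ ss = hh f₁ ss)
    · exact hw
    · intro A s b C hs _ h1 h2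
      rw [hh_cut _ _ _ hs, hh_cut _ _ _ hs, h1, h2]
  have hF₁r : ∀ m ∈ F₁.support, r ≤ m.degree := by
    intro m hm
    rw [mem_support_iff, hF₁, coeff_sum] at hm
    obtain ⟨q, hq, hq'⟩ := Finset.exists_ne_zero_of_sum_ne_zero hm
    rw [hmon q hq, coeff_smul, coeff_monomial] at hq'
    by_cases h1 : mo (sgm q.1) = m
    · rw [← h1, mo_degree, sgm_length (fun s hs => ((a1 q hq).1.1 s hs).2)]
      exact hlen q hq
    · rw [if_neg h1, smul_zero] at hq'
      exact absurd rfl hq'
  have hfcpos : ∀ m : Seg R →₀ ℕ, (fc m : ℤ) ≠ 0 := by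
    intro m
    unfold fc Finsupp.prod
    rw [Nat.cast_ne_zero, Finset.prod_ne_zero_iff]
    intro i _
    exact Nat.factorial_ne_zero _
  have hhom : homogeneousComponent r F₁ = homogeneousComponent r f₁ := by
    ext m
    rw [coeff_homogeneousComponent, coeff_homogeneousComponent]
    by_cases hm : m.degree = r
    · rw [if_pos hm, if_pos hm]
      obtain ⟨L, rfl⟩ := exists_mo m
      obtain ⟨ss, h1, rfl⟩ := exists_chains L
      rw [mo_degree, sgm_length (fun s hs => (h1 s hs).2)] at hm
      subst hm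
      have hGC : GC ss := fun s hs => ⟨good_of_chain (h1 s hs).1, (h1 s hs).2⟩
      have h2 := hall ss hGC
      rw [hh_low h1 hF₁r, hh_low h1 hr₁] at h2
      exact mul_left_cancel₀ (hfcpos _) h2
    · rw [if_neg hm, if_neg hm]
  -- the moments of the Euler-Poincare characteristics
  have hgD : ∀ q ∈ a.support, Bd (fun d => gD k Ω Y q.1 d 0) ∧
      tot (fun d => gD k Ω Y q.1 d 0) = hh f₂ q.1 := fun q hq =>
    tot_gD hΩ hY hf₂ q.1 (a1 q hq).1.gc (a1 q hq).2.1
  have hmom := moments a.support (fun q => a q) (fun q => q.1.length) (fun q => q.2)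
    (fun q => fun d => gD k Ω Y q.1 d 0) (fun q hq => (hgD q hq).1) r hlen (by
      intro c
      rw [← hep c, (a2 (Sh k Ω Y c)).2]
      unfold Finsupp.sum
      apply Finset.sum_congr rfl
      intro q hq
      show _ = a q * gD k Ω (Sh k Ω Y c) q.1 q.2 q.1.length
      rw [gD_shift hΩ c (a1 q hq).1.gc (a1 q hq).2.1 _ le_rfl,
        gD_iter hΩ (a1 q hq).1.gc (a1 q hq).2.1 _ le_rfl])
  rw [← hhom, fis_eq_sum _ _ (a.support.image fun q => mo (sgm q.1))]
  · rw [← hmom]
    have e1 : ∀ m, coeff m (homogeneousComponent r F₁) =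
        ∑ q ∈ a.support, (if q.1.length = r then (if mo (sgm q.1) = m then a q else 0) else 0) := by
      intro m
      rw [coeff_homogeneousComponent, hF₁, coeff_sum]
      by_cases hm : m.degree = r
      · rw [if_pos hm]
        apply Finset.sum_congr rfl
        intro q hq
        rw [hmon q hq, coeff_smul, coeff_monomial]
        by_cases h1 : mo (sgm q.1) = m
        · rw [if_pos h1, if_pos h1, if_pos, smul_eq_mul, mul_one]
          rw [← hm, ← h1, mo_degree, sgm_length (fun s hs => ((a1 q hq).1.1 s hs).2)]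
        · rw [if_neg h1, if_neg h1, smul_zero, ite_self]
      · rw [if_neg hm]
        symm
        apply Finset.sum_eq_zero
        intro q hq
        by_cases h1 : q.1.length = r
        · rw [if_pos h1, if_neg]
          rintro rfl
          apply hm
          rw [mo_degree, sgm_length (fun s hs => ((a1 q hq).1.1 s hs).2), h1]
        · rw [if_neg h1]
    simp only [e1, Finset.sum_mul]
    rw [Finset.sum_comm]
    apply Finset.sum_congr rfl
    intro q hq
    by_cases h1 : q.1.length = r
    · simp only [if_pos h1]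
      rw [Finset.sum_eq_single (mo (sgm q.1))]
      · rw [if_pos rfl, (hgD q hq).2, hh_low (a1 q hq).1.1 (by rw [h1]; exact hr₂),
          coeff_homogeneousComponent, if_pos (by
            rw [mo_degree, sgm_length (fun s hs => ((a1 q hq).1.1 s hs).2), h1])]
        unfold fc
        ring
      · intro m _ hm
        rw [if_neg (Ne.symm hm)]; ring
      · intro h'
        exact absurd (Finset.mem_image_of_mem _ hq) h'
    · simp only [if_neg h1]
      simp
  · intro m hm
    rw [mem_support_iff, coeff_homogeneousComponent] at hm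
    by_cases hd : m.degree = r
    · rw [if_pos hd, hF₁, coeff_sum] at hm
      obtain ⟨q, hq, hq'⟩ := Finset.exists_ne_zero_of_sum_ne_zero hm
      rw [hmon q hq, coeff_smul, coeff_monomial] at hq'
      by_cases h1 : mo (sgm q.1) = m
      · rw [← h1]
        exact Finset.mem_image_of_mem _ hq
      · rw [if_neg h1, smul_zero] at hq'
        exact absurd rfl hq'
    · rw [if_neg hd] at hm
      exact absurd rfl hm

end Pool.Agent.H159
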