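import Pool.Agent.H159.Wrap
import Pool.Agent.H159.Numeric
import Pool.Agent.H159.BlockV

/-!
# Ext groups between modules of Arthur type: the graded case
-/

set_option linter.unusedSectionVars false

open MvPolynomial

namespace Pool.Agent.H159

open KQuiver

section content

variable {R : Type}

theorem segSupp_chain {c : R × ℤ} {r : List (R × ℤ)} (h : (c :: r).IsChain arr) :
    segSupp (c.1, c.2, r.length) = ((c :: r : List (R × ℤ)) : Multiset (R × ℤ)) := by
  have key : ∀ (r : List (R × ℤ)) (c : R × ℤ), (c :: r).IsChain arr →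
      (List.range (r.length + 1)).map (fun k : ℕ => (c.1, c.2 + 2 * (k : ℤ))) = c :: r := by
    intro r
    induction r with
    | nil => intro c _; simp
    | cons d r ih =>
      intro c h
      rw [List.isChain_cons_cons] at h
      have h1 := ih d h.2
      rw [List.length_cons, List.range_succ_eq_map, List.map_cons, List.map_map]
      congr 1
      · simp
      · rw [← h1]
        apply List.map_congr_left
        intro k _
        obtain ⟨h2, h3⟩ := h.1
        simp only [Function.comp_apply, Prod.mk.injEq]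
        refine ⟨h2, ?_⟩
        rw [h3]
        push_cast
        ring
  unfold segSupp
  have h1 := key r c h
  show Multiset.map _ (Multiset.range (r.length + 1)) = _
  rw [← h1]
  rfl

theorem monSupp_add (m m' : Seg R →₀ ℕ) : monSupp (m + m') = monSupp m + monSupp m' := by
  classical
  unfold monSupp
  apply Finsupp.sum_add_index'
  · intro Δ; simp
  · intro Δ a b; rw [add_smul]

theorem monSupp_chains : ∀ ss : List (List (R × ℤ)), (∀ s ∈ ss, s.IsChain arr ∧ s ≠ []) →
    monSupp (mo (sgm ss)) = ((ss.flatten : List (R × ℤ)) : Multiset (R × ℤ)) := by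
  intro ss
  induction ss with
  | nil => intro _; simp [monSupp, sgm, mo]
  | cons s ss ih =>
    intro h
    obtain ⟨hch, hs⟩ := h s (by simp)
    obtain ⟨c, r, rfl⟩ := List.exists_cons_of_ne_nil hs
    rw [sgm, mo_cons, monSupp_add, ih (fun s hs => h s (by simp [hs])), List.flatten_cons,
      ← Multiset.coe_add, ← segSupp_chain hch]
    congr 1
    unfold monSupp
    rw [Finsupp.sum_single_index (by simp), one_smul]

theorem wordMult_content [DecidableEq (R × ℤ)] {f : MvPolynomial (Seg R) ℤ} {u : List (R × ℤ)}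
    (h : wordMult f u ≠ 0) : ∃ m ∈ f.support, monSupp m = (u : Multiset (R × ℤ)) := by
  rw [wordMult_eq, f.as_sum] at h
  have e : (∑ m ∈ f.support, monomial m (coeff m f)) =
      ∑ m ∈ f.support, (coeff m f) • (monomial m 1 : MvPolynomial (Seg R) ℤ) := by
    apply Finset.sum_congr rfl
    intro m _
    rw [smul_monomial, smul_eq_mul, mul_one]
  rw [e, hh_sum] at h
  obtain ⟨m, hm, hm'⟩ := Finset.exists_ne_zero_of_sum_ne_zero h
  refine ⟨m, hm, ?_⟩
  obtain ⟨L, rfl⟩ := exists_mo m
  obtain ⟨ss, h1, rfl⟩ := exists_chains L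
  rw [← mon_eq (fun s hs => (h1 s hs).2), hh_mon u ss (fun s hs => (h1 s hs).1)] at hm'
  have h2 : sh ss u ≠ 0 := by
    intro h3
    rw [h3] at hm'
    simp at hm'
  rw [monSupp_chains ss h1]
  exact (Multiset.coe_eq_coe.mpr (sh_perm u ss h2)).symm

theorem wordMult_arthur [DecidableEq (R × ℤ)] {ψ : Multiset (Block R)} {u : List (R × ℤ)}
    (h : wordMult (arthurClass ψ) u ≠ 0) : (u : Multiset (R × ℤ)) = arthurSupp ψ := by
  classical
  obtain ⟨m, hm, hm'⟩ := wordMult_content h
  rw [← hm']
  exact monSupp_of_mem_support (mem_support_iff.mp hm)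

end content

section core

variable {k R : Type} [Field k] [LinearOrder (R × ℤ)] [LinQ (R × ℤ)]
  {Ω : Finset (List (R × ℤ))}

/-- The graded case of the main theorem. -/
theorem core_ext (hΩ : PC Ω) {ψ₁ ψ₂ : Multiset (Block R)} {X Y : Type}
    [AddCommGroup X] [Module k X] [Module (GKLR k (R × ℤ) Ω) X]
    [IsScalarTower k (GKLR k (R × ℤ) Ω) X] [Module.Finite k X]
    [Module (KLR k (R × ℤ) Ω) X] [IsScalarTower (KLR k (R × ℤ) Ω) (GKLR k (R × ℤ) Ω) X]
    [AddCommGroup Y] [Module k Y] [Module (GKLR k (R × ℤ) Ω) Y]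
    [IsScalarTower k (GKLR k (R × ℤ) Ω) Y] [Module.Finite k Y]
    [Module (KLR k (R × ℤ) Ω) Y] [IsScalarTower (KLR k (R × ℤ) Ω) (GKLR k (R × ℤ) Ω) Y]
    (hX : FU k Ω X) (hY : FU k Ω Y)
    (hf₁ : ∀ u, wdm (mops k (R × ℤ) Ω X) u = wordMult (arthurClass ψ₁) u)
    (hf₂ : ∀ u, wdm (mops k (R × ℤ) Ω Y) u = wordMult (arthurClass ψ₂) u)
    (hd : diagRestrict ψ₁ = diagRestrict ψ₂) : ¬ ∀ n, VE (KLR k (R × ℤ) Ω) X Y n := by
  classical
  intro hV
  have hr : ∀ ψ : Multiset (Block R), ∀ m ∈ (arthurClass ψ).support,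
      (diagRestrict ψ).card ≤ m.degree := fun ψ m hm =>
    card_diag_le_degree (monSupp_of_mem_support (mem_support_iff.mp hm))
  have hep : ∀ c, epM k (R := GKLR k (R × ℤ) Ω) X (Sh k Ω Y c) = 0 := by
    intro c
    apply ep_eq_zero
    intro n
    exact graded_vanish (hY.shift c) n X hX.lg (hV n)
  have hnum := numeric hΩ hX hY hf₁ hf₂ (r := (diagRestrict ψ₁).card) (hr ψ₁)
    (by rw [hd]; exact hr ψ₂)
    (P := fun u => (u : Multiset (R × ℤ)) = arthurSupp ψ₁)
    (by
      intro l l' hl h
      rw [← h]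
      exact (Multiset.coe_eq_coe.mpr hl).symm)
    (by
      intro u hu
      rw [hf₁] at hu
      exact wordMult_arthur hu)
    (by
      intro ss hss h
      have h1 := monSupp_chains ss hss.1
      have h2 := card_diag_le_degree (ψ := ψ₁) (m := mo (sgm ss)) (by rw [h1, h])
      rwa [mo_degree, sgm_length (fun s hs => (hss.1 s hs).2)] at h2)
    hep
  exact fis_lowest_ne_zero ψ₁ ψ₂ hd hnum

end core

/-- a linear order on `R × ℤ` compatible with the quiver -/
theorem exists_linQ (R : Type) : ∃ _ : LinearOrder (R × ℤ), LinQ (R × ℤ) := by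
  classical
  let _ : LinearOrder R := linearOrderOfSTO (WellOrderingRel (α := R))
  let L : LinearOrder (R × ℤ) :=
    LinearOrder.lift' (toLex : R × ℤ → R ×ₗ ℤ) toLex.injective
  refine ⟨L, ?_⟩
  constructor
  · intro a b h
    show toLex a < toLex b
    rw [Prod.Lex.toLex_lt_toLex]
    obtain ⟨h1, h2⟩ := h
    right
    exact ⟨h1, by omega⟩
  · intro a b c h h'
    obtain ⟨h1, h2⟩ := h
    obtain ⟨h3, h4⟩ := h'
    exact Prod.ext (h1.symm.trans h3) (by omega)
  · intro a b c h h'
    obtain ⟨h1, h2⟩ := h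
    obtain ⟨h3, h4⟩ := h'
    exact Prod.ext (h1.trans h3.symm) (by omega)

end Pool.Agent.H159
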