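import Pool.Agent.H159.Defs

/-!
# Cuspidal supports: counting arguments
-/

open MvPolynomial Finset

namespace Pool.Agent.H159

variable {R : Type}

/-- the centred segment of length `c` -/
def centered (p : R × ℕ) : Multiset (R × ℤ) :=
  ∑ k ∈ Finset.range p.2, {(p.1, (p.2 : ℤ) - 1 - 2 * (k : ℤ))}

theorem bind_range_eq {α : Type*} (n : ℕ) (f : ℕ → Multiset α) :
    (Multiset.range n).bind f = ∑ k ∈ Finset.range n, f k := by
  induction n with
  | zero => simp
  | succ n ih => rw [Multiset.range_succ, Multiset.cons_bind, Finset.sum_range_succ, ih, add_comm]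

theorem map_range_eq {α : Type*} (n : ℕ) (f : ℕ → α) :
    (Multiset.range n).map f = ∑ k ∈ Finset.range n, {f k} := by
  induction n with
  | zero => simp
  | succ n ih =>
    rw [Multiset.range_succ, Multiset.map_cons, Finset.sum_range_succ, ih, ← Multiset.singleton_add,
      add_comm]

theorem blockSupp_eq_sum (ρ : R) (a b : ℕ) :
    blockSupp (ρ, a, b) = ∑ i ∈ Finset.range a, ∑ j ∈ Finset.range b,
      {(ρ, ((a : ℤ) - 1 - 2 * (i : ℤ)) + ((b : ℤ) - 1 - 2 * (j : ℤ)))} := by
  unfold blockSupp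
  rw [bind_range_eq]
  simp only [map_range_eq]

theorem blockSupp_succ (ρ : R) (a b : ℕ) :
    blockSupp (ρ, a + 1, b + 1) = centered (ρ, a + b + 1) + blockSupp (ρ, a, b) := by
  rw [blockSupp_eq_sum, blockSupp_eq_sum, Finset.sum_range_succ]
  have h1 : ∀ i ∈ Finset.range a, (∑ j ∈ Finset.range (b + 1),
      ({(ρ, (((a + 1 : ℕ) : ℤ) - 1 - 2 * (i : ℤ)) + (((b + 1 : ℕ) : ℤ) - 1 - 2 * (j : ℤ)))} :
        Multiset (R × ℤ))) =
      (∑ j ∈ Finset.range b, {(ρ, ((a : ℤ) - 1 - 2 * (i : ℤ)) + ((b : ℤ) - 1 - 2 * (j : ℤ)))}) +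
        {(ρ, (a : ℤ) + b - 2 * (i : ℤ))} := by
    intro i _
    rw [Finset.sum_range_succ']
    congr 1
    · refine Finset.sum_congr rfl fun j _ => ?_
      congr 2; push_cast; ring
    · congr 2; push_cast; ring
  rw [Finset.sum_congr rfl h1, Finset.sum_add_distrib, add_assoc, add_comm]
  congr 1
  unfold centered
  have h2 : a + b + 1 = a + (b + 1) := by ring
  simp only [h2]
  have h3 : ∀ f : ℕ → Multiset (R × ℤ), ∑ k ∈ Finset.range (a + (b + 1)), f k =
      (∑ k ∈ Finset.range a, f k) + ∑ k ∈ Finset.range (b + 1), f (a + k) :=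
    fun f => Finset.sum_range_add f a (b + 1)
  rw [h3]
  congr 1
  · refine Finset.sum_congr rfl fun j _ => ?_
    congr 2; push_cast; ring
  · refine Finset.sum_congr rfl fun j _ => ?_
    congr 2; push_cast; ring

/-- the diagonal restriction of one block -/
def blockDiag (B : Block R) : Multiset (R × ℕ) :=
  (Multiset.range (min B.2.1 B.2.2)).map fun k : ℕ => (B.1, B.2.1 + B.2.2 - 1 - 2 * k)

theorem diagRestrict_eq (ψ : Multiset (Block R)) : diagRestrict ψ = ψ.bind blockDiag := rfl

theorem blockDiag_succ (ρ : R) (a b : ℕ) :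
    blockDiag (ρ, a + 1, b + 1) = (ρ, a + b + 1) ::ₘ blockDiag (ρ, a, b) := by
  unfold blockDiag
  rw [map_range_eq, map_range_eq]
  simp only [Nat.succ_min_succ]
  rw [Finset.sum_range_succ', add_comm, ← Multiset.singleton_add]
  congr 1
  · congr 2; omega
  · refine Finset.sum_congr rfl fun j hj => ?_
    congr 2
    rw [Finset.mem_range] at hj
    omega

theorem blockSupp_eq_bind (ρ : R) (a b : ℕ) :
    blockSupp (ρ, a, b) = (blockDiag (ρ, a, b)).bind centered := by
  induction a generalizing b with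
  | zero => simp [blockSupp, blockDiag]
  | succ a ih =>
    cases b with
    | zero => simp [blockSupp, blockDiag]
    | succ b => rw [blockSupp_succ, blockDiag_succ, Multiset.cons_bind, ih]

theorem arthurSupp_eq_bind (ψ : Multiset (Block R)) :
    arthurSupp ψ = (diagRestrict ψ).bind centered := by
  rw [diagRestrict_eq, Multiset.bind_assoc]
  unfold arthurSupp
  congr 1
  funext B
  obtain ⟨ρ, a, b⟩ := B
  exact blockSupp_eq_bind ρ a b

theorem pos_of_mem_diagRestrict {ψ : Multiset (Block R)} {p : R × ℕ} (h : p ∈ diagRestrict ψ) :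
    1 ≤ p.2 := by
  unfold diagRestrict at h
  rw [Multiset.mem_bind] at h
  obtain ⟨B, _, h⟩ := h
  rw [Multiset.mem_map] at h
  obtain ⟨k, hk, rfl⟩ := h
  rw [Multiset.mem_range] at hk
  simp only
  omega

/-- the number of entries with exponent in `{0, 1}` -/
def kap (S : Multiset (R × ℤ)) : ℕ := S.countP fun p => p.2 = 0 ∨ p.2 = 1

theorem kap_add (S T : Multiset (R × ℤ)) : kap (S + T) = kap S + kap T :=
  Multiset.countP_add _ _ _

theorem kap_zero : kap (0 : Multiset (R × ℤ)) = 0 := rfl

theorem kap_sum {ι : Type*} (s : Finset ι) (f : ι → Multiset (R × ℤ)) :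
    kap (∑ i ∈ s, f i) = ∑ i ∈ s, kap (f i) := by
  classical
  induction s using Finset.induction_on with
  | empty => simp [kap_zero]
  | insert a s ha ih => rw [Finset.sum_insert ha, Finset.sum_insert ha, kap_add, ih]

theorem kap_singleton (p : R × ℤ) : kap {p} = if p.2 = 0 ∨ p.2 = 1 then 1 else 0 := by
  unfold kap
  rw [← Multiset.cons_zero, Multiset.countP_cons]
  simp

theorem kap_smul (n : ℕ) (S : Multiset (R × ℤ)) : kap (n • S) = n * kap S := by
  induction n with
  | zero => simp [kap_zero]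
  | succ n ih => rw [succ_nsmul, kap_add, ih]; ring

theorem kap_segSupp_le (Δ : Seg R) : kap (segSupp Δ) ≤ 1 := by
  unfold segSupp
  rw [map_range_eq, kap_sum]
  simp only [kap_singleton]
  rw [Finset.sum_boole]
  simp only [Nat.cast_id]
  rw [Finset.card_le_one]
  intro x hx y hy
  simp only [Finset.mem_filter, Finset.mem_range] at hx hy
  omega

theorem kap_centered {p : R × ℕ} (hp : 1 ≤ p.2) : kap (centered p) = 1 := by
  unfold centered
  rw [kap_sum]
  simp only [kap_singleton]
  rw [Finset.sum_boole]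
  simp only [Nat.cast_id]
  rw [Finset.card_eq_one]
  refine ⟨(p.2 - 1) / 2, ?_⟩
  ext x
  simp only [Finset.mem_filter, Finset.mem_range, Finset.mem_singleton]
  omega

theorem kap_bind_centered (D : Multiset (R × ℕ)) (hD : ∀ p ∈ D, 1 ≤ p.2) :
    kap (D.bind centered) = D.card := by
  induction D using Multiset.induction_on with
  | empty => simp [kap_zero]
  | cons p D ih =>
    rw [Multiset.cons_bind, kap_add, ih (fun q hq => hD q (Multiset.mem_cons_of_mem hq)),
      kap_centered (hD p (Multiset.mem_cons_self p D)), Multiset.card_cons, add_comm]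

theorem kap_arthurSupp (ψ : Multiset (Block R)) :
    kap (arthurSupp ψ) = (diagRestrict ψ).card := by
  rw [arthurSupp_eq_bind, kap_bind_centered _ fun p hp => pos_of_mem_diagRestrict hp]

theorem kap_monSupp_le (m : Seg R →₀ ℕ) : kap (monSupp m) ≤ m.degree := by
  unfold monSupp
  rw [Finsupp.sum, kap_sum, Finsupp.degree_apply]
  refine Finset.sum_le_sum fun Δ _ => ?_
  rw [kap_smul]
  calc m Δ * kap (segSupp Δ) ≤ m Δ * 1 := Nat.mul_le_mul_left _ (kap_segSupp_le Δ)
    _ = m Δ := mul_one _

theorem card_diag_le_degree {ψ : Multiset (Block R)} {m : Seg R →₀ ℕ}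
    (h : monSupp m = arthurSupp ψ) : (diagRestrict ψ).card ≤ m.degree := by
  rw [← kap_arthurSupp, ← h]
  exact kap_monSupp_le m

section inj

open Classical in
theorem count_centered (ρ : R) (s : ℤ) (p : R × ℕ) :
    (centered p).count (ρ, s) =
      if p.1 = ρ ∧ ∃ k < p.2, (p.2 : ℤ) - 1 - 2 * (k : ℤ) = s then 1 else 0 := by
  obtain ⟨ρ', c⟩ := p
  unfold centered
  rw [Multiset.count_sum']
  simp only [Multiset.count_singleton]
  by_cases h : ρ' = ρ ∧ ∃ k < c, (c : ℤ) - 1 - 2 * (k : ℤ) = s
  · rw [if_pos h]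
    obtain ⟨rfl, k, hk, hks⟩ := h
    rw [Finset.sum_eq_single k]
    · rw [if_pos]; rw [← hks]
    · intro b _ hb
      rw [if_neg]
      intro h'
      rw [Prod.mk.injEq] at h'
      apply hb
      omega
    · intro h'
      exact absurd (Finset.mem_range.mpr hk) h'
  · rw [if_neg h]
    apply Finset.sum_eq_zero
    intro k hk
    rw [if_neg]
    intro h'
    rw [Prod.mk.injEq] at h'
    exact h ⟨h'.1.symm, k, Finset.mem_range.mp hk, h'.2.symm⟩

open Classical in
theorem count_step (D : Multiset (R × ℕ)) (ρ : R) (c : ℕ) (hc : 1 ≤ c) :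
    (D.bind centered).count (ρ, (c : ℤ) - 1) =
      D.count (ρ, c) + (D.bind centered).count (ρ, (c : ℤ) + 1) := by
  induction D using Multiset.induction_on with
  | empty => simp
  | cons p D ih =>
    rw [Multiset.cons_bind, Multiset.count_add, Multiset.count_add, ih, Multiset.count_cons,
      count_centered, count_centered]
    obtain ⟨ρ', c'⟩ := p
    by_cases h1 : ρ' = ρ
    · subst h1
      by_cases h2 : c' = c
      · subst h2
        have e1 : ∃ k < c', (c' : ℤ) - 1 - 2 * (k : ℤ) = (c' : ℤ) - 1 := ⟨0, by omega, by simp⟩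
        have e2 : ¬ ∃ k < c', (c' : ℤ) - 1 - 2 * (k : ℤ) = (c' : ℤ) + 1 := by
          rintro ⟨k, _, h⟩; omega
        have e5 : ¬ ((ρ', c').1 = ρ' ∧ ∃ k < (ρ', c').2,
            (((ρ', c').2 : ℕ) : ℤ) - 1 - 2 * (k : ℤ) = (c' : ℤ) + 1) := fun h => e2 h.2
        rw [if_pos ⟨rfl, e1⟩, if_neg e5, if_pos rfl]
        omega
      · have e3 : (∃ k < c', (c' : ℤ) - 1 - 2 * (k : ℤ) = (c : ℤ) - 1) ↔
            (∃ k < c', (c' : ℤ) - 1 - 2 * (k : ℤ) = (c : ℤ) + 1) := by
          constructor
          · rintro ⟨k, hk, h⟩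
            exact ⟨k - 1, by omega, by omega⟩
          · rintro ⟨k, hk, h⟩
            exact ⟨k + 1, by omega, by omega⟩
        have e4 : (ρ', c) ≠ (ρ', c') := by
          intro h; rw [Prod.mk.injEq] at h; exact h2 h.2.symm
        simp only [e3, true_and, if_neg e4]
        omega
    · have e4 : (ρ, c) ≠ (ρ', c') := by
        intro h; rw [Prod.mk.injEq] at h; exact h1 h.1.symm
      simp [h1, e4]

theorem diagRestrict_eq_of_arthurSupp_eq {ψ₁ ψ₂ : Multiset (Block R)}
    (h : arthurSupp ψ₁ = arthurSupp ψ₂) : diagRestrict ψ₁ = diagRestrict ψ₂ := by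
  classical
  rw [arthurSupp_eq_bind, arthurSupp_eq_bind] at h
  ext ⟨ρ, c⟩
  rcases Nat.eq_zero_or_pos c with rfl | hc
  · rw [Multiset.count_eq_zero_of_notMem, Multiset.count_eq_zero_of_notMem]
    · intro hm; exact absurd (pos_of_mem_diagRestrict hm) (by simp)
    · intro hm; exact absurd (pos_of_mem_diagRestrict hm) (by simp)
  · have h1 := count_step (diagRestrict ψ₁) ρ c hc
    have h2 := count_step (diagRestrict ψ₂) ρ c hc
    rw [h] at h1
    omega

end inj

end Pool.Agent.H159
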