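import Pool.Agent.H159.Frep

/-!
# Linear independence of the shuffle words in the rational representation
-/

set_option linter.unusedSectionVars false

namespace Pool.Agent.H159

open KQuiver

section comb

variable {I S : Type} [DecidableEq I] (lab : S → I)

/-- remove the first strand of the first chain -/
def hpickS (c : I) (cs : List (List S)) : List S → List (S × List (List S))
  | [] => []
  | s :: r => if lab s = c then [(s, r :: cs)] else []

/-- the ways to remove a first strand labelled `c` -/
def picksS (c : I) : List (List S) → List (S × List (List S))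
  | [] => []
  | r :: cs => hpickS lab c cs r ++ (picksS c cs).map fun q => (q.1, r :: q.2)

/-- the shuffles of the chains with labels `u` -/
def SH (cs : List (List S)) : List I → List (List S)
  | [] => if cs.flatten = [] then [[]] else []
  | c :: u => (picksS lab c cs).flatMap fun q => (SH q.2 u).map (q.1 :: ·)

variable {lab}

theorem picksS_spec {c : I} {cs : List (List S)} {q : S × List (List S)}
    (h : q ∈ picksS lab c cs) :
    ∃ A r C, cs = A ++ (q.1 :: r) :: C ∧ q.2 = A ++ r :: C ∧ lab q.1 = c := by
  induction cs generalizing q with
  | nil => simp [picksS] at h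
  | cons s cs ih =>
    rw [picksS, List.mem_append] at h
    rcases h with h | h
    · cases s with
      | nil => simp [hpickS] at h
      | cons d s' =>
        rw [hpickS] at h
        by_cases hd : lab d = c
        · rw [if_pos hd, List.mem_singleton] at h
          subst h
          exact ⟨[], s', cs, rfl, rfl, hd⟩
        · simp [hd] at h
    · rw [List.mem_map] at h
      obtain ⟨r, hr, rfl⟩ := h
      obtain ⟨A, d, C, h1, h2, h3⟩ := ih hr
      refine ⟨s :: A, d, C, by rw [h1]; rfl, by simp [h2], h3⟩

/-- labels of chains -/
def labs (lab : S → I) (cs : List (List S)) : List (List I) := cs.map (List.map lab)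

theorem picksS_picks (c : I) (cs : List (List S)) :
    (picksS lab c cs).map (fun q => labs lab q.2) = (picks c (labs lab cs)).map Prod.snd := by
  induction cs with
  | nil => rfl
  | cons s cs ih =>
    rw [picksS, List.map_append]
    show _ = List.map Prod.snd (picks c (List.map lab s :: labs lab cs))
    rw [picks, List.map_append]
    congr 1
    · cases s with
      | nil => rfl
      | cons d s' =>
        rw [hpickS, List.map_cons, hpick]
        split_ifs <;> rfl
    · rw [List.map_map, List.map_map]
      have h1 : (Prod.snd ∘ fun q : ℕ × List (List I) =>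
          (q.1 + (List.map lab s).length, List.map lab s :: q.2)) =
          (fun x => List.map lab s :: x) ∘ Prod.snd := rfl
      have h2 : List.map ((fun x => List.map lab s :: x) ∘ Prod.snd) (picks c (labs lab cs)) =
          List.map (fun x => List.map lab s :: x) (List.map Prod.snd (picks c (labs lab cs))) :=
        (List.map_map).symm
      rw [h1, h2, ← ih, List.map_map]
      rfl

theorem length_SH (cs : List (List S)) (u : List I) :
    (SH lab cs u).length = sh (labs lab cs) u := by
  induction u generalizing cs with
  | nil =>
    unfold SH sh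
    have : (labs lab cs).flatten = cs.flatten.map lab := by
      unfold labs
      rw [List.map_flatten]
    rw [this]
    by_cases h : cs.flatten = []
    · rw [if_pos h, h]; rfl
    · rw [if_neg h, if_neg (by simpa using h)]; rfl
  | cons c u ih =>
    unfold SH sh
    rw [List.length_flatMap]
    have h1 : (List.map (fun q : ℕ × List (List I) => sh q.2 u) (picks c (labs lab cs))) =
        ((picks c (labs lab cs)).map Prod.snd).map (fun x => sh x u) := by
      rw [List.map_map]; rfl
    rw [h1, ← picksS_picks, List.map_map]
    congr 1
    apply List.map_congr_left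
    intro q _
    rw [List.length_map, ih]
    rfl

theorem SH_perm {u : List I} : ∀ {cs : List (List S)} {L : List S}, L ∈ SH lab cs u →
    L.Perm cs.flatten ∧ L.map lab = u := by
  induction u with
  | nil =>
    intro cs L h
    unfold SH at h
    split_ifs at h with h'
    · rw [List.mem_singleton] at h
      subst h
      rw [h']
      exact ⟨List.Perm.refl _, rfl⟩
    · simp at h
  | cons c u ih =>
    intro cs L h
    unfold SH at h
    rw [List.mem_flatMap] at h
    obtain ⟨q, hq, h⟩ := h
    rw [List.mem_map] at h
    obtain ⟨L', hL', rfl⟩ := h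
    obtain ⟨A, r, C, h1, h2, h3⟩ := picksS_spec hq
    obtain ⟨h4, h5⟩ := ih hL'
    refine ⟨?_, by rw [List.map_cons, h3, h5]⟩
    rw [h1]
    rw [h2] at h4
    have h6 : (q.1 :: L').Perm (q.1 :: (A ++ r :: C).flatten) := List.Perm.cons _ h4
    refine h6.trans ?_
    rw [List.flatten_append, List.flatten_append, List.flatten_cons, List.flatten_cons,
      List.cons_append]
    exact List.perm_middle.symm

theorem picksS_sublist (c : I) (cs : List (List S)) :
    ((picksS lab c cs).map Prod.fst).Sublist cs.flatten := by
  induction cs with
  | nil => exact List.Sublist.refl _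
  | cons r cs ih =>
    rw [picksS, List.map_append, List.flatten_cons]
    apply List.Sublist.append
    · cases r with
      | nil => exact List.Sublist.refl _
      | cons s r =>
        rw [hpickS]
        split_ifs
        · simp
        · simp
    · rw [List.map_map]
      exact ih

theorem SH_nodup {u : List I} : ∀ {cs : List (List S)}, cs.flatten.Nodup →
    (SH lab cs u).Nodup := by
  induction u with
  | nil =>
    intro cs h
    unfold SH
    split_ifs <;> simp
  | cons c u ih =>
    intro cs h
    unfold SH
    rw [List.nodup_flatMap]
    constructor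
    · intro q hq
      obtain ⟨A, r, C, h1, h2, h3⟩ := picksS_spec hq
      apply List.Nodup.map
      · intro a b hab
        exact (List.cons_injective hab)
      · apply ih
        rw [h2]
        rw [h1] at h
        refine List.Sublist.nodup ?_ h
        rw [List.flatten_append, List.flatten_append, List.flatten_cons, List.flatten_cons,
          List.cons_append]
        exact List.Sublist.append_left (List.sublist_cons_self _ _) _
    · have h1 := (picksS_sublist (lab := lab) c cs).nodup h
      rw [List.Nodup, List.pairwise_map] at h1
      apply List.Pairwise.imp _ h1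
      intro a b hab
      rw [Function.onFun, List.disjoint_left]
      intro L hL hL'
      rw [List.mem_map] at hL hL'
      obtain ⟨L1, -, rfl⟩ := hL
      obtain ⟨L2, -, h2⟩ := hL'
      exact hab (List.cons_eq_cons.mp h2).1.symm

end comb

namespace Frep

variable {I S K : Type} [DecidableEq I] [KQuiver I] [Field K] {lab : S → I} {c : S → K}

/-- moving one strand to the left inside a subspace stable under the crossings -/
theorem move {W : Submodule K (List S →₀ K)} (hW : ∀ j, ∀ y ∈ W, ot lab c j y ∈ W)
    (α β γ : List S) (s : S) (hn : (α ++ (β ++ s :: γ)).Nodup)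
    (hA : ∀ t ∈ β, cA lab c t s ≠ 0) (h : bb (α ++ (β ++ s :: γ)) ∈ W) :
    bb (α ++ s :: (β ++ γ)) ∈ W := by
  induction β using List.reverseRecOn generalizing γ with
  | nil => simpa using h
  | append_singleton β t ih =>
    have e1 : α ++ (β ++ [t] ++ s :: γ) = (α ++ β) ++ t :: s :: γ := by simp
    have e2 : (α ++ β) ++ s :: t :: γ = α ++ (β ++ s :: (t :: γ)) := by simp
    rw [e1] at h hn
    have h1 := hW (α ++ β).length _ h
    rw [ot_bb hn rfl] at h1
    have h2 : cA lab c t s • bb ((α ++ β) ++ s :: t :: γ) ∈ W := by
      have := Submodule.sub_mem _ h1 (Submodule.smul_mem _ (cB lab c t s) h)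
      simpa using this
    have hne : cA lab c t s ≠ 0 := hA t (by simp)
    have h3 : bb ((α ++ β) ++ s :: t :: γ) ∈ W := by
      have := Submodule.smul_mem _ (cA lab c t s)⁻¹ h2
      rwa [smul_smul, inv_mul_cancel₀ hne, one_smul] at this
    have hn' := nodup_swap.mp hn
    rw [e2] at h3 hn'
    have h4 := ih (t :: γ) hn' (fun t' ht' => hA t' (by simp [ht'])) h3
    simpa using h4

/-- all shuffles are reached -/
theorem reach {W : Submodule K (List S →₀ K)} (hW : ∀ j, ∀ y ∈ W, ot lab c j y ∈ W)
    (u : List I) : ∀ (α : List S) (cs : List (List S)), (α ++ cs.flatten).Nodup →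
    cs.Pairwise (fun a b => ∀ t ∈ a, ∀ s ∈ b, cA lab c t s ≠ 0) →
    bb (α ++ cs.flatten) ∈ W → ∀ L ∈ SH lab cs u, bb (α ++ L) ∈ W := by
  induction u with
  | nil =>
    intro α cs hn hp h L hL
    unfold SH at hL
    split_ifs at hL with h'
    · rw [List.mem_singleton] at hL
      subst hL
      rw [h'] at h
      exact h
    · simp at hL
  | cons d u ih =>
    intro α cs hn hp h L hL
    unfold SH at hL
    rw [List.mem_flatMap] at hL
    obtain ⟨q, hq, hL⟩ := hL
    rw [List.mem_map] at hL
    obtain ⟨L', hL', rfl⟩ := hL
    obtain ⟨A, r, C, h1, h2, h3⟩ := picksS_spec hq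
    obtain ⟨s, cs'⟩ := q
    simp only at h1 h2 h3 hL' ⊢
    subst h1 h2
    have e1 : (A ++ (s :: r) :: C).flatten = A.flatten ++ s :: (r ++ C.flatten) := by simp
    rw [e1] at h hn
    rw [List.pairwise_append, List.pairwise_cons] at hp
    have h4 := move hW α A.flatten (r ++ C.flatten) s hn (by
      intro t ht
      rw [List.mem_flatten] at ht
      obtain ⟨a, ha, ht⟩ := ht
      exact hp.2.2 a ha (s :: r) (by simp) t ht s (by simp)) h
    have e2 : α ++ s :: (A.flatten ++ (r ++ C.flatten)) =
        (α ++ [s]) ++ (A ++ r :: C).flatten := by simp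
    rw [e2] at h4
    have hn' : ((α ++ [s]) ++ (A ++ r :: C).flatten).Nodup := by
      rw [← e2]
      refine List.Perm.nodup ?_ hn
      exact List.Perm.append_left _ List.perm_middle
    have h5 := ih (α ++ [s]) (A ++ r :: C) hn' (by
      rw [List.pairwise_append, List.pairwise_cons]
      refine ⟨hp.1, ⟨?_, hp.2.1.2⟩, ?_⟩
      · intro b hb t ht s' hs'
        exact hp.2.1.1 b hb t (by simp [ht]) s' hs'
      · intro a ha b hb t ht s' hs'
        rw [List.mem_cons] at hb
        rcases hb with rfl | hb
        · exact hp.2.2 a ha (s :: b) (by simp) t ht s' (by simp [hs'])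
        · exact hp.2.2 a ha b (by simp [hb]) t ht s' hs') h4 L' hL'
    simpa using h5

theorem bb_indep {ι : Type} (L : ι → List S) (h : Function.Injective L) :
    LinearIndependent K (fun i => (bb (L i) : List S →₀ K)) := by
  have h1 := (Finsupp.basisSingleOne (R := K) (ι := List S)).linearIndependent
  have h2 := h1.comp L h
  have h3 : (⇑(Finsupp.basisSingleOne (R := K) (ι := List S)) ∘ L) =
      fun i => (bb (L i) : List S →₀ K) := by
    funext i
    simp [bb]
  rwa [h3] at h2

/-- The shuffle words applied to the generator are linearly independent. -/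
theorem frep_indep (hc : ∀ s t, lab s = lab t → s ≠ t → c s ≠ c t) (cs : List (List S))
    (hn : cs.flatten.Nodup)
    (hp : cs.Pairwise (fun a b => ∀ t ∈ a, ∀ s ∈ b, cA lab c t s ≠ 0))
    (hins : ∀ j, Ins 0 (labs lab cs) j → ot lab c j (bb cs.flatten) = 0) (u : List I) :
    LinearIndependent K (fun i : Fin (BB 0 (labs lab cs) u).length =>
      (frep lab c hc).wd ((BB 0 (labs lab cs) u)[i]) (bb cs.flatten)) := by
  set O := frep lab c hc with hO
  set B := BB 0 (labs lab cs) u with hB
  set L0 := cs.flatten with hL0
  have hfl : (labs lab cs).flatten = L0.map lab := by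
    unfold labs
    rw [List.map_flatten]
  -- the cyclic submodule
  set M : Submodule K (List S →₀ K) :=
    (Subalgebra.toSubmodule (O.alg 0)).map (LinearMap.applyₗ (bb L0)) with hM
  have hMt : ∀ j, ∀ y ∈ M, ot lab c j y ∈ M := by
    rintro j _ ⟨a, ha, rfl⟩
    exact ⟨O.t j * a, Subalgebra.mul_mem _ (Ops.t_mem (Nat.zero_le j)) ha, rfl⟩
  have hM0 : bb L0 ∈ M := ⟨1, Subalgebra.one_mem _, rfl⟩
  have hHom : O.Hom (L0.map lab) (bb L0) := oe_bb_self hn
  -- spanning
  have hspan : ∀ a ∈ O.alg 0, O.e u (a (bb L0)) ∈
      Submodule.span K (Set.range (fun i : Fin B.length => O.wd B[i] (bb L0))) := by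
    intro a ha
    have h1 := Ops.spanB (O := O) u [] (labs lab cs) (Submodule.span K {bb L0}) ⊥
      (by
        intro y hy
        rw [Submodule.mem_span_singleton] at hy
        obtain ⟨r, rfl⟩ := hy
        rw [List.nil_append, hfl]
        show O.e _ (r • bb L0) = r • bb L0
        rw [map_smul, hHom])
      (by
        intro b _ z hz
        rw [Submodule.mem_bot] at hz ⊢
        rw [hz, map_zero])
      (by
        intro j y hy
        apply Submodule.mem_sup_left
        rw [Submodule.mem_span_singleton] at hy ⊢
        obtain ⟨r, rfl⟩ := hy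
        rcases Nat.lt_or_ge j L0.length with hj | hj
        · have hL : L0 = L0.take j ++ L0[j] :: L0.drop (j + 1) := by
            rw [← List.drop_eq_getElem_cons, List.take_append_drop]
          have hlen : (L0.take j).length = j := by rw [List.length_take]; omega
          have h2 : (L0.take j ++ L0[j] :: L0.drop (j + 1)).Nodup := by rw [← hL]; exact hn
          have h3 := ox_bb (c := c) h2 hlen
          rw [← hL] at h3
          refine ⟨r * c L0[j], ?_⟩
          rw [map_smul, mul_smul]
          congr 1
          exact h3.symm
        · refine ⟨0, ?_⟩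
          rw [zero_smul, map_smul]
          have h3 : O.x j (bb L0) = 0 := ox_bb_big hj
          rw [h3, smul_zero])
      (by
        intro j hj y hy
        rw [Submodule.mem_span_singleton] at hy
        obtain ⟨r, rfl⟩ := hy
        rw [Submodule.mem_bot, map_smul]
        have h3 : O.t j (bb L0) = 0 := hins j hj
        rw [h3, smul_zero])
      a ha (bb L0) (Submodule.mem_span_singleton_self _)
    rw [sup_bot_eq, List.nil_append] at h1
    unfold Ops.SB at h1
    refine Submodule.span_le.mpr ?_ h1
    rintro z ⟨T, hT, w, hw, rfl⟩
    rw [Submodule.mem_span_singleton] at hw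
    obtain ⟨r, rfl⟩ := hw
    rw [SetLike.mem_coe, map_smul]
    apply Submodule.smul_mem
    obtain ⟨i, hi, rfl⟩ := List.getElem_of_mem hT
    exact Submodule.subset_span ⟨⟨i, hi⟩, rfl⟩
  -- the shuffles lie in the span
  have hSH : ∀ i : Fin (SH lab cs u).length, (bb (SH lab cs u)[i] : List S →₀ K) ∈
      Submodule.span K (Set.range (fun i : Fin B.length => O.wd B[i] (bb L0))) := by
    intro i
    set L := (SH lab cs u)[i] with hL
    have hLmem : L ∈ SH lab cs u := List.getElem_mem _
    obtain ⟨h1, h2⟩ := SH_perm hLmem
    have h3 := reach hMt u [] cs hn hp hM0 L hLmem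
    rw [List.nil_append] at h3
    obtain ⟨a, ha, h4⟩ := h3
    have h5 : O.Hom u (bb L) := by
      have := oe_bb_self (K := K) (lab := lab) (h1.nodup_iff.mpr hn)
      rw [h2] at this
      exact this
    rw [← h5, ← h4]
    exact hspan a ha
  have hind : LinearIndependent K (fun i : Fin (SH lab cs u).length =>
      (bb (SH lab cs u)[i] : List S →₀ K)) := by
    apply bb_indep
    intro i j hij
    have := (List.nodup_iff_injective_get.mp (SH_nodup (lab := lab) (u := u) hn))
    exact this hij
  rw [linearIndependent_iff_card_le_finrank_span]
  have h7 : B.length = (SH lab cs u).length := by rw [hB, length_BB, length_SH]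
  rw [Fintype.card_fin]
  refine h7.le.trans ?_
  have h6 := linearIndependent_iff_card_le_finrank_span.mp hind
  rw [Fintype.card_fin] at h6
  refine h6.trans ?_
  have hfin : Module.Finite K (Submodule.span K (Set.range
      (fun i : Fin B.length => O.wd B[i] (bb L0)))) :=
    Module.Finite.span_of_finite K (Set.finite_range _)
  apply Submodule.finrank_mono
  apply Submodule.span_le.mpr
  rintro _ ⟨i, rfl⟩
  exact hSH i

end Frep

end Pool.Agent.H159
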