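import Pool.Agent.H159.GMod
import Pool.Agent.H159.Indep

/-!
# Modules over the graded quiver Hecke algebra and cyclic modules
-/

set_option linter.unusedSectionVars false

namespace Pool.Agent.H159

open KQuiver

/-! ### evaluation of polynomials at commuting elements -/

section commEval

variable {k A σ : Type} [CommRing k] [Ring A] [Algebra k A]

/-- evaluation of polynomials at commuting elements of a noncommutative algebra -/
noncomputable def commEval (f : σ → A) (hf : ∀ i j, f i * f j = f j * f i) :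
    MvPolynomial σ k →ₐ[k] A :=
  letI : CommRing (Algebra.adjoin k (Set.range f)) := Algebra.adjoinCommRingOfComm k (by
    rintro _ ⟨i, rfl⟩ _ ⟨j, rfl⟩
    exact hf i j)
  (Algebra.adjoin k (Set.range f)).val.comp
    (MvPolynomial.aeval (fun i => (⟨f i, Algebra.subset_adjoin ⟨i, rfl⟩⟩ :
      Algebra.adjoin k (Set.range f))))

theorem commEval_X (f : σ → A) (hf : ∀ i j, f i * f j = f j * f i) (i : σ) :
    commEval (k := k) f hf (MvPolynomial.X i) = f i := by
  simp [commEval]

end commEval

section wrap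

variable {k I : Type} [CommRing k] [KQuiver I] {Ω : Finset (List I)}

/-- transport of degree idempotents -/
def GStr.map {A B : Type} [Ring A] [Algebra k A] [Ring B] [Algebra k B] {O : AOps k I A}
    (G : GStr A O) (φ : A →ₐ[k] B) : GStr B (O.map φ) where
  f d := φ (G.f d)
  f_self d := by rw [← map_mul, G.f_self]
  f_ne d d' h := by rw [← map_mul, G.f_ne d d' h, map_zero]
  f_e d l := by
    show φ _ * φ _ = φ _ * φ _
    rw [← map_mul, G.f_e, map_mul]
  x_f j d := by
    show φ _ * φ _ = φ _ * φ _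
    rw [← map_mul, G.x_f, map_mul]
  t_f p a b q d := by
    show φ _ * φ _ * φ _ = φ _ * (φ _ * φ _)
    rw [← map_mul, ← map_mul, G.t_f, map_mul]

variable {V : Type} [AddCommGroup V] [Module k V]

/-- a type with the module structure defined by operators -/
@[nolint unusedArguments]
def GWrap {O : Ops k I V} (_ : GStr (Module.End k V) O) (_ : ∑ l ∈ Ω, O.e l = 1) : Type := V

variable {O : Ops k I V} (G : GStr (Module.End k V) O) (hO : ∑ l ∈ Ω, O.e l = 1)

instance : AddCommGroup (GWrap G hO) := inferInstanceAs (AddCommGroup V)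

instance : Module k (GWrap G hO) := inferInstanceAs (Module k V)

noncomputable instance : Module (GKLR k I Ω) (GWrap G hO) :=
  letI : Module (Module.End k V) (GWrap G hO) := inferInstanceAs (Module (Module.End k V) V)
  Module.compHom (GWrap G hO) (glift Ω G hO).toRingHom

theorem gwrap_smul (r : GKLR k I Ω) (y : GWrap G hO) :
    r • y = (glift Ω G hO r : Module.End k V) (y : V) := rfl

instance : IsScalarTower k (GKLR k I Ω) (GWrap G hO) where
  smul_assoc c r y := by
    rw [gwrap_smul, gwrap_smul, map_smul]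
    rfl

end wrap

section mods

variable {k I : Type} [Field k] [DecidableEq I] [KQuiver I] {Ω : Finset (List I)}

variable (M : Type) [AddCommGroup M] [Module k M] [Module (GKLR k I Ω) M]
  [IsScalarTower k (GKLR k I Ω) M]

variable (k I Ω) in
/-- the operators on a module -/
noncomputable def mops : Ops k I M := (gops k I Ω).map (Algebra.lsmul k k M)

variable (k I Ω) in
/-- the degree idempotents on a module -/
noncomputable def mstr : GStr (Module.End k M) (mops k I Ω M) :=
  (gstr k I Ω).map (Algebra.lsmul k k M)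

variable {M}

theorem mops_e (l : List I) (y : M) : (mops k I Ω M).e l y = (gops k I Ω).e l • y := rfl

theorem mops_x (j : ℕ) (y : M) : (mops k I Ω M).x j y = (gops k I Ω).x j • y := rfl

theorem mops_t (j : ℕ) (y : M) : (mops k I Ω M).t j y = (gops k I Ω).t j • y := rfl

theorem mstr_f (d : ℤ) (y : M) : (mstr k I Ω M).f d y = (gstr k I Ω).f d • y := rfl

theorem mops_sum : ∑ l ∈ Ω, (mops k I Ω M).e l = 1 := by
  show ∑ l ∈ Ω, Algebra.lsmul k k M ((gops k I Ω).e l) = 1
  rw [← map_sum, gops_sum, map_one]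

theorem sum_e_apply (y : M) : ∑ l ∈ Ω, (gops k I Ω).e l • y = y := by
  rw [← Finset.sum_smul, gops_sum, one_smul]

/-- bihomogeneous vectors -/
def BiHom (l : List I) (d : ℤ) (y : M) : Prop :=
  (mops k I Ω M).Hom l y ∧ (gstr k I Ω).f d • y = y

theorem f_smul_ne {d d' : ℤ} {y : M} (h : (gstr k I Ω).f d • y = y) (hd : d' ≠ d) :
    (gstr k I Ω).f d' • y = 0 := by
  rw [← h, smul_smul, (gstr k I Ω).f_ne d' d hd, zero_smul]

theorem BiHom.x {l : List I} {d : ℤ} {y : M} (h : BiHom (k := k) (Ω := Ω) l d y) (j : ℕ) :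
    BiHom (k := k) (Ω := Ω) l (d + 2) ((gops k I Ω).x j • y) := by
  refine ⟨h.1.x j, ?_⟩
  rw [smul_smul, ← (gstr k I Ω).x_f, mul_smul, h.2]

theorem BiHom.t {p q : List I} {a b : I} {d : ℤ} {y : M}
    (h : BiHom (k := k) (Ω := Ω) (p ++ a :: b :: q) d y) {j : ℕ} (hj : p.length = j) :
    BiHom (k := k) (Ω := Ω) (p ++ b :: a :: q) (d + tdeg a b) ((gops k I Ω).t j • y) := by
  refine ⟨h.1.t hj, ?_⟩
  subst hj
  have h1 : (gops k I Ω).e (p ++ a :: b :: q) • y = y := h.1
  have h2 : (gops k I Ω).t p.length • y =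
      ((gops k I Ω).t p.length * (gops k I Ω).e (p ++ a :: b :: q)) • y := by
    rw [mul_smul, h1]
  rw [h2, smul_smul, ← (gstr k I Ω).t_f, mul_smul, h.2]

theorem bihom_zero (l : List I) (d : ℤ) : BiHom (k := k) (Ω := Ω) l d (0 : M) :=
  ⟨Ops.zero_hom l, smul_zero _⟩

theorem BiHom.t_exists {l : List I} {d : ℤ} {y : M} (h : BiHom (k := k) (Ω := Ω) l d y) (j : ℕ) :
    ∃ l' d', BiHom (k := k) (Ω := Ω) l' d' ((gops k I Ω).t j • y) := by
  by_cases hj : j + 1 < l.length
  · obtain ⟨p, a, b, q, hp, rfl⟩ := Ops.split_two hj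
    exact ⟨_, _, h.t hp⟩
  · refine ⟨l, d, ?_⟩
    have : (gops k I Ω).t j • y = 0 := h.1.t_zero (by omega)
    rw [this]
    exact bihom_zero l d

/-- The module generated by a bihomogeneous vector is spanned by bihomogeneous vectors of the
form `a y` with `a` in the ungraded algebra. -/
theorem smul_mem_alg {l : List I} {d : ℤ} {y : M} (h : BiHom (k := k) (Ω := Ω) l d y)
    (r : GKLR k I Ω) : r • y ∈ Submodule.span k {z : M | (∃ a ∈ (mops k I Ω M).alg 0, z = a y) ∧
      ∃ l' d', BiHom (k := k) (Ω := Ω) l' d' z} := by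
  have key : ∀ r : GKLR k I Ω, ∀ z ∈ Submodule.span k {z : M |
      (∃ a ∈ (mops k I Ω M).alg 0, z = a y) ∧ ∃ l' d', BiHom (k := k) (Ω := Ω) l' d' z},
      r • z ∈ Submodule.span k {z : M |
      (∃ a ∈ (mops k I Ω M).alg 0, z = a y) ∧ ∃ l' d', BiHom (k := k) (Ω := Ω) l' d' z} := by
    intro r
    -- it suffices to treat generators on the spanning set
    have red : ∀ r : GKLR k I Ω, (∀ z : M, ((∃ a ∈ (mops k I Ω M).alg 0, z = a y) ∧
        ∃ l' d', BiHom (k := k) (Ω := Ω) l' d' z) → r • z ∈ Submodule.span k {z : M |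
      (∃ a ∈ (mops k I Ω M).alg 0, z = a y) ∧ ∃ l' d', BiHom (k := k) (Ω := Ω) l' d' z}) →
      ∀ z ∈ Submodule.span k {z : M |
      (∃ a ∈ (mops k I Ω M).alg 0, z = a y) ∧ ∃ l' d', BiHom (k := k) (Ω := Ω) l' d' z},
      r • z ∈ Submodule.span k {z : M |
      (∃ a ∈ (mops k I Ω M).alg 0, z = a y) ∧ ∃ l' d', BiHom (k := k) (Ω := Ω) l' d' z} := by
      intro r hr z hz
      induction hz using Submodule.span_induction with
      | mem z hz => exact hr z hz
      | zero => rw [smul_zero]; exact Submodule.zero_mem _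
      | add z w _ _ hz hw => rw [smul_add]; exact Submodule.add_mem _ hz hw
      | smul c z _ hz => rw [smul_comm]; exact Submodule.smul_mem _ _ hz
    induction r using gklr_induction with
    | he l =>
      apply red
      rintro z ⟨⟨a, ha, rfl⟩, l', d', hz⟩
      by_cases hl : l = l'
      · subst hl
        have : (gops k I Ω).e l • a y = a y := hz.1
        rw [this]
        exact Submodule.subset_span ⟨⟨a, ha, rfl⟩, l, d', hz⟩
      · have : (gops k I Ω).e l • a y = 0 := hz.1.e_ne hl
        rw [this]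
        exact Submodule.zero_mem _
    | hx j =>
      apply red
      rintro z ⟨⟨a, ha, rfl⟩, l', d', hz⟩
      exact Submodule.subset_span ⟨⟨(mops k I Ω M).x j * a,
        Subalgebra.mul_mem _ (Ops.x_mem _ _) ha, rfl⟩, _, _, hz.x j⟩
    | ht j =>
      apply red
      rintro z ⟨⟨a, ha, rfl⟩, l', d', hz⟩
      exact Submodule.subset_span ⟨⟨(mops k I Ω M).t j * a,
        Subalgebra.mul_mem _ (Ops.t_mem (Nat.zero_le _)) ha, rfl⟩, hz.t_exists j⟩
    | hf d =>
      apply red
      rintro z ⟨⟨a, ha, rfl⟩, l', d', hz⟩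
      by_cases hd : d = d'
      · subst hd
        rw [hz.2]
        exact Submodule.subset_span ⟨⟨a, ha, rfl⟩, _, _, hz⟩
      · rw [f_smul_ne hz.2 hd]
        exact Submodule.zero_mem _
    | hc c =>
      intro z hz
      rw [algebraMap_smul]
      exact Submodule.smul_mem _ _ hz
    | hadd a b ha hb =>
      intro z hz
      rw [add_smul]
      exact Submodule.add_mem _ (ha z hz) (hb z hz)
    | hmul a b ha hb =>
      intro z hz
      rw [mul_smul]
      exact ha _ (hb _ hz)
  apply key
  exact Submodule.subset_span ⟨⟨1, Subalgebra.one_mem _, rfl⟩, l, d, h⟩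

theorem smul_mem_alg' {l : List I} {d : ℤ} {y : M} (h : BiHom (k := k) (Ω := Ω) l d y)
    (r : GKLR k I Ω) : ∃ a ∈ (mops k I Ω M).alg 0, r • y = a y := by
  have h1 := smul_mem_alg h r
  generalize r • y = z at h1
  induction h1 using Submodule.span_induction with
  | mem z hz => exact hz.1
  | zero => exact ⟨0, Subalgebra.zero_mem _, rfl⟩
  | add z w _ _ hz hw =>
    obtain ⟨a, ha, rfl⟩ := hz
    obtain ⟨b, hb, rfl⟩ := hw
    exact ⟨a + b, Subalgebra.add_mem _ ha hb, rfl⟩
  | smul c z _ hz =>
    obtain ⟨a, ha, rfl⟩ := hz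
    exact ⟨c • a, Subalgebra.smul_mem _ ha c, rfl⟩

end mods

end Pool.Agent.H159
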