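import Mathlib

/-!
# Segments, Arthur parameters and the graded Euler-Poincare form of `GL_n`

Combinatorial data attached to the blocks of `GL_n(F)`.

* `R` is the set of (unitary, self-twist-normalised) cuspidal labels `ρ`. Exponents of `ν` are
  doubled, so that they are integers: `(ρ, s)` stands for `ν^(s/2) ρ`.
* A segment is a triple `(ρ, s, l)`: the cuspidals `(ρ, s), (ρ, s + 2), ..., (ρ, s + 2 l)`, so its
  length is `l + 1`.
* The Grothendieck ring of all `Rep GL_n(F)` is the polynomial ring in the segments, the variable of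
  a segment being the class of the essentially square-integrable representation it defines; its
  graded version has coefficients in `ℤ[T, T⁻¹]`.
-/

open MvPolynomial

namespace Pool.Agent.H159

/-- A segment `(ρ, s, l)`, with cuspidal support `(ρ, s), (ρ, s + 2), ..., (ρ, s + 2 l)`. -/
abbrev Seg (R : Type) : Type := R × ℤ × ℕ

/-- A summand `ρ ⊠ S_a ⊠ S_b` of an Arthur parameter, as a triple `(ρ, a, b)`. -/
abbrev Block (R : Type) : Type := R × ℕ × ℕ

variable {R : Type}

/-- The cuspidal support of a segment. -/
def segSupp (Δ : Seg R) : Multiset (R × ℤ) :=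
  (Multiset.range (Δ.2.2 + 1)).map fun k : ℕ => (Δ.1, Δ.2.1 + 2 * (k : ℤ))

/-- The cuspidal support of a multisegment, i.e. of a monomial in the segments. -/
def monSupp (m : Seg R →₀ ℕ) : Multiset (R × ℤ) := m.sum fun Δ k => k • segSupp Δ

/-- The cuspidal support of `Sp(δ, b)`, `δ` the discrete series of `ρ ⊠ S_a`: the exponents
`(a - 1)/2 - i + (b - 1)/2 - j` with `i < a` and `j < b`, doubled. -/
def blockSupp (B : Block R) : Multiset (R × ℤ) :=
  (Multiset.range B.2.1).bind fun i : ℕ => (Multiset.range B.2.2).map fun j : ℕ =>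
    (B.1, ((B.2.1 : ℤ) - 1 - 2 * (i : ℤ)) + ((B.2.2 : ℤ) - 1 - 2 * (j : ℤ)))

/-- The cuspidal support of the representation of Arthur type with parameter `ψ`. -/
def arthurSupp (ψ : Multiset (Block R)) : Multiset (R × ℤ) := ψ.bind blockSupp

/-- The restriction of `ψ` to `W_F × ΔSL₂`: by Clebsch-Gordan `ρ ⊠ S_a ⊠ S_b` becomes the sum of
the `ρ ⊠ S_(a + b - 1 - 2 k)` with `k < min a b`. The pair `(ρ, c)` stands for `ρ ⊠ S_c`. -/
def diagRestrict (ψ : Multiset (Block R)) : Multiset (R × ℕ) :=
  ψ.bind fun B =>
    (Multiset.range (min B.2.1 B.2.2)).map fun k : ℕ => (B.1, B.2.1 + B.2.2 - 1 - 2 * k)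

/-- The class of the essentially square-integrable representation of the segment with first cuspidal
`(ρ, s)` and length `d`: it is `1` if `d = 0` and `0` if `d < 0`. -/
noncomputable def segClass (ρ : R) (s d : ℤ) : MvPolynomial (Seg R) ℤ :=
  if d < 0 then 0 else if d = 0 then 1 else X (ρ, s, (d - 1).toNat)

/-- The class of `Sp(δ, b)`, `δ` the discrete series of `ρ ⊠ S_a`, by Tadić's determinantal formula:
the `(i, j)` entry is the class of the segment from `(b - a)/2 - i` to `(a + b)/2 - 1 - j`. -/
noncomputable def spehClass (B : Block R) : MvPolynomial (Seg R) ℤ :=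
  Matrix.det (Matrix.of fun i j : Fin B.2.2 =>
    segClass B.1 ((B.2.2 : ℤ) - B.2.1 - 2 * (i : ℤ)) ((B.2.1 : ℤ) + (i : ℤ) - (j : ℤ)))

/-- The class of the representation of Arthur type with parameter `ψ`. -/
noncomputable def arthurClass (ψ : Multiset (Block R)) : MvPolynomial (Seg R) ℤ :=
  (ψ.map spehClass).prod

/-- Setting `T = 1` in a Laurent polynomial. -/
noncomputable def atOne : LaurentPolynomial ℤ →+* ℤ := LaurentPolynomial.eval₂ (RingHom.id ℤ) 1

/-- `P` is a graded class lifting the class of the representation of Arthur type `ψ`: at `T = 1` it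
is that class, and it only involves multisegments with the cuspidal support of `ψ`. -/
def IsGradedClass (ψ : Multiset (Block R)) (P : MvPolynomial (Seg R) (LaurentPolynomial ℤ)) :
    Prop :=
  MvPolynomial.map atOne P = arthurClass ψ ∧ ∀ m ∈ P.support, monSupp m = arthurSupp ψ

/-- The graded Euler-Poincare characteristic of the standard module of the multisegment `m` with the
costandard one: the product over the segments `Δ` of `m` and `1 ≤ k ≤ (multiplicity of Δ)` of
`1 - T ^ (2 k)`. -/
noncomputable def stdWeight (m : Seg R →₀ ℕ) : LaurentPolynomial ℤ :=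
  m.prod fun _ n => ∏ k ∈ Finset.range n, (1 - LaurentPolynomial.T (2 * ((k : ℤ) + 1)))

/-- The graded Euler-Poincare form, for which the standard modules are orthogonal. -/
noncomputable def gradedEP (P Q : MvPolynomial (Seg R) (LaurentPolynomial ℤ)) :
    LaurentPolynomial ℤ :=
  ∑ m ∈ P.support, P.coeff m * Q.coeff m * stdWeight m

end Pool.Agent.H159
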