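import Pool.Agent.H159.Strand

/-!
# Induced modules from chains: the basis theorem
-/

set_option linter.unusedSectionVars false

namespace Pool.Agent.H159

open KQuiver

section

variable {k I : Type} [Field k] [DecidableEq I] [KQuiver I] {Ω : Finset (List I)}

/-- the start of the `i`-th chain -/
def pos (ss : List (List I)) (i : ℕ) : ℕ := (ss.take i).flatten.length

theorem pos_append (A : List (List I)) (s : List I) (C : List (List I)) :
    pos (A ++ s :: C) A.length = A.flatten.length := by
  unfold pos
  rw [List.take_left]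

theorem pos_ne_of_ins {ss : List (List I)} {j : ℕ} (h : Ins 0 ss j) (i : ℕ) :
    pos ss i ≠ j + 1 := by
  obtain ⟨A, s₁, a, b, s₂, C, h1, h2⟩ := ins_split h
  subst h1
  unfold pos
  rcases Nat.lt_or_ge A.length i with hi | hi
  · obtain ⟨m, rfl⟩ : ∃ m, i = A.length + (m + 1) := ⟨i - A.length - 1, by omega⟩
    rw [List.take_length_add_append, List.take_succ_cons, List.flatten_append,
      List.flatten_cons]
    simp only [List.length_append, List.length_cons]
    omega
  · rw [List.take_append_of_le_length hi]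
    have : (A.take i).flatten.length ≤ A.flatten.length := by
      apply List.Sublist.length_le
      exact (List.take_sublist i A).flatten
    omega

variable (k I Ω) in
/-- products of crossings -/
noncomputable def lwd (T : List ℕ) : GKLR k I Ω := (T.map (gops k I Ω).t).prod

variable (k I Ω) in
/-- polynomials in the dots at the starts of the chains -/
noncomputable def pev (ss : List (List I)) : MvPolynomial (Fin ss.length) k →ₐ[k] GKLR k I Ω :=
  commEval (fun i : Fin ss.length => (gops k I Ω).x (pos ss i))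
    (fun _ _ => (gops k I Ω).x_x _ _)

theorem pev_X (ss : List (List I)) (i : Fin ss.length) :
    pev k I Ω ss (MvPolynomial.X i) = (gops k I Ω).x (pos ss i) := commEval_X _ _ i

variable {M : Type} [AddCommGroup M] [Module k M] [Module (GKLR k I Ω) M]
  [IsScalarTower k (GKLR k I Ω) M]

theorem lwd_smul (T : List ℕ) (y : M) : lwd k I Ω T • y = (mops k I Ω M).wd T y := by
  induction T with
  | nil => simp [lwd, Ops.wd]
  | cons j T ih =>
    have : lwd k I Ω (j :: T) = (gops k I Ω).t j * lwd k I Ω T := by simp [lwd]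
    rw [this, mul_smul, ih]
    rfl

variable (k Ω) in
/-- the conditions on the generator of an induced module -/
def DP (ss : List (List I)) (d : ℤ) (y : M) : Prop :=
  BiHom (k := k) (Ω := Ω) ss.flatten d y ∧ ∀ j, Ins 0 ss j → (gops k I Ω).t j • y = 0

/-- all chains are good and nonempty -/
def GC (ss : List (List I)) : Prop := ∀ s ∈ ss, GoodC s ∧ s ≠ []

theorem DP.x_succ {ss : List (List I)} (hg : GC ss) {d : ℤ} {y : M} (h : DP k Ω ss d y)
    {j : ℕ} (hj : Ins 0 ss j) : (gops k I Ω).x (j + 1) • y = (gops k I Ω).x j • y := by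
  obtain ⟨A, s₁, a, b, s₂, C, h1, h2⟩ := ins_split hj
  have hgood := (hg (s₁ ++ a :: b :: s₂) (by rw [h1]; simp)).1
  have hab := hgood s₁ a [] b s₂ rfl
  have hw : ss.flatten = (A.flatten ++ s₁) ++ a :: b :: (s₂ ++ C.flatten) := by
    rw [h1]; simp
  have hh : (mops k I Ω M).Hom ((A.flatten ++ s₁) ++ a :: b :: (s₂ ++ C.flatten)) y := by
    rw [← hw]; exact h.1.1
  have h3 := Ops.tt_apply hh (j := j) (by rw [h2, List.length_append]; omega)
  have h4 : (mops k I Ω M).t j y = 0 := h.2 j hj
  rw [h4, map_zero] at h3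
  unfold Qop at h3
  rw [if_neg hab.1, if_pos (hab.2.1 rfl), LinearMap.sub_apply] at h3
  exact (sub_eq_zero.mp h3.symm).symm

theorem x_chain {ss : List (List I)} (hg : GC ss) {d : ℤ} {y : M} (h : DP k Ω ss d y) :
    ∀ j, (gops k I Ω).x j • y = 0 ∨
      ∃ i : Fin ss.length, (gops k I Ω).x j • y = (gops k I Ω).x (pos ss i) • y := by
  intro j
  by_cases hj : j < ss.flatten.length
  · right
    induction j with
    | zero =>
      -- the position `0` is the start of the first chain
      rcases ss with _ | ⟨s, ss⟩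
      · simp at hj
      · exact ⟨⟨0, by simp⟩, by simp [pos]⟩
    | succ j ih =>
      rcases pick_or_ins 0 ss hj with ⟨ss', hs⟩ | ⟨h1, h2⟩
      · obtain ⟨A, dd, C, h3, h4⟩ := picks_spec hs
        have h5 : j + 1 = A.flatten.length := congrArg Prod.fst h4
        have h6 : A.length < ss.length := by
          have := congrArg List.length h3
          simp at this
          omega
        refine ⟨⟨A.length, h6⟩, ?_⟩
        have h7 : pos ss A.length = A.flatten.length := by
          conv_lhs => rw [h3]
          exact pos_append _ _ _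
        show (gops k I Ω).x (j + 1) • y = (gops k I Ω).x (pos ss A.length) • y
        rw [h7, h5]
      · have h3 : 0 + (j + 1) - 1 = j := by omega
        rw [h3] at h2
        obtain ⟨i, hi⟩ := ih (by omega)
        exact ⟨i, by rw [h.x_succ hg h2, hi]⟩
  · left
    exact h.1.1.x_zero (by omega)

/-- the conditions are inherited by polynomial multiples -/
theorem DP.pev {ss : List (List I)} (hg : GC ss) {d : ℤ} {y : M} (h : DP k Ω ss d y)
    (p : MvPolynomial (Fin ss.length) k) :
    (mops k I Ω M).Hom ss.flatten (pev k I Ω ss p • y) ∧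
      ∀ j, Ins 0 ss j → (gops k I Ω).t j • (pev k I Ω ss p • y) = 0 := by
  induction p using MvPolynomial.induction_on with
  | C c =>
    have : Pool.Agent.H159.pev k I Ω ss (MvPolynomial.C c) = algebraMap k _ c :=
      (Pool.Agent.H159.pev k I Ω ss).commutes c
    rw [this, algebraMap_smul]
    constructor
    · show (mops k I Ω M).e _ (c • y) = c • y
      rw [map_smul, h.1.1]
    · intro j hj
      rw [smul_comm, h.2 j hj, smul_zero]
  | add p q hp hq =>
    rw [map_add, add_smul]
    constructor
    · show (mops k I Ω M).e _ _ = _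
      rw [map_add, hp.1, hq.1]
    · intro j hj
      rw [smul_add, hp.2 j hj, hq.2 j hj, add_zero]
  | mul_X p i hp =>
    rw [mul_comm, map_mul, pev_X, mul_smul]
    refine ⟨hp.1.x _, ?_⟩
    intro j hj
    have hne := pos_ne_of_ins hj i
    by_cases hji : pos ss i = j
    · rw [hji]
      obtain ⟨A, s₁, a, b, s₂, C, h1, h2⟩ := ins_split hj
      have hgood := (hg (s₁ ++ a :: b :: s₂) (by rw [h1]; simp)).1
      have hab := hgood s₁ a [] b s₂ rfl
      have hw : ss.flatten = (A.flatten ++ s₁) ++ a :: b :: (s₂ ++ C.flatten) := by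
        rw [h1]; simp
      have hh : (mops k I Ω M).Hom ((A.flatten ++ s₁) ++ a :: b :: (s₂ ++ C.flatten))
          (Pool.Agent.H159.pev k I Ω ss p • y) := by
        rw [← hw]; exact hp.1
      have h3 := Ops.xt_apply hh (j := j) (by rw [h2, List.length_append]; omega)
      have h4 : (mops k I Ω M).t j (Pool.Agent.H159.pev k I Ω ss p • y) = 0 := hp.2 j hj
      rw [h4, map_zero] at h3
      have h5 : dlt k a b = 0 := by simp [dlt, hab.1]
      rw [h5, zero_smul, add_zero] at h3
      exact h3.symm
    · have h3 : (mops k I Ω M).t j ((mops k I Ω M).x (pos ss i) (Pool.Agent.H159.pev k I Ω ss p • y)) =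
          (mops k I Ω M).x (pos ss i) ((mops k I Ω M).t j (Pool.Agent.H159.pev k I Ω ss p • y)) :=
        Ops.t_x_comm hji hne _
      have h4 : (mops k I Ω M).t j (Pool.Agent.H159.pev k I Ω ss p • y) = 0 := hp.2 j hj
      rw [h4, map_zero] at h3
      exact h3

/-- the combination of shuffle words attached to a tuple of polynomials -/
noncomputable def comb (ss : List (List I)) (u : List I)
    (p : Fin (BB 0 ss u).length → MvPolynomial (Fin ss.length) k) (y : M) : M :=
  ∑ i, lwd k I Ω (BB 0 ss u)[i] • (pev k I Ω ss (p i) • y)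

theorem comb_add (ss : List (List I)) (u : List I)
    (p q : Fin (BB 0 ss u).length → MvPolynomial (Fin ss.length) k) (y : M) :
    comb (Ω := Ω) ss u (p + q) y = comb (Ω := Ω) ss u p y + comb (Ω := Ω) ss u q y := by
  unfold comb
  rw [← Finset.sum_add_distrib]
  apply Finset.sum_congr rfl
  intro i _
  rw [Pi.add_apply, map_add, add_smul, smul_add]

theorem comb_smul (ss : List (List I)) (u : List I) (c : k)
    (p : Fin (BB 0 ss u).length → MvPolynomial (Fin ss.length) k) (y : M) :
    comb (Ω := Ω) ss u (c • p) y = c • comb (Ω := Ω) ss u p y := by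
  unfold comb
  rw [Finset.smul_sum]
  apply Finset.sum_congr rfl
  intro i _
  rw [Pi.smul_apply, map_smul, smul_assoc, smul_comm]

theorem comb_zero (ss : List (List I)) (u : List I) (y : M) :
    comb (Ω := Ω) (k := k) ss u 0 y = 0 := by
  unfold comb
  apply Finset.sum_eq_zero
  intro i _
  rw [Pi.zero_apply, map_zero, zero_smul, smul_zero]

/-- Every vector of the module generated by `y` in the `u` part is a combination. -/
theorem exists_comb {ss : List (List I)} (hg : GC ss) {d : ℤ} {y : M} (h : DP k Ω ss d y)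
    (u : List I) (r : GKLR k I Ω) :
    ∃ p, (gops k I Ω).e u • (r • y) = comb (k := k) (Ω := Ω) ss u p y := by
  obtain ⟨a, ha, har⟩ := smul_mem_alg' h.1 r
  let W : Submodule k M :=
    LinearMap.range (((Algebra.lsmul k k M).toLinearMap.flip y).comp (pev k I Ω ss).toLinearMap)
  have hWmem : ∀ w, w ∈ W ↔ ∃ p, pev k I Ω ss p • y = w := by
    intro w; exact LinearMap.mem_range
  have h1 := Ops.spanB (O := mops k I Ω M) u [] ss W ⊥
    (by
      intro w hw
      obtain ⟨p, rfl⟩ := (hWmem w).mp hw
      exact (h.pev hg p).1)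
    (by
      intro b _ z hz
      rw [Submodule.mem_bot] at hz ⊢
      rw [hz, map_zero])
    (by
      intro j w hw
      obtain ⟨p, rfl⟩ := (hWmem w).mp hw
      apply Submodule.mem_sup_left
      rw [hWmem]
      have hcomm : (gops k I Ω).x j • (pev k I Ω ss p • y) =
          pev k I Ω ss p • ((gops k I Ω).x j • y) := by
        rw [smul_smul, smul_smul]
        congr 1
        induction p using MvPolynomial.induction_on with
        | C c =>
          have : Pool.Agent.H159.pev k I Ω ss (MvPolynomial.C c) = algebraMap k _ c :=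
            (Pool.Agent.H159.pev k I Ω ss).commutes c
          rw [this]
          exact (Algebra.commutes c _).symm
        | add p q hp hq =>
          rw [map_add, mul_add, add_mul, hp ((hWmem _).mpr ⟨p, rfl⟩),
            hq ((hWmem _).mpr ⟨q, rfl⟩)]
        | mul_X p i hp =>
          rw [map_mul, pev_X, ← mul_assoc, hp ((hWmem _).mpr ⟨p, rfl⟩), mul_assoc, mul_assoc,
            (gops k I Ω).x_x]
      rcases x_chain hg h j with h2 | ⟨i, h2⟩
      · refine ⟨0, ?_⟩
        rw [map_zero, zero_smul]
        show 0 = (gops k I Ω).x j • (pev k I Ω ss p • y)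
        rw [hcomm, h2, smul_zero]
      · refine ⟨p * MvPolynomial.X i, ?_⟩
        show _ = (gops k I Ω).x j • (pev k I Ω ss p • y)
        rw [hcomm, h2, map_mul, pev_X, mul_smul])
    (by
      intro j hj w hw
      obtain ⟨p, rfl⟩ := (hWmem w).mp hw
      rw [Submodule.mem_bot]
      exact (h.pev hg p).2 j hj)
    a ha y ((hWmem y).mpr ⟨1, by rw [map_one, one_smul]⟩)
  rw [sup_bot_eq, List.nil_append] at h1
  rw [har]
  change (mops k I Ω M).e u (a y) ∈ _ at h1
  change ∃ p, (mops k I Ω M).e u (a y) = _
  generalize (mops k I Ω M).e u (a y) = z at h1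
  unfold Ops.SB at h1
  induction h1 using Submodule.span_induction with
  | mem z hz =>
    obtain ⟨T, hT, w, hw, rfl⟩ := hz
    obtain ⟨p, rfl⟩ := (hWmem w).mp hw
    obtain ⟨i, hi, rfl⟩ := List.getElem_of_mem hT
    refine ⟨Pi.single ⟨i, hi⟩ p, ?_⟩
    unfold comb
    rw [Finset.sum_eq_single (⟨i, hi⟩ : Fin (BB 0 ss u).length)]
    · rw [Pi.single_eq_same, lwd_smul]; rfl
    · intro j _ hj
      rw [Pi.single_eq_of_ne hj, map_zero, zero_smul, smul_zero]
    · intro h'; exact absurd (Finset.mem_univ _) h'
  | zero => exact ⟨0, (comb_zero ss u y).symm⟩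
  | add z w _ _ hz hw =>
    obtain ⟨p, rfl⟩ := hz
    obtain ⟨q, rfl⟩ := hw
    exact ⟨p + q, (comb_add ss u p q y).symm⟩
  | smul c z _ hz =>
    obtain ⟨p, rfl⟩ := hz
    exact ⟨c • p, (comb_smul ss u c p y).symm⟩

variable (k I Ω M) in
/-- a map to the rational representation compatible with dots and crossings -/
structure Theta where
  /-- the map -/
  θ : M →ₗ[k] (List (ℕ × I) →₀ ZK k)
  hx : ∀ j z, θ ((gops k I Ω).x j • z) = (zrep k I).x j (θ z)
  ht : ∀ j z, θ ((gops k I Ω).t j • z) = (zrep k I).t j (θ z)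

/-- evaluation of polynomials at spectral parameters -/
noncomputable def zev {m : ℕ} (ι : Fin m → ℕ) : MvPolynomial (Fin m) k →ₐ[k] ZK k :=
  MvPolynomial.aeval (fun i => zv k (ι i))

theorem zev_inj {m : ℕ} {ι : Fin m → ℕ} (hι : Function.Injective ι) :
    Function.Injective (zev (k := k) ι) := by
  have h1 : zev (k := k) ι = (IsScalarTower.toAlgHom k (MvPolynomial ℕ k) (ZK k)).comp
      (MvPolynomial.rename ι) := by
    apply MvPolynomial.algHom_ext
    intro i
    simp [zev, zv]
  rw [h1]
  have h2 := IsFractionRing.injective (MvPolynomial ℕ k) (ZK k)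
  have h3 := MvPolynomial.rename_injective (R := k) ι hι
  intro p q hpq
  exact h3 (h2 hpq)

/-- the dot at the start of a chain acts by the spectral parameter -/
theorem zrep_x_pos {ts : List (ℕ × List I)} (h : TGood ts) (hne : ∀ q ∈ ts, q.2 ≠ [])
    (i : Fin ts.length) :
    (zrep k I).x (pos (ts.map Prod.snd) i) (Frep.bb (tl ts)) =
      zv k (ts[i]).1 • Frep.bb (tl ts) := by
  obtain ⟨i, hi⟩ := i
  have hsplit : ts = ts.take i ++ ts[i] :: ts.drop (i + 1) := by
    rw [← List.drop_eq_getElem_cons, List.take_append_drop]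
  obtain ⟨a, s, hs⟩ : ∃ a s, (ts[i]).2 = a :: s := by
    rcases hq : (ts[i]).2 with _ | ⟨a, s⟩
    · exact absurd hq (hne _ (List.getElem_mem hi))
    · exact ⟨a, s, rfl⟩
  have e1 : tl ts = tl (ts.take i) ++ ((ts[i]).1, a) ::
      (s.map (Prod.mk (ts[i]).1) ++ tl (ts.drop (i + 1))) := by
    have e0 : tl ts = tl (ts.take i ++ ts[i] :: ts.drop (i + 1)) := by rw [← hsplit]
    rw [e0, tl_append, tl_cons, hs]
    simp
  have hn := tl_nodup h
  rw [e1] at hn
  have hlen : (tl (ts.take i)).length = pos (ts.map Prod.snd) i := by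
    unfold pos
    rw [← List.map_take, ← tl_labels, List.length_map]
  have h3 := Frep.ox_bb (c := zc k I) hn hlen
  rw [← e1] at h3
  exact h3

theorem zrep_x_smul (j : ℕ) (c : ZK k) (z : List (ℕ × I) →₀ ZK k) :
    (zrep k I).x j (c • z) = c • (zrep k I).x j z :=
  map_smul ((Frep.frep Prod.snd (zc k I) zc_ne).x j) c z

theorem theta_pev (Θ : Theta k I Ω M) {ts : List (ℕ × List I)} (hts : TGood ts)
    (hne : ∀ q ∈ ts, q.2 ≠ []) {ss : List (List I)} (hss : ts.map Prod.snd = ss)
    (hl : ss.length = ts.length) {y : M} {κ : ZK k} (hy : Θ.θ y = κ • Frep.bb (tl ts))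
    (p : MvPolynomial (Fin ss.length) k) :
    Θ.θ (pev k I Ω ss p • y) =
      (zev (fun i => (ts[(i.cast hl)]).1) p * κ) • Frep.bb (tl ts) := by
  induction p using MvPolynomial.induction_on with
  | C c =>
    have h1 : pev k I Ω ss (MvPolynomial.C c) = algebraMap k _ c := (pev k I Ω ss).commutes c
    have h2 : zev (k := k) (fun i => (ts[(Fin.cast hl i)]).1) (MvPolynomial.C c) =
      algebraMap k _ c := (zev (k := k) (fun i => (ts[(Fin.cast hl i)]).1)).commutes c
    rw [h1, h2, algebraMap_smul, map_smul, hy, mul_smul, algebraMap_smul]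
  | add p q hp hq =>
    rw [map_add, map_add, add_smul, map_add, hp, hq, add_mul, add_smul]
  | mul_X p i hp =>
    rw [mul_comm, map_mul, pev_X, mul_smul, Θ.hx, hp, zrep_x_smul]
    subst hss
    have := zrep_x_pos (k := k) hts hne (i.cast hl)
    have h3 : pos (ts.map Prod.snd) (i.cast hl : Fin _) = pos (ts.map Prod.snd) i := rfl
    rw [h3] at this
    rw [this, smul_smul, map_mul]
    congr 1
    have h4 : zev (k := k) (fun i => (ts[(Fin.cast hl i)]).1) (MvPolynomial.X i) =
      zv k (ts[(Fin.cast hl i)]).1 := by simp [zev]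
    rw [h4]
    ring

theorem theta_wd (Θ : Theta k I Ω M) (T : List ℕ) (y : M) :
    Θ.θ (lwd k I Ω T • y) = (zrep k I).wd T (Θ.θ y) := by
  induction T with
  | nil => simp [lwd, Ops.wd]
  | cons j T ih =>
    have : lwd k I Ω (j :: T) = (gops k I Ω).t j * lwd k I Ω T := by simp [lwd]
    rw [this, mul_smul, Θ.ht, ih]
    rfl

/-- The independence criterion. -/
theorem comb_eq_zero (Θ : Theta k I Ω M) {ts : List (ℕ × List I)} (hts : TGood ts)
    (hne : ∀ q ∈ ts, q.2 ≠ []) {ss : List (List I)} (hss : ts.map Prod.snd = ss)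
    {y : M} {κ : ZK k} (hκ : κ ≠ 0) (hy : Θ.θ y = κ • Frep.bb (tl ts)) {u : List I}
    {p : Fin (BB 0 ss u).length → MvPolynomial (Fin ss.length) k}
    (h : comb (Ω := Ω) ss u p y = 0) : p = 0 := by
  have hl : ss.length = ts.length := by rw [← hss, List.length_map]
  have h1 := congrArg Θ.θ h
  unfold comb at h1
  rw [map_sum, map_zero] at h1
  have h2 : ∀ i, Θ.θ (lwd k I Ω (BB 0 ss u)[i] • (pev k I Ω ss (p i) • y)) =
      (zev (fun i => (ts[(Fin.cast hl i)]).1) (p i) * κ) •
        (Frep.frep Prod.snd (zc k I) zc_ne).wd (BB 0 ss u)[i] (Frep.bb (tl ts)) := by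
    intro i
    rw [theta_wd, theta_pev Θ hts hne hss hl hy, wd_restrict, map_smul]
  simp only [h2] at h1
  subst hss
  have h3 := Fintype.linearIndependent_iff.mp (zrep_indep (k := k) hts u) _ h1
  funext i
  have h4 := h3 i
  have h5 := (mul_eq_zero.mp h4).resolve_right hκ
  have h6 : Function.Injective (fun i => (ts[(Fin.cast hl i)]).1) := by
    intro i j hij
    have h7 := List.nodup_iff_injective_get.mp hts.1
    have h8 : (ts.map Prod.fst).get (i.cast (by simp)) = (ts.map Prod.fst).get (j.cast (by simp)) := by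
      simpa using hij
    have h9 := h7 h8
    exact Fin.ext (by simpa using congrArg Fin.val h9)
  exact (map_eq_zero_iff _ (zev_inj h6)).mp h5

end

end Pool.Agent.H159
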