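import Pool.Agent.H159.Core

/-!
# Counting permutations that match two functions, and monomials of permutations
-/

open Finset Equiv MvPolynomial

namespace Pool.Agent.H159

section match_

set_option linter.unusedSectionVars false

variable {S : Type} [DecidableEq S]

/-- Functions with equinumerous fibres differ by a bijection. -/
theorem exists_equiv_of_fibres {Ω Ω' : Type} [Fintype Ω] [Fintype Ω']
    {p : Ω → S} {q : Ω' → S}
    (h : ∀ s, Fintype.card {x // p x = s} = Fintype.card {x // q x = s}) :
    ∃ e : Ω ≃ Ω', ∀ x, q (e x) = p x := by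
  have h1 : ∀ s, Nonempty ({x // p x = s} ≃ {x // q x = s}) := fun s =>
    Fintype.card_eq.mp (h s)
  let F := fun s => (h1 s).some
  refine ⟨(Equiv.sigmaFiberEquiv p).symm.trans
    ((Equiv.sigmaCongrRight F).trans (Equiv.sigmaFiberEquiv q)), fun x => ?_⟩
  simp only [Equiv.trans_apply]
  have e1 : (Equiv.sigmaFiberEquiv p).symm x = ⟨p x, ⟨x, rfl⟩⟩ := rfl
  rw [e1, Equiv.sigmaCongrRight_apply]
  exact (F (p x) ⟨x, rfl⟩).2

theorem exists_equiv_of_map_eq {Ω Ω' : Type} [Fintype Ω] [Fintype Ω']
    {p : Ω → S} {q : Ω' → S}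
    (h : (Finset.univ : Finset Ω).val.map p = (Finset.univ : Finset Ω').val.map q) :
    ∃ e : Ω ≃ Ω', ∀ x, q (e x) = p x := by
  apply exists_equiv_of_fibres
  intro s
  have h2 := congrArg (Multiset.count s) h
  rw [Multiset.count_map, Multiset.count_map] at h2
  rw [Fintype.card_subtype, Fintype.card_subtype]
  rw [Finset.card_def, Finset.card_def, Finset.filter_val, Finset.filter_val]
  simpa only [eq_comm] using h2

variable {Ω : Type} [Fintype Ω] [DecidableEq Ω]

/-- the monomial of a function into the variables -/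
noncomputable def monOf (p : Ω → S) : S →₀ ℕ := ∑ x, Finsupp.single (p x) 1

theorem monOf_apply (p : Ω → S) (s : S) :
    monOf p s = Fintype.card {x // p x = s} := by
  unfold monOf
  rw [Finsupp.finsetSum_apply, Fintype.card_subtype, Finset.card_filter]
  refine Finset.sum_congr rfl fun x _ => ?_
  rw [Finsupp.single_apply]

theorem monOf_comp (p : Ω → S) (g : Perm Ω) : monOf (fun x => p (g x)) = monOf p := by
  unfold monOf
  exact Equiv.sum_comp g (fun x => Finsupp.single (p x) 1)

theorem degree_monOf (p : Ω → S) : (monOf p).degree = Fintype.card Ω := by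
  unfold monOf
  rw [map_sum]
  simp

theorem prod_factorial_monOf (p : Ω → S) :
    (monOf p).prod (fun _ n => n.factorial) =
      (Finset.univ.filter fun g : Perm Ω => ∀ x, p (g x) = p x).card := by
  have h1 := DomMulAct.stabilizer_card' (f := p)
  have h2 : (Finset.univ.filter fun g : Perm Ω => ∀ x, p (g x) = p x).card =
      Fintype.card {g : Perm Ω // p ∘ g = p} := by
    rw [Fintype.card_subtype]
    congr 1
    ext g
    simp [funext_iff]
  rw [h2, h1]
  unfold Finsupp.prod
  have h3 : (monOf p).support = Finset.univ.image p := by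
    ext s
    rw [Finsupp.mem_support_iff, monOf_apply, Finset.mem_image]
    rw [← Nat.pos_iff_ne_zero, Fintype.card_pos_iff]
    simp
  rw [h3]
  refine Finset.prod_congr rfl fun s _ => ?_
  rw [monOf_apply]

open Classical in
theorem card_matching (p q : Ω → S) :
    (Finset.univ.filter fun g : Perm Ω => ∀ x, q (g x) = p x).card =
      if monOf p = monOf q then (monOf p).prod (fun _ n => n.factorial) else 0 := by
  split_ifs with h
  · obtain ⟨e, he⟩ := exists_equiv_of_fibres (p := p) (q := q) (fun s => by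
      rw [← monOf_apply, ← monOf_apply, h])
    rw [prod_factorial_monOf]
    refine Finset.card_bij' (fun g _ => e⁻¹ * g) (fun g _ => e * g) ?_ ?_ ?_ ?_
    · intro g hg
      simp only [Finset.mem_filter, Finset.mem_univ, true_and] at hg ⊢
      intro x
      rw [Perm.mul_apply, ← he, ← Perm.mul_apply, mul_inv_cancel, Perm.one_apply, hg]
    · intro g hg
      simp only [Finset.mem_filter, Finset.mem_univ, true_and] at hg ⊢
      intro x
      rw [Perm.mul_apply, he, hg]
    · intro g _; simp
    · intro g _; simp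
  · rw [Finset.card_eq_zero, Finset.filter_eq_empty_iff]
    intro g _ hg
    apply h
    have : p = fun x => q (g x) := by funext x; exact (hg x).symm
    rw [this, monOf_comp]

end match_

section form

variable {S : Type} [DecidableEq S]

/-- the Fischer pairing: monomials are orthogonal and `X^m` has square `m!` -/
noncomputable def fis (f g : MvPolynomial S ℤ) : ℤ :=
  ∑ m ∈ f.support, f.coeff m * g.coeff m * ((m.prod fun _ n => n.factorial : ℕ) : ℤ)

theorem fis_eq_sum (f g : MvPolynomial S ℤ) (s : Finset (S →₀ ℕ)) (h : f.support ⊆ s) :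
    fis f g = ∑ m ∈ s, f.coeff m * g.coeff m * ((m.prod fun _ n => n.factorial : ℕ) : ℤ) := by
  unfold fis
  apply Finset.sum_subset h
  intro m _ hm
  rw [MvPolynomial.notMem_support_iff.mp hm]
  simp

open Classical in
theorem fis_sum_monomial {ι κ : Type*} (s : Finset ι) (t : Finset κ) (α : ι → ℤ) (β : κ → ℤ)
    (m : ι → S →₀ ℕ) (n : κ → S →₀ ℕ) :
    fis (∑ i ∈ s, MvPolynomial.monomial (m i) (α i)) (∑ j ∈ t, MvPolynomial.monomial (n j) (β j)) =
      ∑ i ∈ s, ∑ j ∈ t, α i * β j *
        ((if m i = n j then (m i).prod (fun _ n => n.factorial) else 0 : ℕ) : ℤ) := by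
  have hsub : (∑ i ∈ s, MvPolynomial.monomial (m i) (α i)).support ⊆ s.image m := by
    intro d hd
    rw [MvPolynomial.mem_support_iff, MvPolynomial.coeff_sum] at hd
    obtain ⟨i, hi, hi'⟩ := Finset.exists_ne_zero_of_sum_ne_zero hd
    rw [MvPolynomial.coeff_monomial] at hi'
    rw [Finset.mem_image]
    refine ⟨i, hi, ?_⟩
    by_contra h
    rw [if_neg h] at hi'
    exact hi' rfl
  rw [fis_eq_sum _ _ _ hsub]
  simp only [MvPolynomial.coeff_sum, MvPolynomial.coeff_monomial, Finset.sum_mul, Finset.mul_sum]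
  rw [Finset.sum_comm]
  rw [Finset.sum_congr rfl (fun j _ => Finset.sum_comm)]
  rw [Finset.sum_comm]
  refine Finset.sum_congr rfl fun i hi => ?_
  refine Finset.sum_congr rfl fun j _ => ?_
  rw [Finset.sum_eq_single (m i)]
  · rw [if_pos rfl]
    by_cases h : m i = n j
    · rw [if_pos h.symm, if_pos h]
    · rw [if_neg (fun h' => h h'.symm), if_neg h]; simp
  · intro d _ hd
    rw [if_neg (Ne.symm hd)]; simp
  · intro h
    exact absurd (Finset.mem_image_of_mem m hi) h

end form

section blocks

variable {R : Type} [DecidableEq R] {Ω : Type} [Fintype Ω] [DecidableEq Ω]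

/-- the variable attached to a pair of values -/
def Yvar (v v' : R × ℕ) : R × ℤ × ℕ := (v.1, 1 - (v.2 : ℤ), (v.2 + v'.2) / 2 - 1)

/-- the block matrix -/
noncomputable def blockMat (val : Ω → R × ℕ) (b : Ω → ℕ) :
    Matrix Ω Ω (MvPolynomial (R × ℤ × ℕ) ℤ) :=
  Matrix.of fun x y => if b x = b y then MvPolynomial.X (Yvar (val x) (val y)) else 0

/-- compatibility of values inside a block -/
def Good (val : Ω → R × ℕ) (b : Ω → ℕ) : Prop :=
  (∀ x y, b x = b y → (val x).1 = (val y).1 ∧ (val x).2 % 2 = (val y).2 % 2) ∧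
    ∀ x, 1 ≤ (val x).2

theorem det_blockMat (val : Ω → R × ℕ) (b : Ω → ℕ) :
    (blockMat val b).det = ∑ σ ∈ stab b, MvPolynomial.monomial
      (monOf fun x => Yvar (val (σ x)) (val x)) (Perm.sign σ : ℤ) := by
  rw [Matrix.det_apply']
  rw [← Finset.sum_subset (Finset.subset_univ (stab b))]
  · refine Finset.sum_congr rfl fun σ hσ => ?_
    rw [mem_stab] at hσ
    have h1 : ∀ x ∈ Finset.univ, blockMat val b (σ x) x =
        MvPolynomial.monomial (Finsupp.single (Yvar (val (σ x)) (val x)) 1) (1 : ℤ) := by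
      intro x _
      unfold blockMat
      rw [Matrix.of_apply, if_pos (hσ x)]
      rfl
    rw [Finset.prod_congr rfl h1, ← MvPolynomial.monomial_sum_one]
    have h2 : (((Perm.sign σ : ℤˣ) : ℤ) : MvPolynomial (R × ℤ × ℕ) ℤ) =
        MvPolynomial.C ((Perm.sign σ : ℤˣ) : ℤ) := by simp
    rw [h2, MvPolynomial.C_mul_monomial, mul_one]
    rfl
  · intro σ _ hσ
    rw [mem_stab] at hσ
    push Not at hσ
    obtain ⟨x, hx⟩ := hσ
    rw [Finset.prod_eq_zero (Finset.mem_univ x), mul_zero]
    unfold blockMat
    rw [Matrix.of_apply, if_neg hx]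

theorem fis_det_pos {val : Ω → R × ℕ} {b₁ b₂ : Ω → ℕ} (h₁ : RowInj val b₁) (h₂ : RowInj val b₂)
    (g₁ : Good val b₁) (g₂ : Good val b₂) :
    0 < fis (blockMat val b₁).det (blockMat val b₂).det := by
  classical
  rw [det_blockMat, det_blockMat, fis_sum_monomial]
  have hpos := core_pos h₁ h₂
  refine hpos.trans_eq ?_
  refine Finset.sum_congr rfl fun σ hσ => ?_
  refine Finset.sum_congr rfl fun τ hτ => ?_
  congr 2
  rw [← card_matching]
  congr 1
  ext g
  simp only [Finset.mem_filter, Finset.mem_univ, true_and]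
  rw [mem_stab] at hσ hτ ⊢
  rw [mem_stab]
  constructor
  · rintro ⟨ha, hb⟩ x
    have := hb (σ x)
    have h3 : (τ * g * σ⁻¹) (σ x) = τ (g x) := by simp
    rw [h3] at this
    rw [this, ha]
  · intro h
    have key : ∀ x, val (τ (g x)) = val (σ x) ∧ val (g x) = val x := by
      intro x
      have hx := h x
      unfold Yvar at hx
      rw [Prod.mk.injEq, Prod.mk.injEq] at hx
      obtain ⟨e1, e2, e3⟩ := hx
      have a1 := g₁.1 (σ x) x (hσ x)
      have a2 := g₂.1 (τ (g x)) (g x) (hτ (g x))
      have a3 := g₁.2 x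
      have a4 := g₁.2 (σ x)
      have a5 := g₁.2 (g x)
      have a6 := g₁.2 (τ (g x))
      have e4 : (val (τ (g x))).2 = (val (σ x)).2 := by omega
      have e5 : (val (g x)).2 = (val x).2 := by omega
      refine ⟨Prod.ext e1 e4, Prod.ext ?_ e5⟩
      rw [← a2.1, e1, a1.1]
    refine ⟨fun x => (key x).2, fun x => ?_⟩
    have := (key (σ⁻¹ x)).1
    simpa using this

end blocks

end Pool.Agent.H159
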