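import Pool.Agent.H159.Spread

/-!
# The rational representation of the quiver Hecke algebra on interleavings of strands
-/

set_option linter.unusedSectionVars false
set_option linter.unusedSimpArgs false

namespace Pool.Agent.H159

open KQuiver

theorem split_two' {S : Type} {l : List S} {j : ℕ} (h : j + 1 < l.length) :
    ∃ p a b q, p.length = j ∧ l = p ++ a :: b :: q := by
  refine ⟨l.take j, l[j], l[j+1], l.drop (j + 2), ?_, ?_⟩
  · rw [List.length_take]; omega
  · rw [← List.drop_eq_getElem_cons (by omega), ← List.drop_eq_getElem_cons (by omega),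
      List.take_append_drop]

namespace Frep

variable {I S K : Type} [DecidableEq I] [KQuiver I] [Field K] (lab : S → I) (c : S → K)

open Classical in
/-- the swap coefficient -/
noncomputable def cA (s t : S) : K :=
  if lab s = lab t then (c s - c t)⁻¹ else if arr (lab s) (lab t) then c s - c t else 1

open Classical in
/-- the diagonal coefficient -/
noncomputable def cB (s t : S) : K := if lab s = lab t then -(c s - c t)⁻¹ else 0

open Classical in
/-- basis action of idempotents -/
noncomputable def fe (l : List I) (L : List S) : List S →₀ K :=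
  if L.Nodup ∧ L.map lab = l then Finsupp.single L 1 else 0

open Classical in
/-- basis action of dots -/
noncomputable def fx (j : ℕ) (L : List S) : List S →₀ K :=
  if L.Nodup then match L.drop j with
    | [] => 0
    | s :: _ => c s • Finsupp.single L 1
  else 0

open Classical in
/-- basis action of crossings -/
noncomputable def ft (j : ℕ) (L : List S) : List S →₀ K :=
  if L.Nodup then match L.drop j with
    | s :: t :: q => cA lab c s t • Finsupp.single (L.take j ++ t :: s :: q) 1 +
        cB lab c s t • Finsupp.single L 1
    | _ => 0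
  else 0

/-- idempotents -/
noncomputable def oe (l : List I) : Module.End K (List S →₀ K) :=
  Finsupp.linearCombination K (fe lab l)

/-- dots -/
noncomputable def ox (j : ℕ) : Module.End K (List S →₀ K) :=
  Finsupp.linearCombination K (fx c j)

/-- crossings -/
noncomputable def ot (j : ℕ) : Module.End K (List S →₀ K) :=
  Finsupp.linearCombination K (ft lab c j)

/-- basis vectors -/
noncomputable def bb (L : List S) : List S →₀ K := Finsupp.single L 1

variable {lab c}

theorem oe_bb_self {L : List S} (h : L.Nodup) : oe (K := K) lab (L.map lab) (bb L) = bb L := by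
  simp [oe, bb, fe, h]

theorem oe_bb_ne {L : List S} {l : List I} (h : L.map lab ≠ l) :
    oe (K := K) lab l (bb L) = 0 := by
  simp [oe, bb, fe, h]

theorem oe_bb_not {L : List S} {l : List I} (h : ¬ L.Nodup) :
    oe (K := K) lab l (bb L) = 0 := by
  simp [oe, bb, fe, h]

theorem ox_bb {p : List S} {s : S} {q : List S} (h : (p ++ s :: q).Nodup) {j : ℕ}
    (hj : p.length = j) : ox c j (bb (p ++ s :: q)) = c s • bb (p ++ s :: q) := by
  subst hj
  simp only [ox, bb, Finsupp.linearCombination_single, one_smul, fx, if_pos h]
  rw [List.drop_left]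

theorem ox_bb_big {L : List S} {j : ℕ} (hj : L.length ≤ j) : ox c j (bb L) = 0 := by
  simp only [ox, bb, Finsupp.linearCombination_single, one_smul, fx]
  rw [List.drop_eq_nil_of_le hj]
  simp

theorem ox_bb_not {L : List S} {j : ℕ} (h : ¬ L.Nodup) : ox c j (bb L) = 0 := by
  simp [ox, bb, fx, h]

theorem ot_bb {p : List S} {s t : S} {q : List S} (h : (p ++ s :: t :: q).Nodup) {j : ℕ}
    (hj : p.length = j) : ot lab c j (bb (p ++ s :: t :: q)) =
      cA lab c s t • bb (p ++ t :: s :: q) + cB lab c s t • bb (p ++ s :: t :: q) := by
  subst hj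
  simp only [ot, bb, Finsupp.linearCombination_single, one_smul, ft, if_pos h]
  rw [List.drop_left]
  simp only [List.take_left]

theorem ot_bb_big {L : List S} {j : ℕ} (hj : L.length ≤ j + 1) : ot lab c j (bb L) = 0 := by
  simp only [ot, bb, Finsupp.linearCombination_single, one_smul, ft]
  split_ifs
  · rcases hL : L.drop j with _ | ⟨s, _ | ⟨t, q⟩⟩
    · rfl
    · rfl
    · have := congrArg List.length hL
      rw [List.length_drop] at this
      simp only [List.length_cons] at this
      omega
  · rfl

theorem ot_bb_not {L : List S} {j : ℕ} (h : ¬ L.Nodup) : ot lab c j (bb L) = 0 := by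
  simp [ot, bb, ft, h]

/-- an endomorphism identity can be checked on basis vectors -/
theorem end_ext {f g : Module.End K (List S →₀ K)} (h : ∀ L, f (bb L) = g (bb L)) : f = g := by
  apply Finsupp.lhom_ext'
  intro L
  apply LinearMap.ext_ring
  simpa [bb] using h L

theorem nodup_swap {p q : List S} {s t : S} : (p ++ s :: t :: q).Nodup ↔
    (p ++ t :: s :: q).Nodup := by
  apply List.Perm.nodup_iff
  exact List.Perm.append_left _ (List.Perm.swap _ _ _)

theorem ne_of_nodup {p q : List S} {s t : S} (h : (p ++ s :: t :: q).Nodup) : s ≠ t := by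
  have h1 : (s :: t :: q).Nodup := (List.sublist_append_right p _).nodup h
  rintro rfl
  exact (List.nodup_cons.mp h1).1 List.mem_cons_self

theorem cB_ne {s t : S} (h : lab s ≠ lab t) : cB lab c s t = 0 := by
  simp [cB, h]

theorem eq_of_word {L : List S} {p q : List I} {a b : I} (h : L.map lab = p ++ a :: b :: q) :
    ∃ p' s t q', L = p' ++ s :: t :: q' ∧ p'.length = p.length ∧ lab s = a ∧ lab t = b := by
  obtain ⟨p', r, rfl, h1, h2⟩ := List.map_eq_append_iff.mp h
  obtain ⟨s, r, rfl, h3, h4⟩ := List.map_eq_cons_iff.mp h2
  obtain ⟨t, q', rfl, h5, h6⟩ := List.map_eq_cons_iff.mp h4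
  exact ⟨p', s, t, q', rfl, by rw [← h1, List.length_map], h3, h5⟩

theorem eq_of_word3 {L : List S} {p q : List I} {a b d : I}
    (h : L.map lab = p ++ a :: b :: d :: q) :
    ∃ p' s t u q', L = p' ++ s :: t :: u :: q' ∧ p'.length = p.length ∧ lab s = a ∧ lab t = b ∧
      lab u = d := by
  obtain ⟨p', r, rfl, h1, h2⟩ := List.map_eq_append_iff.mp h
  obtain ⟨s, r, rfl, h3, h4⟩ := List.map_eq_cons_iff.mp h2
  obtain ⟨t, r, rfl, h5, h6⟩ := List.map_eq_cons_iff.mp h4
  obtain ⟨u, q', rfl, h7, h8⟩ := List.map_eq_cons_iff.mp h6
  exact ⟨p', s, t, u, q', rfl, by rw [← h1, List.length_map], h3, h5, h7⟩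

/-- reduce an identity with an idempotent on the right to basis vectors -/
theorem ext_word {f g : Module.End K (List S →₀ K)} {l : List I}
    (h : ∀ L : List S, L.Nodup → L.map lab = l → f (bb L) = g (bb L)) :
    f * oe lab l = g * oe lab l := by
  apply end_ext
  intro L
  rw [Module.End.mul_apply, Module.End.mul_apply]
  by_cases h1 : L.Nodup
  · by_cases h2 : L.map lab = l
    · have h3 := oe_bb_self (K := K) (lab := lab) h1
      rw [h2] at h3
      rw [h3]
      exact h L h1 h2
    · rw [oe_bb_ne h2, map_zero, map_zero]
  · rw [oe_bb_not h1, map_zero, map_zero]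

open Classical in
theorem cA_mul {s t : S} (h : lab s ≠ lab t) :
    cA lab c s t * cA lab c t s =
      if arr (lab s) (lab t) then c s - c t else if arr (lab t) (lab s) then c t - c s else 1 := by
  unfold cA
  rw [if_neg h, if_neg (Ne.symm h)]
  by_cases h1 : arr (lab s) (lab t)
  · rw [if_pos h1, if_pos h1, if_neg (asymm _ _ h1), mul_one]
  · rw [if_neg h1, if_neg h1, one_mul]

theorem rel_tt (hc : ∀ s t, lab s = lab t → s ≠ t → c s ≠ c t) (p q : List I) (a b : I) :
    ot lab c p.length * ot lab c p.length * oe lab (p ++ a :: b :: q) =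
      Qop a b (ox c p.length) (ox c (p.length + 1)) * oe lab (p ++ a :: b :: q) := by
  apply ext_word
  intro L h1 h2
  obtain ⟨p', s, t, q', rfl, hp, rfl, rfl⟩ := eq_of_word h2
  rw [← hp, Module.End.mul_apply, ot_bb h1 rfl, map_add, map_smul, map_smul,
    ot_bb (nodup_swap.mp h1) rfl, ot_bb h1 rfl]
  have hx1 : ox c p'.length (bb (p' ++ s :: t :: q')) = c s • bb (p' ++ s :: t :: q') :=
    ox_bb h1 rfl
  have hx2 : ox c (p'.length + 1) (bb (p' ++ s :: t :: q')) = c t • bb (p' ++ s :: t :: q') := by
    have := ox_bb (c := c) (p := p' ++ [s]) (s := t) (q := q') (j := p'.length + 1)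
      (by simpa using h1) (by simp)
    simpa using this
  by_cases hst : lab s = lab t
  · have hne : s ≠ t := ne_of_nodup h1
    have hcc : c s - c t ≠ 0 := sub_ne_zero.mpr (hc s t hst hne)
    have e1 : (c t - c s)⁻¹ = -(c s - c t)⁻¹ := by
      rw [← inv_neg, neg_sub]
    simp only [Qop, cA, cB, hst, if_true, LinearMap.zero_apply, e1]
    module
  · rw [cB_ne hst, cB_ne (Ne.symm hst)]
    simp only [zero_smul, add_zero]
    rw [smul_smul, cA_mul hst]
    unfold Qop
    rw [if_neg hst]
    split_ifs
    · rw [LinearMap.sub_apply, hx1, hx2, sub_smul]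
    · rw [LinearMap.sub_apply, hx1, hx2, sub_smul]
    · rw [one_smul]; rfl

theorem rel_tx (hc : ∀ s t, lab s = lab t → s ≠ t → c s ≠ c t) (p q : List I) (a b : I) :
    ot lab c p.length * ox c (p.length + 1) * oe lab (p ++ a :: b :: q) =
      ox c p.length * ot lab c p.length * oe lab (p ++ a :: b :: q) +
        dlt K a b • oe lab (p ++ a :: b :: q) := by
  have h0 : ox c p.length * ot lab c p.length * oe lab (p ++ a :: b :: q) +
        dlt K a b • oe lab (p ++ a :: b :: q) =
      (ox c p.length * ot lab c p.length + dlt K a b • 1) * oe lab (p ++ a :: b :: q) := by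
    rw [add_mul, smul_mul_assoc, one_mul]
  rw [h0]
  apply ext_word
  intro L h1 h2
  obtain ⟨p', s, t, q', rfl, hp, rfl, rfl⟩ := eq_of_word h2
  have hx2 : ox c (p'.length + 1) (bb (p' ++ s :: t :: q')) = c t • bb (p' ++ s :: t :: q') := by
    have := ox_bb (c := c) (p := p' ++ [s]) (s := t) (q := q') (j := p'.length + 1)
      (by simpa using h1) (by simp)
    simpa using this
  rw [← hp, Module.End.mul_apply, LinearMap.add_apply, Module.End.mul_apply, hx2, map_smul,
    ot_bb h1 rfl, map_add, map_smul, map_smul, ox_bb (nodup_swap.mp h1) rfl, ox_bb h1 rfl,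
    LinearMap.smul_apply, Module.End.one_apply]
  by_cases hst : lab s = lab t
  · have hne : s ≠ t := ne_of_nodup h1
    have hcc : c s - c t ≠ 0 := sub_ne_zero.mpr (hc s t hst hne)
    simp only [cA, cB, dlt, hst, if_true]
    match_scalars
    · field_simp
    · field_simp
      ring
  · rw [cB_ne hst]
    simp only [dlt, hst, if_false]
    module

theorem rel_xt (hc : ∀ s t, lab s = lab t → s ≠ t → c s ≠ c t) (p q : List I) (a b : I) :
    ox c (p.length + 1) * ot lab c p.length * oe lab (p ++ a :: b :: q) =
      ot lab c p.length * ox c p.length * oe lab (p ++ a :: b :: q) +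
        dlt K a b • oe lab (p ++ a :: b :: q) := by
  have h0 : ot lab c p.length * ox c p.length * oe lab (p ++ a :: b :: q) +
        dlt K a b • oe lab (p ++ a :: b :: q) =
      (ot lab c p.length * ox c p.length + dlt K a b • 1) * oe lab (p ++ a :: b :: q) := by
    rw [add_mul, smul_mul_assoc, one_mul]
  rw [h0]
  apply ext_word
  intro L h1 h2
  obtain ⟨p', s, t, q', rfl, hp, rfl, rfl⟩ := eq_of_word h2
  have hx2 : ox c (p'.length + 1) (bb (p' ++ s :: t :: q')) = c t • bb (p' ++ s :: t :: q') := by
    have := ox_bb (c := c) (p := p' ++ [s]) (s := t) (q := q') (j := p'.length + 1)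
      (by simpa using h1) (by simp)
    simpa using this
  have hx3 : ox c (p'.length + 1) (bb (p' ++ t :: s :: q')) = c s • bb (p' ++ t :: s :: q') := by
    have := ox_bb (c := c) (p := p' ++ [t]) (s := s) (q := q') (j := p'.length + 1)
      (by simpa using nodup_swap.mp h1) (by simp)
    simpa using this
  rw [← hp, Module.End.mul_apply, LinearMap.add_apply, Module.End.mul_apply, ox_bb h1 rfl,
    map_smul, ot_bb h1 rfl, map_add, map_smul, map_smul, hx2, hx3,
    LinearMap.smul_apply, Module.End.one_apply]
  by_cases hst : lab s = lab t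
  · have hne : s ≠ t := ne_of_nodup h1
    have hcc : c s - c t ≠ 0 := sub_ne_zero.mpr (hc s t hst hne)
    simp only [cA, cB, dlt, hst, if_true]
    match_scalars
    · field_simp
    · field_simp
      ring
  · rw [cB_ne hst]
    simp only [dlt, hst, if_false]
    module

theorem ot_bb2 {p : List S} {s t u : S} {q : List S} (h : (p ++ s :: t :: u :: q).Nodup) {j : ℕ}
    (hj : p.length = j) : ot lab c (j + 1) (bb (p ++ s :: t :: u :: q)) =
      cA lab c t u • bb (p ++ s :: u :: t :: q) + cB lab c t u • bb (p ++ s :: t :: u :: q) := by
  have := ot_bb (lab := lab) (c := c) (p := p ++ [s]) (s := t) (t := u) (q := q) (j := j + 1)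
      (by simpa using h) (by simp [hj])
  simpa using this

theorem rel_br (hc : ∀ s t, lab s = lab t → s ≠ t → c s ≠ c t) {p : List S} {s t u : S}
    {q : List S} (h : (p ++ s :: t :: u :: q).Nodup) {j : ℕ} (hj : p.length = j) :
    ot lab c (j + 1) (ot lab c j (ot lab c (j + 1) (bb (p ++ s :: t :: u :: q)))) =
      ot lab c j (ot lab c (j + 1) (ot lab c j (bb (p ++ s :: t :: u :: q)))) +
        (if lab s = lab u then epsk K (lab s) (lab t) else 0) • bb (p ++ s :: t :: u :: q) := by
  have n1 : (p ++ s :: u :: t :: q).Nodup :=
    (List.Perm.append_left p (by simpa using List.Perm.swap _ _ _ )).nodup_iff.mp h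
  have n2 : (p ++ t :: s :: u :: q).Nodup :=
    (List.Perm.append_left p (List.Perm.swap _ _ _ )).nodup_iff.mp h
  have n3 : (p ++ u :: s :: t :: q).Nodup :=
    (List.Perm.append_left p (List.Perm.swap _ _ _ )).nodup_iff.mp n1
  have n4 : (p ++ t :: u :: s :: q).Nodup :=
    (List.Perm.append_left p (by simpa using List.Perm.swap _ _ _ )).nodup_iff.mp n2
  have n5 : (p ++ u :: t :: s :: q).Nodup :=
    (List.Perm.append_left p (by simpa using List.Perm.swap _ _ _ )).nodup_iff.mp n3
  have hst : s ≠ t := ne_of_nodup h
  have htu : t ≠ u := by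
    have h' : (([] ++ p ++ [s]) ++ t :: u :: q).Nodup := by simpa using h
    exact ne_of_nodup h'
  have hsu : s ≠ u := ne_of_nodup n1
  simp only [ot_bb2 h hj, ot_bb2 n1 hj, ot_bb2 n2 hj, ot_bb2 n3 hj, ot_bb2 n4 hj, ot_bb2 n5 hj,
    ot_bb h hj, ot_bb n1 hj, ot_bb n2 hj, ot_bb n3 hj, ot_bb n4 hj, ot_bb n5 hj, map_add,
    map_smul, smul_add, smul_smul]
  by_cases h12 : lab s = lab t
  · by_cases h23 : lab t = lab u
    · have h13 : lab s = lab u := h12.trans h23
      have c1 : c s - c t ≠ 0 := sub_ne_zero.mpr (hc s t h12 hst)
      have c2 : c t - c u ≠ 0 := sub_ne_zero.mpr (hc t u h23 htu)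
      have c3 : c s - c u ≠ 0 := sub_ne_zero.mpr (hc s u h13 hsu)
      have c1' : c t - c s ≠ 0 := sub_ne_zero.mpr (hc s t h12 hst).symm
      have c2' : c u - c t ≠ 0 := sub_ne_zero.mpr (hc t u h23 htu).symm
      have c3' : c u - c s ≠ 0 := sub_ne_zero.mpr (hc s u h13 hsu).symm
      have e0 : epsk K (lab u) (lab u) = 0 := by
        unfold epsk
        rw [if_neg (KQuiver.irrefl _), if_neg (KQuiver.irrefl _)]
      simp only [cA, cB, h12, h23, if_true, e0]
      match_scalars <;> field_simp <;> ring
    · have h13 : lab s ≠ lab u := by rw [h12]; exact h23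
      rw [if_neg h13]
      simp only [cB_ne h23, cB_ne h13, cB_ne (Ne.symm h23), cB_ne (Ne.symm h13)]
      module
  · by_cases h23 : lab t = lab u
    · have h13 : lab s ≠ lab u := by rw [← h23]; exact h12
      rw [if_neg h13]
      simp only [cB_ne h12, cB_ne h13, cB_ne (Ne.symm h12), cB_ne (Ne.symm h13)]
      module
    · by_cases h13 : lab s = lab u
      · rw [if_pos h13]
        simp only [cB_ne h12, cB_ne h23, cB_ne (Ne.symm h12), cB_ne (Ne.symm h23)]
        have e1 := cA_mul (c := c) h12
        have e2 := cA_mul (c := c) (Ne.symm h23)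
        have c3 : c s - c u ≠ 0 := sub_ne_zero.mpr (hc s u h13 hsu)
        have e3 : cB lab c s u * (cA lab c u t * cA lab c t u - cA lab c s t * cA lab c t s) =
            epsk K (lab s) (lab t) := by
          rw [e1, e2]
          unfold cB epsk
          rw [if_pos h13, h13]
          split_ifs
          · field_simp
            ring
          · field_simp
            ring
          · ring
        rw [← e3]
        module
      · rw [if_neg h13]
        simp only [cB_ne h12, cB_ne h23, cB_ne (Ne.symm h12), cB_ne (Ne.symm h23), cB_ne h13,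
          cB_ne (Ne.symm h13)]
        module

theorem nodup_of_perm3 {p q : List S} {s t u : S} (h : (p ++ s :: t :: u :: q).Nodup) :
    (p ++ t :: s :: u :: q).Nodup :=
  (List.Perm.append_left p (List.Perm.swap _ _ _ )).nodup_iff.mp h

theorem fe_sum {l : List I} {L : List S} (h : L.Nodup) (h' : L.map lab = l) :
    oe (K := K) lab l (bb L) = bb L := by
  subst h'
  exact oe_bb_self h

variable (lab c) in
/-- The rational representation. -/
noncomputable def frep (hc : ∀ s t, lab s = lab t → s ≠ t → c s ≠ c t) :
    Ops K I (List S →₀ K) where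
  e := oe lab
  x := ox c
  t := ot lab c
  e_self l := by
    have : oe lab l * oe lab l = (1 : Module.End K (List S →₀ K)) * oe lab l := by
      apply ext_word
      intro L h1 h2
      rw [fe_sum h1 h2]; rfl
    rw [this, one_mul]
  e_ne l l' hl := by
    have : oe lab l * oe lab l' = (0 : Module.End K (List S →₀ K)) * oe lab l' := by
      apply ext_word
      intro L h1 h2
      rw [oe_bb_ne (by rw [h2]; exact hl.symm)]; rfl
    rw [this, zero_mul]
  x_e j l := by
    apply end_ext
    intro L
    rw [Module.End.mul_apply, Module.End.mul_apply]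
    by_cases h1 : L.Nodup
    · by_cases h2 : L.map lab = l
      · rw [fe_sum h1 h2]
        rcases Nat.lt_or_ge j L.length with hj | hj
        · have hL : L = L.take j ++ L[j] :: L.drop (j + 1) := by
            rw [← List.drop_eq_getElem_cons, List.take_append_drop]
          have hlen : (L.take j).length = j := by rw [List.length_take]; omega
          rw [hL] at h1 h2 ⊢
          rw [ox_bb h1 hlen, map_smul, fe_sum h1 h2]
        · rw [ox_bb_big hj, map_zero]
      · rw [oe_bb_ne h2, map_zero]
        rcases Nat.lt_or_ge j L.length with hj | hj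
        · have hL : L = L.take j ++ L[j] :: L.drop (j + 1) := by
            rw [← List.drop_eq_getElem_cons, List.take_append_drop]
          have hlen : (L.take j).length = j := by rw [List.length_take]; omega
          rw [hL] at h1 h2 ⊢
          rw [ox_bb h1 hlen, map_smul, oe_bb_ne h2, smul_zero]
        · rw [ox_bb_big hj, map_zero]
    · rw [oe_bb_not h1, ox_bb_not h1, map_zero, map_zero]
  x_e_zero j l hj := by
    have : ox c j * oe lab l = (0 : Module.End K (List S →₀ K)) * oe lab l := by
      apply ext_word
      intro L h1 h2
      rw [ox_bb_big (by rw [← h2, List.length_map] at hj; exact hj)]; rfl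
    rw [this, zero_mul]
  t_e p a b q := by
    apply end_ext
    intro L
    rw [Module.End.mul_apply, Module.End.mul_apply]
    by_cases h1 : L.Nodup
    · by_cases h2 : L.map lab = p ++ a :: b :: q
      · rw [fe_sum h1 h2]
        obtain ⟨p', s, t, q', rfl, hp, ha, hb⟩ := eq_of_word h2
        rw [ot_bb h1 hp, map_add, map_smul, map_smul]
        have h3 : (p' ++ t :: s :: q').map lab = p ++ b :: a :: q := by
          rw [List.map_append, List.map_cons, List.map_cons] at h2 ⊢
          have h4 := List.append_inj h2 (by simpa using hp)
          rw [h4.1]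
          obtain ⟨h5, h6⟩ := List.cons_eq_cons.mp h4.2
          obtain ⟨h7, h8⟩ := List.cons_eq_cons.mp h6
          rw [h5, h7, h8]
        rw [fe_sum (nodup_swap.mp h1) h3]
        by_cases hab : a = b
        · rw [hab] at h2 ⊢
          rw [fe_sum h1 h2]
        · rw [cB_ne (by rw [ha, hb]; exact hab)]
          simp
      · rw [oe_bb_ne h2, map_zero]
        rcases Nat.lt_or_ge (p.length + 1) L.length with hj | hj
        · obtain ⟨p', s, t, q', hp, rfl⟩ := split_two' hj
          rw [ot_bb h1 hp, map_add, map_smul, map_smul]
          have h3 : (p' ++ t :: s :: q').map lab ≠ p ++ b :: a :: q := by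
            intro h4
            apply h2
            rw [List.map_append, List.map_cons, List.map_cons] at h4 ⊢
            have h4 := List.append_inj h4 (by simpa using hp)
            rw [h4.1]
            obtain ⟨h5, h6⟩ := List.cons_eq_cons.mp h4.2
            obtain ⟨h7, h8⟩ := List.cons_eq_cons.mp h6
            rw [h5, h7, h8]
          rw [oe_bb_ne h3]
          by_cases hst : lab s = lab t
          · have h5 : (p' ++ s :: t :: q').map lab ≠ p ++ b :: a :: q := by
              intro h4
              apply h3
              rw [← h4]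
              simp [hst]
            rw [oe_bb_ne h5]
            simp
          · rw [cB_ne hst]
            simp
        · rw [ot_bb_big (by omega), map_zero]
    · rw [oe_bb_not h1, ot_bb_not h1, map_zero, map_zero]
  t_e_zero j l hj := by
    have : ot lab c j * oe lab l = (0 : Module.End K (List S →₀ K)) * oe lab l := by
      apply ext_word
      intro L h1 h2
      rw [ot_bb_big (by rw [← h2, List.length_map] at hj; exact hj)]; rfl
    rw [this, zero_mul]
  x_x i j := by
    apply end_ext
    intro L
    rw [Module.End.mul_apply, Module.End.mul_apply]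
    by_cases h1 : L.Nodup
    · have key : ∀ j, ∃ a : K, ox c j (bb L) = a • bb L := by
        intro j
        rcases Nat.lt_or_ge j L.length with hj | hj
        · have hL : L = L.take j ++ L[j] :: L.drop (j + 1) := by
            rw [← List.drop_eq_getElem_cons, List.take_append_drop]
          have hlen : (L.take j).length = j := by rw [List.length_take]; omega
          refine ⟨c L[j], ?_⟩
          have h2 : (L.take j ++ L[j] :: L.drop (j + 1)).Nodup := by rw [← hL]; exact h1
          have h3 := ox_bb (c := c) h2 hlen
          rw [← hL] at h3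
          exact h3
        · exact ⟨0, by rw [ox_bb_big hj, zero_smul]⟩
      obtain ⟨a, ha⟩ := key i
      obtain ⟨b, hb⟩ := key j
      rw [ha, hb, map_smul, map_smul, ha, hb, smul_comm]
    · rw [ox_bb_not h1, ox_bb_not h1, map_zero, map_zero]
  t_x i j hji hji' := by
    apply end_ext
    intro L
    rw [Module.End.mul_apply, Module.End.mul_apply]
    by_cases h1 : L.Nodup
    · rcases Nat.lt_or_ge (i + 1) L.length with hi | hi
      · obtain ⟨p, s, t, q, hp, rfl⟩ := split_two' hi
        have key : ∃ a : K, ox c j (bb (p ++ s :: t :: q)) = a • bb (p ++ s :: t :: q) ∧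
            ox c j (bb (p ++ t :: s :: q)) = a • bb (p ++ t :: s :: q) := by
          have h1' := nodup_swap.mp h1
          rcases Nat.lt_or_ge j p.length with hj | hj
          · have hL : p = p.take j ++ p[j] :: p.drop (j + 1) := by
              rw [← List.drop_eq_getElem_cons, List.take_append_drop]
            have hlen : (p.take j).length = j := by rw [List.length_take]; omega
            refine ⟨c p[j], ?_, ?_⟩
            · have h2 : (p.take j ++ p[j] :: (p.drop (j + 1) ++ s :: t :: q)).Nodup := by
                rw [← List.cons_append, ← List.append_assoc, ← hL]; exact h1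
              have h3 := ox_bb (c := c) h2 hlen
              rw [← List.cons_append, ← List.append_assoc, ← hL] at h3
              exact h3
            · have h2 : (p.take j ++ p[j] :: (p.drop (j + 1) ++ t :: s :: q)).Nodup := by
                rw [← List.cons_append, ← List.append_assoc, ← hL]; exact h1'
              have h3 := ox_bb (c := c) h2 hlen
              rw [← List.cons_append, ← List.append_assoc, ← hL] at h3
              exact h3
          · obtain ⟨m, rfl⟩ : ∃ m, j = p.length + 2 + m := ⟨j - p.length - 2, by omega⟩
            rcases Nat.lt_or_ge m q.length with hm | hm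
            · have hL : q = q.take m ++ q[m] :: q.drop (m + 1) := by
                rw [← List.drop_eq_getElem_cons, List.take_append_drop]
              have hlen : (q.take m).length = m := by rw [List.length_take]; omega
              refine ⟨c q[m], ?_, ?_⟩
              · have h2 : ((p ++ s :: t :: q.take m) ++ q[m] :: q.drop (m + 1)).Nodup := by
                  rw [List.append_assoc, List.cons_append, List.cons_append, ← hL]; exact h1
                have h3 := ox_bb (c := c) h2 (j := p.length + 2 + m) (by
                  simp [hlen]; omega)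
                rw [List.append_assoc, List.cons_append, List.cons_append, ← hL] at h3
                exact h3
              · have h2 : ((p ++ t :: s :: q.take m) ++ q[m] :: q.drop (m + 1)).Nodup := by
                  rw [List.append_assoc, List.cons_append, List.cons_append, ← hL]; exact h1'
                have h3 := ox_bb (c := c) h2 (j := p.length + 2 + m) (by
                  simp [hlen]; omega)
                rw [List.append_assoc, List.cons_append, List.cons_append, ← hL] at h3
                exact h3
            · refine ⟨0, ?_, ?_⟩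
              · rw [ox_bb_big (by simp; omega), zero_smul]
              · rw [ox_bb_big (by simp; omega), zero_smul]
        obtain ⟨a, ha1, ha2⟩ := key
        rw [ha1, map_smul, ot_bb h1 hp, map_add, map_smul, map_smul, ha1, ha2]
        module
      · rw [ot_bb_big (by omega), map_zero]
        rcases Nat.lt_or_ge j L.length with hj | hj
        · have hL : L = L.take j ++ L[j] :: L.drop (j + 1) := by
            rw [← List.drop_eq_getElem_cons, List.take_append_drop]
          have hlen : (L.take j).length = j := by rw [List.length_take]; omega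
          have h2 : (L.take j ++ L[j] :: L.drop (j + 1)).Nodup := by rw [← hL]; exact h1
          have h3 := ox_bb (c := c) h2 hlen
          rw [← hL] at h3
          rw [h3, map_smul, ot_bb_big (by omega), smul_zero]
        · rw [ox_bb_big hj, map_zero]
    · rw [ot_bb_not h1, ox_bb_not h1, map_zero, map_zero]
  t_t i j hij := by
    apply end_ext
    intro L
    rw [Module.End.mul_apply, Module.End.mul_apply]
    by_cases h1 : L.Nodup
    · rcases Nat.lt_or_ge (j + 1) L.length with hj | hj
      · obtain ⟨r, u, v, q, hp, rfl⟩ := split_two' hj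
        obtain ⟨p, s, t, m, hp', rfl⟩ := split_two' (l := r) (j := i) (by omega)
        have e1 : ∀ (s t u v : S), (p ++ s :: t :: m) ++ u :: v :: q =
            p ++ s :: t :: (m ++ u :: v :: q) := by intro s t u v; simp
        have hlen : ∀ s t : S, (p ++ s :: t :: m).length = j := by
          intro s t
          rw [← hp]; simp
        have n1 : ((p ++ s :: t :: m) ++ v :: u :: q).Nodup := nodup_swap.mp h1
        have n2 : ((p ++ t :: s :: m) ++ u :: v :: q).Nodup := by
          rw [e1] at h1 ⊢; exact nodup_swap.mp h1
        have n3 : ((p ++ t :: s :: m) ++ v :: u :: q).Nodup := nodup_swap.mp n2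
        have f1 : ∀ (s t u v : S), ((p ++ s :: t :: m) ++ u :: v :: q).Nodup →
            ot lab c i (bb ((p ++ s :: t :: m) ++ u :: v :: q)) =
            cA lab c s t • bb ((p ++ t :: s :: m) ++ u :: v :: q) +
            cB lab c s t • bb ((p ++ s :: t :: m) ++ u :: v :: q) := by
          intro s t u v h
          have h' := h
          rw [e1] at h'
          have := ot_bb (lab := lab) (c := c) h' hp'
          rw [e1, e1]
          exact this
        have f2 : ∀ (s t u v : S), ((p ++ s :: t :: m) ++ u :: v :: q).Nodup →
            ot lab c j (bb ((p ++ s :: t :: m) ++ u :: v :: q)) =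
            cA lab c u v • bb ((p ++ s :: t :: m) ++ v :: u :: q) +
            cB lab c u v • bb ((p ++ s :: t :: m) ++ u :: v :: q) := by
          intro s t u v h
          exact ot_bb h (hlen s t)
        rw [f1 _ _ _ _ h1, f2 _ _ _ _ h1, map_add, map_add, map_smul, map_smul, map_smul,
          map_smul, f1 _ _ _ _ n1, f1 _ _ _ _ h1, f2 _ _ _ _ n2, f2 _ _ _ _ h1]
        module
      · rw [ot_bb_big (j := j) (by omega), map_zero]
        rcases Nat.lt_or_ge (i + 1) L.length with hi | hi
        · obtain ⟨p, s, t, q, hp, rfl⟩ := split_two' hi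
          rw [ot_bb h1 hp, map_add, map_smul, map_smul, ot_bb_big (by simpa using hj),
            ot_bb_big (by simpa using hj)]
          simp
        · rw [ot_bb_big (j := i) (by omega), map_zero]
    · rw [ot_bb_not h1, ot_bb_not h1, map_zero, map_zero]
  tx p a b q := rel_tx hc p q a b
  xt p a b q := rel_xt hc p q a b
  tt p a b q := rel_tt hc p q a b
  br_ne p a b d q had := by
    apply ext_word
    intro L h1 h2
    obtain ⟨p', s, t, u, q', rfl, hp, rfl, rfl, rfl⟩ := eq_of_word3 h2
    have := rel_br hc h1 hp
    rw [if_neg had, zero_smul, add_zero] at this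
    exact this
  br_eq p a b q := by
    have h0 : ot lab c p.length * ot lab c (p.length + 1) * ot lab c p.length *
          oe lab (p ++ a :: b :: a :: q) + epsk K a b • oe lab (p ++ a :: b :: a :: q) =
        (ot lab c p.length * ot lab c (p.length + 1) * ot lab c p.length + epsk K a b • 1) *
          oe lab (p ++ a :: b :: a :: q) := by
      rw [add_mul, smul_mul_assoc, one_mul]
    rw [h0]
    apply ext_word
    intro L h1 h2
    obtain ⟨p', s, t, u, q', rfl, hp, h3, h4, h5⟩ := eq_of_word3 h2
    have := rel_br hc h1 hp
    rw [if_pos (h3.trans h5.symm), h3, h4] at this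
    exact this

end Frep

end Pool.Agent.H159
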