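import Pool.Agent.H159.KLRing

/-!
# Constructions of modules over the graded quiver Hecke algebra
-/

set_option linter.unusedSectionVars false

namespace Pool.Agent.H159

open KQuiver

/-! ### restriction of scalars -/

theorem dlt_algebraMap (k K : Type) [CommRing k] [CommRing K] [Algebra k K] {I : Type} (a b : I) :
    algebraMap k K (dlt k a b) = dlt K a b := by
  unfold dlt; split_ifs <;> simp

theorem epsk_algebraMap (k K : Type) [CommRing k] [CommRing K] [Algebra k K] {I : Type}
    [KQuiver I] (a b : I) : algebraMap k K (epsk k a b) = epsk K a b := by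
  unfold epsk; split_ifs <;> simp

section

variable {k K I V : Type} [CommRing k] [CommRing K] [Algebra k K] [KQuiver I] [AddCommGroup V]
  [Module k V] [Module K V] [IsScalarTower k K V]

variable (k) in
/-- restriction of scalars of operators -/
def Ops.restrictScalars (O : Ops K I V) : Ops k I V where
  e l := (O.e l).restrictScalars k
  x j := (O.x j).restrictScalars k
  t j := (O.t j).restrictScalars k
  e_self l := LinearMap.ext fun y => congrArg (fun z : Module.End K V => z y) (O.e_self l)
  e_ne l l' h := LinearMap.ext fun y => congrArg (fun z : Module.End K V => z y) (O.e_ne l l' h)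
  x_e j l := LinearMap.ext fun y => congrArg (fun z : Module.End K V => z y) (O.x_e j l)
  x_e_zero j l h := LinearMap.ext fun y =>
    congrArg (fun z : Module.End K V => z y) (O.x_e_zero j l h)
  t_e p a b q := LinearMap.ext fun y => congrArg (fun z : Module.End K V => z y) (O.t_e p a b q)
  t_e_zero j l h := LinearMap.ext fun y =>
    congrArg (fun z : Module.End K V => z y) (O.t_e_zero j l h)
  x_x i j := LinearMap.ext fun y => congrArg (fun z : Module.End K V => z y) (O.x_x i j)
  t_x i j h h' := LinearMap.ext fun y =>
    congrArg (fun z : Module.End K V => z y) (O.t_x i j h h')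
  t_t i j h := LinearMap.ext fun y => congrArg (fun z : Module.End K V => z y) (O.t_t i j h)
  tx p a b q := LinearMap.ext fun y => by
    have := congrArg (fun z : Module.End K V => z y) (O.tx p a b q)
    simp only [LinearMap.add_apply, LinearMap.smul_apply] at this
    simp only [LinearMap.add_apply, LinearMap.smul_apply]
    rw [← dlt_algebraMap k K, algebraMap_smul] at this
    exact this
  xt p a b q := LinearMap.ext fun y => by
    have := congrArg (fun z : Module.End K V => z y) (O.xt p a b q)
    simp only [LinearMap.add_apply, LinearMap.smul_apply] at this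
    simp only [LinearMap.add_apply, LinearMap.smul_apply]
    rw [← dlt_algebraMap k K, algebraMap_smul] at this
    exact this
  tt p a b q := LinearMap.ext fun y => by
    have := congrArg (fun z : Module.End K V => z y) (O.tt p a b q)
    refine this.trans ?_
    unfold Qop
    split_ifs <;> rfl
  br_ne p a b c q h := LinearMap.ext fun y =>
    congrArg (fun z : Module.End K V => z y) (O.br_ne p a b c q h)
  br_eq p a b q := LinearMap.ext fun y => by
    have := congrArg (fun z : Module.End K V => z y) (O.br_eq p a b q)
    simp only [LinearMap.add_apply, LinearMap.smul_apply] at this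
    simp only [LinearMap.add_apply, LinearMap.smul_apply]
    rw [← epsk_algebraMap k K, algebraMap_smul] at this
    exact this

end

/-! ### restriction to finitely many words -/

section

variable {k I V : Type} [CommRing k] [KQuiver I] [AddCommGroup V] [Module k V]

/-- the part of `V` belonging to the words in `Ω` -/
def Ops.part (O : Ops k I V) (Ω : Finset (List I)) : Submodule k V :=
  LinearMap.ker ((∑ l ∈ Ω, O.e l) - 1)

theorem Ops.mem_part {O : Ops k I V} {Ω : Finset (List I)} {y : V} :
    y ∈ O.part Ω ↔ ∑ l ∈ Ω, O.e l y = y := by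
  unfold Ops.part
  rw [LinearMap.mem_ker, LinearMap.sub_apply, LinearMap.sum_apply, sub_eq_zero]
  rfl

theorem Ops.Hom.mem_part {O : Ops k I V} {Ω : Finset (List I)} {y : V} {l : List I}
    (h : O.Hom l y) (hl : l ∈ Ω) : y ∈ O.part Ω := by
  classical
  rw [Ops.mem_part, Finset.sum_eq_single l]
  · exact h
  · intro l' _ hne
    exact h.e_ne hne
  · intro h'; exact absurd hl h'

theorem Ops.hom_e (O : Ops k I V) (l : List I) (y : V) : O.Hom l (O.e l y) :=
  congrArg (fun z : Module.End k V => z y) (O.e_self l)

theorem Ops.part_stable {O : Ops k I V} {Ω : Finset (List I)} (A : Module.End k V)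
    (h : ∀ l ∈ Ω, ∀ y, O.Hom l y → A y ∈ O.part Ω) : ∀ y ∈ O.part Ω, A y ∈ O.part Ω := by
  intro y hy
  rw [Ops.mem_part] at hy
  rw [← hy, map_sum]
  exact Submodule.sum_mem _ (fun l hl => h l hl _ (O.hom_e l y))

theorem Ops.part_e (O : Ops k I V) (Ω : Finset (List I)) (l : List I) :
    ∀ y ∈ O.part Ω, O.e l y ∈ O.part Ω := by
  apply Ops.part_stable
  intro l' hl' y hy
  by_cases h : l = l'
  · subst h
    rw [hy]; exact hy.mem_part hl'
  · rw [hy.e_ne h]; exact Submodule.zero_mem _

theorem Ops.part_x (O : Ops k I V) (Ω : Finset (List I)) (j : ℕ) :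
    ∀ y ∈ O.part Ω, O.x j y ∈ O.part Ω := by
  apply Ops.part_stable
  intro l' hl' y hy
  exact (hy.x j).mem_part hl'

theorem Ops.part_t (O : Ops k I V) {Ω : Finset (List I)}
    (hΩ : ∀ l ∈ Ω, ∀ l', l.Perm l' → l' ∈ Ω) (j : ℕ) :
    ∀ y ∈ O.part Ω, O.t j y ∈ O.part Ω := by
  apply Ops.part_stable
  intro l' hl' y hy
  by_cases hj : j + 1 < l'.length
  · obtain ⟨p, a, b, q, hp, rfl⟩ := Ops.split_two hj
    exact (hy.t hp).mem_part (hΩ _ hl' _ (List.Perm.append_left _ (List.Perm.swap _ _ _)))
  · rw [hy.t_zero (by omega)]
    exact Submodule.zero_mem _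

/-- the operators on the part of `V` belonging to the words in `Ω` -/
def Ops.toPart (O : Ops k I V) {Ω : Finset (List I)}
    (hΩ : ∀ l ∈ Ω, ∀ l', l.Perm l' → l' ∈ Ω) : Ops k I (O.part Ω) where
  e l := (O.e l).restrict (O.part_e Ω l)
  x j := (O.x j).restrict (O.part_x Ω j)
  t j := (O.t j).restrict (O.part_t hΩ j)
  e_self l := LinearMap.ext fun y => Subtype.ext
    (congrArg (fun z : Module.End k V => z y) (O.e_self l))
  e_ne l l' h := LinearMap.ext fun y => Subtype.ext
    (congrArg (fun z : Module.End k V => z y) (O.e_ne l l' h))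
  x_e j l := LinearMap.ext fun y => Subtype.ext
    (congrArg (fun z : Module.End k V => z y) (O.x_e j l))
  x_e_zero j l h := LinearMap.ext fun y => Subtype.ext
    (congrArg (fun z : Module.End k V => z y) (O.x_e_zero j l h))
  t_e p a b q := LinearMap.ext fun y => Subtype.ext
    (congrArg (fun z : Module.End k V => z y) (O.t_e p a b q))
  t_e_zero j l h := LinearMap.ext fun y => Subtype.ext
    (congrArg (fun z : Module.End k V => z y) (O.t_e_zero j l h))
  x_x i j := LinearMap.ext fun y => Subtype.ext
    (congrArg (fun z : Module.End k V => z y) (O.x_x i j))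
  t_x i j h h' := LinearMap.ext fun y => Subtype.ext
    (congrArg (fun z : Module.End k V => z y) (O.t_x i j h h'))
  t_t i j h := LinearMap.ext fun y => Subtype.ext
    (congrArg (fun z : Module.End k V => z y) (O.t_t i j h))
  tx p a b q := LinearMap.ext fun y => Subtype.ext
    (congrArg (fun z : Module.End k V => z y) (O.tx p a b q))
  xt p a b q := LinearMap.ext fun y => Subtype.ext
    (congrArg (fun z : Module.End k V => z y) (O.xt p a b q))
  tt p a b q := LinearMap.ext fun y => Subtype.ext (by
    refine (congrArg (fun z : Module.End k V => z y) (O.tt p a b q)).trans ?_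
    unfold Qop
    split_ifs <;> rfl)
  br_ne p a b c q h := LinearMap.ext fun y => Subtype.ext
    (congrArg (fun z : Module.End k V => z y) (O.br_ne p a b c q h))
  br_eq p a b q := LinearMap.ext fun y => Subtype.ext
    (congrArg (fun z : Module.End k V => z y) (O.br_eq p a b q))

theorem Ops.toPart_sum (O : Ops k I V) {Ω : Finset (List I)}
    (hΩ : ∀ l ∈ Ω, ∀ l', l.Perm l' → l' ∈ Ω) : ∑ l ∈ Ω, (O.toPart hΩ).e l = 1 := by
  apply LinearMap.ext
  intro y
  apply Subtype.ext
  rw [LinearMap.sum_apply, Submodule.coe_sum]
  exact Ops.mem_part.mp y.2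

end

/-! ### the regrading construction -/

section

variable {k I V : Type} [CommRing k] [KQuiver I] [AddCommGroup V] [Module k V]

/-- the degree of a crossing on a word -/
noncomputable def sdeg (j : ℕ) (l : List I) : ℤ :=
  match l.drop j with
  | a :: b :: _ => tdeg a b
  | _ => 0

theorem sdeg_append (p : List I) (a b : I) (q : List I) {j : ℕ} (hj : p.length = j) :
    sdeg j (p ++ a :: b :: q) = tdeg a b := by
  subst hj
  unfold sdeg
  rw [List.drop_left]

/-- graded idempotents -/
noncomputable def gE (O : Ops k I V) (l : List I) : Module.End k (ℤ →₀ V) :=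
  Finsupp.lsum k (fun d => Finsupp.lsingle d ∘ₗ O.e l)

/-- graded dots -/
noncomputable def gX (O : Ops k I V) (j : ℕ) : Module.End k (ℤ →₀ V) :=
  Finsupp.lsum k (fun d => Finsupp.lsingle (d + 2) ∘ₗ O.x j)

/-- graded crossings -/
noncomputable def gT (O : Ops k I V) (Ω : Finset (List I)) (j : ℕ) : Module.End k (ℤ →₀ V) :=
  Finsupp.lsum k (fun d => ∑ l ∈ Ω, Finsupp.lsingle (d + sdeg j l) ∘ₗ (O.t j * O.e l))

/-- degree idempotents -/
noncomputable def gF (k V : Type) [CommRing k] [AddCommGroup V] [Module k V] (d : ℤ) :
    Module.End k (ℤ →₀ V) :=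
  Finsupp.lsingle d ∘ₗ Finsupp.lapply d

variable {O : Ops k I V} {Ω : Finset (List I)}

theorem gE_single (l : List I) (d : ℤ) (y : V) :
    gE O l (Finsupp.single d y) = Finsupp.single d (O.e l y) := by
  simp [gE]

theorem gX_single (j : ℕ) (d : ℤ) (y : V) :
    gX O j (Finsupp.single d y) = Finsupp.single (d + 2) (O.x j y) := by
  simp [gX]

theorem gF_single_self (d : ℤ) (y : V) :
    gF k V d (Finsupp.single d y) = Finsupp.single d y := by
  simp [gF]

theorem gF_single_ne {d d' : ℤ} (h : d ≠ d') (y : V) :
    gF k V d' (Finsupp.single d y) = 0 := by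
  simp [gF, h]

theorem gT_single (hO : ∑ l ∈ Ω, O.e l = 1) (j : ℕ) (d : ℤ) {l : List I} {y : V}
    (h : O.Hom l y) :
    gT O Ω j (Finsupp.single d y) = Finsupp.single (d + sdeg j l) (O.t j y) := by
  classical
  by_cases hl : l ∈ Ω
  · simp only [gT, Finsupp.lsum_single, LinearMap.sum_apply, LinearMap.comp_apply,
      Module.End.mul_apply, Finsupp.lsingle_apply]
    rw [Finset.sum_eq_single l]
    · rw [h]
    · intro l' _ hne
      rw [h.e_ne hne, map_zero, Finsupp.single_zero]
    · intro h'; exact absurd hl h'
  · have hy : y = 0 := by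
      have h1 := congrArg (fun z : Module.End k V => z y) hO
      simp only [LinearMap.sum_apply, Module.End.one_apply] at h1
      rw [← h1]
      apply Finset.sum_eq_zero
      intro l' hl'
      apply h.e_ne
      rintro rfl
      exact hl hl'
    subst hy
    simp

theorem gext {W : Type} [AddCommGroup W] [Module k W] (hO : ∑ l ∈ Ω, O.e l = 1)
    {A B : (ℤ →₀ V) →ₗ[k] W}
    (h : ∀ (d : ℤ) (l : List I) (y : V), O.Hom l y →
      A (Finsupp.single d y) = B (Finsupp.single d y)) : A = B := by
  apply Finsupp.lhom_ext
  intro d y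
  have h1 := congrArg (fun z : Module.End k V => z y) hO
  simp only [LinearMap.sum_apply, Module.End.one_apply] at h1
  rw [← h1, ← Finsupp.lsingle_apply (R := k), map_sum, map_sum, map_sum]
  apply Finset.sum_congr rfl
  intro l _
  exact h d l _ (O.hom_e l y)

theorem tdeg_self {a : I} : tdeg a a = -2 := by simp [tdeg]

theorem tdeg_symm {a b : I} : tdeg a b = tdeg b a := by
  unfold tdeg
  by_cases h : a = b
  · rw [if_pos h, if_pos h.symm]
  · rw [if_neg h, if_neg (Ne.symm h)]
    by_cases h1 : arr a b ∨ arr b a
    · rw [if_pos h1, if_pos (Or.symm h1)]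
    · rw [if_neg h1, if_neg (fun h2 => h1 (Or.symm h2))]

theorem single_add_deg {d d' : ℤ} {y z w : V} {c : k} (h : c = 0 ∨ d = d') (hy : y = z + c • w) :
    (Finsupp.single d y : ℤ →₀ V) = Finsupp.single d z + c • Finsupp.single d' w := by
  rw [hy, Finsupp.single_add]
  rcases h with h | h
  · rw [h, zero_smul, zero_smul, Finsupp.single_zero]
  · rw [h, Finsupp.smul_single]

/-- The operators on the regrading. -/
noncomputable def regrade (O : Ops k I V) (hO : ∑ l ∈ Ω, O.e l = 1) : Ops k I (ℤ →₀ V) where
  e := gE O
  x := gX O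
  t := gT O Ω
  e_self l := by
    apply gext hO; intro d l' y hy
    simp only [Module.End.mul_apply, gE_single]
    rw [O.hom_e l y]
  e_ne l l' h := by
    apply gext hO; intro d l'' y hy
    simp only [Module.End.mul_apply, gE_single, LinearMap.zero_apply]
    rw [(O.hom_e l' y).e_ne h, Finsupp.single_zero]
  x_e j l := by
    apply gext hO; intro d l' y hy
    simp only [Module.End.mul_apply, gE_single, gX_single]
    congr 1
    exact congrArg (fun z : Module.End k V => z y) (O.x_e j l)
  x_e_zero j l h := by
    apply gext hO; intro d l' y hy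
    simp only [Module.End.mul_apply, gE_single, gX_single, LinearMap.zero_apply]
    rw [(O.hom_e l y).x_zero h, Finsupp.single_zero]
  t_e p a b q := by
    apply gext hO; intro d l' y hy
    simp only [Module.End.mul_apply, gE_single]
    rw [gT_single hO _ _ (O.hom_e _ y), gT_single hO _ _ hy, gE_single]
    have h1 := congrArg (fun z : Module.End k V => z y) (O.t_e p a b q)
    simp only [Module.End.mul_apply] at h1
    by_cases hl : l' = p ++ a :: b :: q
    · subst hl
      rw [h1]
    · rw [← h1, hy.e_ne (Ne.symm hl)]
      simp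
  t_e_zero j l h := by
    apply gext hO; intro d l' y hy
    simp only [Module.End.mul_apply, gE_single, LinearMap.zero_apply]
    rw [gT_single hO _ _ (O.hom_e _ y), (O.hom_e l y).t_zero h, Finsupp.single_zero]
  x_x i j := by
    apply gext hO; intro d l' y hy
    simp only [Module.End.mul_apply, gX_single]
    rw [Ops.x_comm]
  t_x i j h h' := by
    apply gext hO; intro d l' y hy
    simp only [Module.End.mul_apply, gX_single]
    rw [gT_single hO _ _ (hy.x j), gT_single hO _ _ hy, gX_single, Ops.t_x_comm h h']
    congr 1
    ring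
  t_t i j hij := by
    apply gext hO; intro d l' y hy
    simp only [Module.End.mul_apply]
    by_cases hj : j + 1 < l'.length
    · obtain ⟨r, u, v, q, hr, rfl⟩ := Ops.split_two hj
      obtain ⟨p, a, b, m, hp, rfl⟩ := Ops.split_two (l := r) (j := i) (by omega)
      have hy1 : O.Hom (p ++ a :: b :: (m ++ u :: v :: q)) y := by simpa using hy
      have hy2 := hy.t hr
      have hy3 := hy1.t hp
      have hy2' : O.Hom (p ++ a :: b :: (m ++ v :: u :: q)) (O.t j y) := by simpa using hy2
      have hy3' : O.Hom ((p ++ b :: a :: m) ++ u :: v :: q) (O.t i y) := by simpa using hy3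
      rw [gT_single hO _ _ hy, gT_single hO _ _ hy1, gT_single hO _ _ hy2',
        gT_single hO _ _ hy3', sdeg_append _ _ _ _ hr, sdeg_append _ _ _ _ hp,
        sdeg_append _ _ _ _ hp, sdeg_append _ _ _ _ (by simpa using hr),
        Ops.t_t_comm (Or.inl hij)]
      congr 1
      ring
    · obtain ⟨l'', hy', hl, -⟩ := hy.t_exists i
      rw [gT_single hO _ _ hy, gT_single hO _ _ hy, hy.t_zero (j := j) (by omega),
        gT_single hO _ _ hy', hy'.t_zero (j := j) (by omega)]
      simp
  tx p a b q := by
    apply gext hO; intro d l' y hy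
    simp only [Module.End.mul_apply, gE_single, gX_single, LinearMap.add_apply,
      LinearMap.smul_apply]
    have hy := O.hom_e (p ++ a :: b :: q) y
    generalize O.e (p ++ a :: b :: q) y = y' at hy
    rw [gT_single hO _ _ (hy.x _), gT_single hO _ _ hy, gX_single, sdeg_append _ _ _ _ rfl]
    have h1 := Ops.tx_apply hy rfl
    rw [show d + tdeg a b + 2 = d + 2 + tdeg a b by ring]
    apply single_add_deg _ h1
    by_cases hab : a = b
    · right; rw [hab, tdeg_self]; ring
    · left; simp [dlt, hab]
  xt p a b q := by
    apply gext hO; intro d l' y hy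
    simp only [Module.End.mul_apply, gE_single, gX_single, LinearMap.add_apply,
      LinearMap.smul_apply]
    have hy := O.hom_e (p ++ a :: b :: q) y
    generalize O.e (p ++ a :: b :: q) y = y' at hy
    rw [gT_single hO _ _ (hy.x _), gT_single hO _ _ hy, gX_single, sdeg_append _ _ _ _ rfl]
    have h1 := Ops.xt_apply hy rfl
    rw [show d + tdeg a b + 2 = d + 2 + tdeg a b by ring]
    apply single_add_deg _ h1
    by_cases hab : a = b
    · right; rw [hab, tdeg_self]; ring
    · left; simp [dlt, hab]
  tt p a b q := by
    apply gext hO; intro d l' y hy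
    simp only [Module.End.mul_apply, gE_single]
    have hy := O.hom_e (p ++ a :: b :: q) y
    generalize O.e (p ++ a :: b :: q) y = y' at hy
    rw [gT_single hO _ _ hy, gT_single hO _ _ (hy.t rfl), sdeg_append _ _ _ _ rfl,
      sdeg_append _ _ _ _ rfl, tdeg_symm (a := b)]
    rw [Ops.tt_apply hy rfl]
    unfold Qop tdeg
    by_cases h1 : a = b
    · simp [h1]
    · by_cases h2 : arr a b
      · simp only [h1, h2, if_false, if_true, true_or, LinearMap.sub_apply, gX_single,
          ← Finsupp.single_sub]
        congr 1
        ring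
      · by_cases h3 : arr b a
        · simp only [h1, h2, h3, if_false, if_true, or_true, LinearMap.sub_apply, gX_single,
            ← Finsupp.single_sub]
          congr 1
          ring
        · simp only [h1, h2, h3, if_false, or_false]
          simp
  br_ne p a b c q h := by
    apply gext hO; intro d l' y hy
    simp only [Module.End.mul_apply, gE_single]
    have hy := O.hom_e (p ++ a :: b :: c :: q) y
    generalize O.e (p ++ a :: b :: c :: q) y = y' at hy
    have c1 : ∀ (a b c : I) (z : V), O.Hom (p ++ a :: b :: c :: q) z →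
        O.Hom (p ++ a :: c :: b :: q) (O.t (p.length + 1) z) := by
      intro a b c z hz
      have : O.Hom ((p ++ [a]) ++ b :: c :: q) z := by simpa using hz
      have := this.t (j := p.length + 1) (by simp)
      simpa using this
    have c2 : ∀ (a b c : I), sdeg (p.length + 1) (p ++ a :: b :: c :: q) = tdeg b c := by
      intro a b c
      have := sdeg_append (p ++ [a]) b c q (j := p.length + 1) (by simp)
      simpa using this
    have h1 := c1 _ _ _ _ hy
    have h2 := h1.t rfl
    have h3 := hy.t rfl
    have h4 := c1 _ _ _ _ h3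
    rw [gT_single hO _ _ hy, gT_single hO _ _ hy, gT_single hO _ _ h1, gT_single hO _ _ h3,
      gT_single hO _ _ h2, gT_single hO _ _ h4, c2, c2, c2, sdeg_append _ _ _ _ rfl,
      sdeg_append _ _ _ _ rfl, sdeg_append _ _ _ _ rfl]
    have h5 := congrArg (fun z : Module.End k V => z y') (O.br_ne p a b c q h)
    simp only [Module.End.mul_apply] at h5
    rw [hy] at h5
    rw [h5]
    congr 1
    ring
  br_eq p a b q := by
    apply gext hO; intro d l' y hy
    simp only [Module.End.mul_apply, gE_single, LinearMap.add_apply, LinearMap.smul_apply]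
    have hy := O.hom_e (p ++ a :: b :: a :: q) y
    generalize O.e (p ++ a :: b :: a :: q) y = y' at hy
    have c1 : ∀ (a b c : I) (z : V), O.Hom (p ++ a :: b :: c :: q) z →
        O.Hom (p ++ a :: c :: b :: q) (O.t (p.length + 1) z) := by
      intro a b c z hz
      have : O.Hom ((p ++ [a]) ++ b :: c :: q) z := by simpa using hz
      have := this.t (j := p.length + 1) (by simp)
      simpa using this
    have c2 : ∀ (a b c : I), sdeg (p.length + 1) (p ++ a :: b :: c :: q) = tdeg b c := by
      intro a b c
      have := sdeg_append (p ++ [a]) b c q (j := p.length + 1) (by simp)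
      simpa using this
    have h1 := c1 _ _ _ _ hy
    have h2 := h1.t rfl
    have h3 := hy.t rfl
    have h4 := c1 _ _ _ _ h3
    rw [gT_single hO _ _ hy, gT_single hO _ _ hy, gT_single hO _ _ h1, gT_single hO _ _ h3,
      gT_single hO _ _ h2, gT_single hO _ _ h4, c2, c2, c2, sdeg_append _ _ _ _ rfl,
      sdeg_append _ _ _ _ rfl, sdeg_append _ _ _ _ rfl]
    have h5 := congrArg (fun z : Module.End k V => z y') (O.br_eq p a b q)
    simp only [Module.End.mul_apply, LinearMap.add_apply, LinearMap.smul_apply] at h5
    rw [hy] at h5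
    rw [tdeg_symm (a := b) (b := a), tdeg_self]
    apply single_add_deg _ h5
    unfold epsk tdeg
    by_cases hab : a = b
    · left
      rw [hab, if_neg (KQuiver.irrefl _), if_neg (KQuiver.irrefl _)]
    · by_cases h2 : arr a b
      · right
        simp only [hab, h2, if_false, if_true, true_or]
        ring
      · by_cases h3 : arr b a
        · right
          simp only [hab, h2, h3, if_false, if_true, or_true]
          ring
        · left
          simp [h2, h3]

/-- The degree idempotents on the regrading. -/
noncomputable def regradeStr (O : Ops k I V) (hO : ∑ l ∈ Ω, O.e l = 1) :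
    GStr (Module.End k (ℤ →₀ V)) (regrade O hO) where
  f := gF k V
  f_self d := by
    apply gext hO; intro d' l' y hy
    simp only [Module.End.mul_apply]
    by_cases h : d' = d
    · subst h; rw [gF_single_self, gF_single_self]
    · rw [gF_single_ne h, map_zero]
  f_ne d d' h := by
    apply gext hO; intro d'' l' y hy
    simp only [Module.End.mul_apply, LinearMap.zero_apply]
    by_cases h' : d'' = d'
    · subst h'; rw [gF_single_self, gF_single_ne (Ne.symm h)]
    · rw [gF_single_ne h', map_zero]
  f_e d l := by
    apply gext hO; intro d'' l' y hy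
    show gF k V d (gE O l _) = gE O l (gF k V d _)
    rw [gE_single]
    by_cases h' : d'' = d
    · subst h'; rw [gF_single_self, gF_single_self, gE_single]
    · rw [gF_single_ne h', gF_single_ne h', map_zero]
  x_f j d := by
    apply gext hO; intro d'' l' y hy
    show gX O j (gF k V d _) = gF k V (d + 2) (gX O j _)
    rw [gX_single]
    by_cases h' : d'' = d
    · subst h'; rw [gF_single_self, gF_single_self, gX_single]
    · rw [gF_single_ne h', gF_single_ne (by omega), map_zero]
  t_f p a b q d := by
    apply gext hO; intro d'' l' y hy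
    show gT O Ω p.length (gE O _ (gF k V d _)) =
      gF k V (d + tdeg a b) (gT O Ω p.length (gE O _ _))
    rw [gE_single, gT_single hO _ _ (O.hom_e _ _), sdeg_append _ _ _ _ rfl]
    by_cases h' : d'' = d
    · subst h'
      rw [gF_single_self, gF_single_self, gE_single, gT_single hO _ _ (O.hom_e _ _),
        sdeg_append _ _ _ _ rfl]
    · rw [gF_single_ne h', gF_single_ne (by omega), map_zero, map_zero]

/-- the sum map -/
noncomputable def gsum (k V : Type) [CommRing k] [AddCommGroup V] [Module k V] :
    (ℤ →₀ V) →ₗ[k] V := Finsupp.lsum k (fun _ => LinearMap.id)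

theorem gsum_single (d : ℤ) (y : V) : gsum k V (Finsupp.single d y) = y := by
  simp [gsum]

theorem gsum_e (hO : ∑ l ∈ Ω, O.e l = 1) (l : List I) (z : ℤ →₀ V) :
    gsum k V ((regrade O hO).e l z) = O.e l (gsum k V z) := by
  have : gsum k V ∘ₗ (regrade O hO).e l = O.e l ∘ₗ gsum k V := by
    apply gext hO
    intro d l' y hy
    show gsum k V (gE O l _) = O.e l (gsum k V _)
    rw [gE_single, gsum_single, gsum_single]
  exact congrArg (fun A : (ℤ →₀ V) →ₗ[k] V => A z) this

theorem gsum_x (hO : ∑ l ∈ Ω, O.e l = 1) (j : ℕ) (z : ℤ →₀ V) :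
    gsum k V ((regrade O hO).x j z) = O.x j (gsum k V z) := by
  have : gsum k V ∘ₗ (regrade O hO).x j = O.x j ∘ₗ gsum k V := by
    apply gext hO
    intro d l' y hy
    show gsum k V (gX O j _) = O.x j (gsum k V _)
    rw [gX_single, gsum_single, gsum_single]
  exact congrArg (fun A : (ℤ →₀ V) →ₗ[k] V => A z) this

theorem gsum_t (hO : ∑ l ∈ Ω, O.e l = 1) (j : ℕ) (z : ℤ →₀ V) :
    gsum k V ((regrade O hO).t j z) = O.t j (gsum k V z) := by
  have : gsum k V ∘ₗ (regrade O hO).t j = O.t j ∘ₗ gsum k V := by
    apply gext hO
    intro d l' y hy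
    show gsum k V (gT O Ω j _) = O.t j (gsum k V _)
    rw [gT_single hO _ _ hy, gsum_single, gsum_single]
  exact congrArg (fun A : (ℤ →₀ V) →ₗ[k] V => A z) this

end

end Pool.Agent.H159
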