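import Pool.Agent.H159.Main

/-!
# Existence of graded classes: Tadić's determinant is homogeneous for the cuspidal support
-/

open Finset MvPolynomial

namespace Pool.Agent.H159

variable {R : Type} [DecidableEq R]

/-- the indicator of the points of a line lying weakly above `s` -/
def above (p : R × ℤ) (ρ : R) (s : ℤ) : ℤ := if ρ = p.1 ∧ s ≤ p.2 ∧ (p.2 - s) % 2 = 0 then 1 else 0

theorem count_segSupp (p : R × ℤ) (Δ : Seg R) :
    ((segSupp Δ).count p : ℤ) = above p Δ.1 Δ.2.1 - above p Δ.1 (Δ.2.1 + 2 * (Δ.2.2 + 1)) := by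
  obtain ⟨ρ, s, l⟩ := Δ
  obtain ⟨ρ', t⟩ := p
  unfold segSupp above
  rw [map_range_eq, Multiset.count_sum']
  simp only [Multiset.count_singleton]
  rw [Finset.sum_boole]
  by_cases h : ρ = ρ'
  · subst h
    simp only [Prod.mk.injEq, true_and]
    by_cases h2 : (t - s) % 2 = 0
    · by_cases h3 : s ≤ t
      · by_cases h4 : s + 2 * (l + 1) ≤ t
        · rw [if_pos ⟨h3, h2⟩, if_pos ⟨h4, by omega⟩]
          simp only [sub_self, Nat.cast_id, Nat.cast_eq_zero, Finset.card_eq_zero]
          rw [Finset.filter_eq_empty_iff]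
          intro x hx
          rw [Finset.mem_range] at hx
          omega
        · rw [if_pos ⟨h3, h2⟩, if_neg (fun h => h4 h.1)]
          simp only [sub_zero, Nat.cast_id, Nat.cast_eq_one]
          rw [Finset.card_eq_one]
          refine ⟨((t - s) / 2).toNat, ?_⟩
          ext x
          simp only [Finset.mem_filter, Finset.mem_range, Finset.mem_singleton]
          omega
      · rw [if_neg (fun h => h3 h.1), if_neg (fun h => h3 (by omega))]
        simp only [sub_self, Nat.cast_id, Nat.cast_eq_zero, Finset.card_eq_zero]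
        rw [Finset.filter_eq_empty_iff]
        intro x hx
        omega
    · rw [if_neg (fun h => h2 h.2), if_neg (fun h => h2 (by omega))]
      simp only [sub_self, Nat.cast_id, Nat.cast_eq_zero, Finset.card_eq_zero]
      rw [Finset.filter_eq_empty_iff]
      intro x hx
      omega
  · rw [if_neg (fun h' => h h'.1), if_neg (fun h' => h h'.1)]
    simp only [sub_self, Nat.cast_id, Nat.cast_eq_zero, Finset.card_eq_zero]
    rw [Finset.filter_eq_empty_iff]
    intro x hx hx'
    rw [Prod.mk.injEq] at hx'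
    exact h hx'.1.symm

/-- the weight counting a given cuspidal -/
def wt (p : R × ℤ) (Δ : Seg R) : ℤ := ((segSupp Δ).count p : ℤ)

theorem segClass_homog (p : R × ℤ) (ρ : R) (s d : ℤ) :
    IsWeightedHomogeneous (wt p) (segClass ρ s d) (above p ρ s - above p ρ (s + 2 * d)) := by
  unfold segClass
  split_ifs with h1 h2
  · exact isWeightedHomogeneous_zero _ _ _
  · subst h2
    rw [mul_zero, add_zero, sub_self]
    exact isWeightedHomogeneous_one _ _
  · have h3 := isWeightedHomogeneous_X ℤ (wt p) (ρ, s, (d - 1).toNat)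
    have h4 : wt p (ρ, s, (d - 1).toNat) = above p ρ s - above p ρ (s + 2 * d) := by
      unfold wt
      rw [count_segSupp]
      simp only
      congr 2
      omega
    rw [h4] at h3
    exact h3

theorem count_blockSupp (p : R × ℤ) (B : Block R) :
    ((blockSupp B).count p : ℤ) = ∑ i : Fin B.2.2,
      (above p B.1 ((B.2.2 : ℤ) - B.2.1 - 2 * (i : ℤ)) -
        above p B.1 ((B.2.2 : ℤ) - B.2.1 - 2 * (i : ℤ) + 2 * B.2.1)) := by
  obtain ⟨ρ, a, b⟩ := B
  rw [blockSupp_eq_sum, Finset.sum_comm, Multiset.count_sum', Finset.sum_range]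
  push_cast
  refine Finset.sum_congr rfl fun i _ => ?_
  have h1 : (∑ x ∈ Finset.range a, ({(ρ, (a : ℤ) - 1 - 2 * (x : ℤ) + ((b : ℤ) - 1 - 2 * ((i : ℕ) : ℤ)))} :
      Multiset (R × ℤ))) = ∑ x ∈ Finset.range a, {(ρ, ((b : ℤ) - a - 2 * ((i : ℕ) : ℤ)) + 2 * (x : ℤ))} := by
    rw [← Finset.sum_range_reflect]
    refine Finset.sum_congr rfl fun x hx => ?_
    rw [Finset.mem_range] at hx
    congr 2
    omega
  rw [h1]
  rcases Nat.eq_zero_or_pos a with rfl | ha
  · simp
  · have h2 := count_segSupp p (ρ, (b : ℤ) - a - 2 * ((i : ℕ) : ℤ), a - 1)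
    unfold segSupp at h2
    rw [map_range_eq] at h2
    simp only at h2
    have h3 : a - 1 + 1 = a := by omega
    rw [h3] at h2
    rw [h2]
    congr 2
    omega

theorem spehClass_homog (p : R × ℤ) (B : Block R) :
    IsWeightedHomogeneous (wt p) (spehClass B) ((blockSupp B).count p : ℤ) := by
  unfold spehClass
  rw [Matrix.det_apply']
  apply IsWeightedHomogeneous.sum
  intro σ _
  have h1 : IsWeightedHomogeneous (wt p) (∏ i : Fin B.2.2,
      (Matrix.of fun i j : Fin B.2.2 =>
        segClass B.1 ((B.2.2 : ℤ) - B.2.1 - 2 * (i : ℤ)) ((B.2.1 : ℤ) + (i : ℤ) - (j : ℤ)))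
        (σ i) i) (∑ i : Fin B.2.2,
        (above p B.1 ((B.2.2 : ℤ) - B.2.1 - 2 * ((σ i : Fin B.2.2) : ℤ)) -
          above p B.1 ((B.2.2 : ℤ) - B.2.1 - 2 * (i : ℤ) + 2 * B.2.1))) := by
    apply IsWeightedHomogeneous.prod
    intro i _
    rw [Matrix.of_apply]
    have h2 := segClass_homog p B.1 ((B.2.2 : ℤ) - B.2.1 - 2 * ((σ i : Fin B.2.2) : ℤ))
      ((B.2.1 : ℤ) + ((σ i : Fin B.2.2) : ℤ) - (i : ℤ))
    have h3 : (B.2.2 : ℤ) - B.2.1 - 2 * ((σ i : Fin B.2.2) : ℤ) +
        2 * ((B.2.1 : ℤ) + ((σ i : Fin B.2.2) : ℤ) - (i : ℤ)) =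
        (B.2.2 : ℤ) - B.2.1 - 2 * (i : ℤ) + 2 * B.2.1 := by ring
    rw [h3] at h2
    exact h2
  have h4 : (∑ i : Fin B.2.2,
        (above p B.1 ((B.2.2 : ℤ) - B.2.1 - 2 * ((σ i : Fin B.2.2) : ℤ)) -
          above p B.1 ((B.2.2 : ℤ) - B.2.1 - 2 * (i : ℤ) + 2 * B.2.1))) =
      ((blockSupp B).count p : ℤ) := by
    rw [count_blockSupp, Finset.sum_sub_distrib, Finset.sum_sub_distrib,
      Equiv.sum_comp σ (fun i : Fin B.2.2 => above p B.1 ((B.2.2 : ℤ) - B.2.1 - 2 * (i : ℤ)))]
  rw [h4] at h1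
  have h5 : (((Equiv.Perm.sign σ : ℤˣ) : ℤ) : MvPolynomial (Seg R) ℤ) =
      C ((Equiv.Perm.sign σ : ℤˣ) : ℤ) := by simp
  rw [h5]
  have h6 := (isWeightedHomogeneous_C (wt p) ((Equiv.Perm.sign σ : ℤˣ) : ℤ)).mul h1
  rw [zero_add] at h6
  exact h6

theorem arthurClass_homog (p : R × ℤ) (ψ : Multiset (Block R)) :
    IsWeightedHomogeneous (wt p) (arthurClass ψ) ((arthurSupp ψ).count p : ℤ) := by
  induction ψ using Multiset.induction_on with
  | empty => simpa [arthurClass, arthurSupp] using isWeightedHomogeneous_one ℤ (wt p)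
  | cons B ψ ih =>
    unfold arthurClass arthurSupp at ih ⊢
    rw [Multiset.map_cons, Multiset.prod_cons, Multiset.cons_bind, Multiset.count_add]
    push_cast
    exact (spehClass_homog p B).mul ih

theorem monSupp_of_mem_support {ψ : Multiset (Block R)} {m : Seg R →₀ ℕ}
    (h : (arthurClass ψ).coeff m ≠ 0) : monSupp m = arthurSupp ψ := by
  ext p
  have h1 := arthurClass_homog p ψ h
  have h2 : Finsupp.weight (wt p) m = ((monSupp m).count p : ℤ) := by
    unfold monSupp
    rw [Finsupp.weight_apply, Finsupp.sum, Finsupp.sum, Multiset.count_sum']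
    push_cast
    refine Finset.sum_congr rfl fun Δ _ => ?_
    rw [Multiset.count_nsmul]
    unfold wt
    push_cast
    simp
  rw [h2] at h1
  exact_mod_cast h1

omit [DecidableEq R] in
/-- Every representation of Arthur type has a graded class. -/
theorem exists_isGradedClass (ψ : Multiset (Block R)) : ∃ P, IsGradedClass ψ P := by
  classical
  refine ⟨MvPolynomial.map LaurentPolynomial.C (arthurClass ψ), ?_, ?_⟩
  · rw [MvPolynomial.map_map]
    have : atOne.comp LaurentPolynomial.C = RingHom.id ℤ := RingHom.ext_int _ _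
    rw [this, MvPolynomial.map_id]
  · intro m hm
    apply monSupp_of_mem_support
    intro h0
    rw [mem_support_iff, coeff_map, h0, map_zero] at hm
    exact hm rfl

end Pool.Agent.H159
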