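import Pool.Agent.H159.Dmod

/-!
# Induced modules as cyclic modules, the Koszul sequences
-/

set_option linter.unusedSectionVars false

namespace Pool.Agent.H159

open KQuiver

section

variable {k I : Type} [Field k] [DecidableEq I] [KQuiver I] {Ω : Finset (List I)}

/-! ### the rational representation as a module -/

theorem regrade_sum {V : Type} [AddCommGroup V] [Module k V] {O : Ops k I V}
    (hO : ∑ l ∈ Ω, O.e l = 1) : ∑ l ∈ Ω, (regrade O hO).e l = 1 := by
  apply gext hO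
  intro d l y hy
  have h1 := congrArg (fun z : Module.End k V => z y) hO
  simp only [LinearMap.sum_apply, Module.End.one_apply] at h1
  rw [LinearMap.sum_apply, Module.End.one_apply]
  have h2 : ∀ l', (regrade O hO).e l' (Finsupp.single d y) = Finsupp.single d (O.e l' y) :=
    fun l' => gE_single l' d y
  simp only [h2]
  conv_rhs => rw [← h1]
  exact (map_sum (Finsupp.singleAddHom d) _ _).symm

variable (k) in
/-- the graded module of the rational representation -/
abbrev GW (hΩ : ∀ l ∈ Ω, ∀ l', l.Perm l' → l' ∈ Ω) : Type :=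
  GWrap (regradeStr ((zrep k I).toPart hΩ) ((zrep k I).toPart_sum hΩ))
    (regrade_sum ((zrep k I).toPart_sum hΩ))

/-- view as an element of the module -/
def gwmk (hΩ : ∀ l ∈ Ω, ∀ l', l.Perm l' → l' ∈ Ω) (z : ℤ →₀ ((zrep k I).part Ω)) : GW k hΩ := z

/-- view as a function -/
def gwun (hΩ : ∀ l ∈ Ω, ∀ l', l.Perm l' → l' ∈ Ω) (z : GW k hΩ) : ℤ →₀ ((zrep k I).part Ω) := z

theorem GW_e (hΩ : ∀ l ∈ Ω, ∀ l', l.Perm l' → l' ∈ Ω) (l : List I) (z : GW k hΩ) :
    (gops k I Ω).e l • z =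
      gwmk hΩ (gE ((zrep k I).toPart hΩ) l (gwun hΩ z)) := by
  rw [gwrap_smul, glift_e]; rfl

theorem GW_x (hΩ : ∀ l ∈ Ω, ∀ l', l.Perm l' → l' ∈ Ω) (j : ℕ) (z : GW k hΩ) :
    (gops k I Ω).x j • z =
      gwmk hΩ (gX ((zrep k I).toPart hΩ) j (gwun hΩ z)) := by
  rw [gwrap_smul, glift_x]; rfl

theorem GW_t (hΩ : ∀ l ∈ Ω, ∀ l', l.Perm l' → l' ∈ Ω) (j : ℕ) (z : GW k hΩ) :
    (gops k I Ω).t j • z =
      gwmk hΩ (gT ((zrep k I).toPart hΩ) Ω j (gwun hΩ z)) := by
  rw [gwrap_smul, glift_t]; rfl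

theorem GW_f (hΩ : ∀ l ∈ Ω, ∀ l', l.Perm l' → l' ∈ Ω) (d : ℤ) (z : GW k hΩ) :
    (gstr k I Ω).f d • z = gwmk hΩ (gF k ((zrep k I).part Ω) d (gwun hΩ z)) := by
  rw [gwrap_smul, glift_f]; rfl

variable (k I) in
/-- the map of the graded rational representation to the rational representation -/
noncomputable def gwθ (hΩ : ∀ l ∈ Ω, ∀ l', l.Perm l' → l' ∈ Ω) :
    GW k hΩ →ₗ[k] (List (ℕ × I) →₀ ZK k) :=
  (show (ℤ →₀ ((zrep k I).part Ω)) →ₗ[k] (List (ℕ × I) →₀ ZK k) from
    ((zrep k I).part Ω).subtype ∘ₗ gsum k ((zrep k I).part Ω))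

theorem gwθ_mk (hΩ : ∀ l ∈ Ω, ∀ l', l.Perm l' → l' ∈ Ω) (z : ℤ →₀ ((zrep k I).part Ω)) :
    gwθ k I hΩ (gwmk hΩ z) = (gsum k ((zrep k I).part Ω) z : List (ℕ × I) →₀ ZK k) := rfl

variable (k I) in
/-- the map of the graded rational representation to the rational representation -/
noncomputable def GWTheta (hΩ : ∀ l ∈ Ω, ∀ l', l.Perm l' → l' ∈ Ω) : Theta k I Ω (GW k hΩ) where
  θ := gwθ k I hΩ
  hx j z := by
    rw [GW_x, gwθ_mk]
    have := gsum_x ((zrep k I).toPart_sum hΩ) j (gwun hΩ z)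
    change gsum k _ (gX _ _ _) = _ at this
    rw [this]
    rfl
  ht j z := by
    rw [GW_t, gwθ_mk]
    have := gsum_t ((zrep k I).toPart_sum hΩ) j (gwun hΩ z)
    change gsum k _ (gT _ _ _ _) = _ at this
    rw [this]
    rfl

theorem toPart_t_zero {V : Type} [AddCommGroup V] [Module k V] (O : Ops k I V)
    (hΩ : ∀ l ∈ Ω, ∀ l', l.Perm l' → l' ∈ Ω) (j : ℕ) (y : O.part Ω) (h : O.t j y.1 = 0) :
    (O.toPart hΩ).t j y = 0 := Subtype.ext h

/-- The generator in the graded rational representation. -/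
theorem exists_GW (hΩ : ∀ l ∈ Ω, ∀ l', l.Perm l' → l' ∈ Ω) {ts : List (ℕ × List I)}
    (hts : TGood ts) {ss : List (List I)} (hss : ts.map Prod.snd = ss) (hw : ss.flatten ∈ Ω)
    (d : ℤ) : ∃ y : GW k hΩ, DP k Ω ss d y ∧ (GWTheta k I hΩ).θ y = Frep.bb (tl ts) := by
  subst hss
  have hhom : (zrep k I).Hom (ts.map Prod.snd).flatten (Frep.bb (tl ts)) := by
    have := Frep.oe_bb_self (K := ZK k) (lab := Prod.snd) (tl_nodup hts)
    rw [tl_labels] at this
    exact this
  let y1 : (zrep k I).part Ω := ⟨Frep.bb (tl ts), hhom.mem_part hw⟩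
  have hy1 : ((zrep k I).toPart hΩ).Hom (ts.map Prod.snd).flatten y1 := Subtype.ext hhom
  have hun : ∀ z, gwun (k := k) hΩ (gwmk hΩ z) = z := fun _ => rfl
  refine ⟨gwmk hΩ (Finsupp.single d y1), ⟨⟨?_, ?_⟩, ?_⟩, ?_⟩
  · show (gops k I Ω).e _ • gwmk hΩ (Finsupp.single d y1) = gwmk hΩ (Finsupp.single d y1)
    rw [GW_e, hun, gE_single, hy1]
  · rw [GW_f, hun, gF_single_self]
  · intro j hj
    rw [GW_t, hun, gT_single ((zrep k I).toPart_sum hΩ) _ _ hy1]
    rw [toPart_t_zero (zrep k I) hΩ j y1 (tch_ins hts j hj), Finsupp.single_zero]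
    rfl
  · show gwθ k I hΩ _ = _
    rw [gwθ_mk, gsum_single]

/-! ### cyclic modules -/

/-- cyclic modules -/
abbrev Cy (S : Set (GKLR k I Ω)) : Type := GKLR k I Ω ⧸ Submodule.span (GKLR k I Ω) S

/-- the generator -/
def cgen (S : Set (GKLR k I Ω)) : Cy S := Submodule.Quotient.mk 1

theorem smul_cgen {S : Set (GKLR k I Ω)} (r : GKLR k I Ω) :
    r • cgen S = Submodule.Quotient.mk r := by
  show Submodule.Quotient.mk (r • 1) = _
  rw [smul_eq_mul, mul_one]

theorem cy_surj {S : Set (GKLR k I Ω)} (z : Cy S) : ∃ r : GKLR k I Ω, r • cgen S = z := by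
  obtain ⟨r, rfl⟩ := Submodule.Quotient.mk_surjective _ z
  exact ⟨r, smul_cgen r⟩

theorem smul_cgen_eq_zero {S : Set (GKLR k I Ω)} {r : GKLR k I Ω} :
    r • cgen S = 0 ↔ r ∈ Submodule.span (GKLR k I Ω) S := by
  rw [smul_cgen, Submodule.Quotient.mk_eq_zero]

section clift

variable {M : Type*} [AddCommGroup M] [Module (GKLR k I Ω) M]

/-- the universal property of cyclic modules -/
noncomputable def clift (S : Set (GKLR k I Ω)) (y : M) (h : ∀ s ∈ S, s • y = 0) :
    Cy S →ₗ[GKLR k I Ω] M :=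
  Submodule.liftQ _ (LinearMap.toSpanSingleton (GKLR k I Ω) M y) (by
    rw [Submodule.span_le]
    intro s hs
    rw [SetLike.mem_coe, LinearMap.mem_ker, LinearMap.toSpanSingleton_apply]
    exact h s hs)

theorem clift_gen {S : Set (GKLR k I Ω)} {y : M} (h : ∀ s ∈ S, s • y = 0) :
    clift S y h (cgen S) = y := by
  show (LinearMap.toSpanSingleton (GKLR k I Ω) M y) 1 = y
  rw [LinearMap.toSpanSingleton_apply, one_smul]

end clift

/-- kernels of maps of cyclic modules -/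
theorem ker_clift {S S' : Set (GKLR k I Ω)} (h : ∀ s ∈ S, s • cgen S' = 0)
    (N : Submodule (GKLR k I Ω) (Cy S)) (hN : ∀ s ∈ S', s • cgen S ∈ N) (z : Cy S)
    (hz : clift S (cgen S') h z = 0) : z ∈ N := by
  obtain ⟨r, rfl⟩ := cy_surj z
  rw [map_smul, clift_gen, smul_cgen_eq_zero] at hz
  induction hz using Submodule.span_induction with
  | mem s hs => exact hN s hs
  | zero => rw [zero_smul]; exact Submodule.zero_mem _
  | add a b _ _ ha hb => rw [add_smul]; exact Submodule.add_mem _ ha hb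
  | smul c a _ ha => rw [smul_eq_mul, mul_smul]; exact Submodule.smul_mem _ _ ha

variable (k Ω) in
/-- the relations of the induced modules -/
def RS (ss : List (List I)) (d : ℤ) (i : ℕ) : Set (GKLR k I Ω) :=
  {r | r = 1 - (gops k I Ω).e ss.flatten * (gstr k I Ω).f d ∨
    (∃ j, Ins 0 ss j ∧ r = (gops k I Ω).t j) ∨
    (∃ i' < i, i' < ss.length ∧ r = (gops k I Ω).x (pos ss i'))}

theorem RS_iff {M : Type*} [AddCommGroup M] [Module k M] [Module (GKLR k I Ω) M]
    [IsScalarTower k (GKLR k I Ω) M] {ss : List (List I)} {d : ℤ} {i : ℕ} {y : M} :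
    (∀ s ∈ RS k Ω ss d i, s • y = 0) ↔
      (((gops k I Ω).e ss.flatten • y = y ∧ (gstr k I Ω).f d • y = y) ∧
        ∀ j, Ins 0 ss j → (gops k I Ω).t j • y = 0) ∧
      ∀ i' < i, i' < ss.length → (gops k I Ω).x (pos ss i') • y = 0 := by
  constructor
  · intro h
    have h1 := h _ (Or.inl rfl)
    rw [sub_smul, one_smul, sub_eq_zero, mul_smul] at h1
    have h2 : (gops k I Ω).e ss.flatten • y = y := by
      conv_lhs => rw [h1]
      rw [smul_smul, (gops k I Ω).e_self, ← h1]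
    have h3 : (gstr k I Ω).f d • y = y := by
      have h4 : y = (gstr k I Ω).f d • (gops k I Ω).e ss.flatten • y := by
        rw [smul_smul, (gstr k I Ω).f_e, mul_smul, ← h1]
      rw [h2] at h4
      exact h4.symm
    refine ⟨⟨⟨h2, h3⟩, ?_⟩, ?_⟩
    · intro j hj
      exact h _ (Or.inr (Or.inl ⟨j, hj, rfl⟩))
    · intro i' hi' hi
      exact h _ (Or.inr (Or.inr ⟨i', hi', hi, rfl⟩))
  · rintro ⟨⟨⟨h1, h2⟩, h3⟩, h4⟩ s hs
    rcases hs with rfl | ⟨j, hj, rfl⟩ | ⟨i', hi', hi, rfl⟩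
    · rw [sub_smul, one_smul, mul_smul, h2, h1, sub_self]
    · exact h3 j hj
    · exact h4 i' hi' hi

theorem RS_iff' {M : Type} [AddCommGroup M] [Module k M] [Module (GKLR k I Ω) M]
    [IsScalarTower k (GKLR k I Ω) M] {ss : List (List I)} {d : ℤ} {i : ℕ} {y : M} :
    (∀ s ∈ RS k Ω ss d i, s • y = 0) ↔ DP k Ω ss d y ∧
      ∀ i' < i, i' < ss.length → (gops k I Ω).x (pos ss i') • y = 0 := RS_iff

variable (k Ω) in
/-- The induced module, with the first `i` dots killed. -/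
abbrev Dm (ss : List (List I)) (d : ℤ) (i : ℕ) : Type := Cy (RS k Ω ss d i)

variable (k Ω) in
/-- the generator of an induced module -/
abbrev dgen (ss : List (List I)) (d : ℤ) (i : ℕ) : Dm k Ω ss d i := cgen (RS k Ω ss d i)

theorem cgen_rel (S : Set (GKLR k I Ω)) : ∀ s ∈ S, s • cgen S = 0 := by
  intro s hs
  rw [smul_cgen_eq_zero]
  exact Submodule.subset_span hs

theorem dgen_DP (ss : List (List I)) (d : ℤ) (i : ℕ) : DP k Ω ss d (dgen k Ω ss d i) :=
  (RS_iff'.mp (cgen_rel _)).1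

theorem dgen_x (ss : List (List I)) (d : ℤ) (i : ℕ) :
    ∀ i' < i, i' < ss.length → (gops k I Ω).x (pos ss i') • dgen k Ω ss d i = 0 :=
  (RS_iff'.mp (cgen_rel _)).2

/-- pull back a map to the rational representation -/
noncomputable def Theta.comap {M M' : Type} [AddCommGroup M] [Module k M] [Module (GKLR k I Ω) M]
    [IsScalarTower k (GKLR k I Ω) M] [AddCommGroup M'] [Module k M'] [Module (GKLR k I Ω) M']
    [IsScalarTower k (GKLR k I Ω) M'] (Θ : Theta k I Ω M) (g : M' →ₗ[GKLR k I Ω] M) :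
    Theta k I Ω M' where
  θ := Θ.θ ∘ₗ (g.restrictScalars k)
  hx j z := by
    show Θ.θ (g _) = _
    rw [map_smul, Θ.hx]
    rfl
  ht j z := by
    show Θ.θ (g _) = _
    rw [map_smul, Θ.ht]
    rfl

theorem map_comb {M M' : Type} [AddCommGroup M] [Module k M] [Module (GKLR k I Ω) M]
    [IsScalarTower k (GKLR k I Ω) M] [AddCommGroup M'] [Module k M'] [Module (GKLR k I Ω) M']
    [IsScalarTower k (GKLR k I Ω) M'] (g : M' →ₗ[GKLR k I Ω] M) (ss : List (List I)) (u : List I)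
    (p : Fin (BB 0 ss u).length → MvPolynomial (Fin ss.length) k) (y : M') :
    g (comb (Ω := Ω) ss u p y) = comb (Ω := Ω) ss u p (g y) := by
  unfold comb
  rw [map_sum]
  apply Finset.sum_congr rfl
  intro i _
  rw [map_smul, map_smul]

/-- indexed chains -/
def ixd (ss : List (List I)) : List (ℕ × List I) := ss.zipIdx.map Prod.swap

theorem ixd_snd (ss : List (List I)) : (ixd ss).map Prod.snd = ss := by
  unfold ixd
  rw [List.map_map]
  have : (Prod.snd ∘ Prod.swap : List I × ℕ → List I) = Prod.fst := rfl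
  rw [this, List.zipIdx_map_fst]

theorem ixd_good {ss : List (List I)} (hg : GC ss) : TGood (ixd ss) := by
  constructor
  · unfold ixd
    rw [List.map_map]
    have : (Prod.fst ∘ Prod.swap : List I × ℕ → ℕ) = Prod.snd := rfl
    rw [this, List.zipIdx_map_snd]
    exact List.nodup_range'
  · intro q hq
    have : q.2 ∈ (ixd ss).map Prod.snd := List.mem_map_of_mem hq
    rw [ixd_snd] at this
    exact (hg _ this).1

theorem ixd_ne {ss : List (List I)} (hg : GC ss) : ∀ q ∈ ixd ss, q.2 ≠ [] := by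
  intro q hq
  have : q.2 ∈ (ixd ss).map Prod.snd := List.mem_map_of_mem hq
  rw [ixd_snd] at this
  exact (hg _ this).2

/-- a map of the induced module to the rational representation -/
theorem exists_theta (hΩ : ∀ l ∈ Ω, ∀ l', l.Perm l' → l' ∈ Ω) {ts : List (ℕ × List I)}
    (hts : TGood ts) {ss : List (List I)} (hss : ts.map Prod.snd = ss) (hw : ss.flatten ∈ Ω)
    (d : ℤ) : ∃ Θ : Theta k I Ω (Dm k Ω ss d 0), Θ.θ (dgen k Ω ss d 0) = Frep.bb (tl ts) := by
  obtain ⟨y, hy, hθ⟩ := exists_GW (k := k) hΩ hts hss hw d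
  have h1 : ∀ s ∈ RS k Ω ss d 0, s • y = 0 := RS_iff'.mpr ⟨hy, by intro i' hi'; omega⟩
  refine ⟨(GWTheta k I hΩ).comap (clift _ y h1), ?_⟩
  show (GWTheta k I hΩ).θ (clift _ y h1 (cgen _)) = _
  rw [clift_gen, hθ]

theorem dm_comb_eq_zero (hΩ : ∀ l ∈ Ω, ∀ l', l.Perm l' → l' ∈ Ω) {ss : List (List I)}
    (hg : GC ss) (hw : ss.flatten ∈ Ω) {d : ℤ} {u : List I}
    {p : Fin (BB 0 ss u).length → MvPolynomial (Fin ss.length) k}
    (h : comb (Ω := Ω) ss u p (dgen k Ω ss d 0) = 0) : p = 0 := by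
  obtain ⟨Θ, hΘ⟩ := exists_theta (k := k) hΩ (ixd_good hg) (ixd_snd ss) hw d
  exact comb_eq_zero Θ (ixd_good hg) (ixd_ne hg) (ixd_snd ss) (κ := 1) one_ne_zero
    (by rw [hΘ, one_smul]) h

/-- Injectivity criterion for maps out of an induced module. -/
theorem clift_injective {ss : List (List I)} (hg : GC ss) {d : ℤ} {M : Type} [AddCommGroup M]
    [Module k M] [Module (GKLR k I Ω) M] [IsScalarTower k (GKLR k I Ω) M]
    (Θ : Theta k I Ω M) {ts : List (ℕ × List I)} (hts : TGood ts)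
    (hss : ts.map Prod.snd = ss) {y : M} {κ : ZK k} (hκ : κ ≠ 0)
    (hy : Θ.θ y = κ • Frep.bb (tl ts)) (h : ∀ s ∈ RS k Ω ss d 0, s • y = 0) :
    Function.Injective (clift _ y h) := by
  have hne : ∀ q ∈ ts, q.2 ≠ [] := by
    intro q hq
    have : q.2 ∈ ts.map Prod.snd := List.mem_map_of_mem hq
    rw [hss] at this
    exact (hg _ this).2
  rw [injective_iff_map_eq_zero]
  intro z hz
  rw [← sum_e_apply (k := k) (Ω := Ω) z]
  apply Finset.sum_eq_zero
  intro u _
  obtain ⟨r, rfl⟩ := cy_surj z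
  obtain ⟨p, hp⟩ := exists_comb hg (dgen_DP (k := k) (Ω := Ω) ss d 0) u r
  have h1 : clift _ y h ((gops k I Ω).e u • r • dgen k Ω ss d 0) = 0 := by
    rw [map_smul, hz, smul_zero]
  rw [hp, map_comb, clift_gen] at h1
  have h2 := comb_eq_zero Θ hts hne hss hκ hy h1
  rw [hp, h2, comb_zero]

/-! ### the ideals generated by variables -/

/-- the ideal of the first `i` variables -/
noncomputable def Ji (k : Type) [Field k] (m i : ℕ) : Ideal (MvPolynomial (Fin m) k) :=
  Ideal.span (MvPolynomial.X '' {a : Fin m | (a : ℕ) < i})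

theorem mem_Ji {m i : ℕ} {p : MvPolynomial (Fin m) k} :
    p ∈ Ji k m i ↔ ∀ e ∈ p.support, ∃ a : Fin m, (a : ℕ) < i ∧ e a ≠ 0 := by
  unfold Ji
  rw [MvPolynomial.mem_ideal_span_X_image]
  rfl

theorem Ji_regular {m i : ℕ} (hi : i < m) {p : MvPolynomial (Fin m) k}
    (h : p * MvPolynomial.X (⟨i, hi⟩ : Fin m) ∈ Ji k m i) : p ∈ Ji k m i := by
  rw [mem_Ji] at h ⊢
  intro e he
  have h1 : e + Finsupp.single (⟨i, hi⟩ : Fin m) 1 ∈
      (p * MvPolynomial.X (⟨i, hi⟩ : Fin m)).support := by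
    rw [MvPolynomial.support_mul_X]
    simpa using he
  obtain ⟨a, ha, ha'⟩ := h _ h1
  refine ⟨a, ha, ?_⟩
  have h2 : (⟨i, hi⟩ : Fin m) ≠ a := by
    intro h3
    rw [← h3] at ha
    exact lt_irrefl _ ha
  rw [Finsupp.add_apply, Finsupp.single_eq_of_ne (Ne.symm h2), add_zero] at ha'
  exact ha'

theorem pev_Ji {M : Type} [AddCommGroup M] [Module k M] [Module (GKLR k I Ω) M]
    [IsScalarTower k (GKLR k I Ω) M] {ss : List (List I)} {i : ℕ} {y : M}
    (h : ∀ i' < i, i' < ss.length → (gops k I Ω).x (pos ss i') • y = 0)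
    {p : MvPolynomial (Fin ss.length) k} (hp : p ∈ Ji k ss.length i) :
    pev k I Ω ss p • y = 0 := by
  unfold Ji at hp
  induction hp using Submodule.span_induction with
  | mem p hp =>
    obtain ⟨a, ha, rfl⟩ := hp
    rw [pev_X]
    exact h a ha a.2
  | zero => rw [map_zero, zero_smul]
  | add p q _ _ hp hq => rw [map_add, add_smul, hp, hq, add_zero]
  | smul c p _ hp => rw [smul_eq_mul, map_mul, mul_smul, hp, smul_zero]

theorem comb_Ji {M : Type} [AddCommGroup M] [Module k M] [Module (GKLR k I Ω) M]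
    [IsScalarTower k (GKLR k I Ω) M] {ss : List (List I)} {i : ℕ} {y : M}
    (h : ∀ i' < i, i' < ss.length → (gops k I Ω).x (pos ss i') • y = 0) {u : List I}
    {p : Fin (BB 0 ss u).length → MvPolynomial (Fin ss.length) k}
    (hp : ∀ a, p a ∈ Ji k ss.length i) : comb (Ω := Ω) ss u p y = 0 := by
  unfold comb
  apply Finset.sum_eq_zero
  intro a _
  rw [pev_Ji h (hp a), smul_zero]

theorem comb_X {M : Type} [AddCommGroup M] [Module k M] [Module (GKLR k I Ω) M]
    [IsScalarTower k (GKLR k I Ω) M] (ss : List (List I)) (u : List I)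
    (p : Fin (BB 0 ss u).length → MvPolynomial (Fin ss.length) k) (i : Fin ss.length) (y : M) :
    comb (Ω := Ω) ss u p ((gops k I Ω).x (pos ss i) • y) =
      comb (Ω := Ω) ss u (fun a => p a * MvPolynomial.X i) y := by
  unfold comb
  apply Finset.sum_congr rfl
  intro a _
  rw [map_mul, pev_X, mul_smul]

theorem DP.x_pos {M : Type} [AddCommGroup M] [Module k M] [Module (GKLR k I Ω) M]
    [IsScalarTower k (GKLR k I Ω) M] {ss : List (List I)} (hg : GC ss) {d : ℤ} {y : M}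
    (h : DP k Ω ss d y) (i : Fin ss.length) :
    DP k Ω ss (d + 2) ((gops k I Ω).x (pos ss i) • y) := by
  refine ⟨h.1.x _, ?_⟩
  have := (h.pev hg (MvPolynomial.X i)).2
  rw [pev_X] at this
  exact this

/-- The vanishing criterion in the induced module with the first `i` dots killed. -/
theorem dm_comb_Ji (hΩ : ∀ l ∈ Ω, ∀ l', l.Perm l' → l' ∈ Ω) {ss : List (List I)}
    (hg : GC ss) (hw : ss.flatten ∈ Ω) {d : ℤ} {i : ℕ} {u : List I}
    {p : Fin (BB 0 ss u).length → MvPolynomial (Fin ss.length) k}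
    (h : comb (Ω := Ω) ss u p (dgen k Ω ss d i) = 0) :
    ∀ a, p a ∈ Ji k ss.length i := by
  classical
  have hrel : ∀ s ∈ RS k Ω ss d 0, s • dgen k Ω ss d i = 0 := by
    intro s hs
    apply cgen_rel
    rcases hs with hs | hs | ⟨i', hi', -⟩
    · exact Or.inl hs
    · exact Or.inr (Or.inl hs)
    · omega
  set v : {a : Fin ss.length // (a : ℕ) < i} → Dm k Ω ss d 0 :=
    fun a => (gops k I Ω).x (pos ss a.1) • dgen k Ω ss d 0 with hv
  have h1 : clift _ (dgen k Ω ss d i) hrel (comb (Ω := Ω) ss u p (dgen k Ω ss d 0)) = 0 := by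
    rw [map_comb, clift_gen, h]
  have h2 := ker_clift hrel (Submodule.span _ (Set.range v)) (by
    intro s hs
    rcases hs with hs | hs | ⟨i', hi', hi'', rfl⟩
    · rw [cgen_rel _ s (Or.inl hs)]
      exact Submodule.zero_mem _
    · rw [cgen_rel _ s (Or.inr (Or.inl hs))]
      exact Submodule.zero_mem _
    · exact Submodule.subset_span ⟨⟨⟨i', hi''⟩, hi'⟩, rfl⟩) _ h1
  rw [Submodule.mem_span_range_iff_exists_fun] at h2
  obtain ⟨c, hc⟩ := h2
  have h3 : ∀ a : {a : Fin ss.length // (a : ℕ) < i}, ∃ q : Fin (BB 0 ss u).length →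
      MvPolynomial (Fin ss.length) k, (gops k I Ω).e u • (c a • v a) =
        comb (k := k) (Ω := Ω) ss u (fun b => q b * MvPolynomial.X a.1) (dgen k Ω ss d 0) := by
    intro a
    obtain ⟨q, hq⟩ := exists_comb hg ((dgen_DP (k := k) (Ω := Ω) ss d 0).x_pos hg a.1) u (c a)
    exact ⟨q, by rw [hv, hq, comb_X]⟩
  choose q hq using h3
  have h4 : (gops k I Ω).e u • comb (Ω := Ω) ss u p (dgen k Ω ss d 0) =
      comb (Ω := Ω) ss u p (dgen k Ω ss d 0) := by
    unfold comb
    rw [Finset.smul_sum]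
    apply Finset.sum_congr rfl
    intro a _
    rw [lwd_smul]
    have h5 := ((dgen_DP (k := k) (Ω := Ω) ss d 0).pev hg (p a)).1
    exact Ops.Hom.BB (α := []) (u := u) (by simpa using h5) (List.getElem_mem _)
  have h5 : comb (Ω := Ω) ss u p (dgen k Ω ss d 0) =
      comb (Ω := Ω) ss u (∑ a, fun b => q a b * MvPolynomial.X a.1) (dgen k Ω ss d 0) := by
    rw [← h4, ← hc, Finset.smul_sum]
    rw [Finset.sum_congr rfl (fun a _ => hq a)]
    have h6 : ∀ (s : Finset {a : Fin ss.length // (a : ℕ) < i}),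
        ∑ a ∈ s, comb (k := k) (Ω := Ω) ss u (fun b => q a b * MvPolynomial.X a.1)
          (dgen k Ω ss d 0) =
        comb (Ω := Ω) ss u (∑ a ∈ s, fun b => q a b * MvPolynomial.X a.1) (dgen k Ω ss d 0) := by
      intro s
      induction s using Finset.induction_on with
      | empty => rw [Finset.sum_empty, Finset.sum_empty, comb_zero]
      | insert a s ha ih => rw [Finset.sum_insert ha, Finset.sum_insert ha, comb_add, ih]
    exact h6 _
  have h6 : p = ∑ a, fun b => q a b * MvPolynomial.X a.1 := by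
    rw [← sub_eq_zero]
    apply dm_comb_eq_zero hΩ hg hw (d := d)
    rw [sub_eq_add_neg, comb_add, ← neg_one_smul k, comb_smul, ← h5, neg_one_smul, add_neg_cancel]
  intro b
  rw [h6, Finset.sum_apply]
  apply Ideal.sum_mem
  intro a _
  apply Ideal.mul_mem_left
  exact Ideal.subset_span ⟨a.1, a.2, rfl⟩

theorem smul_comb_self {M : Type} [AddCommGroup M] [Module k M] [Module (GKLR k I Ω) M]
    [IsScalarTower k (GKLR k I Ω) M] {ss : List (List I)} (hg : GC ss) {d : ℤ} {y : M}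
    (h : DP k Ω ss d y) (u : List I)
    (p : Fin (BB 0 ss u).length → MvPolynomial (Fin ss.length) k) :
    (gops k I Ω).e u • comb (Ω := Ω) ss u p y = comb (Ω := Ω) ss u p y := by
  unfold comb
  rw [Finset.smul_sum]
  apply Finset.sum_congr rfl
  intro a _
  rw [lwd_smul]
  have h5 := (h.pev hg (p a)).1
  exact Ops.Hom.BB (α := []) (u := u) (by simpa using h5) (List.getElem_mem _)

/-! ### the Koszul sequences -/

/-- multiplication by the dot of chain `i` -/
theorem mu_rel {ss : List (List I)} (hg : GC ss) (d : ℤ) (i : Fin ss.length) :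
    ∀ s ∈ RS k Ω ss (d + 2) i, s • ((gops k I Ω).x (pos ss i) • dgen k Ω ss d i) = 0 := by
  rw [RS_iff']
  refine ⟨(dgen_DP ss d i).x_pos hg i, ?_⟩
  intro i' hi' hi''
  rw [smul_smul, (gops k I Ω).x_x, mul_smul, dgen_x ss d i i' hi' hi'', smul_zero]

variable (k Ω) in
/-- multiplication by the dot of chain `i` -/
noncomputable def mu {ss : List (List I)} (hg : GC ss) (d : ℤ) (i : Fin ss.length) :
    Dm k Ω ss (d + 2) i →ₗ[GKLR k I Ω] Dm k Ω ss d i :=
  clift _ ((gops k I Ω).x (pos ss i) • dgen k Ω ss d i) (mu_rel hg d i)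

theorem pi_rel (ss : List (List I)) (d : ℤ) (i : ℕ) :
    ∀ s ∈ RS k Ω ss d i, s • dgen k Ω ss d (i + 1) = 0 := by
  rw [RS_iff']
  exact ⟨dgen_DP ss d (i + 1), fun i' hi' hi'' => dgen_x ss d (i + 1) i' (by omega) hi''⟩

variable (k Ω) in
/-- the quotient map -/
noncomputable def mpi (ss : List (List I)) (d : ℤ) (i : ℕ) :
    Dm k Ω ss d i →ₗ[GKLR k I Ω] Dm k Ω ss d (i + 1) :=
  clift _ (dgen k Ω ss d (i + 1)) (pi_rel ss d i)

theorem clift_surj {S S' : Set (GKLR k I Ω)} (h : ∀ s ∈ S, s • cgen S' = 0) :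
    Function.Surjective (clift S (cgen S') h) := by
  intro z
  obtain ⟨r, rfl⟩ := cy_surj z
  exact ⟨r • cgen S, by rw [map_smul, clift_gen]⟩

theorem mpi_surj (ss : List (List I)) (d : ℤ) (i : ℕ) : Function.Surjective (mpi k Ω ss d i) :=
  clift_surj _

theorem mu_inj (hΩ : ∀ l ∈ Ω, ∀ l', l.Perm l' → l' ∈ Ω) {ss : List (List I)}
    (hg : GC ss) (hw : ss.flatten ∈ Ω) (d : ℤ) (i : Fin ss.length) :
    Function.Injective (mu k Ω hg d i) := by
  rw [injective_iff_map_eq_zero]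
  intro z hz
  rw [← sum_e_apply (k := k) (Ω := Ω) z]
  apply Finset.sum_eq_zero
  intro u _
  obtain ⟨r, rfl⟩ := cy_surj z
  obtain ⟨p, hp⟩ := exists_comb hg (dgen_DP (k := k) (Ω := Ω) ss (d + 2) i) u r
  have h1 : mu k Ω hg d i ((gops k I Ω).e u • r • dgen k Ω ss (d + 2) i) = 0 := by
    rw [map_smul, hz, smul_zero]
  rw [hp, map_comb] at h1
  unfold mu at h1
  rw [clift_gen, comb_X] at h1
  have h2 := dm_comb_Ji hΩ hg hw h1
  rw [hp]
  apply comb_Ji (dgen_x ss (d + 2) i)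
  intro a
  exact Ji_regular i.2 (h2 a)

theorem mu_exact {ss : List (List I)} (hg : GC ss) (d : ℤ) (i : Fin ss.length)
    (z : Dm k Ω ss d i) : mpi k Ω ss d i z = 0 ↔ ∃ y, mu k Ω hg d i y = z := by
  constructor
  · intro hz
    have := ker_clift (pi_rel ss d i) (LinearMap.range (mu k Ω hg d i)) (by
      intro s hs
      rcases hs with hs | hs | ⟨i', hi', hi'', rfl⟩
      · rw [cgen_rel _ s (Or.inl hs)]
        exact Submodule.zero_mem _
      · rw [cgen_rel _ s (Or.inr (Or.inl hs))]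
        exact Submodule.zero_mem _
      · rcases Nat.lt_or_ge i' i with h | h
        · rw [cgen_rel _ _ (Or.inr (Or.inr ⟨i', h, hi'', rfl⟩))]
          exact Submodule.zero_mem _
        · have h2 : i' = i := by omega
          rw [h2]
          exact ⟨dgen k Ω ss (d + 2) i, clift_gen _⟩) z hz
    exact this
  · rintro ⟨y, rfl⟩
    obtain ⟨r, rfl⟩ := cy_surj y
    unfold mu mpi
    rw [map_smul, clift_gen, map_smul, map_smul, clift_gen,
      dgen_x ss d (i + 1) i (by omega) i.2, smul_zero]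

end

end Pool.Agent.H159
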