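import Pool.Agent.H159.Simple

/-!
# Graded models of modules over the quiver Hecke algebra
-/

set_option linter.unusedSectionVars false
set_option linter.unusedSimpArgs false

namespace Pool.Agent.H159

open KQuiver

section

variable {k I : Type} [Field k] [DecidableEq I] [KQuiver I] {Ω : Finset (List I)}

variable (k Ω) in
/-- existence of a graded model -/
def HasModel (X : Type) [AddCommGroup X] [Module (KLR k I Ω) X] : Prop :=
  ∃ (X' : Type) (_ : AddCommGroup X') (_ : Module k X') (_ : Module (GKLR k I Ω) X')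
    (_ : IsScalarTower k (GKLR k I Ω) X') (_ : Module.Finite k X')
    (_ : Module (KLR k I Ω) X') (_ : IsScalarTower (KLR k I Ω) (GKLR k I Ω) X'),
    FU k Ω X' ∧ Nonempty (X' ≃ₗ[KLR k I Ω] X)

variable {X : Type} [AddCommGroup X] [Module k X] [Module (KLR k I Ω) X]
  [IsScalarTower k (KLR k I Ω) X] [Module.Finite k X]

theorem graded_model {A : ℤ → Submodule k X} (h : IsKGrading k Ω A) : HasModel k Ω X := by
  have hfin : Module.Finite k (GWrap (Ω := Ω) h.str kmops_sum) :=
    inferInstanceAs (Module.Finite k X)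
  exact ⟨GWrap (Ω := Ω) h.str kmops_sum, inferInstance, inferInstance, inferInstance,
    inferInstance, hfin, inferInstance, inferInstance, h.lg.fu,
    ⟨LinearEquiv.refl (KLR k I Ω) X⟩⟩

/-- word dimensions are invariant under isomorphisms -/
theorem wdm_model {X' : Type} [AddCommGroup X'] [Module k X'] [Module (GKLR k I Ω) X']
    [IsScalarTower k (GKLR k I Ω) X'] [Module (KLR k I Ω) X']
    [IsScalarTower (KLR k I Ω) (GKLR k I Ω) X'] (e : X' ≃ₗ[KLR k I Ω] X) (u : List I) :
    wdm (mops k I Ω X') u = wdm (kmops k I Ω X) u := by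
  have hk : ∀ (c : k) (y : X'), e (c • y) = c • e y := by
    intro c y
    have h1 : c • y = (algebraMap k (KLR k I Ω) c) • y := by
      rw [← toG_smul, AlgHom.commutes, algebraMap_smul]
    rw [h1, map_smul, algebraMap_smul]
  let ek : X' ≃ₗ[k] X :=
    { toFun := e, map_add' := map_add e, map_smul' := hk, invFun := e.symm
      left_inv := e.symm_apply_apply, right_inv := e.apply_symm_apply }
  have h1 : ∀ y : X', ek ((mops k I Ω X').e u y) = (kmops k I Ω X).e u (ek y) := by
    intro y
    show e ((gops k I Ω).e u • y) = (kops k I Ω).e u • e y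
    rw [gops_e, toG_smul, map_smul]
  have h2 : (wsp (mops k I Ω X') u).map (ek : X' →ₗ[k] X) = wsp (kmops k I Ω X) u := by
    apply le_antisymm
    · rintro _ ⟨y, hy, rfl⟩
      have hy' := mem_wsp.mp hy
      apply mem_wsp.mpr
      show (kmops k I Ω X).e u (ek y) = ek y
      rw [← h1, hy']
    · intro z hz
      have hz' := mem_wsp.mp hz
      refine ⟨ek.symm z, mem_wsp.mpr ?_, ek.apply_symm_apply z⟩
      apply ek.injective
      show ek ((mops k I Ω X').e u (ek.symm z)) = ek (ek.symm z)
      rw [h1, ek.apply_symm_apply]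
      exact hz'
  unfold wdm
  rw [← h2, LinearEquiv.finrank_map_eq ek]

end

variable {k I : Type} [Field k] [LinearOrder I] [KQuiver I] [LinQ I] {Ω : Finset (List I)}

/-- Simple finite-dimensional modules with nilpotent dots have graded models. -/
theorem simple_model (hΩ : PC Ω) {X : Type} [AddCommGroup X] [Module k X]
    [Module (KLR k I Ω) X] [IsScalarTower k (KLR k I Ω) X] [Module.Finite k X]
    [hsimp : IsSimpleModule (KLR k I Ω) X]
    (hnil : ∀ j, ∃ N, ∀ y : X, ((kops k I Ω).x j ^ N) • y = 0) : HasModel k Ω X := by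
  have hnil' : ∀ j, ∃ N, ∀ y, ((kmops k I Ω X).x j ^ N) y = 0 := by
    intro j
    obtain ⟨N, hN⟩ := hnil j
    refine ⟨N, fun y => ?_⟩
    have h1 : (kmops k I Ω X).x j = Algebra.lsmul k k X ((kops k I Ω).x j) := rfl
    rw [h1, ← map_pow]
    exact hN y
  -- the largest word
  have hnotin : ∀ u ∉ Ω, wdm (kmops k I Ω X) u = 0 := by
    intro u hu
    unfold wdm
    rw [Nat.cast_eq_zero, Submodule.finrank_eq_zero, Submodule.eq_bot_iff]
    intro y hy
    have hy' : (kops k I Ω).e u • y = y := mem_wsp.mp hy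
    rw [kops_notin hu, zero_smul] at hy'
    exact hy'.symm
  have hsum : ∀ y : X, ∑ l ∈ Ω, (kops k I Ω).e l • y = y := by
    intro y
    rw [← Finset.sum_smul, kops_sum, one_smul]
  obtain ⟨y₀, hy₀⟩ : ∃ y : X, y ≠ 0 := by
    have := IsSimpleModule.nontrivial (KLR k I Ω) X
    exact exists_ne 0
  set T := Ω.filter (fun u => wdm (kmops k I Ω X) u ≠ 0) with hT
  have hTne : T.Nonempty := by
    by_contra hne
    rw [Finset.not_nonempty_iff_eq_empty, Finset.filter_eq_empty_iff] at hne
    apply hy₀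
    rw [← hsum y₀]
    apply Finset.sum_eq_zero
    intro u hu
    have h1 := hne hu
    push Not at h1
    unfold wdm at h1
    rw [Nat.cast_eq_zero, Submodule.finrank_eq_zero, Submodule.eq_bot_iff] at h1
    exact h1 _ (mem_wsp.mpr (Ops.hom_e (kmops k I Ω X) u y₀))
  obtain ⟨w, hw⟩ : ∃ w, w = T.max' hTne := ⟨_, rfl⟩
  have hwT : w ∈ T := by rw [hw]; exact Finset.max'_mem _ _
  rw [hT, Finset.mem_filter] at hwT
  have hmax : IsMaxW (wff (kmops k I Ω X)) w := by
    refine ⟨hwT.2, fun u hu => ?_⟩
    show wdm (kmops k I Ω X) u = 0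
    by_cases huΩ : u ∈ Ω
    · by_contra hne
      have h1 : u ∈ T := by rw [hT, Finset.mem_filter]; exact ⟨huΩ, hne⟩
      have h2 := Finset.le_max' T u h1
      rw [← hw] at h2
      exact absurd hu (not_lt.mpr h2)
    · exact hnotin u huΩ
  obtain ⟨ss, hss, rfl⟩ := max_sorted hmax
  obtain ⟨y, hy, hy0⟩ := wdm_ne_zero hwT.2
  obtain ⟨v, hv0, hvh, hvx⟩ := exists_killed hnil' hy hy0
  have hvt : ∀ j, Ins 0 ss j → (kmops k I Ω X).t j v = 0 := by
    intro j hj
    obtain ⟨A, s₁, a, b, s₂, C, h1, h2⟩ := ins_split hj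
    have hch := (hss.1 (s₁ ++ a :: b :: s₂) (by rw [h1]; simp)).1
    have harr : arr a b := by
      have := (List.isChain_append.mp hch).2.1
      rw [List.isChain_cons_cons] at this
      exact this.1
    have hwd : ss.flatten = (A.flatten ++ s₁) ++ a :: b :: (s₂ ++ C.flatten) := by
      rw [h1]; simp
    have h3 := hvh
    rw [hwd] at h3
    have h4 := h3.t (j := j) (by rw [h2, List.length_append]; omega)
    have h5 : wdm (kmops k I Ω X) ((A.flatten ++ s₁) ++ b :: a :: (s₂ ++ C.flatten)) = 0 := by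
      apply hmax.2
      rw [hwd]
      apply List.append_left_lt
      rw [List.cons_lt_cons_iff]
      exact Or.inl (LinQ.lt_of_arr harr)
    unfold wdm at h5
    rw [Nat.cast_eq_zero, Submodule.finrank_eq_zero, Submodule.eq_bot_iff] at h5
    exact h5 _ (mem_wsp.mpr h4)
  -- the map from the induced module
  let yv : RG k I Ω X := (Finsupp.single 0 v : ℤ →₀ X)
  have hrel : ∀ s ∈ RS k Ω ss 0 ss.length, s • yv = 0 := by
    rw [RS_iff']
    refine ⟨⟨?_, ?_⟩, ?_⟩
    · rw [bihom_iff]
      constructor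
      · rw [gwrap_smul, glift_e]
        show gE (kmops k I Ω X) ss.flatten (Finsupp.single 0 v) = Finsupp.single 0 v
        rw [gE_single, hvh]
      · rw [gwrap_smul, glift_f]
        show gF k X 0 (Finsupp.single 0 v) = Finsupp.single 0 v
        rw [gF_single_self]
    · intro j hj
      rw [gwrap_smul, glift_t]
      show gT (kmops k I Ω X) Ω j (Finsupp.single 0 v) = 0
      rw [gT_single kmops_sum _ _ hvh, hvt j hj, Finsupp.single_zero]
    · intro i' _ _
      rw [gwrap_smul, glift_x]
      show gX (kmops k I Ω X) (pos ss i') (Finsupp.single 0 v) = 0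
      rw [gX_single, hvx, Finsupp.single_zero]
  obtain ⟨φ, hφ⟩ : ∃ φ : Dm k Ω ss 0 ss.length →ₗ[GKLR k I Ω] RG k I Ω X,
    φ (dgen k Ω ss 0 ss.length) = yv := ⟨clift _ yv hrel, clift_gen hrel⟩
  let Φ : Dm k Ω ss 0 ss.length →ₗ[KLR k I Ω] X :=
    { toFun := fun z => rgsum k I Ω X (φ z)
      map_add' := fun y z => by rw [map_add, rgsum_add]
      map_smul' := fun r y => by
        rw [← toG_smul, map_smul, rgsum_smul]; rfl }
  have hΦv : Φ (dgen k Ω ss 0 ss.length) = v := by
    show rgsum k I Ω X (φ (dgen k Ω ss 0 ss.length)) = v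
    rw [hφ]
    show gsum k X (Finsupp.single 0 v) = v
    simp [gsum]
  have hsurj : Function.Surjective Φ := by
    rw [← LinearMap.range_eq_top]
    rcases eq_bot_or_eq_top (LinearMap.range Φ) with h | h
    · exfalso
      apply hv0
      have : v ∈ LinearMap.range Φ := ⟨_, hΦv⟩
      rw [h, Submodule.mem_bot] at this
      exact this
    · exact h
  have hDfin : Module.Finite k (Dm k Ω ss 0 ss.length) :=
    finite_of_wsp (fun u => (dm_wdm hΩ hss.gc hwT.1 0 u).1)
  have hDFU : FU k Ω (Dm k Ω ss 0 ss.length) :=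
    FU.of_gen (dgen_DP ss 0 ss.length).1 (fun z => cy_surj z)
  -- `Φ` as a linear map over the field
  have hk : ∀ (c : k) (z : Dm k Ω ss 0 ss.length), Φ (c • z) = c • Φ z := by
    intro c z
    have h1 : c • z = (algebraMap k (KLR k I Ω) c) • z := by
      rw [← toG_smul, AlgHom.commutes, algebraMap_smul]
    rw [h1, map_smul, algebraMap_smul]
  let Φk : Dm k Ω ss 0 ss.length →ₗ[k] X :=
    { toFun := Φ, map_add' := map_add Φ, map_smul' := hk }
  have hwspmap : (wsp (mops k I Ω (Dm k Ω ss 0 ss.length)) ss.flatten).map Φk =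
      wsp (kmops k I Ω X) ss.flatten := by
    apply le_antisymm
    · rintro _ ⟨z, hz, rfl⟩
      have hz' : (gops k I Ω).e ss.flatten • z = z := mem_wsp.mp hz
      apply mem_wsp.mpr
      show (kops k I Ω).e ss.flatten • Φ z = Φ z
      rw [← map_smul, ← toG_smul, ← gops_e, hz']
    · intro x hx
      have hx' : (kops k I Ω).e ss.flatten • x = x := mem_wsp.mp hx
      obtain ⟨z, rfl⟩ := hsurj x
      refine ⟨(gops k I Ω).e ss.flatten • z, mem_wsp.mpr (Ops.hom_e _ _ _), ?_⟩
      show Φ ((gops k I Ω).e ss.flatten • z) = Φ z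
      rw [gops_e, toG_smul, map_smul, hx']
  have hinj : ∀ z : Dm k Ω ss 0 ss.length, (gops k I Ω).e ss.flatten • z = z → Φ z = 0 →
      z = 0 := by
    have h1 := rank_split (wsp (mops k I Ω (Dm k Ω ss 0 ss.length)) ss.flatten) Φk
    rw [hwspmap] at h1
    have h2 := lower_bound_nil hnil' hss hmax
    have h3 := (dm_wdm (k := k) hΩ hss.gc hwT.1 0 ss.flatten).2
    rw [(sh_sorted ss hss).2] at h3
    unfold wdm at h2 h3
    have h4 : Module.finrank k
        (wsp (mops k I Ω (Dm k Ω ss 0 ss.length)) ss.flatten ⊓ LinearMap.ker Φk :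
          Submodule k _) = 0 := by
      have h5 : (Module.finrank k (wsp (mops k I Ω (Dm k Ω ss 0 ss.length)) ss.flatten) : ℤ) ≤
          Module.finrank k (wsp (kmops k I Ω X) ss.flatten) := by
        rw [h3]; exact h2
      have h6 : Module.finrank k (wsp (mops k I Ω (Dm k Ω ss 0 ss.length)) ss.flatten) ≤
          Module.finrank k (wsp (kmops k I Ω X) ss.flatten) := by exact_mod_cast h5
      omega
    rw [Submodule.finrank_eq_zero, Submodule.eq_bot_iff] at h4
    intro z hz hz2
    exact h4 z ⟨mem_wsp.mpr hz, hz2⟩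
  -- the kernel is the largest submodule avoiding the word
  have hker : ∀ z : Dm k Ω ss 0 ss.length, Φ z = 0 ↔ z ∈ Nw k Ω _ ss.flatten := by
    intro z
    constructor
    · intro hz
      rw [mem_Nw]
      intro s
      apply hinj
      · rw [gops_e, toG_smul, smul_smul, (kops k I Ω).e_self]
      · rw [map_smul, map_smul, hz, smul_zero, smul_zero]
    · intro hz
      let N' : Submodule (KLR k I Ω) X := Submodule.map Φ
        ((Nw k Ω (Dm k Ω ss 0 ss.length) ss.flatten).restrictScalars (KLR k I Ω))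
      have hmem : Φ z ∈ N' := ⟨z, hz, rfl⟩
      rcases eq_bot_or_eq_top N' with h | h
      · rw [h, Submodule.mem_bot] at hmem
        exact hmem
      · exfalso
        apply hv0
        have hv : v ∈ N' := by rw [h]; trivial
        obtain ⟨y, hy, hyv⟩ := hv
        have h1 : (kops k I Ω).e ss.flatten • (1 : KLR k I Ω) • y = 0 := hy 1
        rw [one_smul] at h1
        have h2 : (kops k I Ω).e ss.flatten • v = v := hvh
        rw [← h2, ← hyv, ← map_smul, h1, map_zero]
  -- the model
  let N := Nw k Ω (Dm k Ω ss 0 ss.length) ss.flatten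
  let πu : Dm k Ω ss 0 ss.length →ₗ[KLR k I Ω] (Dm k Ω ss 0 ss.length ⧸ N) :=
    N.mkQ.restrictScalars (KLR k I Ω)
  have hπu : Function.Surjective πu := Submodule.mkQ_surjective N
  have hkereq : LinearMap.ker πu = LinearMap.ker Φ := by
    ext z
    rw [LinearMap.mem_ker, LinearMap.mem_ker, hker z]
    show N.mkQ z = 0 ↔ _
    rw [Submodule.mkQ_apply, Submodule.Quotient.mk_eq_zero]
  have e : (Dm k Ω ss 0 ss.length ⧸ N) ≃ₗ[KLR k I Ω] X :=
    (πu.quotKerEquivOfSurjective hπu).symm.trans
      ((Submodule.quotEquivOfEq _ _ hkereq).trans (Φ.quotKerEquivOfSurjective hsurj))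
  exact ⟨Dm k Ω ss 0 ss.length ⧸ N, inferInstance, inferInstance, inferInstance,
    inferInstance, finite_quot N, inferInstance, inferInstance,
    hDFU.quot N.mkQ (Submodule.mkQ_surjective N), ⟨e⟩⟩

end Pool.Agent.H159
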