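import Pool.Agent.H159.CoreE
import Pool.Agent.H159.Model

/-!
# Modules of Arthur type over the quiver Hecke algebra of type `A∞`
-/

namespace Pool.Agent.H159

open KQuiver

variable {k : Type} [Field k] {R : Type} {Ω : Finset (List (R × ℤ))}

theorem finrank_range_e {X : Type} [AddCommGroup X] [Module k X]
    [Module (KLR k (R × ℤ) Ω) X] [IsScalarTower k (KLR k (R × ℤ) Ω) X] (u : List (R × ℤ)) :
    (Module.finrank k (LinearMap.range
      (Algebra.lsmul k k X ((kops k (R × ℤ) Ω).e u))) : ℤ) = wdm (kmops k (R × ℤ) Ω X) u := by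
  unfold wdm
  have h : LinearMap.range (Algebra.lsmul k k X ((kops k (R × ℤ) Ω).e u)) =
      wsp (kmops k (R × ℤ) Ω X) u := by
    apply le_antisymm
    · rintro _ ⟨y, rfl⟩
      exact mem_wsp.mpr (Ops.hom_e (kmops k (R × ℤ) Ω X) u y)
    · intro y hy
      exact ⟨y, mem_wsp.mp hy⟩
  rw [h]

/-- modules of Arthur type have graded models -/
theorem IsArthurModule.model {ψ : Multiset (Block R)} {X : Type} [AddCommGroup X] [Module k X]
    [Module (KLR k (R × ℤ) Ω) X] [IsScalarTower k (KLR k (R × ℤ) Ω) X]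
    (h : IsArthurModule k Ω ψ X) (hΩ : PC Ω) : HasModel k Ω X := by
  obtain ⟨L, hL⟩ := exists_linQ R
  have hfin := h.finite
  rcases h.gradable_or_simple with ⟨A, hA⟩ | ⟨h1, h2⟩
  · exact graded_model hA
  · exact simple_model hΩ h2

end Pool.Agent.H159
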