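import Pool.Agent.H159.Spread

/-!
# The quiver Hecke (KLR) algebra and its graded version with idempotents for the degrees
-/

set_option linter.unusedSectionVars false

namespace Pool.Agent.H159

open KQuiver

variable {k I : Type} [CommRing k] [KQuiver I] {Ω : Finset (List I)}

theorem kmk_rel {a b : FreeAlgebra k (KGen I)} (h : KRel k I Ω a b) :
    kmk k I Ω a = kmk k I Ω b := RingQuot.mkAlgHom_rel k h

variable (k I Ω) in
/-- the generators of the quiver Hecke algebra satisfy the relations -/
noncomputable def kops : AOps k I (KLR k I Ω) where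
  e l := kmk k I Ω (ge k I l)
  x j := kmk k I Ω (gx k I j)
  t j := kmk k I Ω (gt k I j)
  e_self l := by rw [← map_mul]; exact kmk_rel (KRel.e_self l)
  e_ne l l' h := by rw [← map_mul, kmk_rel (KRel.e_ne l l' h), map_zero]
  x_e j l := by rw [← map_mul, ← map_mul]; exact kmk_rel (KRel.x_e j l)
  x_e_zero j l h := by rw [← map_mul, kmk_rel (KRel.x_e_zero j l h), map_zero]
  t_e p a b q := by rw [← map_mul, ← map_mul]; exact kmk_rel (KRel.t_e p a b q)
  t_e_zero j l h := by rw [← map_mul, kmk_rel (KRel.t_e_zero j l h), map_zero]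
  x_x i j := by rw [← map_mul, ← map_mul]; exact kmk_rel (KRel.x_x i j)
  t_x i j h h' := by rw [← map_mul, ← map_mul]; exact kmk_rel (KRel.t_x i j h h')
  t_t i j h := by rw [← map_mul, ← map_mul]; exact kmk_rel (KRel.t_t i j h)
  tx p a b q := by
    simp only [← map_mul, ← map_add, ← map_smul]
    exact kmk_rel (KRel.tx p a b q)
  xt p a b q := by
    simp only [← map_mul, ← map_add, ← map_smul]
    exact kmk_rel (KRel.xt p a b q)
  tt p a b q := by
    have := Qop_map (kmk k I Ω : _ →+* KLR k I Ω) a b (gx k I p.length) (gx k I (p.length + 1))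
    simp only [RingHom.coe_coe] at this
    rw [← this]
    simp only [← map_mul]
    exact kmk_rel (KRel.tt p a b q)
  br_ne p a b c q h := by
    simp only [← map_mul]
    exact kmk_rel (KRel.br_ne p a b c q h)
  br_eq p a b q := by
    simp only [← map_mul, ← map_add, ← map_smul]
    exact kmk_rel (KRel.br_eq p a b q)

theorem kops_sum : ∑ l ∈ Ω, (kops k I Ω).e l = 1 := by
  show ∑ l ∈ Ω, kmk k I Ω (ge k I l) = 1
  rw [← map_sum, kmk_rel KRel.e_sum, map_one]

/-- images of the generators -/
def KGen.to {A : Type} [Ring A] [Algebra k A] (O : AOps k I A) : KGen I → A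
  | .e l => O.e l
  | .x j => O.x j
  | .t j => O.t j

/-- the homomorphism from the free algebra -/
noncomputable def freeLift {A : Type} [Ring A] [Algebra k A] (O : AOps k I A) :
    FreeAlgebra k (KGen I) →ₐ[k] A := FreeAlgebra.lift k (KGen.to O)

theorem freeLift_e {A : Type} [Ring A] [Algebra k A] (O : AOps k I A) (l : List I) :
    freeLift O (ge k I l) = O.e l := by simp [freeLift, ge, KGen.to]

theorem freeLift_x {A : Type} [Ring A] [Algebra k A] (O : AOps k I A) (j : ℕ) :
    freeLift O (gx k I j) = O.x j := by simp [freeLift, gx, KGen.to]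

theorem freeLift_t {A : Type} [Ring A] [Algebra k A] (O : AOps k I A) (j : ℕ) :
    freeLift O (gt k I j) = O.t j := by simp [freeLift, gt, KGen.to]

theorem freeLift_rel {A : Type} [Ring A] [Algebra k A] (O : AOps k I A)
    (hO : ∑ l ∈ Ω, O.e l = 1) {a b : FreeAlgebra k (KGen I)} (h : KRel k I Ω a b) :
    freeLift O a = freeLift O b := by
  induction h with
  | e_self l => simp only [map_mul, freeLift_e, O.e_self]
  | e_ne l l' h => simp only [map_mul, freeLift_e, O.e_ne l l' h, map_zero]
  | e_sum => simp only [map_sum, freeLift_e, hO, map_one]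
  | x_e j l => simp only [map_mul, freeLift_e, freeLift_x, O.x_e]
  | x_e_zero j l h => simp only [map_mul, freeLift_e, freeLift_x, O.x_e_zero j l h, map_zero]
  | t_e p a b q => simp only [map_mul, freeLift_e, freeLift_t, O.t_e]
  | t_e_zero j l h => simp only [map_mul, freeLift_e, freeLift_t, O.t_e_zero j l h, map_zero]
  | x_x i j => simp only [map_mul, freeLift_x, O.x_x i j]
  | t_x i j h h' => simp only [map_mul, freeLift_x, freeLift_t, O.t_x i j h h']
  | t_t i j h => simp only [map_mul, freeLift_t, O.t_t i j h]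
  | tx p a b q =>
    simp only [map_mul, map_add, map_smul, freeLift_e, freeLift_x, freeLift_t, O.tx]
  | xt p a b q =>
    simp only [map_mul, map_add, map_smul, freeLift_e, freeLift_x, freeLift_t, O.xt]
  | tt p a b q =>
    have := Qop_map (freeLift O : _ →+* A) a b (gx k I p.length) (gx k I (p.length + 1))
    simp only [RingHom.coe_coe] at this
    simp only [map_mul, this, freeLift_e, freeLift_x, freeLift_t, O.tt]
  | br_ne p a b c q h =>
    simp only [map_mul, freeLift_e, freeLift_t, O.br_ne p a b c q h]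
  | br_eq p a b q =>
    simp only [map_mul, map_add, map_smul, freeLift_e, freeLift_t, O.br_eq p a b q]

variable (Ω) in
/-- the universal property of the quiver Hecke algebra -/
noncomputable def klift {A : Type} [Ring A] [Algebra k A] (O : AOps k I A)
    (hO : ∑ l ∈ Ω, O.e l = 1) : KLR k I Ω →ₐ[k] A :=
  RingQuot.liftAlgHom k ⟨freeLift O, fun _ _ h => freeLift_rel O hO h⟩

theorem klift_kmk {A : Type} [Ring A] [Algebra k A] (O : AOps k I A)
    (hO : ∑ l ∈ Ω, O.e l = 1) (a : FreeAlgebra k (KGen I)) :
    klift Ω O hO (kmk k I Ω a) = freeLift O a := by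
  unfold klift kmk
  exact RingQuot.liftAlgHom_mkAlgHom_apply k _ _ a

theorem klift_e {A : Type} [Ring A] [Algebra k A] (O : AOps k I A)
    (hO : ∑ l ∈ Ω, O.e l = 1) (l : List I) : klift Ω O hO ((kops k I Ω).e l) = O.e l :=
  (klift_kmk O hO _).trans (freeLift_e O l)

theorem klift_x {A : Type} [Ring A] [Algebra k A] (O : AOps k I A)
    (hO : ∑ l ∈ Ω, O.e l = 1) (j : ℕ) : klift Ω O hO ((kops k I Ω).x j) = O.x j :=
  (klift_kmk O hO _).trans (freeLift_x O j)

theorem klift_t {A : Type} [Ring A] [Algebra k A] (O : AOps k I A)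
    (hO : ∑ l ∈ Ω, O.e l = 1) (j : ℕ) : klift Ω O hO ((kops k I Ω).t j) = O.t j :=
  (klift_kmk O hO _).trans (freeLift_t O j)

variable (k I Ω) in
/-- the free algebra on the generators and the degree idempotents -/
abbrev GFree : Type := FreeAlgebra k (KGen I ⊕ ℤ)

variable (k I) in
/-- inclusion of free algebras -/
noncomputable def gincl : FreeAlgebra k (KGen I) →ₐ[k] GFree k I :=
  FreeAlgebra.lift k (fun g => FreeAlgebra.ι k (Sum.inl g))

variable (k I) in
/-- the free generator `f_d` -/
noncomputable def gf (d : ℤ) : GFree k I := FreeAlgebra.ι k (Sum.inr d)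

variable (k I) in
/-- relations of the graded version -/
inductive GRel (Ω : Finset (List I)) : GFree k I → GFree k I → Prop
  | base (a b : FreeAlgebra k (KGen I)) (h : KRel k I Ω a b) :
      GRel Ω (gincl k I a) (gincl k I b)
  | f_self (d : ℤ) : GRel Ω (gf k I d * gf k I d) (gf k I d)
  | f_ne (d d' : ℤ) (h : d ≠ d') : GRel Ω (gf k I d * gf k I d') 0
  | f_e (d : ℤ) (l : List I) :
      GRel Ω (gf k I d * gincl k I (ge k I l)) (gincl k I (ge k I l) * gf k I d)
  | x_f (j : ℕ) (d : ℤ) :
      GRel Ω (gincl k I (gx k I j) * gf k I d) (gf k I (d + 2) * gincl k I (gx k I j))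
  | t_f (p : List I) (a b : I) (q : List I) (d : ℤ) :
      GRel Ω (gincl k I (gt k I p.length * ge k I (p ++ a :: b :: q)) * gf k I d)
        (gf k I (d + tdeg a b) * gincl k I (gt k I p.length * ge k I (p ++ a :: b :: q)))

variable (k I) in
/-- The graded version: modules over it which are sums of their degree parts are graded modules
over the quiver Hecke algebra. -/
abbrev GKLR (Ω : Finset (List I)) : Type := RingQuot (GRel k I Ω)

variable (k I Ω) in
/-- the quotient map -/
noncomputable def gmk : GFree k I →ₐ[k] GKLR k I Ω :=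
  RingQuot.mkAlgHom k (GRel k I Ω)

theorem gmk_rel {a b : GFree k I} (h : GRel k I Ω a b) :
    gmk k I Ω a = gmk k I Ω b := RingQuot.mkAlgHom_rel k h

variable (k I Ω) in
/-- the map to the graded version -/
noncomputable def toG : KLR k I Ω →ₐ[k] GKLR k I Ω :=
  RingQuot.liftAlgHom k ⟨(gmk k I Ω).comp (gincl k I), fun a b h => gmk_rel (GRel.base a b h)⟩

theorem toG_kmk (a : FreeAlgebra k (KGen I)) :
    toG k I Ω (kmk k I Ω a) = gmk k I Ω (gincl k I a) := by
  unfold toG kmk
  exact RingQuot.liftAlgHom_mkAlgHom_apply k _ _ a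

/-- Degree idempotents compatible with quiver Hecke operators. -/
structure GStr (A : Type) [Ring A] [Algebra k A] (O : AOps k I A) where
  /-- the degree idempotents -/
  f : ℤ → A
  f_self : ∀ d, f d * f d = f d
  f_ne : ∀ d d', d ≠ d' → f d * f d' = 0
  f_e : ∀ d l, f d * O.e l = O.e l * f d
  x_f : ∀ j d, O.x j * f d = f (d + 2) * O.x j
  t_f : ∀ p a b q d, O.t p.length * O.e (p ++ a :: b :: q) * f d =
    f (d + tdeg a b) * (O.t p.length * O.e (p ++ a :: b :: q))

variable (k I Ω) in
/-- the operators in the graded version -/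
noncomputable def gops : AOps k I (GKLR k I Ω) := (kops k I Ω).map (toG k I Ω)

theorem gops_sum : ∑ l ∈ Ω, (gops k I Ω).e l = 1 := by
  show ∑ l ∈ Ω, toG k I Ω ((kops k I Ω).e l) = 1
  rw [← map_sum, kops_sum, map_one]

variable (k I Ω) in
/-- the degree idempotents in the graded version -/
noncomputable def gstr : GStr (GKLR k I Ω) (gops k I Ω) where
  f d := gmk k I Ω (gf k I d)
  f_self d := by rw [← map_mul]; exact gmk_rel (GRel.f_self d)
  f_ne d d' h := by rw [← map_mul, gmk_rel (GRel.f_ne d d' h), map_zero]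
  f_e d l := by
    show _ * toG k I Ω (kmk k I Ω _) = toG k I Ω (kmk k I Ω _) * _
    rw [toG_kmk, ← map_mul, ← map_mul]
    exact gmk_rel (GRel.f_e d l)
  x_f j d := by
    show toG k I Ω (kmk k I Ω _) * _ = _ * toG k I Ω (kmk k I Ω _)
    rw [toG_kmk, ← map_mul, ← map_mul]
    exact gmk_rel (GRel.x_f j d)
  t_f p a b q d := by
    show toG k I Ω (kmk k I Ω _) * toG k I Ω (kmk k I Ω _) * _ =
      _ * (toG k I Ω (kmk k I Ω _) * toG k I Ω (kmk k I Ω _))
    rw [← map_mul, ← map_mul, toG_kmk, ← map_mul, ← map_mul]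
    exact gmk_rel (GRel.t_f p a b q d)

/-- images of the generators -/
def GGen.to {A : Type} [Ring A] [Algebra k A] {O : AOps k I A} (G : GStr A O) : KGen I ⊕ ℤ → A
  | .inl g => KGen.to O g
  | .inr d => G.f d

/-- the homomorphism from the free algebra -/
noncomputable def gfreeLift {A : Type} [Ring A] [Algebra k A] {O : AOps k I A} (G : GStr A O) :
    GFree k I →ₐ[k] A := FreeAlgebra.lift k (GGen.to G)

theorem gfreeLift_gincl {A : Type} [Ring A] [Algebra k A] {O : AOps k I A} (G : GStr A O)
    (a : FreeAlgebra k (KGen I)) : gfreeLift G (gincl k I a) = freeLift O a := by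
  have : (gfreeLift G).comp (gincl k I) = freeLift O := by
    apply FreeAlgebra.hom_ext
    funext g
    simp [gfreeLift, gincl, freeLift, GGen.to]
  rw [← this]; rfl

theorem gfreeLift_f {A : Type} [Ring A] [Algebra k A] {O : AOps k I A} (G : GStr A O)
    (d : ℤ) : gfreeLift G (gf k I d) = G.f d := by
  simp [gfreeLift, gf, GGen.to]

variable (Ω) in
/-- the universal property of the graded version -/
noncomputable def glift {A : Type} [Ring A] [Algebra k A] {O : AOps k I A} (G : GStr A O)
    (hO : ∑ l ∈ Ω, O.e l = 1) : GKLR k I Ω →ₐ[k] A :=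
  RingQuot.liftAlgHom k ⟨gfreeLift G, by
    intro a b h
    induction h with
    | base a b h => rw [gfreeLift_gincl, gfreeLift_gincl, freeLift_rel O hO h]
    | f_self d => simp only [map_mul, gfreeLift_f, G.f_self]
    | f_ne d d' h => simp only [map_mul, gfreeLift_f, G.f_ne d d' h, map_zero]
    | f_e d l => simp only [map_mul, gfreeLift_f, gfreeLift_gincl, freeLift_e, G.f_e]
    | x_f j d => simp only [map_mul, gfreeLift_f, gfreeLift_gincl, freeLift_x, G.x_f]
    | t_f p a b q d =>
      simp only [map_mul, gfreeLift_f, gfreeLift_gincl, freeLift_t, freeLift_e, G.t_f]⟩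

theorem glift_gmk {A : Type} [Ring A] [Algebra k A] {O : AOps k I A} (G : GStr A O)
    (hO : ∑ l ∈ Ω, O.e l = 1) (a : GFree k I) :
    glift Ω G hO (gmk k I Ω a) = gfreeLift G a := by
  unfold glift gmk
  exact RingQuot.liftAlgHom_mkAlgHom_apply k _ _ a

theorem glift_toG {A : Type} [Ring A] [Algebra k A] {O : AOps k I A} (G : GStr A O)
    (hO : ∑ l ∈ Ω, O.e l = 1) (a : KLR k I Ω) :
    glift Ω G hO (toG k I Ω a) = klift Ω O hO a := by
  obtain ⟨a, rfl⟩ := RingQuot.mkAlgHom_surjective k (KRel k I Ω) a
  have h1 := toG_kmk (Ω := Ω) a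
  unfold kmk at h1
  rw [h1, glift_gmk, gfreeLift_gincl]
  exact (klift_kmk O hO a).symm

theorem glift_e {A : Type} [Ring A] [Algebra k A] {O : AOps k I A} (G : GStr A O)
    (hO : ∑ l ∈ Ω, O.e l = 1) (l : List I) : glift Ω G hO ((gops k I Ω).e l) = O.e l :=
  (glift_toG G hO _).trans (klift_e O hO l)

theorem glift_x {A : Type} [Ring A] [Algebra k A] {O : AOps k I A} (G : GStr A O)
    (hO : ∑ l ∈ Ω, O.e l = 1) (j : ℕ) : glift Ω G hO ((gops k I Ω).x j) = O.x j :=
  (glift_toG G hO _).trans (klift_x O hO j)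

theorem glift_t {A : Type} [Ring A] [Algebra k A] {O : AOps k I A} (G : GStr A O)
    (hO : ∑ l ∈ Ω, O.e l = 1) (j : ℕ) : glift Ω G hO ((gops k I Ω).t j) = O.t j :=
  (glift_toG G hO _).trans (klift_t O hO j)

theorem glift_f {A : Type} [Ring A] [Algebra k A] {O : AOps k I A} (G : GStr A O)
    (hO : ∑ l ∈ Ω, O.e l = 1) (d : ℤ) : glift Ω G hO ((gstr k I Ω).f d) = G.f d :=
  (glift_gmk G hO _).trans (gfreeLift_f G d)

/-- The graded version is generated by its generators. -/
theorem gklr_induction {P : GKLR k I Ω → Prop} (he : ∀ l, P ((gops k I Ω).e l))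
    (hx : ∀ j, P ((gops k I Ω).x j)) (ht : ∀ j, P ((gops k I Ω).t j))
    (hf : ∀ d, P ((gstr k I Ω).f d)) (hc : ∀ c : k, P (algebraMap k _ c))
    (hadd : ∀ a b, P a → P b → P (a + b)) (hmul : ∀ a b, P a → P b → P (a * b))
    (a : GKLR k I Ω) : P a := by
  obtain ⟨a, rfl⟩ := RingQuot.mkAlgHom_surjective k (GRel k I Ω) a
  change P (gmk k I Ω a)
  induction a using FreeAlgebra.induction with
  | grade0 c => rw [AlgHom.commutes]; exact hc c
  | grade1 g =>
    rcases g with g | d
    · have h1 : FreeAlgebra.ι k (Sum.inl g) = gincl k I (FreeAlgebra.ι k g) := by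
        simp [gincl]
      rw [h1]
      rcases g with l | j | j
      · have := he l
        change P (toG k I Ω (kmk k I Ω (ge k I l))) at this
        rw [toG_kmk] at this
        exact this
      · have := hx j
        change P (toG k I Ω (kmk k I Ω (gx k I j))) at this
        rw [toG_kmk] at this
        exact this
      · have := ht j
        change P (toG k I Ω (kmk k I Ω (gt k I j))) at this
        rw [toG_kmk] at this
        exact this
    · exact hf d
  | mul a b ha hb => rw [map_mul]; exact hmul _ _ ha hb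
  | add a b ha hb => rw [map_add]; exact hadd _ _ ha hb

/-- The quiver Hecke algebra is generated by its generators. -/
theorem klr_induction {P : KLR k I Ω → Prop} (he : ∀ l, P ((kops k I Ω).e l))
    (hx : ∀ j, P ((kops k I Ω).x j)) (ht : ∀ j, P ((kops k I Ω).t j))
    (hc : ∀ c : k, P (algebraMap k _ c))
    (hadd : ∀ a b, P a → P b → P (a + b)) (hmul : ∀ a b, P a → P b → P (a * b))
    (a : KLR k I Ω) : P a := by
  obtain ⟨a, rfl⟩ := RingQuot.mkAlgHom_surjective k (KRel k I Ω) a
  change P (kmk k I Ω a)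
  induction a using FreeAlgebra.induction with
  | grade0 c => rw [AlgHom.commutes]; exact hc c
  | grade1 g =>
    rcases g with l | j | j
    · exact he l
    · exact hx j
    · exact ht j
  | mul a b ha hb => rw [map_mul]; exact hmul _ _ ha hb
  | add a b ha hb => rw [map_add]; exact hadd _ _ ha hb

end Pool.Agent.H159
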