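import Pool.Agent.H159.KDefs

/-!
# Ext groups between modules of Arthur type over quiver Hecke algebras
-/

set_option linter.unusedSectionVars false

namespace Pool.Agent.H159

open KQuiver CategoryTheory CategoryTheory.Abelian

section congr

variable {R : Type} [Ring R] {X X' Y Y' : Type} [AddCommGroup X] [Module R X] [AddCommGroup X']
  [Module R X'] [AddCommGroup Y] [Module R Y] [AddCommGroup Y'] [Module R Y']

theorem ve_congr_left (e : X ≃ₗ[R] X') {n : ℕ} (h : VE R X Y n) : VE R X' Y n := by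
  unfold VE at h ⊢
  refine subsingleton_of_forall_eq 0 (fun x => ?_)
  have h1 : (Ext.mk₀ (ModuleCat.ofHom e.toLinearMap)).comp x (zero_add n) = 0 :=
    Subsingleton.elim (α := Ext (ModuleCat.of R X) (ModuleCat.of R Y) n) _ _
  have h2 : (Ext.mk₀ (ModuleCat.ofHom e.symm.toLinearMap)).comp
      ((Ext.mk₀ (ModuleCat.ofHom e.toLinearMap)).comp x (zero_add n)) (zero_add n) = x := by
    rw [← Ext.comp_assoc_of_second_deg_zero, Ext.mk₀_comp_mk₀]
    have h3 : ModuleCat.ofHom e.symm.toLinearMap ≫ ModuleCat.ofHom e.toLinearMap =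
        𝟙 (ModuleCat.of R X') := by
      apply ModuleCat.hom_ext
      apply LinearMap.ext
      intro y
      exact e.apply_symm_apply y
    rw [h3, Ext.mk₀_id_comp]
  rw [← h2, h1, Ext.comp_zero]

theorem ve_congr_right (e : Y ≃ₗ[R] Y') {n : ℕ} (h : VE R X Y n) : VE R X Y' n := by
  unfold VE at h ⊢
  refine subsingleton_of_forall_eq 0 (fun x => ?_)
  have h1 : x.comp (Ext.mk₀ (ModuleCat.ofHom e.symm.toLinearMap)) (add_zero n) = 0 :=
    Subsingleton.elim (α := Ext (ModuleCat.of R X) (ModuleCat.of R Y) n) _ _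
  have h2 : (x.comp (Ext.mk₀ (ModuleCat.ofHom e.symm.toLinearMap)) (add_zero n)).comp
      (Ext.mk₀ (ModuleCat.ofHom e.toLinearMap)) (add_zero n) = x := by
    rw [Ext.comp_assoc_of_third_deg_zero, Ext.mk₀_comp_mk₀]
    have h3 : ModuleCat.ofHom e.symm.toLinearMap ≫ ModuleCat.ofHom e.toLinearMap =
        𝟙 (ModuleCat.of R Y') := by
      apply ModuleCat.hom_ext
      apply LinearMap.ext
      intro y
      exact e.apply_symm_apply y
    rw [h3, Ext.comp_mk₀_id]
  rw [← h2, h1, Ext.zero_comp]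

end congr

variable {k R : Type} [Field k] {Ω : Finset (List (R × ℤ))}

theorem arthur_word {ψ : Multiset (Block R)} {u : List (R × ℤ)}
    (h : wordMult (arthurClass ψ) u ≠ 0) : (u : Multiset (R × ℤ)) = arthurSupp ψ := by
  classical
  exact wordMult_arthur h

theorem arthur_e_zero {ψ : Multiset (Block R)} {X : Type} [AddCommGroup X] [Module k X]
    [Module (KLR k (R × ℤ) Ω) X] [IsScalarTower k (KLR k (R × ℤ) Ω) X]
    (h : IsArthurModule k Ω ψ X) {u : List (R × ℤ)} (hu : (u : Multiset (R × ℤ)) ≠ arthurSupp ψ)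
    (y : X) : (kops k (R × ℤ) Ω).e u • y = 0 := by
  have hfin := h.finite
  have h1 := h.dim_eq u
  have h2 : wordMult (arthurClass ψ) u = 0 := by
    by_contra h3
    exact hu (arthur_word h3)
  rw [h2, Nat.cast_eq_zero, Submodule.finrank_eq_zero, wordSpace, LinearMap.range_eq_bot] at h1
  exact congrArg (fun f : X →ₗ[k] X => f y) h1

/-- The main theorem: Ext groups between modules of Arthur type. -/
theorem arthur_ext (hΩ : ∀ l ∈ Ω, ∀ l', l.Perm l' → l' ∈ Ω)
    (ψ₁ ψ₂ : Multiset (Block R)) (X₁ X₂ : Type)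
    [AddCommGroup X₁] [Module k X₁] [Module (KLR k (R × ℤ) Ω) X₁]
    [IsScalarTower k (KLR k (R × ℤ) Ω) X₁]
    [AddCommGroup X₂] [Module k X₂] [Module (KLR k (R × ℤ) Ω) X₂]
    [IsScalarTower k (KLR k (R × ℤ) Ω) X₂]
    (h₁ : IsArthurModule k Ω ψ₁ X₁) (h₂ : IsArthurModule k Ω ψ₂ X₂) :
    (∃ i, Nontrivial (Ext (ModuleCat.of (KLR k (R × ℤ) Ω) X₁)
      (ModuleCat.of (KLR k (R × ℤ) Ω) X₂) i)) ↔ diagRestrict ψ₁ = diagRestrict ψ₂ := by
  classical
  constructor
  · rintro ⟨i, hi⟩
    by_contra hd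
    have hs : arthurSupp ψ₁ ≠ arthurSupp ψ₂ := fun h => hd (diagRestrict_eq_of_arthurSupp_eq h)
    have hP : ∀ l l' : List (R × ℤ), l.Perm l' →
        (l : Multiset (R × ℤ)) = arthurSupp ψ₁ → (l' : Multiset (R × ℤ)) = arthurSupp ψ₁ := by
      intro l l' hl h
      rw [← h]
      exact (Multiset.coe_eq_coe.mpr hl).symm
    have hV := ve_block (c := cid k Ω (fun l => (l : Multiset (R × ℤ)) = arthurSupp ψ₁))
      (cid_comm hP) cid_self (Y := X₂) (by
        intro y
        apply cid_smul_zero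
        intro l _ hl
        apply arthur_e_zero h₂
        rw [hl]
        exact hs) i X₁ (by
        intro y
        apply cid_smul_self
        intro l _ hl
        exact arthur_e_zero h₁ hl y)
    unfold VE at hV
    exact not_subsingleton _ hV
  · intro hd
    by_contra hne
    push Not at hne
    obtain ⟨L, hL⟩ := exists_linQ R
    have hfin₁ := h₁.finite
    have hfin₂ := h₂.finite
    obtain ⟨X, _, _, _, _, _, _, _, hX, ⟨eX⟩⟩ := h₁.model hΩ
    obtain ⟨Y, _, _, _, _, _, _, _, hY, ⟨eY⟩⟩ := h₂.model hΩ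
    refine core_ext hΩ (ψ₁ := ψ₁) (ψ₂ := ψ₂) hX hY ?_ ?_ hd ?_
    · intro u
      rw [wdm_model eX, ← finrank_range_e]
      exact h₁.dim_eq u
    · intro u
      rw [wdm_model eY, ← finrank_range_e]
      exact h₂.dim_eq u
    · intro n
      have h3 : VE (KLR k (R × ℤ) Ω) X₁ X₂ n := not_nontrivial_iff_subsingleton.mp (by
        have := hne n
        rwa [not_nontrivial_iff_subsingleton])
      exact ve_congr_left eX.symm (ve_congr_right eY.symm h3)

end Pool.Agent.H159
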