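import Pool.Agent.H159.Lowest

/-!
# The leading term at `T = 1` of the graded Euler-Poincare form
-/

open Finset MvPolynomial

namespace Pool.Agent.H159

variable {R : Type}

theorem atOne_T (n : ℤ) : atOne (LaurentPolynomial.T n) = 1 := by
  unfold atOne
  rw [LaurentPolynomial.eval₂_T]
  simp

/-- the quotient of `1 - T ^ (2 k)` by `1 - T` -/
noncomputable def uQ (k : ℕ) : LaurentPolynomial ℤ :=
  ∑ i ∈ Finset.range (2 * (k + 1)), (LaurentPolynomial.T 1) ^ i

theorem uQ_mul (k : ℕ) :
    (1 : LaurentPolynomial ℤ) - LaurentPolynomial.T (2 * ((k : ℤ) + 1)) =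
      (1 - LaurentPolynomial.T 1) * uQ k := by
  unfold uQ
  rw [mul_neg_geom_sum, LaurentPolynomial.T_pow]
  congr 2
  push_cast; ring

theorem atOne_uQ (k : ℕ) : atOne (uQ k) = 2 * ((k : ℤ) + 1) := by
  unfold uQ
  rw [map_sum]
  simp only [map_pow, atOne_T, one_pow]
  rw [Finset.sum_const, Finset.card_range]
  simp

/-- the regular part of the weight of a standard module -/
noncomputable def vQ (m : Seg R →₀ ℕ) : LaurentPolynomial ℤ :=
  m.prod fun _ n => ∏ k ∈ Finset.range n, uQ k

theorem stdWeight_eq (m : Seg R →₀ ℕ) :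
    stdWeight m = (1 - LaurentPolynomial.T 1) ^ m.degree * vQ m := by
  unfold stdWeight vQ Finsupp.prod
  rw [Finsupp.degree_apply, ← Finset.prod_pow_eq_pow_sum, ← Finset.prod_mul_distrib]
  refine Finset.prod_congr rfl fun Δ _ => ?_
  rw [← Finset.card_range (m Δ), ← Finset.prod_const, Finset.card_range,
    ← Finset.prod_mul_distrib]
  exact Finset.prod_congr rfl fun k _ => uQ_mul k

theorem atOne_vQ (m : Seg R →₀ ℕ) :
    atOne (vQ m) = 2 ^ m.degree * ((m.prod fun _ n => n.factorial : ℕ) : ℤ) := by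
  unfold vQ Finsupp.prod
  rw [map_prod, Finsupp.degree_apply, ← Finset.prod_pow_eq_pow_sum, Nat.cast_prod,
    ← Finset.prod_mul_distrib]
  refine Finset.prod_congr rfl fun Δ _ => ?_
  rw [map_prod]
  simp only [atOne_uQ]
  rw [Finset.prod_mul_distrib, Finset.prod_const, Finset.card_range, ← Finset.prod_range_add_one_eq_factorial]
  push_cast
  rfl

/-- the quotient of the form by a power of `1 - T` -/
noncomputable def gQ (r : ℕ) (P Q : MvPolynomial (Seg R) (LaurentPolynomial ℤ)) :
    LaurentPolynomial ℤ :=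
  ∑ m ∈ P.support, P.coeff m * Q.coeff m *
    ((1 - LaurentPolynomial.T 1) ^ (m.degree - r) * vQ m)

theorem gradedEP_eq {r : ℕ} {P : MvPolynomial (Seg R) (LaurentPolynomial ℤ)}
    (hP : ∀ m ∈ P.support, r ≤ m.degree) (Q : MvPolynomial (Seg R) (LaurentPolynomial ℤ)) :
    gradedEP P Q = (1 - LaurentPolynomial.T 1) ^ r * gQ r P Q := by
  unfold gradedEP gQ
  rw [Finset.mul_sum]
  refine Finset.sum_congr rfl fun m hm => ?_
  rw [stdWeight_eq]
  have h := hP m hm
  have e : (1 - LaurentPolynomial.T 1 : LaurentPolynomial ℤ) ^ m.degree =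
      (1 - LaurentPolynomial.T 1) ^ r * (1 - LaurentPolynomial.T 1) ^ (m.degree - r) := by
    rw [← pow_add]; congr 1; omega
  rw [e]; ring

theorem atOne_gQ {r : ℕ} {P : MvPolynomial (Seg R) (LaurentPolynomial ℤ)}
    (hP : ∀ m ∈ P.support, r ≤ m.degree) (Q : MvPolynomial (Seg R) (LaurentPolynomial ℤ)) :
    atOne (gQ r P Q) = 2 ^ r * fis (homogeneousComponent r (map atOne P))
      (homogeneousComponent r (map atOne Q)) := by
  classical
  have hsub : (homogeneousComponent r (map atOne P)).support ⊆ P.support := by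
    intro m hm
    rw [mem_support_iff, coeff_homogeneousComponent] at hm
    split_ifs at hm with h
    · rw [coeff_map] at hm
      rw [mem_support_iff]
      intro h0
      rw [h0, map_zero] at hm
      exact hm rfl
    · exact absurd rfl hm
  rw [fis_eq_sum _ _ _ hsub]
  unfold gQ
  rw [map_sum, Finset.mul_sum]
  refine Finset.sum_congr rfl fun m hm => ?_
  rw [map_mul, map_mul, map_mul, map_pow, map_sub, map_one, atOne_T, sub_self, atOne_vQ,
    coeff_homogeneousComponent, coeff_homogeneousComponent, coeff_map, coeff_map]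
  by_cases h : m.degree = r
  · rw [if_pos h, if_pos h, h, Nat.sub_self, pow_zero]; ring
  · rw [if_neg h, if_neg h]
    have h1 : m.degree - r ≠ 0 := by
      have := hP m hm
      omega
    rw [zero_pow h1]; ring

theorem one_sub_T_ne_zero : (1 - LaurentPolynomial.T 1 : LaurentPolynomial ℤ) ≠ 0 := by
  intro h
  have h2 := congrArg (LaurentPolynomial.eval₂ (Int.castRingHom ℚ)
    (Units.mk0 (2 : ℚ) two_ne_zero)) h
  rw [map_sub, map_one, LaurentPolynomial.eval₂_T, map_zero] at h2
  norm_num at h2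

theorem gradedEP_ne_zero_of_fis {r : ℕ} {P Q : MvPolynomial (Seg R) (LaurentPolynomial ℤ)}
    (hP : ∀ m ∈ P.support, r ≤ m.degree)
    (h : fis (homogeneousComponent r (map atOne P)) (homogeneousComponent r (map atOne Q)) ≠ 0) :
    gradedEP P Q ≠ 0 := by
  rw [gradedEP_eq hP]
  have h1 : gQ r P Q ≠ 0 := by
    intro h0
    have h2 := atOne_gQ hP Q
    rw [h0, map_zero] at h2
    have h3 : (2 : ℤ) ^ r ≠ 0 := by positivity
    exact (mul_ne_zero h3 h) h2.symm
  exact mul_ne_zero (pow_ne_zero _ one_sub_T_ne_zero) h1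

end Pool.Agent.H159
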