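import Pool.Agent.H159.Chi

/-!
# The lowest part of a class is determined by its word multiplicities
-/

set_option linter.unusedSectionVars false
set_option linter.unusedSimpArgs false

open MvPolynomial

namespace Pool.Agent.H159

open KQuiver

section ideal

variable {S : Type}

theorem der_pow (D : Derivation ℤ (MvPolynomial S ℤ) (MvPolynomial S ℤ)) (n : ℕ) :
    ∀ f ∈ idealOfVars S ℤ ^ (n + 1), D f ∈ idealOfVars S ℤ ^ n := by
  induction n with
  | zero => intro f _; rw [pow_zero, Ideal.one_eq_top]; trivial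
  | succ n ih =>
    intro f hf
    rw [pow_succ'] at hf
    refine Submodule.mul_induction_on hf ?_ ?_
    · intro a ha b hb
      rw [Derivation.leibniz, smul_eq_mul, smul_eq_mul]
      apply Ideal.add_mem
      · rw [pow_succ']
        exact Ideal.mul_mem_mul ha (ih b hb)
      · exact Ideal.mul_mem_right _ _ hb
    · intro a b ha hb
      rw [map_add]
      exact Ideal.add_mem _ ha hb

theorem der_pow' (D : Derivation ℤ (MvPolynomial S ℤ) (MvPolynomial S ℤ))
    (hD : ∀ i, D (X i) ∈ idealOfVars S ℤ) (n : ℕ) :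
    ∀ f ∈ idealOfVars S ℤ ^ n, D f ∈ idealOfVars S ℤ ^ n := by
  have h0 : ∀ f, D f ∈ idealOfVars S ℤ := by
    intro f
    induction f using MvPolynomial.induction_on with
    | C c =>
      have : D (C c) = 0 := by
        have := D.map_algebraMap c
        exact this
      rw [this]
      exact Ideal.zero_mem _
    | add p q hp hq => rw [map_add]; exact Ideal.add_mem _ hp hq
    | mul_X p i hp =>
      rw [Derivation.leibniz, smul_eq_mul, smul_eq_mul]
      exact Ideal.add_mem _ (Ideal.mul_mem_left _ _ (hD i)) (Ideal.mul_mem_left _ _ hp)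
  induction n with
  | zero => intro f _; rw [pow_zero, Ideal.one_eq_top]; trivial
  | succ n ih =>
    intro f hf
    rw [pow_succ'] at hf
    refine Submodule.mul_induction_on hf ?_ ?_
    · intro a ha b hb
      rw [Derivation.leibniz, smul_eq_mul, smul_eq_mul]
      apply Ideal.add_mem
      · rw [pow_succ']
        exact Ideal.mul_mem_mul ha (ih b hb)
      · rw [pow_succ]
        exact Ideal.mul_mem_mul hb (h0 a)
    · intro a b ha hb
      rw [map_add]
      exact Ideal.add_mem _ ha hb

/-- the product of the factorials of the exponents -/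
def fc (m : S →₀ ℕ) : ℕ := m.prod fun _ n => n.factorial

theorem fc_add_single [DecidableEq S] (m : S →₀ ℕ) (i : S) :
    fc (m + Finsupp.single i 1) = (m i + 1) * fc m := by
  unfold fc
  have h1 : ∀ m : S →₀ ℕ, m.prod (fun _ n => n.factorial) =
      (m i).factorial * (m.erase i).prod (fun _ n => n.factorial) := by
    intro m
    exact (Finsupp.mul_prod_erase' m i _ (fun _ => rfl)).symm
  rw [h1 (m + Finsupp.single i 1), h1 m]
  have h2 : (m + Finsupp.single i 1).erase i = m.erase i := by
    ext j
    by_cases h : j = i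
    · subst h; simp
    · rw [Finsupp.erase_ne h, Finsupp.erase_ne h, Finsupp.add_apply,
        Finsupp.single_eq_of_ne h, add_zero]
  rw [h2]
  simp only [Finsupp.add_apply, Finsupp.single_eq_same, Nat.factorial_succ]
  ring

/-- iterated partial derivatives -/
noncomputable def pd : List S → (MvPolynomial S ℤ → MvPolynomial S ℤ)
  | [] => id
  | i :: L => fun f => pd L (pderiv i f)

/-- the monomial of a list -/
noncomputable def mo (L : List S) : S →₀ ℕ := (L.map fun i => Finsupp.single i 1).sum

theorem mo_cons (i : S) (L : List S) : mo (i :: L) = Finsupp.single i 1 + mo L := by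
  simp [mo]

theorem mo_degree (L : List S) : (mo L).degree = L.length := by
  induction L with
  | nil => simp [mo]
  | cons i L ih => rw [mo_cons, map_add, ih]; simp [add_comm]

theorem exists_mo (m : S →₀ ℕ) : ∃ L, mo L = m := by
  classical
  induction m using Finsupp.induction_linear with
  | zero => exact ⟨[], rfl⟩
  | add f g hf hg =>
    obtain ⟨L, rfl⟩ := hf
    obtain ⟨M, rfl⟩ := hg
    exact ⟨L ++ M, by simp [mo]⟩
  | single i n =>
    refine ⟨List.replicate n i, ?_⟩
    unfold mo
    rw [List.map_replicate, List.sum_replicate]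
    simp

theorem coeff_pd [DecidableEq S] (L : List S) : ∀ (f : MvPolynomial S ℤ) (m : S →₀ ℕ),
    (fc m : ℤ) * coeff m (pd L f) = fc (m + mo L) * coeff (m + mo L) f := by
  induction L with
  | nil => intro f m; simp [mo, pd]
  | cons i L ih =>
    intro f m
    show (fc m : ℤ) * coeff m (pd L (pderiv i f)) = _
    have e : m + mo (i :: L) = (m + mo L) + Finsupp.single i 1 := by
      rw [mo_cons]; abel
    rw [ih, coeff_pderiv, e, fc_add_single]
    push_cast
    ring

theorem coeff_zero_pd [DecidableEq S] (L : List S) (f : MvPolynomial S ℤ) :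
    constantCoeff (pd L f) = fc (mo L) * coeff (mo L) f := by
  have h := coeff_pd L f 0
  rw [zero_add] at h
  rw [constantCoeff_eq, ← h]
  simp [fc]

theorem coeff_zero_of_mem {f : MvPolynomial S ℤ} (h : f ∈ idealOfVars S ℤ) :
    constantCoeff f = 0 := by
  have h1 : f ∈ idealOfVars S ℤ ^ 1 := by rwa [pow_one]
  rw [mem_pow_idealOfVars_iff'] at h1
  rw [constantCoeff_eq]
  exact h1 0 (by simp)

end ideal

variable {R : Type}

/-- the segment of a chain (a default value for the empty chain is not used) -/
def sgm : List (List (R × ℤ)) → List (Seg R)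
  | [] => []
  | [] :: ss => sgm ss
  | (c :: r) :: ss => (c.1, c.2, r.length) :: sgm ss

theorem sgm_length {ss : List (List (R × ℤ))} (h : ∀ s ∈ ss, s ≠ []) :
    (sgm ss).length = ss.length := by
  induction ss with
  | nil => rfl
  | cons s ss ih =>
    rcases s with _ | ⟨c, r⟩
    · exact absurd rfl (h [] (by simp))
    · rw [sgm, List.length_cons, List.length_cons, ih (fun s hs => h s (by simp [hs]))]

theorem mon_eq {ss : List (List (R × ℤ))} (h : ∀ s ∈ ss, s ≠ []) :
    mon ss = monomial (mo (sgm ss)) 1 := by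
  induction ss with
  | nil => simp [mon, sgm, mo]
  | cons s ss ih =>
    rcases s with _ | ⟨c, r⟩
    · exact absurd rfl (h [] (by simp))
    · have e1 : mon ((c :: r) :: ss) = xv (c :: r) * mon ss := by simp [mon]
      rw [e1, ih (fun s hs => h s (by simp [hs])), sgm, mo_cons, xv, X, monomial_mul, one_mul]

/-- the difference of the derivation of a chain and the partial derivative -/
noncomputable def dd (c : R × ℤ) (r : List (R × ℤ)) :
    Derivation ℤ (MvPolynomial (Seg R) ℤ) (MvPolynomial (Seg R) ℤ) :=
  Dl (c :: r) - pderiv (c.1, c.2, r.length)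

theorem dd_apply (c : R × ℤ) (r : List (R × ℤ)) (f : MvPolynomial (Seg R) ℤ) :
    dd c r f = Dl (c :: r) f - pderiv (c.1, c.2, r.length) f := rfl

/-- comparison of the derivation of a chain with the partial derivative -/
theorem Dl_sub {c : R × ℤ} {r : List (R × ℤ)} (hch : (c :: r).IsChain arr) (Δ : Seg R) :
    dd c r (X Δ) ∈ idealOfVars (Seg R) ℤ := by
  classical
  obtain ⟨ρ, s, l⟩ := Δ
  rw [dd_apply, ← xv_chn]
  have h1 := Dl_xv (by simp) hch (chn_chain ρ s l)
  have hX : ∀ Δ : Seg R, (X Δ : MvPolynomial (Seg R) ℤ) ∈ idealOfVars (Seg R) ℤ :=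
    fun Δ => Ideal.subset_span ⟨Δ, rfl⟩
  by_cases h2 : ∃ r', chn ρ s l = (c :: r) ++ r'
  · obtain ⟨r', hr'⟩ := h2
    rw [h1.1 r' hr', xv_chn]
    obtain ⟨r1, h3, h4⟩ := chn_cons ρ s l
    rw [h3, List.cons_append, List.cons_eq_cons] at hr'
    obtain ⟨rfl, h5⟩ := hr'
    rcases r' with _ | ⟨b, r'⟩
    · rw [List.append_nil] at h5
      subst h5
      rw [h4, pderiv_X_self, xv, sub_self]
      exact Ideal.zero_mem _
    · have h6 : (ρ, s, l) ≠ ((ρ, s).1, (ρ, s).2, r.length) := by
        intro h7
        have h8 := congrArg (fun x : Seg R => x.2.2) h7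
        have h9 := congrArg List.length h5
        simp only [List.length_append, List.length_cons] at h8 h9
        omega
      rw [pderiv_X_of_ne h6, sub_zero, xv]
      exact hX _
  · rw [h1.2 h2, xv_chn]
    have h6 : (ρ, s, l) ≠ (c.1, c.2, r.length) := by
      rintro h7
      apply h2
      obtain ⟨r1, h3, h4⟩ := chn_cons ρ s l
      simp only [Prod.mk.injEq] at h7
      obtain ⟨h8, h9, h10⟩ := h7
      have hc : c = (ρ, s) := Prod.ext h8.symm h9.symm
      subst hc
      have h11 := chn_chain ρ s l
      rw [h3] at h11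
      have h12 := chain_unique h11 hch (by rw [h4, h10])
      exact ⟨[], by rw [h3, h12, List.append_nil]⟩
    rw [pderiv_X_of_ne h6, sub_zero]
    exact Ideal.zero_mem _

theorem Wl_low [DecidableEq (Seg R)] : ∀ (ss : List (List (R × ℤ))),
    (∀ s ∈ ss, s.IsChain arr ∧ s ≠ []) → ∀ f g : MvPolynomial (Seg R) ℤ,
    g ∈ idealOfVars (Seg R) ℤ ^ ss.length →
    f - g ∈ idealOfVars (Seg R) ℤ ^ (ss.length + 1) →
    Wl ss f - pd (sgm ss) g ∈ idealOfVars (Seg R) ℤ := by
  intro ss
  induction ss with
  | nil =>
    intro _ f g _ h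
    rw [List.length_nil, zero_add, pow_one] at h
    exact h
  | cons s ss ih =>
    intro h f g hg hfg
    obtain ⟨hch, hs⟩ := h s (by simp)
    obtain ⟨c, r, rfl⟩ := List.exists_cons_of_ne_nil hs
    have e1 : Wl ((c :: r) :: ss) f = Wl ss (Dl (c :: r) f) := rfl
    have e2 : pd (sgm ((c :: r) :: ss)) g = pd (sgm ss) (pderiv (c.1, c.2, r.length) g) := rfl
    rw [e1, e2]
    rw [List.length_cons] at hg hfg
    apply ih (fun s hs => h s (by simp [hs]))
    · exact der_pow _ _ _ hg
    · have e3 : Dl (c :: r) f - pderiv (c.1, c.2, r.length) g =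
          Dl (c :: r) (f - g) + dd c r g := by
        rw [map_sub, dd_apply]; ring
      rw [e3]
      exact Ideal.add_mem _ (der_pow _ _ _ hfg) (der_pow' _ (Dl_sub hch) _ _ hg)

/-- The pairing with an induced module of the lowest possible length. -/
theorem hh_low [DecidableEq (Seg R)] {ss : List (List (R × ℤ))}
    (h : ∀ s ∈ ss, s.IsChain arr ∧ s ≠ []) {f : MvPolynomial (Seg R) ℤ}
    (hf : ∀ m ∈ f.support, ss.length ≤ m.degree) :
    hh f ss = fc (mo (sgm ss)) * coeff (mo (sgm ss)) f := by
  rw [← mem_pow_idealOfVars_iff] at hf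
  have h1 := Wl_low ss h f f hf (by rw [sub_self]; exact Ideal.zero_mem _)
  have h2 := coeff_zero_of_mem h1
  rw [map_sub, sub_eq_zero] at h2
  unfold hh
  rw [h2, coeff_zero_pd]

/-- every list of segments comes from a list of chains -/
theorem exists_chains (L : List (Seg R)) : ∃ ss : List (List (R × ℤ)),
    (∀ s ∈ ss, s.IsChain arr ∧ s ≠ []) ∧ sgm ss = L := by
  induction L with
  | nil => exact ⟨[], by simp, rfl⟩
  | cons Δ L ih =>
    obtain ⟨ss, h1, h2⟩ := ih
    obtain ⟨ρ, s, l⟩ := Δ
    obtain ⟨r, h3, h4⟩ := chn_cons ρ s l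
    refine ⟨chn ρ s l :: ss, ?_, ?_⟩
    · intro t ht
      rcases List.mem_cons.mp ht with rfl | ht
      · exact ⟨chn_chain ρ s l, by rw [h3]; simp⟩
      · exact h1 t ht
    · rw [h3, sgm, h4, h2]

end Pool.Agent.H159
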