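import Pool.Agent.H159.Count
import Pool.Agent.H159.Fischer

/-!
# The lowest part of the class of a representation of Arthur type
-/

open Finset Equiv MvPolynomial

namespace Pool.Agent.H159

section theta

variable {S : Type}

/-- scaling of the variables -/
noncomputable def θ : MvPolynomial S ℤ →+* Polynomial (MvPolynomial S ℤ) :=
  MvPolynomial.eval₂Hom ((Polynomial.C).comp MvPolynomial.C)
    (fun s => Polynomial.X * Polynomial.C (MvPolynomial.X s))

theorem θ_X (s : S) : θ (MvPolynomial.X s) = Polynomial.X * Polynomial.C (MvPolynomial.X s) := by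
  simp [θ]

theorem θ_monomial (m : S →₀ ℕ) (c : ℤ) :
    θ (MvPolynomial.monomial m c) = Polynomial.X ^ m.degree *
      Polynomial.C (MvPolynomial.monomial m c) := by
  unfold θ
  rw [MvPolynomial.coe_eval₂Hom, MvPolynomial.eval₂_monomial]
  rw [Finsupp.prod]
  simp only [mul_pow]
  rw [Finset.prod_mul_distrib, Finset.prod_pow_eq_pow_sum]
  rw [MvPolynomial.monomial_eq, Finsupp.prod, map_mul, map_prod]
  simp only [map_pow]
  rw [Finsupp.degree_apply]
  simp only [RingHom.comp_apply]
  ring

theorem coeff_θ (f : MvPolynomial S ℤ) (n : ℕ) :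
    (θ f).coeff n = MvPolynomial.homogeneousComponent n f := by
  classical
  induction f using MvPolynomial.induction_on' with
  | monomial m c =>
    rw [θ_monomial, mul_comm, Polynomial.coeff_C_mul, Polynomial.coeff_X_pow]
    ext d
    rw [MvPolynomial.coeff_homogeneousComponent]
    split_ifs with h1 h2 h2
    · rw [mul_one]
    · rw [mul_one, MvPolynomial.coeff_monomial, if_neg]
      rintro rfl; exact h2 h1.symm
    · rw [mul_zero, MvPolynomial.coeff_zero, MvPolynomial.coeff_monomial, if_neg]
      rintro rfl; exact h1 h2.symm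
    · simp
  | add p q hp hq => rw [map_add, Polynomial.coeff_add, hp, hq, map_add]

end theta

section block

variable {R : Type}

theorem θ_segClass_pos (ρ : R) (s d : ℤ) (h : 0 < d) :
    θ (segClass ρ s d) = Polynomial.X * Polynomial.C (MvPolynomial.X (ρ, s, (d - 1).toNat)) := by
  unfold segClass
  rw [if_neg (by omega), if_neg (by omega), θ_X]

theorem θ_segClass_zero (ρ : R) (s : ℤ) : θ (segClass ρ s 0) = 1 := by
  unfold segClass
  rw [if_neg (by omega), if_pos rfl, map_one]

theorem θ_segClass_neg (ρ : R) (s d : ℤ) (h : d < 0) : θ (segClass ρ s d) = 0 := by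
  unfold segClass
  rw [if_pos h, map_zero]

/-- the values attached to a block -/
def blockVal (B : Block R) (i : Fin (min B.2.1 B.2.2)) : R × ℕ :=
  (B.1, max B.2.1 B.2.2 - min B.2.1 B.2.2 + 1 + 2 * (i : ℕ))

/-- the lowest matrix of a block -/
noncomputable def blockLow (B : Block R) :
    Matrix (Fin (min B.2.1 B.2.2)) (Fin (min B.2.1 B.2.2)) (MvPolynomial (Seg R) ℤ) :=
  Matrix.of fun i j => MvPolynomial.X (Yvar (blockVal B i) (blockVal B j))

/-- the matrix obtained by dividing the last rows by the variable -/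
noncomputable def blockRed (B : Block R) :
    Matrix (Fin B.2.2) (Fin B.2.2) (Polynomial (MvPolynomial (Seg R) ℤ)) :=
  Matrix.of fun i j =>
    if (i : ℕ) < B.2.2 - B.2.1 then
      θ (segClass B.1 ((B.2.2 : ℤ) - B.2.1 - 2 * (i : ℤ)) ((B.2.1 : ℤ) + (i : ℤ) - (j : ℤ)))
    else Polynomial.C (MvPolynomial.X (B.1, (B.2.2 : ℤ) - B.2.1 - 2 * (i : ℤ),
      ((B.2.1 : ℤ) + (i : ℤ) - (j : ℤ) - 1).toNat))

theorem θ_spehClass (B : Block R) :
    θ (spehClass B) = Polynomial.X ^ (min B.2.1 B.2.2) * (blockRed B).det := by
  unfold spehClass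
  rw [RingHom.map_det]
  have h1 : θ.mapMatrix (Matrix.of fun i j : Fin B.2.2 =>
      segClass B.1 ((B.2.2 : ℤ) - B.2.1 - 2 * (i : ℤ)) ((B.2.1 : ℤ) + (i : ℤ) - (j : ℤ))) =
      Matrix.of fun i j : Fin B.2.2 =>
        (if (i : ℕ) < B.2.2 - B.2.1 then 1 else Polynomial.X) * blockRed B i j := by
    ext1 i j
    rw [RingHom.mapMatrix_apply, Matrix.map_apply, Matrix.of_apply, Matrix.of_apply]
    unfold blockRed
    rw [Matrix.of_apply]
    split_ifs with h
    · rw [one_mul]
    · rw [θ_segClass_pos]
      have := i.2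
      have := j.2
      omega
  rw [h1, Matrix.det_mul_column]
  congr 1
  rw [Finset.prod_ite, Finset.prod_const_one, one_mul, Finset.prod_const]
  congr 1
  have h2 : (Finset.univ.filter fun i : Fin B.2.2 => ¬ (i : ℕ) < B.2.2 - B.2.1).card =
      B.2.2 - (B.2.2 - B.2.1) := by
    have h3 := Finset.card_filter_add_card_filter_not (s := (Finset.univ : Finset (Fin B.2.2)))
      (fun i : Fin B.2.2 => (i : ℕ) < B.2.2 - B.2.1)
    have h4 : (Finset.univ.filter fun i : Fin B.2.2 => (i : ℕ) < B.2.2 - B.2.1).card =
        B.2.2 - B.2.1 := by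
      rw [Fin.card_filter_val_lt]
      omega
    rw [h4, Finset.card_univ, Fintype.card_fin] at h3
    omega
  rw [h2]
  omega

theorem constantCoeff_blockRed (B : Block R) (i j : Fin B.2.2) :
    Polynomial.constantCoeff (blockRed B i j) =
      if (i : ℕ) < B.2.2 - B.2.1 then (if (B.2.1 : ℤ) + (i : ℤ) - (j : ℤ) = 0 then 1 else 0)
      else MvPolynomial.X (B.1, (B.2.2 : ℤ) - B.2.1 - 2 * (i : ℤ),
        ((B.2.1 : ℤ) + (i : ℤ) - (j : ℤ) - 1).toNat) := by
  unfold blockRed
  rw [Matrix.of_apply]
  split_ifs with h1 h2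
  · rw [h2, θ_segClass_zero, map_one]
  · rcases lt_or_gt_of_ne h2 with h3 | h3
    · rw [θ_segClass_neg _ _ _ h3, map_zero]
    · rw [θ_segClass_pos _ _ _ h3]
      simp
  · simp

theorem det_constantCoeff_blockRed (B : Block R) :
    ∃ ε : ℤˣ, Polynomial.constantCoeff (blockRed B).det =
      ((ε : ℤ) : MvPolynomial (Seg R) ℤ) * (blockLow B).det := by
  obtain ⟨ρ, a, b⟩ := B
  have hk : (b - a) + min a b = b := by omega
  have hk' : min a b + (b - a) = b := by omega
  let er : Fin (b - a) ⊕ Fin (min a b) ≃ Fin b := finSumFinEquiv.trans (finCongr hk)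
  let ec : Fin (b - a) ⊕ Fin (min a b) ≃ Fin b :=
    (Equiv.sumComm _ _).trans ((Equiv.sumCongr Fin.revPerm (Equiv.refl _)).trans
      (finSumFinEquiv.trans (finCongr hk')))
  let M0 : Matrix (Fin b) (Fin b) (MvPolynomial (Seg R) ℤ) :=
    Polynomial.constantCoeff.mapMatrix (blockRed (ρ, a, b))
  have e0 : Polynomial.constantCoeff (blockRed (ρ, a, b)).det = M0.det := RingHom.map_det _ _
  have e1 : M0.submatrix er ec = Matrix.fromBlocks 1 0
      (Matrix.of fun i j => M0 (er (Sum.inr i)) (ec (Sum.inl j))) (blockLow (ρ, a, b)) := by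
    ext1 i j
    rcases i with i | i <;> rcases j with j | j
    · rw [Matrix.submatrix_apply, Matrix.fromBlocks_apply₁₁]
      have hi : ((er (Sum.inl i) : Fin b) : ℕ) = i := by simp [er]
      have hj : ((ec (Sum.inl j) : Fin b) : ℕ) = min a b + j := by simp [ec]
      have h1 := i.2
      have h2 := j.2
      show Polynomial.constantCoeff (blockRed (ρ, a, b) _ _) = _
      rw [constantCoeff_blockRed]
      simp only
      rw [if_pos (by omega), Matrix.one_apply]
      congr 1
      rw [eq_iff_iff, hi, hj, Fin.ext_iff]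
      omega
    · rw [Matrix.submatrix_apply, Matrix.fromBlocks_apply₁₂]
      have hi : ((er (Sum.inl i) : Fin b) : ℕ) = i := by simp [er]
      have hj : ((ec (Sum.inr j) : Fin b) : ℕ) = min a b - (j + 1) := by simp [ec, Fin.val_rev]
      have h1 := i.2
      have h2 := j.2
      show Polynomial.constantCoeff (blockRed (ρ, a, b) _ _) = _
      rw [constantCoeff_blockRed]
      simp only
      rw [if_pos (by omega), if_neg]
      · rfl
      · rw [hi, hj]; omega
    · rw [Matrix.submatrix_apply, Matrix.fromBlocks_apply₂₁]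
      rfl
    · rw [Matrix.submatrix_apply, Matrix.fromBlocks_apply₂₂]
      have hi : ((er (Sum.inr i) : Fin b) : ℕ) = (b - a) + i := by simp [er]
      have hj : ((ec (Sum.inr j) : Fin b) : ℕ) = min a b - (j + 1) := by simp [ec, Fin.val_rev]
      have h1 := i.2
      have h2 := j.2
      show Polynomial.constantCoeff (blockRed (ρ, a, b) _ _) = _
      rw [constantCoeff_blockRed]
      simp only
      rw [if_neg (by omega)]
      unfold blockLow
      rw [Matrix.of_apply]
      congr 1
      unfold Yvar blockVal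
      simp only
      rw [hi, hj, Prod.mk.injEq, Prod.mk.injEq]
      refine ⟨rfl, ?_, ?_⟩
      · omega
      · omega
  have e2 : (M0.submatrix er ec).det = (blockLow (ρ, a, b)).det := by
    rw [e1, Matrix.det_fromBlocks_zero₁₂, Matrix.det_one, one_mul]
  let π : Perm (Fin b) := er.symm.trans ec
  have e3 : M0.submatrix er ec = (M0.submatrix id π).submatrix er er := by
    ext1 i j
    simp [π]
  have e4 : (M0.submatrix er ec).det = ((Perm.sign π : ℤ) : MvPolynomial (Seg R) ℤ) * M0.det := by
    rw [e3, Matrix.det_submatrix_equiv_self, Matrix.det_permute']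
  refine ⟨Perm.sign π, ?_⟩
  rw [e0]
  rw [e2] at e4
  rw [e4, ← mul_assoc, ← Int.cast_mul, ← Units.val_mul, Int.units_mul_self]
  simp

theorem map_blockVal (B : Block R) :
    (Finset.univ : Finset (Fin (min B.2.1 B.2.2))).val.map (blockVal B) = blockDiag B := by
  unfold blockDiag
  have h1 : (Finset.univ : Finset (Fin (min B.2.1 B.2.2))).val.map (blockVal B) =
      ∑ i : Fin (min B.2.1 B.2.2), {blockVal B i} := by
    rw [Finset.sum_eq_multiset_sum, ← Multiset.sum_map_singleton
      ((Finset.univ : Finset (Fin (min B.2.1 B.2.2))).val.map (blockVal B)), Multiset.map_map]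
    rfl
  have h2 : (∑ i : Fin (min B.2.1 B.2.2), ({blockVal B i} : Multiset (R × ℕ))) =
      ∑ k ∈ Finset.range (min B.2.1 B.2.2),
        {(B.1, max B.2.1 B.2.2 - min B.2.1 B.2.2 + 1 + 2 * k)} := by
    rw [Finset.sum_range]
    rfl
  rw [h1, h2, map_range_eq, ← Finset.sum_range_reflect]
  refine Finset.sum_congr rfl fun k hk => ?_
  rw [Finset.mem_range] at hk
  congr 2
  omega

/-- The shape of the lowest part of the class of a representation of Arthur type. -/
theorem exists_model (L : List (Block R)) :
    ∃ (Ω : Type) (_ : Fintype Ω) (_ : DecidableEq Ω) (val : Ω → R × ℕ) (b : Ω → ℕ),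
      RowInj val b ∧ Good val b ∧
      (Finset.univ : Finset Ω).val.map val = diagRestrict (L : Multiset (Block R)) ∧
      ∃ (ε : ℤˣ) (S : Polynomial (MvPolynomial (Seg R) ℤ)),
        θ (arthurClass (L : Multiset (Block R))) = Polynomial.X ^ (Fintype.card Ω) * S ∧
        Polynomial.constantCoeff S = ((ε : ℤ) : MvPolynomial (Seg R) ℤ) * (blockMat val b).det := by
  induction L with
  | nil =>
    refine ⟨Empty, inferInstance, inferInstance, fun x => x.elim, fun x => x.elim, ?_, ?_, ?_,
      1, 1, ?_, ?_⟩
    · intro x; exact x.elim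
    · exact ⟨fun x => x.elim, fun x => x.elim⟩
    · simp [diagRestrict]
    · simp [arthurClass]
    · simp
  | cons B L ih =>
    obtain ⟨Ω, iF, iD, val, b, hinj, hgood, hmap, ε, S, hS, hS0⟩ := ih
    obtain ⟨ε', hε'⟩ := det_constantCoeff_blockRed B
    refine ⟨Fin (min B.2.1 B.2.2) ⊕ Ω, inferInstance, inferInstance,
      Sum.elim (blockVal B) val, Sum.elim (fun _ => 0) (fun x => b x + 1), ?_, ?_, ?_,
      ε' * ε, (blockRed B).det * S, ?_, ?_⟩
    · rintro (x | x) (y | y) h1 h2
      · simp only [Sum.elim_inl, blockVal, Prod.mk.injEq, true_and] at h1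
        congr 1
        rw [Fin.ext_iff]
        omega
      · simp at h2
      · simp at h2
      · simp only [Sum.elim_inr] at h1 h2
        congr 1
        exact hinj x y h1 (by omega)
    · constructor
      · rintro (x | x) (y | y) h1
        · simp only [Sum.elim_inl, blockVal, true_and]
          omega
        · simp at h1
        · simp at h1
        · simp only [Sum.elim_inr] at h1 ⊢
          exact hgood.1 x y (by omega)
      · rintro (x | x)
        · simp only [Sum.elim_inl, blockVal]
          omega
        · simp only [Sum.elim_inr]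
          exact hgood.2 x
    · rw [← Multiset.cons_coe, diagRestrict_eq, Multiset.cons_bind, ← diagRestrict_eq, ← hmap]
      rw [← Finset.univ_disjSum_univ, Finset.val_disjSum, Multiset.disjSum, Multiset.map_add,
        Multiset.map_map, Multiset.map_map]
      congr 1
      rw [Sum.elim_comp_inl]
      exact map_blockVal B
    · rw [← Multiset.cons_coe]
      unfold arthurClass at hS ⊢
      rw [Multiset.map_cons, Multiset.prod_cons, map_mul, hS, θ_spehClass, Fintype.card_sum,
        Fintype.card_fin]
      ring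
    · rw [map_mul, hε', hS0]
      have hmat : blockMat (Sum.elim (blockVal B) val) (Sum.elim (fun _ => 0) (fun x => b x + 1)) =
          Matrix.fromBlocks (blockLow B) 0 0 (blockMat val b) := by
        ext1 i j
        rcases i with i | i <;> rcases j with j | j
        · simp [blockMat, blockLow]
        · simp [blockMat]
        · simp [blockMat]
        · simp [blockMat]
      rw [hmat, Matrix.det_fromBlocks_zero₂₁]
      push_cast
      ring

end block

end Pool.Agent.H159
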