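import Pool.Agent.H159.Nil
import Pool.Agent.H159.EPD

/-!
# Word dimensions of modules over the graded quiver Hecke algebra
-/

set_option linter.unusedSectionVars false
set_option linter.unusedSimpArgs false

namespace Pool.Agent.H159

open KQuiver

section

variable {k I : Type} [Field k] [DecidableEq I] [KQuiver I] {Ω : Finset (List I)}

variable {A B C : Type} [AddCommGroup A] [Module k A] [Module (GKLR k I Ω) A]
  [IsScalarTower k (GKLR k I Ω) A] [AddCommGroup B] [Module k B] [Module (GKLR k I Ω) B]
  [IsScalarTower k (GKLR k I Ω) B] [AddCommGroup C] [Module k C] [Module (GKLR k I Ω) C]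
  [IsScalarTower k (GKLR k I Ω) C]

theorem wdm_exact (f : A →ₗ[GKLR k I Ω] B) (g : B →ₗ[GKLR k I Ω] C)
    (h : ∀ z, g z = 0 ↔ ∃ y, f y = z) (hf : Function.Injective f) (hg : Function.Surjective g)
    [Module.Finite k B] (u : List I) :
    wdm (mops k I Ω B) u = wdm (mops k I Ω A) u + wdm (mops k I Ω C) u := by
  have h1 := rank_split (wsp (mops k I Ω B) u) (g.restrictScalars k)
  have h2 : (wsp (mops k I Ω B) u).map (g.restrictScalars k) = wsp (mops k I Ω C) u := by
    apply le_antisymm
    · rintro _ ⟨y, hy, rfl⟩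
      have hy' : (gops k I Ω).e u • y = y := mem_wsp.mp hy
      apply mem_wsp.mpr
      show (gops k I Ω).e u • g y = g y
      rw [← map_smul, hy']
    · intro z hz
      have hz' : (gops k I Ω).e u • z = z := mem_wsp.mp hz
      obtain ⟨y, rfl⟩ := hg z
      refine ⟨(gops k I Ω).e u • y, mem_wsp.mpr (Ops.hom_e _ _ _), ?_⟩
      show g _ = g y
      rw [map_smul, hz']
  have h3 : wsp (mops k I Ω B) u ⊓ LinearMap.ker (g.restrictScalars k) =
      (wsp (mops k I Ω A) u).map (f.restrictScalars k) := by
    apply le_antisymm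
    · rintro z ⟨hz, hz2⟩
      have hz' : (gops k I Ω).e u • z = z := mem_wsp.mp hz
      obtain ⟨y, rfl⟩ := (h z).mp hz2
      refine ⟨y, mem_wsp.mpr ?_, rfl⟩
      apply hf
      show f ((gops k I Ω).e u • y) = f y
      rw [map_smul, hz']
    · rintro _ ⟨y, hy, rfl⟩
      have hy' : (gops k I Ω).e u • y = y := mem_wsp.mp hy
      refine ⟨mem_wsp.mpr ?_, (h _).mpr ⟨y, rfl⟩⟩
      show (gops k I Ω).e u • f y = f y
      rw [← map_smul, hy']
  have h4 : Module.finrank k ((wsp (mops k I Ω A) u).map (f.restrictScalars k)) =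
      Module.finrank k (wsp (mops k I Ω A) u) :=
    (Submodule.equivMapOfInjective (f.restrictScalars k) hf _).symm.finrank_eq
  rw [h2, h3, h4] at h1
  unfold wdm
  rw [h1]
  push_cast
  ring

theorem FU.sub (f : A →ₗ[GKLR k I Ω] B) (hf : Function.Injective f) (h : FU k Ω B) :
    FU k Ω A := by
  obtain ⟨S, hS⟩ := h
  refine ⟨S, fun y => ?_⟩
  apply hf
  rw [map_sum, ← hS (f y)]
  apply Finset.sum_congr rfl
  intro d _
  rw [map_smul]

theorem FU.quot (g : B →ₗ[GKLR k I Ω] C) (hg : Function.Surjective g) (h : FU k Ω B) :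
    FU k Ω C := by
  obtain ⟨S, hS⟩ := h
  refine ⟨S, fun z => ?_⟩
  obtain ⟨y, rfl⟩ := hg z
  conv_rhs => rw [← hS y]
  rw [map_sum]
  apply Finset.sum_congr rfl
  intro d _
  rw [map_smul]

/-- A finite-dimensional module generated by a bihomogeneous vector has finitely many degrees. -/
theorem FU.of_gen [Module.Finite k A] {l : List I} {d : ℤ} {y : A}
    (h : BiHom (k := k) (Ω := Ω) l d y) (hgen : ∀ z : A, ∃ r : GKLR k I Ω, r • y = z) :
    FU k Ω A := by
  have hQ : ∀ z : A, ∃ S : Finset ℤ, ∀ S', S ⊆ S' → ∑ d ∈ S', (gstr k I Ω).f d • z = z := by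
    intro z
    obtain ⟨r, rfl⟩ := hgen z
    have h1 := smul_mem_alg h r
    generalize r • y = z at h1
    induction h1 using Submodule.span_induction with
    | mem z hz =>
      obtain ⟨-, l', d', hz⟩ := hz
      refine ⟨{d'}, fun S' hS' => ?_⟩
      rw [Finset.singleton_subset_iff] at hS'
      rw [Finset.sum_eq_single d']
      · exact hz.2
      · intro d'' _ hd
        exact f_smul_ne hz.2 hd
      · intro h'; exact absurd hS' h'
    | zero => exact ⟨∅, fun S' _ => by simp⟩
    | add z w _ _ hz hw =>
      obtain ⟨S1, h1⟩ := hz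
      obtain ⟨S2, h2⟩ := hw
      refine ⟨S1 ∪ S2, fun S' hS' => ?_⟩
      have e1 := h1 S' (Finset.union_subset_left hS')
      have e2 := h2 S' (Finset.union_subset_right hS')
      simp only [smul_add, Finset.sum_add_distrib]
      rw [e1, e2]
    | smul c z _ hz =>
      obtain ⟨S, hS⟩ := hz
      refine ⟨S, fun S' hS' => ?_⟩
      have e1 := hS S' hS'
      have e2 : ∀ d, (gstr k I Ω).f d • c • z = c • ((gstr k I Ω).f d • z) := fun d =>
        smul_comm _ _ _
      simp only [e2]
      rw [← Finset.smul_sum, e1]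
  obtain ⟨s, hs⟩ := (Module.Finite.fg_top : (⊤ : Submodule k A).FG)
  choose S hS using hQ
  refine ⟨s.biUnion S, fun z => ?_⟩
  have hz : z ∈ Submodule.span k (s : Set A) := by rw [hs]; trivial
  induction hz using Submodule.span_induction with
  | mem z hz => exact hS z _ (Finset.subset_biUnion_of_mem S hz)
  | zero => simp
  | add z w _ _ hz hw =>
    simp only [smul_add, Finset.sum_add_distrib]
    rw [hz, hw]
  | smul c z _ hz =>
    have e2 : ∀ d, (gstr k I Ω).f d • c • z = c • ((gstr k I Ω).f d • z) := fun d =>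
      smul_comm _ _ _
    simp only [e2]
    rw [← Finset.smul_sum, hz]

/-- a module is finite-dimensional if its word spaces are -/
theorem finite_of_wsp (h : ∀ u, Module.Finite k (wsp (mops k I Ω A) u)) : Module.Finite k A := by
  rw [Module.finite_def]
  have h1 : (⊤ : Submodule k A) = ⨆ u ∈ Ω, wsp (mops k I Ω A) u := by
    symm
    rw [eq_top_iff]
    intro z _
    rw [← sum_e_apply (k := k) (Ω := Ω) z]
    apply Submodule.sum_mem
    intro u hu
    exact Submodule.mem_iSup_of_mem u (Submodule.mem_iSup_of_mem hu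
      (mem_wsp.mpr (Ops.hom_e _ _ _)))
  rw [h1]
  apply Submodule.fg_biSup
  intro u _
  exact Submodule.fg_iff_finiteDimensional _ |>.mpr (h u)

/-- The word dimensions of the induced modules with all dots killed. -/
theorem dm_wdm (hΩ : PC Ω) {ss : List (List I)} (hg : GC ss) (hw : ss.flatten ∈ Ω) (d : ℤ)
    (u : List I) :
    Module.Finite k (wsp (mops k I Ω (Dm k Ω ss d ss.length)) u) ∧
      wdm (mops k I Ω (Dm k Ω ss d ss.length)) u = sh ss u := by
  let Φ : (Fin (BB 0 ss u).length → k) →ₗ[k] Dm k Ω ss d ss.length :=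
    { toFun := fun c => comb (Ω := Ω) ss u (fun a => MvPolynomial.C (c a)) (dgen k Ω ss d _)
      map_add' := by
        intro c c'
        rw [← comb_add]
        congr 1
        funext a
        rw [Pi.add_apply, map_add]
        rfl
      map_smul' := by
        intro r c
        rw [RingHom.id_apply, ← comb_smul]
        congr 1
        funext a
        rw [Pi.smul_apply, Pi.smul_apply, smul_eq_mul, map_mul, MvPolynomial.smul_eq_C_mul] }
  have hΦ : ∀ c, Φ c = comb (Ω := Ω) ss u (fun a => MvPolynomial.C (c a))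
    (dgen k Ω ss d _) := fun c => rfl
  have hinj : Function.Injective Φ := by
    rw [injective_iff_map_eq_zero]
    intro c hc
    rw [hΦ] at hc
    have h1 := dm_comb_Ji hΩ hg hw hc
    funext a
    by_contra hne
    have h2 := h1 a
    rw [mem_Ji] at h2
    obtain ⟨b, -, hb⟩ := h2 0 (by
      rw [MvPolynomial.mem_support_iff, MvPolynomial.coeff_C, if_pos rfl]
      exact hne)
    exact hb rfl
  have hrange : LinearMap.range Φ = wsp (mops k I Ω (Dm k Ω ss d ss.length)) u := by
    apply le_antisymm
    · rintro _ ⟨c, rfl⟩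
      rw [mem_wsp, hΦ]
      unfold comb
      show (mops k I Ω _).e u _ = _
      rw [map_sum]
      apply Finset.sum_congr rfl
      intro a _
      rw [lwd_smul]
      have h5 := ((dgen_DP (k := k) (Ω := Ω) ss d ss.length).pev hg (MvPolynomial.C (c a))).1
      exact Ops.Hom.BB (α := []) (u := u) (by simpa using h5) (List.getElem_mem _)
    · intro z hz
      have hz' : (gops k I Ω).e u • z = z := mem_wsp.mp hz
      obtain ⟨r, rfl⟩ := cy_surj z
      obtain ⟨p, hp⟩ := exists_comb hg (dgen_DP (k := k) (Ω := Ω) ss d ss.length) u r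
      refine ⟨fun a => MvPolynomial.constantCoeff (p a), ?_⟩
      rw [hΦ, ← hz', hp, ← sub_eq_zero, sub_eq_add_neg, ← neg_one_smul k, ← comb_smul,
        ← comb_add]
      apply comb_Ji (dgen_x ss d ss.length)
      intro a
      rw [mem_Ji]
      intro e he
      rw [MvPolynomial.mem_support_iff] at he
      have hne : e ≠ 0 := by
        rintro rfl
        apply he
        simp [MvPolynomial.constantCoeff_eq]
      obtain ⟨b, hb⟩ := Finsupp.ne_iff.mp hne
      exact ⟨b, b.2, hb⟩
  constructor
  · rw [← hrange]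
    infer_instance
  · unfold wdm
    rw [← hrange, LinearMap.finrank_range_of_inj hinj, Module.finrank_fintype_fun_eq_card,
      Fintype.card_fin, length_BB]

end

end Pool.Agent.H159
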