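import Pool.Agent.H159.Lead

/-!
# Non-vanishing of the graded Euler-Poincare form on classes of Arthur type
-/

open Finset MvPolynomial

namespace Pool.Agent.H159

variable {R : Type}

theorem fis_int_mul {S : Type} [DecidableEq S] (a b : ℤ) (f g : MvPolynomial S ℤ) :
    fis ((a : MvPolynomial S ℤ) * f) ((b : MvPolynomial S ℤ) * g) = a * b * fis f g := by
  have ha : (a : MvPolynomial S ℤ) = C a := by simp
  have hb : (b : MvPolynomial S ℤ) = C b := by simp
  have hsub : ((a : MvPolynomial S ℤ) * f).support ⊆ f.support := by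
    intro m hm
    rw [mem_support_iff, ha, coeff_C_mul] at hm
    rw [mem_support_iff]
    intro h0
    rw [h0, mul_zero] at hm
    exact hm rfl
  rw [fis_eq_sum _ _ _ hsub]
  unfold fis
  rw [Finset.mul_sum]
  refine Finset.sum_congr rfl fun m _ => ?_
  rw [ha, hb, coeff_C_mul, coeff_C_mul]
  ring

/-- the lowest part of the class of a representation of Arthur type -/
theorem exists_lowest (ψ : Multiset (Block R)) :
    ∃ (Ω : Type) (_ : Fintype Ω) (_ : DecidableEq Ω) (val : Ω → R × ℕ) (b : Ω → ℕ),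
      RowInj val b ∧ Good val b ∧
      (Finset.univ : Finset Ω).val.map val = diagRestrict ψ ∧
      ∃ ε : ℤˣ, homogeneousComponent (Fintype.card Ω) (arthurClass ψ) =
        ((ε : ℤ) : MvPolynomial (Seg R) ℤ) * (blockMat val b).det := by
  obtain ⟨Ω, iF, iD, val, b, h1, h2, h3, ε, S, h4, h5⟩ := exists_model ψ.toList
  rw [Multiset.coe_toList] at h3 h4
  refine ⟨Ω, iF, iD, val, b, h1, h2, h3, ε, ?_⟩
  rw [← coeff_θ, h4, ← h5, Polynomial.coeff_X_pow_mul', if_pos le_rfl, Nat.sub_self]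
  rfl

theorem fis_lowest_ne_zero (ψ₁ ψ₂ : Multiset (Block R)) (h : diagRestrict ψ₁ = diagRestrict ψ₂)
    [DecidableEq (Seg R)] :
    fis (homogeneousComponent (diagRestrict ψ₁).card (arthurClass ψ₁))
      (homogeneousComponent (diagRestrict ψ₁).card (arthurClass ψ₂)) ≠ 0 := by
  classical
  obtain ⟨Ω₁, iF₁, iD₁, val₁, b₁, h1₁, h2₁, h3₁, ε₁, h4₁⟩ := exists_lowest ψ₁
  obtain ⟨Ω₂, iF₂, iD₂, val₂, b₂, h1₂, h2₂, h3₂, ε₂, h4₂⟩ := exists_lowest ψ₂
  have hc₁ : Fintype.card Ω₁ = (diagRestrict ψ₁).card := by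
    rw [← h3₁, Multiset.card_map]; rfl
  have hc₂ : Fintype.card Ω₂ = (diagRestrict ψ₁).card := by
    rw [h, ← h3₂, Multiset.card_map]; rfl
  rw [hc₁] at h4₁
  rw [hc₂] at h4₂
  obtain ⟨e, he⟩ := exists_equiv_of_map_eq (p := val₁) (q := val₂) (by rw [h3₁, h3₂, h])
  have hv : val₁ = fun x => val₂ (e x) := by funext x; exact (he x).symm
  have hdet : (blockMat val₂ b₂).det = (blockMat val₁ (fun x => b₂ (e x))).det := by
    rw [← Matrix.det_submatrix_equiv_self e (blockMat val₂ b₂)]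
    congr 1
    ext1 i j
    simp only [blockMat, Matrix.submatrix_apply, Matrix.of_apply, hv]
  rw [h4₁, h4₂, fis_int_mul, hdet]
  have hpos : 0 < fis (blockMat val₁ b₁).det (blockMat val₁ (fun x => b₂ (e x))).det := by
    apply fis_det_pos h1₁ _ h2₁ _
    · intro x y hxy hb
      apply e.injective
      apply h1₂ _ _ _ hb
      rw [he, he, hxy]
    · refine ⟨fun x y hb => ?_, fun x => h2₁.2 x⟩
      have := h2₂.1 (e x) (e y) hb
      rw [he, he] at this
      exact this
  have hε : ((ε₁ : ℤ) * (ε₂ : ℤ)) ≠ 0 := mul_ne_zero ε₁.ne_zero ε₂.ne_zero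
  convert mul_ne_zero hε hpos.ne' using 2

theorem degree_le_of_graded {ψ : Multiset (Block R)}
    {P : MvPolynomial (Seg R) (LaurentPolynomial ℤ)} (hP : IsGradedClass ψ P) :
    ∀ m ∈ P.support, (diagRestrict ψ).card ≤ m.degree :=
  fun m hm => card_diag_le_degree (hP.2 m hm)

/-- The graded Euler-Poincare form of two classes of Arthur type is non-zero exactly when the
parameters have the same restriction to the diagonal. -/
theorem gradedEP_ne_zero_iff (ψ₁ ψ₂ : Multiset (Block R))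
    (P₁ P₂ : MvPolynomial (Seg R) (LaurentPolynomial ℤ))
    (h₁ : IsGradedClass ψ₁ P₁) (h₂ : IsGradedClass ψ₂ P₂) :
    gradedEP P₁ P₂ ≠ 0 ↔ diagRestrict ψ₁ = diagRestrict ψ₂ := by
  constructor
  · intro hne
    apply diagRestrict_eq_of_arthurSupp_eq
    by_contra hs
    apply hne
    unfold gradedEP
    apply Finset.sum_eq_zero
    intro m hm
    have h3 : P₂.coeff m = 0 := by
      by_contra h4
      apply hs
      rw [← h₁.2 m hm, ← h₂.2 m (mem_support_iff.mpr h4)]
    rw [h3]; ring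
  · intro hd
    classical
    apply gradedEP_ne_zero_of_fis (degree_le_of_graded h₁)
    rw [h₁.1, h₂.1]
    convert fis_lowest_ne_zero ψ₁ ψ₂ hd

end Pool.Agent.H159
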