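import Pool.Agent.H159.Serre

/-!
# The largest word of a Serre function
-/

set_option linter.unusedSectionVars false
set_option linter.unusedSimpArgs false

namespace Pool.Agent.H159

open KQuiver

variable {I : Type} [LinearOrder I] [KQuiver I] [LinQ I]

theorem chain_lt {a b : I} {p q r : List I} (h : (p ++ a :: (q ++ b :: r)).IsChain arr) :
    a < b := by
  have h1 : (a :: (q ++ b :: r)).IsChain arr := (List.isChain_append.mp h).2.1
  exact lt_of_mem_tail h1 b (by simp)

theorem good_of_chain {s : List I} (h : s.IsChain arr) : GoodC s := by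
  rintro p a q b r rfl
  have hlt := chain_lt h
  have h1 : (a :: (q ++ b :: r)).IsChain arr := (List.isChain_append.mp h).2.1
  refine ⟨hlt.ne, ?_, ?_⟩
  · rintro rfl
    rw [List.nil_append, List.isChain_cons_cons] at h1
    exact h1.1
  · intro hq
    obtain ⟨c, q, rfl⟩ := List.exists_cons_of_ne_nil hq
    refine ⟨?_, ?_⟩
    · intro hab
      rw [List.cons_append, List.isChain_cons_cons] at h1
      have hc : b = c := LinQ.succ_unique hab h1.1
      have := lt_of_mem_tail h1.2 b (by simp)
      rw [hc] at this
      exact lt_irrefl _ this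
    · intro hba
      exact lt_asymm hlt (LinQ.lt_of_arr hba)

/-- two chains with the same first letter -/
theorem chain_prefix {h : I} : ∀ {r t : List I}, (h :: r).IsChain arr → (h :: t).IsChain arr →
    (∃ q, r = t ++ q) ∨ (∃ q, q ≠ [] ∧ t = r ++ q) := by
  intro r
  induction r generalizing h with
  | nil =>
    intro t _ _
    by_cases ht : t = []
    · left; exact ⟨[], by rw [ht]; rfl⟩
    · right; exact ⟨t, ht, rfl⟩
  | cons a r ih =>
    intro t h1 h2
    rcases t with _ | ⟨b, t⟩
    · left; exact ⟨a :: r, rfl⟩
    · rw [List.isChain_cons_cons] at h1 h2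
      have hab := LinQ.succ_unique h1.1 h2.1
      subst hab
      rcases ih h1.2 h2.2 with ⟨q, hq⟩ | ⟨q, hq, hq'⟩
      · left; exact ⟨q, by rw [hq]; rfl⟩
      · right; exact ⟨q, hq, by rw [hq']; rfl⟩

/-- two chains with a common element -/
theorem common_elt {z : I} : ∀ {s₁ t₁ : List I}, (s₁ ++ [z]).IsChain arr →
    (t₁ ++ [z]).IsChain arr → (∃ q, s₁ = q ++ t₁) ∨ (∃ q, q ≠ [] ∧ t₁ = q ++ s₁) := by
  intro s₁
  induction s₁ using List.reverseRecOn generalizing z with
  | nil =>
    intro t₁ _ _
    by_cases ht : t₁ = []
    · left; exact ⟨[], by rw [ht]; rfl⟩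
    · right; exact ⟨t₁, ht, by simp⟩
  | append_singleton s a ih =>
    intro t₁ h1 h2
    rcases List.eq_nil_or_concat t₁ with h | ⟨t, b, h⟩
    · left; exact ⟨s ++ [a], by rw [h]; simp⟩
    · rw [List.concat_eq_append] at h
      subst h
      rw [List.isChain_append] at h1 h2
      have ha : arr a z := h1.2.2 a (by simp) z (by simp)
      have hb : arr b z := h2.2.2 b (by simp) z (by simp)
      have hab := LinQ.pred_unique ha hb
      subst hab
      rcases ih h1.1 h2.1 with ⟨q, hq⟩ | ⟨q, hq, hq'⟩
      · left; exact ⟨q, by rw [hq]; simp⟩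
      · right; exact ⟨q, hq, by rw [hq']; simp⟩

/-- if two chains meet and the head of the second is at least the head of the first then the head
of the second lies on the first -/
theorem head_mem {a b z : I} {s t : List I} (hs : (a :: s).IsChain arr)
    (ht : (b :: t).IsChain arr) (hab : a ≤ b) (hzs : z ∈ a :: s) (hzt : z ∈ b :: t) :
    b ∈ a :: s := by
  obtain ⟨s₁, s₂, h1⟩ := List.append_of_mem hzs
  obtain ⟨t₁, t₂, h2⟩ := List.append_of_mem hzt
  have h3 : (s₁ ++ [z]).IsChain arr := by
    have : ((s₁ ++ [z]) ++ s₂).IsChain arr := by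
      rw [List.append_assoc, List.singleton_append, ← h1]; exact hs
    exact (List.isChain_append.mp this).1
  have h4 : (t₁ ++ [z]).IsChain arr := by
    have : ((t₁ ++ [z]) ++ t₂).IsChain arr := by
      rw [List.append_assoc, List.singleton_append, ← h2]; exact ht
    exact (List.isChain_append.mp this).1
  rcases common_elt h3 h4 with ⟨q, hq⟩ | ⟨q, hq, hq'⟩
  · -- `t₁` is a suffix of `s₁`
    rw [h1, hq]
    rcases t₁ with _ | ⟨c, t₁⟩
    · have : b = z := (List.cons_eq_cons.mp h2).1
      rw [this]; simp
    · have : b = c := (List.cons_eq_cons.mp h2).1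
      rw [this]; simp
  · -- `s₁` is a proper suffix of `t₁`
    exfalso
    obtain ⟨c, q, rfl⟩ := List.exists_cons_of_ne_nil hq
    rw [hq', List.cons_append, List.cons_append] at h2
    obtain ⟨h5, h6⟩ := List.cons_eq_cons.mp h2
    have h7 : a ∈ t := by
      rw [h6]
      rcases s₁ with _ | ⟨d, s₁⟩
      · have : a = z := (List.cons_eq_cons.mp h1).1
        rw [this]; simp
      · have : a = d := (List.cons_eq_cons.mp h1).1
        rw [this]; simp
    have := lt_of_mem_tail ht a h7
    exact absurd hab (not_le.mpr this)

/-- the dichotomy for unlinked chains -/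
theorem far_or_mem {a b : I} {s t : List I} (hs : (a :: s).IsChain arr)
    (ht : (b :: t).IsChain arr) (hab : a ≤ b) {s' : List I} {l : I} (hl : a :: s = s' ++ [l])
    (hbl : b ≤ l) : (∀ x ∈ a :: s, ∀ y ∈ b :: t, far x y) ∨ b ∈ a :: s := by
  by_cases h : ∃ z, z ∈ a :: s ∧ z ∈ b :: t
  · obtain ⟨z, h1, h2⟩ := h
    exact Or.inr (head_mem hs ht hab h1 h2)
  · push Not at h
    by_cases hb : b ∈ a :: s
    · exact Or.inr hb
    left
    intro x hx y hy
    refine ⟨?_, ?_, ?_⟩
    · rintro rfl
      exact h x hx hy
    · -- `arr x y`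
      intro hxy
      obtain ⟨s₁, s₂, h1⟩ := List.append_of_mem hx
      obtain ⟨t₁, t₂, h2⟩ := List.append_of_mem hy
      rcases List.eq_nil_or_concat t₁ with h3 | ⟨t', c, h3⟩
      · subst h3
        have hby : b = y := (List.cons_eq_cons.mp h2).1
        subst hby
        rcases s₂ with _ | ⟨d, s₂⟩
        · have hxl : x = l := by
            rw [h1] at hl
            have := congrArg List.getLast? hl
            simpa using this
          rw [hxl] at hxy
          exact absurd hbl (not_le.mpr (LinQ.lt_of_arr hxy))
        · rw [h1] at hs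
          have h4 := (List.isChain_append.mp hs).2.1
          rw [List.isChain_cons_cons] at h4
          have := LinQ.succ_unique h4.1 hxy
          apply hb
          rw [h1, ← this]; simp
      · rw [List.concat_eq_append] at h3
        subst h3
        have h4 : (b :: t) = t' ++ c :: y :: t₂ := by rw [h2]; simp
        rw [h4] at ht
        have h5 := (List.isChain_append.mp ht).2.1
        rw [List.isChain_cons_cons] at h5
        have := LinQ.pred_unique h5.1 hxy
        apply h x hx
        rw [h4, ← this]; simp
    · -- `arr y x`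
      intro hyx
      obtain ⟨s₁, s₂, h1⟩ := List.append_of_mem hx
      rcases List.eq_nil_or_concat s₁ with h3 | ⟨s'', c, h3⟩
      · subst h3
        have hax : a = x := (List.cons_eq_cons.mp h1).1
        have hby : b ≤ y := by
          rcases List.mem_cons.mp hy with h4 | h4
          · exact h4.ge
          · exact (lt_of_mem_tail ht y h4).le
        have hyx' := LinQ.lt_of_arr hyx
        exact absurd (lt_of_lt_of_le hyx' (hax ▸ hab |>.trans hby)) (lt_irrefl _)
      · rw [List.concat_eq_append] at h3
        subst h3
        have h4 : (a :: s) = s'' ++ c :: x :: s₂ := by rw [h1]; simp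
        rw [h4] at hs
        have h5 := (List.isChain_append.mp hs).2.1
        rw [List.isChain_cons_cons] at h5
        have := LinQ.pred_unique h5.1 hyx
        apply h c
        · rw [h4]; simp
        · rw [this]; exact hy

/-- unlinked chains: the root vectors commute -/
theorem EE_unlinked {a b : I} {s t : List I} (hs : (a :: s).IsChain arr)
    (ht : (b :: t).IsChain arr) (hab : a ≤ b) {s' : List I} {l : I} (hl : a :: s = s' ++ [l])
    (hbl : b ≤ l) : br (EE (a :: s)) (EE (b :: t)) = 0 := by
  rcases far_or_mem hs ht hab hl hbl with h | h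
  · apply EE_comm
    intro c hc
    apply EE_comm'
    intro d hd
    exact ue_far (h c hc d hd)
  · obtain ⟨s₁, r, h1⟩ := List.append_of_mem h
    have hr : (b :: r).IsChain arr := by
      rw [h1] at hs
      exact (List.isChain_append.mp hs).2.1
    have hgs := good_of_chain hs
    rcases chain_prefix hr ht with ⟨q, hq⟩ | ⟨q, hq, hq'⟩
    · exact EE_nested (p := s₁) (q := q) hgs (by rw [h1, hq]; simp)
    · subst hq'
      -- `t = r ++ q`
      have hbig : (s₁ ++ (b :: r) ++ q).IsChain arr := by
        rw [List.append_assoc, List.cons_append, List.isChain_append]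
        rw [h1] at hs
        rw [List.isChain_append] at hs
        exact ⟨hs.1, ht, fun x hx y hy => hs.2.2 x hx y (by simpa using hy)⟩
      have hgb := good_of_chain hbig
      have hgt := good_of_chain ht
      have e1 : EE (b :: (r ++ q)) = br (EE (b :: r)) (EE q) := by
        have := EE_append (s := b :: r) (t := q) (by simp) hq (by simpa using hgt)
        simpa using this
      have e2 : EE (s₁ ++ (b :: r) ++ q) = br (EE (a :: s)) (EE q) := by
        rw [h1]
        exact EE_append (by simp) hq hgb
      have e3 : br (EE (a :: s)) (EE (b :: r)) = 0 :=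
        EE_nested (p := s₁) (q := []) hgs (by rw [h1]; simp)
      have e4 : br (EE (s₁ ++ (b :: r) ++ q)) (EE (b :: r)) = 0 :=
        EE_nested (p := s₁) (q := q) hgb rfl
      have e5 := br_br (EE (a :: s)) (EE (b :: r)) (EE q)
      rw [e3, zero_br] at e5
      have e6 : br (EE (a :: s)) (br (EE (b :: r)) (EE q)) =
          br (EE (b :: r)) (br (EE (a :: s)) (EE q)) := by
        have := sub_eq_zero.mp e5.symm
        exact this
      rw [e1, e6, ← e2]
      exact br_zero_symm e4

/-! ### dead prefixes -/

/-- `f` vanishes on all words with prefix `p` -/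
def dead (f : FF I) (p : List I) : Prop := ∀ q, f.1 (p ++ q) = 0

variable (I) in
/-- the subring generated by the letters -/
def U0 : Subring (UU I) := Subring.closure (Set.range ue)

theorem ue_mem (c : I) : ue c ∈ U0 I := Subring.subset_closure ⟨c, rfl⟩

theorem br_mem {x y : UU I} (hx : x ∈ U0 I) (hy : y ∈ U0 I) : br x y ∈ U0 I :=
  Subring.sub_mem _ (Subring.mul_mem _ hx hy) (Subring.mul_mem _ hy hx)

theorem EE_mem_U0 (s : List I) : EE s ∈ U0 I := by
  induction s using List.reverseRecOn with
  | nil => exact Subring.zero_mem _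
  | append_singleton s b ih =>
    by_cases hs : s = []
    · subst hs; rw [List.nil_append, EE_single]; exact ue_mem b
    · rw [EE_concat hs]; exact br_mem ih (ue_mem b)

theorem dead_apply {X : UU I} (hX : X ∈ U0 I) {f : FF I} {p : List I} (h : dead f p) :
    dead (X f) p := by
  unfold U0 at hX
  induction hX using Subring.closure_induction generalizing f with
  | mem X hX =>
    obtain ⟨c, rfl⟩ := hX
    intro q
    have := h (q ++ [c])
    rw [ue_apply, List.append_assoc]
    exact this
  | zero => intro q; rfl
  | one => exact h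
  | add X Y _ _ hX hY =>
    intro q
    have h1 := hX h q
    have h2 := hY h q
    show (X f).1 _ + (Y f).1 _ = 0
    rw [h1, h2, add_zero]
  | neg X _ hX =>
    intro q
    have h1 := hX h q
    show -(X f).1 _ = 0
    rw [h1, neg_zero]
  | mul X Y _ _ hX hY => exact hX (hY h)

theorem dead.mono {f : FF I} {p : List I} (h : dead f p) (q : List I) : dead f (p ++ q) := by
  intro r
  rw [List.append_assoc]
  exact h _

/-- the leading term of a root vector -/
theorem EE_lead {f : FF I} {p s : List I} (hs : s ≠ []) (hd : ∀ c ∈ s.tail, dead f (p ++ [c]))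
    {X : UU I} (hX : X ∈ U0 I) : ((EE s * X) f).1 p = (X f).1 (p ++ s) := by
  induction s using List.reverseRecOn generalizing X with
  | nil => exact absurd rfl hs
  | append_singleton s b ih =>
    by_cases hs' : s = []
    · subst hs'
      rw [List.nil_append, EE_single]
      rfl
    · rw [EE_concat hs']
      have htail : (s ++ [b]).tail = s.tail ++ [b] := List.tail_append_of_ne_nil hs'
      have h1 := ih hs' (fun c hc => hd c (by rw [htail]; simp [hc]))
        (X := ue b * X) (Subring.mul_mem _ (ue_mem b) hX)
      have h2 : ((ue b * (EE s * X)) f).1 p = 0 := by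
        rw [ue_mul_apply]
        have h3 := dead_apply (Subring.mul_mem _ (EE_mem_U0 s) hX)
          (hd b (by rw [htail]; simp)) []
        rw [List.append_nil] at h3
        exact h3
      have h4 : br (EE s) (ue b) * X = EE s * (ue b * X) - ue b * (EE s * X) := by
        unfold br; noncomm_ring
      rw [h4]
      show ((EE s * (ue b * X)) f).1 p - ((ue b * (EE s * X)) f).1 p = _
      rw [h1, h2, sub_zero, ue_mul_apply, List.append_assoc]

/-- the root vector vanishes if all its letters are dead -/
theorem EE_dead {f : FF I} {p s : List I} (hd : ∀ c ∈ s, dead f (p ++ [c]))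
    {X : UU I} (hX : X ∈ U0 I) : ((EE s * X) f).1 p = 0 := by
  rcases s with _ | ⟨a, s⟩
  · have : EE ([] : List I) * X = 0 := zero_mul _
    rw [this]; rfl
  · rw [EE_lead (by simp) (fun c hc => hd c (by simp at hc; simp [hc])) hX]
    have h1 := dead_apply hX (hd a (by simp)) s
    rw [List.append_assoc] at h1
    exact h1

/-- words as products -/
def wdU (w : List I) : UU I := (w.map ue).prod

theorem wdU_mem (w : List I) : wdU w ∈ U0 I := by
  apply Subring.list_prod_mem
  intro x hx
  rw [List.mem_map] at hx
  obtain ⟨c, -, rfl⟩ := hx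
  exact ue_mem c

theorem wdU_apply (w : List I) (f : FF I) (p : List I) : ((wdU w) f).1 p = f.1 (p ++ w) := by
  induction w generalizing p with
  | nil => simp [wdU]
  | cons c w ih =>
    have : wdU (c :: w) = ue c * wdU w := by simp [wdU]
    rw [this, ue_mul_apply, ih]
    simp

/-- `w` is the largest word of `f` -/
def IsMaxW (f : FF I) (w : List I) : Prop := f.1 w ≠ 0 ∧ ∀ u, w < u → f.1 u = 0

theorem IsMaxW.dead {f : FF I} {p : List I} {a : I} {q : List I}
    (h : IsMaxW f (p ++ a :: q)) {c : I} (hc : a < c) : dead f (p ++ [c]) := by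
  intro r
  apply h.2
  rw [List.append_assoc]
  apply List.append_left_lt
  rw [List.singleton_append, List.cons_lt_cons_iff]
  exact Or.inl hc

/-- decomposition into maximal runs -/
theorem exists_runs (w : List I) : ∃ ss : List (List I), ss.flatten = w ∧
    (∀ s ∈ ss, s.IsChain arr ∧ s ≠ []) ∧
    ss.IsChain (fun s t => ∀ x ∈ s.getLast?, ∀ y ∈ t.head?, ¬ arr x y) := by
  induction w with
  | nil => exact ⟨[], rfl, by simp, List.isChain_nil⟩
  | cons a w ih =>
    obtain ⟨ss, h1, h2, h3⟩ := ih
    rcases ss with _ | ⟨s, ss⟩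
    · refine ⟨[[a]], by rw [← h1]; rfl, ?_, by simp⟩
      intro s hs
      rw [List.mem_singleton] at hs
      subst hs
      exact ⟨by simp, by simp⟩
    · rcases s with _ | ⟨b, r⟩
      · exact absurd rfl (h2 [] (by simp)).2
      · by_cases hab : arr a b
        · refine ⟨(a :: b :: r) :: ss, by rw [← h1]; rfl, ?_, ?_⟩
          · intro s hs
            rcases List.mem_cons.mp hs with rfl | hs
            · refine ⟨?_, by simp⟩
              rw [List.isChain_cons_cons]
              exact ⟨hab, (h2 (b :: r) (by simp)).1⟩
            · exact h2 s (by simp [hs])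
          · rcases ss with _ | ⟨t, ss⟩
            · simp
            · rw [List.isChain_cons_cons] at h3 ⊢
              refine ⟨?_, h3.2⟩
              intro x hx
              apply h3.1 x
              simpa using hx
        · refine ⟨[a] :: (b :: r) :: ss, by rw [← h1]; rfl, ?_, ?_⟩
          · intro s hs
            rcases List.mem_cons.mp hs with rfl | hs
            · exact ⟨by simp, by simp⟩
            · exact h2 s hs
          · rw [List.isChain_cons_cons]
            refine ⟨?_, h3⟩
            intro x hx y hy
            simp at hx hy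
            subst hx hy
            exact hab

/-- The largest word of a Serre function is a nonincreasing concatenation of chains. -/
theorem max_sorted {f : FF I} {w : List I} (h : IsMaxW f w) :
    ∃ ss, SC ss ∧ ss.flatten = w := by
  obtain ⟨ss, h1, h2, h3⟩ := exists_runs w
  refine ⟨ss, ⟨h2, ?_⟩, h1⟩
  rw [← List.isChain_iff_pairwise]
  rw [List.isChain_iff_forall_rel_of_append_cons_cons] at h3 ⊢
  intro s t l₁ l₂ hsplit
  have h4 := h3 hsplit
  have hcs := h2 s (by rw [hsplit]; simp)
  have hct := h2 t (by rw [hsplit]; simp)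
  obtain ⟨p, hp⟩ : ∃ p, p = l₁.flatten := ⟨_, rfl⟩
  obtain ⟨q, hq⟩ : ∃ q, q = l₂.flatten := ⟨_, rfl⟩
  have hw : w = p ++ (s ++ (t ++ q)) := by
    rw [← h1, hsplit]
    simp [hp, hq]
  clear hsplit hp hq h3 h2 h1
  by_contra hlt
  rw [not_le] at hlt
  subst hw
  obtain ⟨a, s, rfl⟩ := List.exists_cons_of_ne_nil hcs.2
  obtain ⟨b, t, rfl⟩ := List.exists_cons_of_ne_nil hct.2
  obtain ⟨s', l, hl⟩ := exists_concat hcs.2
  -- the last letter of `s` is at least the head of `t`
  have hbl : b ≤ l := by
    by_contra hbl
    rw [not_le] at hbl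
    have hnot : ¬ arr l b := h4 l (by rw [hl]; simp) b (by simp)
    have hfar : far l b := ⟨hbl.ne, hnot, fun h' => lt_asymm hbl (LinQ.lt_of_arr h')⟩
    have h5 := f.2.1 (p ++ s') l b (t ++ q) hfar
    have e1 : p ++ (a :: s ++ (b :: t ++ q)) = (p ++ s') ++ l :: b :: (t ++ q) := by
      rw [hl]; simp
    have h6 : f.1 ((p ++ s') ++ b :: l :: (t ++ q)) = 0 := by
      apply h.2
      rw [e1]
      apply List.append_left_lt
      rw [List.cons_lt_cons_iff]
      exact Or.inl hbl
    rw [h6, ← e1] at h5
    exact h.1 h5
  have hab : a ≤ b := by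
    rw [List.cons_lt_cons_iff] at hlt
    rcases hlt with h5 | h5
    · exact h5.le
    · exact h5.1.le
  have hcomm := comm_of_br (EE_unlinked hcs.1 hct.1 hab hl hbl)
  have hs_lt := lt_of_mem_tail hcs.1
  have ht_lt := lt_of_mem_tail hct.1
  -- evaluate both sides
  have hw1 : p ++ (a :: s ++ (b :: t ++ q)) = p ++ a :: (s ++ (b :: t ++ q)) := by simp
  have hw2 : p ++ (a :: s ++ (b :: t ++ q)) = (p ++ a :: s) ++ b :: (t ++ q) := by simp
  have h1' := h
  rw [hw1] at h1'
  have h2' := h
  rw [hw2] at h2'
  have v1 : ((EE (a :: s) * (EE (b :: t) * wdU q)) f).1 p =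
      f.1 (p ++ (a :: s ++ (b :: t ++ q))) := by
    rw [EE_lead (by simp) (fun c hc => h1'.dead (hs_lt c (by simpa using hc)))
      (Subring.mul_mem _ (EE_mem_U0 _) (wdU_mem q)),
      EE_lead (by simp) (fun c hc => h2'.dead (ht_lt c (by simpa using hc))) (wdU_mem q),
      wdU_apply]
    simp
  have v2 : ((EE (b :: t) * (EE (a :: s) * wdU q)) f).1 p = 0 := by
    rcases lt_or_eq_of_le hab with h5 | h5
    · apply EE_dead _ (Subring.mul_mem _ (EE_mem_U0 _) (wdU_mem q))
      intro c hc
      apply h1'.dead
      rcases List.mem_cons.mp hc with rfl | hc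
      · exact h5
      · exact lt_trans h5 (ht_lt c hc)
    · subst h5
      -- `s` is a proper prefix of `t`
      rcases chain_prefix hcs.1 hct.1 with ⟨r, hr⟩ | ⟨r, hr, hr'⟩
      · exfalso
        rw [hr, List.cons_lt_cons_iff] at hlt
        rcases hlt with h6 | ⟨-, h6⟩
        · exact lt_irrefl _ h6
        · have : t ≤ t ++ r := by
            have := List.append_left_le (l₁ := t) (l₂ := []) (l₃ := r) (by
              rw [List.le_iff_lt_or_eq]
              rcases r with _ | ⟨x, r⟩
              · right; rfl
              · left; exact List.nil_lt_cons _ _)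
            rw [List.append_nil] at this
            rw [← not_lt]
            intro h7
            exact this h7
          exact absurd h6 (not_lt.mpr this)
      · rw [EE_lead (by simp) (fun c hc => h1'.dead (ht_lt c (by simpa using hc)))
          (Subring.mul_mem _ (EE_mem_U0 _) (wdU_mem q))]
        obtain ⟨x, r, rfl⟩ := List.exists_cons_of_ne_nil hr
        have hx : a < x := ht_lt x (by rw [hr']; simp)
        have hdx : dead f ((p ++ a :: s) ++ [x]) := h2'.dead hx
        have h6 := dead_apply (Subring.mul_mem _ (EE_mem_U0 (a :: s)) (wdU_mem q)) hdx r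
        rw [hr']
        have e2 : p ++ a :: (s ++ x :: r) = p ++ a :: s ++ [x] ++ r := by simp
        rw [e2]
        exact h6
  rw [← mul_assoc, hcomm, mul_assoc, v2] at v1
  exact h.1 v1.symm

end Pool.Agent.H159
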