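import Pool.Agent.H159.SerreDim

/-!
# A lower bound for word dimensions coming from equal neighbours
-/

set_option linter.unusedSectionVars false
set_option linter.unusedSimpArgs false

namespace Pool.Agent.H159

open KQuiver

variable {k I V : Type} [Field k] [KQuiver I] [AddCommGroup V] [Module k V]

/-- counting Jordan blocks -/
theorem jordan_bound [Module.Finite k V] (T : Module.End k V) (Y Y' : Submodule k V)
    (h1 : ∀ y ∈ Y', T y ∈ Y') (n : ℕ) (h2 : ∀ y ∈ Y, T y = 0)
    (h3 : ∀ y ∈ Y, ∃ z ∈ Y', (T ^ n) z = y) :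
    (n + 1) * Module.finrank k Y ≤ Module.finrank k Y' := by
  have hpow : ∀ m : ℕ, ∀ y ∈ Y', (T ^ m) y ∈ Y' := by
    intro m
    induction m with
    | zero => intro y hy; simpa using hy
    | succ m ih =>
      intro y hy
      rw [pow_succ', Module.End.mul_apply]
      exact h1 _ (ih y hy)
  have key : ∀ i, i ≤ n + 1 →
      Module.finrank k (Y'.map (T ^ i)) + i * Module.finrank k Y ≤ Module.finrank k Y' := by
    intro i
    induction i with
    | zero =>
      intro _
      have : Y'.map (T ^ 0) = Y' := by
        rw [pow_zero]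
        exact Submodule.map_id Y'
      rw [this]
      simp
    | succ i ih =>
      intro hi
      have h4 := ih (by omega)
      have h5 := rank_split (Y'.map (T ^ i)) T
      have h6 : (Y'.map (T ^ i)).map T = Y'.map (T ^ (i + 1)) := by
        rw [← Submodule.map_comp, pow_succ']
        rfl
      have h7 : Y ≤ Y'.map (T ^ i) ⊓ LinearMap.ker T := by
        intro y hy
        refine ⟨?_, h2 y hy⟩
        obtain ⟨z, hz, rfl⟩ := h3 y hy
        refine ⟨(T ^ (n - i)) z, hpow _ z hz, ?_⟩
        rw [← Module.End.mul_apply, ← pow_add]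
        congr 2
        omega
      have h8 := Submodule.finrank_mono h7
      rw [h6] at h5
      rw [add_mul, one_mul]
      omega
  have h9 := key (n + 1) le_rfl
  have : (n + 1) * Module.finrank k Y ≤ Module.finrank k Y' := by omega
  exact this

variable (O : Ops k I V)

/-- the algebra of the dots and some of the crossings -/
def sAlg (S : Set ℕ) : Subalgebra k (Module.End k V) :=
  Algebra.adjoin k ({X | ∃ j, X = O.x j} ∪ {X | ∃ i ∈ S, X = O.t i})

/-- the submodule generated by a vector -/
def sY (S : Set ℕ) (v : V) : Submodule k V :=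
  (Subalgebra.toSubmodule (sAlg O S)).map (LinearMap.applyₗ v)

variable {O}

theorem mem_sY {S : Set ℕ} {v y : V} : y ∈ sY O S v ↔ ∃ a ∈ sAlg O S, a v = y := Iff.rfl

theorem sAlg_x (S : Set ℕ) (j : ℕ) : O.x j ∈ sAlg O S :=
  Algebra.subset_adjoin (Or.inl ⟨j, rfl⟩)

theorem sAlg_t {S : Set ℕ} {i : ℕ} (h : i ∈ S) : O.t i ∈ sAlg O S :=
  Algebra.subset_adjoin (Or.inr ⟨i, h, rfl⟩)

theorem sAlg_mono {S S' : Set ℕ} (h : S ⊆ S') : sAlg O S ≤ sAlg O S' := by
  apply Algebra.adjoin_mono
  apply Set.union_subset_union_right
  rintro X ⟨i, hi, rfl⟩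
  exact ⟨i, h hi, rfl⟩

theorem sAlg_comm {S : Set ℕ} {q : ℕ} (h : ∀ i ∈ S, i + 1 < q) {a : Module.End k V}
    (ha : a ∈ sAlg O S) : O.x q * a = a * O.x q := by
  unfold sAlg at ha
  induction ha using Algebra.adjoin_induction with
  | mem X hX =>
    rcases hX with ⟨j, rfl⟩ | ⟨i, hi, rfl⟩
    · exact O.x_x q j
    · have := h i hi
      exact (O.t_x i q (by omega) (by omega)).symm
  | algebraMap c => exact (Algebra.commutes c _).symm
  | add a b _ _ ha hb => rw [mul_add, add_mul, ha, hb]
  | mul a b _ _ ha hb => rw [← mul_assoc, ha, mul_assoc, hb, mul_assoc]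

/-- adding one strand -/
theorem nil_step [Module.Finite k V] {p r : List I} {c : I} {n : ℕ} {v : V}
    (hv : O.Hom (p ++ (List.replicate (n + 1) c ++ r)) v) (hx : ∀ j, O.x j v = 0)
    {S S' : Set ℕ} (hS : ∀ i ∈ S, i + 1 < p.length + n) (hSS : S ⊆ S')
    (hS' : ∀ i, p.length ≤ i → i < p.length + n → i ∈ S') :
    (n + 1) * Module.finrank k (sY O S v) ≤ Module.finrank k (sY O S' v) := by
  have key : ∀ i, i ≤ n → ∃ a ∈ sAlg O S', O.Hom (p ++ (List.replicate (n + 1) c ++ r)) (a v) ∧
      (∀ j, p.length + i < j → O.x j (a v) = 0) ∧ ((O.x (p.length + i)) ^ i) (a v) = v := by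
    intro i
    induction i with
    | zero =>
      intro _
      exact ⟨1, Subalgebra.one_mem _, hv, fun j _ => hx j, rfl⟩
    | succ i ih =>
      intro hi
      obtain ⟨a, ha, h1, h2, h3⟩ := ih (by omega)
      obtain ⟨m, hm⟩ : ∃ m, m = p.length + i := ⟨_, rfl⟩
      obtain ⟨p1, q1, hp1, hl⟩ : ∃ p1 q1 : List I, p1.length = m ∧
          p ++ (List.replicate (n + 1) c ++ r) = p1 ++ c :: c :: q1 := by
        refine ⟨p ++ List.replicate i c, List.replicate (n - i - 1) c ++ r, by simp [hm], ?_⟩
        have : n + 1 = i + (n - i - 1 + 1 + 1) := by omega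
        rw [this, List.replicate_add, List.replicate_succ, List.replicate_succ]
        simp
      have h1' := h1
      rw [hl] at h1'
      have hpow : ∀ e : ℕ, O.Hom (p1 ++ c :: c :: q1) (((O.x m) ^ e) (a v)) := by
        intro e
        induction e with
        | zero => simpa using h1'
        | succ e ihe =>
          rw [pow_succ', Module.End.mul_apply]
          exact ihe.x m
      have hxm : O.x (m + 1) (a v) = 0 := h2 _ (by omega)
      have hkill : ∀ e : ℕ, O.x (m + 1) (((O.x m) ^ e) (a v)) = 0 := by
        intro e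
        induction e with
        | zero => simpa using hxm
        | succ e ihe =>
          rw [pow_succ', Module.End.mul_apply, Ops.x_comm, ihe, map_zero]
      have hmain : ∀ e : ℕ, ((O.x (m + 1)) ^ (e + 1)) (O.t m (a v)) =
          O.t m (((O.x m) ^ (e + 1)) (a v)) + ((O.x m) ^ e) (a v) := by
        intro e
        induction e with
        | zero =>
          rw [zero_add, pow_one, pow_one, pow_zero, Ops.xt_apply h1' hp1]
          simp [dlt]
        | succ e ihe =>
          rw [pow_succ', Module.End.mul_apply, ihe, map_add, hkill, add_zero,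
            Ops.xt_apply (hpow (e + 1)) hp1]
          rw [pow_succ' (O.x m) (e + 1), Module.End.mul_apply]
          simp [dlt]
      refine ⟨O.t m * a, Subalgebra.mul_mem _ (sAlg_t (hS' m (by omega) (by omega))) ha,
        ?_, ?_, ?_⟩
      · rw [Module.End.mul_apply, hl]
        exact h1'.t hp1
      · intro j hj
        rw [Module.End.mul_apply, ← Ops.t_x_comm (i := m) (j := j) (by omega) (by omega),
          h2 j (by omega), map_zero]
      · have e1 : p.length + (i + 1) = m + 1 := by omega
        rw [e1, Module.End.mul_apply, hmain, pow_succ', Module.End.mul_apply]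
        rw [← hm] at h3
        rw [h3, hx, map_zero, zero_add]
  obtain ⟨a, ha, -, -, h3⟩ := key n le_rfl
  have hcomm : ∀ b ∈ sAlg O S, O.x (p.length + n) * b = b * O.x (p.length + n) :=
    fun b hb => sAlg_comm hS hb
  apply jordan_bound (O.x (p.length + n)) (sY O S v) (sY O S' v)
  · rintro y hy
    obtain ⟨b, hb, rfl⟩ := mem_sY.mp hy
    exact mem_sY.mpr ⟨O.x (p.length + n) * b, Subalgebra.mul_mem _ (sAlg_x _ _) hb, rfl⟩
  · rintro y hy
    obtain ⟨b, hb, rfl⟩ := mem_sY.mp hy
    rw [← Module.End.mul_apply, hcomm b hb, Module.End.mul_apply, hx, map_zero]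
  · rintro y hy
    obtain ⟨b, hb, rfl⟩ := mem_sY.mp hy
    refine ⟨(b * a) v, mem_sY.mpr ⟨b * a, Subalgebra.mul_mem _ (sAlg_mono hSS hb) ha, rfl⟩, ?_⟩
    have hc : Commute (O.x (p.length + n)) b := hcomm b hb
    have hc2 := hc.pow_left n
    rw [← Module.End.mul_apply, ← mul_assoc, hc2.eq, mul_assoc, Module.End.mul_apply,
      Module.End.mul_apply, h3]

/-- adding one block -/
theorem nil_block [Module.Finite k V] {p r : List I} {c : I} {m : ℕ} {v : V}
    (hv : O.Hom (p ++ (List.replicate m c ++ r)) v) (hx : ∀ j, O.x j v = 0)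
    {S : Set ℕ} (hS : ∀ i ∈ S, i + 1 < p.length) (j : ℕ) : j + 1 ≤ m →
    (j + 1).factorial * Module.finrank k (sY O S v) ≤
      Module.finrank k (sY O (S ∪ {i | p.length ≤ i ∧ i < p.length + j}) v) := by
  induction j with
  | zero =>
    intro _
    rw [zero_add, Nat.factorial_one, one_mul]
    apply Submodule.finrank_mono
    apply Submodule.map_mono
    exact sAlg_mono Set.subset_union_left
  | succ j ih =>
    intro hj
    have h1 := ih (by omega)
    have e : m = (j + 1 + 1) + (m - (j + 1 + 1)) := by omega
    have hv' : O.Hom (p ++ (List.replicate (j + 1 + 1) c ++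
        (List.replicate (m - (j + 1 + 1)) c ++ r))) v := by
      have e2 : p ++ (List.replicate m c ++ r) = p ++ (List.replicate (j + 1 + 1) c ++
          (List.replicate (m - (j + 1 + 1)) c ++ r)) := by
        conv_lhs => rw [e, List.replicate_add]
        rw [List.append_assoc]
      rw [← e2]
      exact hv
    have h2 := nil_step hv' hx (S := S ∪ {i | p.length ≤ i ∧ i < p.length + j})
      (S' := S ∪ {i | p.length ≤ i ∧ i < p.length + (j + 1)})
      (by
        rintro i (hi | ⟨hi, hi'⟩)
        · have := hS i hi; omega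
        · omega)
      (by
        rintro i (hi | ⟨hi, hi'⟩)
        · exact Or.inl hi
        · exact Or.inr ⟨hi, by omega⟩)
      (by
        intro i hi hi'
        exact Or.inr ⟨hi, hi'⟩)
    rw [Nat.factorial_succ (j + 1)]
    calc (j + 1 + 1) * (j + 1).factorial * Module.finrank k (sY O S v)
        = (j + 1 + 1) * ((j + 1).factorial * Module.finrank k (sY O S v)) := by ring
      _ ≤ (j + 1 + 1) *
          Module.finrank k (sY O (S ∪ {i | p.length ≤ i ∧ i < p.length + j}) v) :=
        Nat.mul_le_mul_left _ h1
      _ ≤ _ := h2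

/-- words made of blocks of equal letters -/
def blkw (L : List (I × ℕ)) : List I := L.flatMap (fun q => List.replicate q.2 q.1)

theorem nil_blocks [Module.Finite k V] {l : List I} {v : V} (hv : O.Hom l v)
    (hx : ∀ j, O.x j v = 0) (L : List (I × ℕ)) : ∀ (p : List I) (S : Set ℕ),
    l = p ++ blkw L → (∀ i ∈ S, i + 1 < p.length) →
    (∀ i ∈ S, ∀ y, O.Hom l y → O.Hom l (O.t i y)) →
    ∃ S' : Set ℕ, (∀ i ∈ S', ∀ y, O.Hom l y → O.Hom l (O.t i y)) ∧
      (L.map (fun q => q.2.factorial)).prod * Module.finrank k (sY O S v) ≤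
        Module.finrank k (sY O S' v) := by
  induction L with
  | nil =>
    intro p S _ _ hS
    exact ⟨S, hS, by simp⟩
  | cons q L ih =>
    obtain ⟨c, m⟩ := q
    intro p S hl hS hS'
    have hl2 : l = p ++ (List.replicate m c ++ blkw L) := by
      rw [hl]; simp [blkw]
    have hl3 : l = (p ++ List.replicate m c) ++ blkw L := by
      rw [hl2]; simp
    rcases m with _ | m
    · obtain ⟨S', h1, h2⟩ := ih (p ++ List.replicate 0 c) S hl3 (by simpa using hS) hS'
      exact ⟨S', h1, by simpa using h2⟩
    · have h3 := nil_block (m := m + 1) (by rw [← hl2]; exact hv) hx hS m le_rfl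
      obtain ⟨S', h1, h2⟩ := ih (p ++ List.replicate (m + 1) c)
        (S ∪ {i | p.length ≤ i ∧ i < p.length + m}) hl3
        (by
          rintro i (hi | ⟨hi, hi'⟩)
          · have := hS i hi
            rw [List.length_append]
            omega
          · rw [List.length_append, List.length_replicate]
            omega)
        (by
          rintro i (hi | ⟨hi, hi'⟩) y hy
          · exact hS' i hi y hy
          · obtain ⟨p1, q1, hp1, hl4⟩ : ∃ p1 q1 : List I, p1.length = i ∧
                l = p1 ++ c :: c :: q1 := by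
              refine ⟨p ++ List.replicate (i - p.length) c,
                List.replicate (m - (i - p.length) - 1) c ++ blkw L, ?_, ?_⟩
              · rw [List.length_append, List.length_replicate]
                omega
              · rw [hl2]
                have : m + 1 = (i - p.length) + ((m - (i - p.length) - 1) + 1 + 1) := by omega
                rw [this, List.replicate_add, List.replicate_succ, List.replicate_succ]
                simp
            rw [hl4] at hy ⊢
            exact hy.t hp1)
      refine ⟨S', h1, le_trans ?_ h2⟩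
      rw [List.map_cons, List.prod_cons]
      calc (m + 1).factorial * (L.map (fun q => q.2.factorial)).prod *
            Module.finrank k (sY O S v)
          = (L.map (fun q => q.2.factorial)).prod *
            ((m + 1).factorial * Module.finrank k (sY O S v)) := by ring
        _ ≤ _ := Nat.mul_le_mul_left _ h3

theorem sY_le {l : List I} {v : V} (hv : O.Hom l v) {S : Set ℕ}
    (hS : ∀ i ∈ S, ∀ y, O.Hom l y → O.Hom l (O.t i y)) : sY O S v ≤ wsp O l := by
  intro y hy
  obtain ⟨a, ha, rfl⟩ := mem_sY.mp hy
  rw [mem_wsp]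
  have key : ∀ y, O.Hom l y → O.Hom l (a y) := by
    unfold sAlg at ha
    induction ha using Algebra.adjoin_induction with
    | mem X hX =>
      rcases hX with ⟨j, rfl⟩ | ⟨i, hi, rfl⟩
      · exact fun y hy => hy.x j
      · exact hS i hi
    | algebraMap c =>
      intro y hy
      rw [Module.algebraMap_end_apply]
      exact mem_wsp.mp (Submodule.smul_mem _ c (mem_wsp.mpr hy))
    | add a b _ _ ha hb =>
      intro y hy
      exact mem_wsp.mp (Submodule.add_mem _
        (mem_wsp.mpr (ha (mem_sY.mpr ⟨a, by assumption, rfl⟩) y hy))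
        (mem_wsp.mpr (hb (mem_sY.mpr ⟨b, by assumption, rfl⟩) y hy)))
    | mul a b _ _ ha hb =>
      intro y hy
      exact ha (mem_sY.mpr ⟨a, by assumption, rfl⟩) _
        (hb (mem_sY.mpr ⟨b, by assumption, rfl⟩) y hy)
  exact key v hv

/-- The lower bound. -/
theorem nil_bound [Module.Finite k V] (L : List (I × ℕ)) {v : V} (hv : O.Hom (blkw L) v)
    (hx : ∀ j, O.x j v = 0) (hv0 : v ≠ 0) :
    (((L.map (fun q => q.2.factorial)).prod : ℕ) : ℤ) ≤ wdm O (blkw L) := by
  obtain ⟨S', h1, h2⟩ := nil_blocks hv hx L [] ∅ rfl (by simp) (by simp)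
  have h3 := Submodule.finrank_mono (sY_le hv h1)
  have h4 : 1 ≤ Module.finrank k (sY O ∅ v) := by
    have h5 : v ∈ sY O ∅ v := mem_sY.mpr ⟨1, Subalgebra.one_mem _, rfl⟩
    have : Nontrivial (sY O ∅ v) := ⟨⟨⟨v, h5⟩, 0, fun h => hv0 (congrArg Subtype.val h)⟩⟩
    exact Module.finrank_pos
  unfold wdm
  have h5 := Nat.mul_le_mul_left (L.map (fun q => q.2.factorial)).prod h4
  rw [mul_one] at h5
  exact_mod_cast le_trans h5 (le_trans h2 h3)

/-- the blocks of the sorted word -/
def blkL (bs : List (List I × ℕ)) : List (I × ℕ) :=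
  bs.flatMap (fun q => q.1.map (fun c => (c, q.2)))

theorem blkw_blkL (bs : List (List I × ℕ)) : blkw (blkL bs) = bn bs := by
  induction bs with
  | nil => rfl
  | cons q bs ih =>
    have h1 : blkL (q :: bs) = q.1.map (fun c => (c, q.2)) ++ blkL bs := by simp [blkL]
    have h2 : ∀ A B : List (I × ℕ), blkw (A ++ B) = blkw A ++ blkw B := by
      intro A B; simp [blkw]
    rw [h1, h2, ih, bn]
    congr 1
    unfold nw blkw
    rw [List.flatMap_map]

theorem blkL_prod {bs : List (List I × ℕ)} (h : ∀ q ∈ bs, q.1 ≠ []) :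
    ((blkL bs).map (fun q => q.2.factorial)).prod = bk bs * bf bs := by
  induction bs with
  | nil => rfl
  | cons q bs ih =>
    have h1 : blkL (q :: bs) = q.1.map (fun c => (c, q.2)) ++ blkL bs := by simp [blkL]
    rw [h1, List.map_append, List.prod_append, ih (fun q hq => h q (by simp [hq])), bk, bf]
    have h2 : ((q.1.map (fun c => (c, q.2))).map (fun q : I × ℕ => q.2.factorial)).prod =
        q.2.factorial ^ (q.1.length - 1) * q.2.factorial := by
      rw [List.map_map, ← pow_succ]
      have h3 := List.length_pos_iff.mpr (h q (by simp))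
      have h4 : q.1.length - 1 + 1 = q.1.length := by omega
      rw [h4]
      have h5 : ∀ s : List I, (s.map ((fun q : I × ℕ => q.2.factorial) ∘
          fun c => (c, q.2))).prod = q.2.factorial ^ s.length := by
        intro s
        induction s with
        | nil => rfl
        | cons a s ihs =>
          rw [List.map_cons, List.prod_cons, ihs, List.length_cons, pow_succ']
          rfl
      rw [h5]
    rw [h2]
    ring

end Pool.Agent.H159
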