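import Pool.Agent.H159.Base

/-!
# Representations of quiver Hecke (KLR) algebras, as families of operators

`I` is the set of vertices of a simply laced quiver without loops or 2-cycles. Words are lists
of vertices. An `Ops k I V` is an action on `V` of the idempotents `e l`, the dots `x j` and the
crossings `t j` satisfying the relations of the quiver Hecke algebra.
-/

set_option linter.unusedSectionVars false

namespace Pool.Agent.H159

open KQuiver

/-- Elements of an algebra satisfying the relations of the quiver Hecke algebra. -/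
structure AOps (k I A : Type) [CommRing k] [KQuiver I] [Ring A] [Algebra k A] where
  /-- idempotents -/
  e : List I → A
  /-- dots -/
  x : ℕ → A
  /-- crossings -/
  t : ℕ → A
  e_self : ∀ l, e l * e l = e l
  e_ne : ∀ l l', l ≠ l' → e l * e l' = 0
  x_e : ∀ j l, x j * e l = e l * x j
  x_e_zero : ∀ j l, l.length ≤ j → x j * e l = 0
  t_e : ∀ p a b q, t p.length * e (p ++ a :: b :: q) = e (p ++ b :: a :: q) * t p.length
  t_e_zero : ∀ j l, l.length ≤ j + 1 → t j * e l = 0
  x_x : ∀ i j, x i * x j = x j * x i
  t_x : ∀ i j, j ≠ i → j ≠ i + 1 → t i * x j = x j * t i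
  t_t : ∀ i j, i + 2 ≤ j → t i * t j = t j * t i
  tx : ∀ p a b q, t p.length * x (p.length + 1) * e (p ++ a :: b :: q) =
    x p.length * t p.length * e (p ++ a :: b :: q) + dlt k a b • e (p ++ a :: b :: q)
  xt : ∀ p a b q, x (p.length + 1) * t p.length * e (p ++ a :: b :: q) =
    t p.length * x p.length * e (p ++ a :: b :: q) + dlt k a b • e (p ++ a :: b :: q)
  tt : ∀ p a b q, t p.length * t p.length * e (p ++ a :: b :: q) =
    Qop a b (x p.length) (x (p.length + 1)) * e (p ++ a :: b :: q)
  br_ne : ∀ p a b c q, a ≠ c →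
    t (p.length + 1) * t p.length * t (p.length + 1) * e (p ++ a :: b :: c :: q) =
    t p.length * t (p.length + 1) * t p.length * e (p ++ a :: b :: c :: q)
  br_eq : ∀ p a b q,
    t (p.length + 1) * t p.length * t (p.length + 1) * e (p ++ a :: b :: a :: q) =
    t p.length * t (p.length + 1) * t p.length * e (p ++ a :: b :: a :: q) +
      epsk k a b • e (p ++ a :: b :: a :: q)

/-- Operators on a module satisfying the relations of the quiver Hecke algebra. -/
abbrev Ops (k I V : Type) [CommRing k] [KQuiver I] [AddCommGroup V] [Module k V] :=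
  AOps k I (Module.End k V)

theorem Qop_map {I : Type} [KQuiver I] {A B : Type*} [Ring A] [Ring B] (φ : A →+* B) (a b : I)
    (u v : A) : φ (Qop a b u v) = Qop a b (φ u) (φ v) := by
  unfold Qop
  split_ifs <;> simp

/-- Transport along an algebra homomorphism. -/
def AOps.map {k I A B : Type} [CommRing k] [KQuiver I] [Ring A] [Algebra k A] [Ring B]
    [Algebra k B] (O : AOps k I A) (φ : A →ₐ[k] B) : AOps k I B where
  e l := φ (O.e l)
  x j := φ (O.x j)
  t j := φ (O.t j)
  e_self l := by rw [← map_mul, O.e_self]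
  e_ne l l' h := by rw [← map_mul, O.e_ne l l' h, map_zero]
  x_e j l := by rw [← map_mul, O.x_e, map_mul]
  x_e_zero j l h := by rw [← map_mul, O.x_e_zero j l h, map_zero]
  t_e p a b q := by rw [← map_mul, O.t_e, map_mul]
  t_e_zero j l h := by rw [← map_mul, O.t_e_zero j l h, map_zero]
  x_x i j := by rw [← map_mul, O.x_x, map_mul]
  t_x i j h h' := by rw [← map_mul, O.t_x i j h h', map_mul]
  t_t i j h := by rw [← map_mul, O.t_t i j h, map_mul]
  tx p a b q := by
    rw [← map_mul, ← map_mul, O.tx, map_add, map_smul, map_mul, map_mul]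
  xt p a b q := by
    rw [← map_mul, ← map_mul, O.xt, map_add, map_smul, map_mul, map_mul]
  tt p a b q := by
    have := Qop_map (φ : A →+* B) a b (O.x p.length) (O.x (p.length + 1))
    simp only [RingHom.coe_coe] at this
    rw [← map_mul, ← map_mul, O.tt, map_mul, this]
  br_ne p a b c q h := by
    simp only [← map_mul]
    rw [O.br_ne p a b c q h]
  br_eq p a b q := by
    simp only [← map_mul]
    rw [O.br_eq p a b q, map_add, map_smul]

namespace Ops

variable {k I V : Type} [CommRing k] [KQuiver I] [AddCommGroup V] [Module k V] (O : Ops k I V)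

/-- a vector is homogeneous if it lies in the image of one idempotent -/
def Hom (l : List I) (y : V) : Prop := O.e l y = y

variable {O}

theorem Hom.e_ne {l l' : List I} {y : V} (h : O.Hom l y) (hl : l' ≠ l) : O.e l' y = 0 := by
  have h1 := congrArg (fun z : Module.End k V => z y) (O.e_ne l' l hl)
  simp only [Module.End.mul_apply] at h1
  rw [h] at h1
  simpa using h1

theorem Hom.x {l : List I} {y : V} (h : O.Hom l y) (j : ℕ) : O.Hom l (O.x j y) := by
  have h1 := congrArg (fun z : Module.End k V => z y) (O.x_e j l)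
  simp only [Module.End.mul_apply] at h1
  rw [h] at h1
  exact h1.symm

theorem Hom.x_zero {l : List I} {y : V} (h : O.Hom l y) {j : ℕ} (hj : l.length ≤ j) :
    O.x j y = 0 := by
  have h1 := congrArg (fun z : Module.End k V => z y) (O.x_e_zero j l hj)
  simp only [Module.End.mul_apply] at h1
  rw [h] at h1
  simpa using h1

theorem Hom.t {p q : List I} {a b : I} {y : V} (h : O.Hom (p ++ a :: b :: q) y) {j : ℕ}
    (hj : p.length = j) : O.Hom (p ++ b :: a :: q) (O.t j y) := by
  subst hj
  have h1 := congrArg (fun z : Module.End k V => z y) (O.t_e p a b q)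
  simp only [Module.End.mul_apply] at h1
  rw [h] at h1
  exact h1.symm

theorem Hom.t_zero {l : List I} {y : V} (h : O.Hom l y) {j : ℕ} (hj : l.length ≤ j + 1) :
    O.t j y = 0 := by
  have h1 := congrArg (fun z : Module.End k V => z y) (O.t_e_zero j l hj)
  simp only [Module.End.mul_apply] at h1
  rw [h] at h1
  simpa using h1

theorem split_two {l : List I} {j : ℕ} (h : j + 1 < l.length) :
    ∃ p a b q, p.length = j ∧ l = p ++ a :: b :: q := by
  refine ⟨l.take j, l[j], l[j+1], l.drop (j + 2), ?_, ?_⟩
  · rw [List.length_take]; omega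
  · rw [← List.drop_eq_getElem_cons (by omega), ← List.drop_eq_getElem_cons (by omega),
      List.take_append_drop]

theorem split_three {l : List I} {j : ℕ} (h : j + 2 < l.length) :
    ∃ p a b c q, p.length = j ∧ l = p ++ a :: b :: c :: q := by
  refine ⟨l.take j, l[j], l[j+1], l[j+2], l.drop (j + 3), ?_, ?_⟩
  · rw [List.length_take]; omega
  · rw [← List.drop_eq_getElem_cons (by omega), ← List.drop_eq_getElem_cons (by omega),
      ← List.drop_eq_getElem_cons (by omega), List.take_append_drop]

theorem zero_hom (l : List I) : O.Hom l (0 : V) := by simp [Ops.Hom]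

/-- the crossing maps homogeneous vectors to homogeneous vectors -/
theorem Hom.t_exists {l : List I} {y : V} (h : O.Hom l y) (j : ℕ) :
    ∃ l', O.Hom l' (O.t j y) ∧ l'.length = l.length ∧ l'.take j = l.take j := by
  by_cases hj : j + 1 < l.length
  · obtain ⟨p, a, b, q, hp, rfl⟩ := split_two hj
    refine ⟨_, h.t hp, by simp, ?_⟩
    rw [← hp]; simp
  · refine ⟨l, ?_, rfl, rfl⟩
    rw [h.t_zero (by omega)]
    exact zero_hom l

theorem x_comm (i j : ℕ) (y : V) : O.x i (O.x j y) = O.x j (O.x i y) := by
  have h1 := congrArg (fun z : Module.End k V => z y) (O.x_x i j)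
  exact h1

theorem t_x_comm {i j : ℕ} (h1 : j ≠ i) (h2 : j ≠ i + 1) (y : V) :
    O.t i (O.x j y) = O.x j (O.t i y) := by
  have h := congrArg (fun z : Module.End k V => z y) (O.t_x i j h1 h2)
  exact h

theorem t_t_comm {i j : ℕ} (h1 : i + 2 ≤ j ∨ j + 2 ≤ i) (y : V) :
    O.t i (O.t j y) = O.t j (O.t i y) := by
  rcases h1 with h1 | h1
  · exact congrArg (fun z : Module.End k V => z y) (O.t_t i j h1)
  · exact (congrArg (fun z : Module.End k V => z y) (O.t_t j i h1)).symm

theorem tx_apply {p q : List I} {a b : I} {y : V} (h : O.Hom (p ++ a :: b :: q) y) {j : ℕ}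
    (hj : p.length = j) : O.t j (O.x (j + 1) y) = O.x j (O.t j y) + dlt k a b • y := by
  subst hj
  have h1 := congrArg (fun z : Module.End k V => z y) (O.tx p a b q)
  simp only [Module.End.mul_apply, LinearMap.add_apply, LinearMap.smul_apply] at h1
  rw [h] at h1
  exact h1

theorem xt_apply {p q : List I} {a b : I} {y : V} (h : O.Hom (p ++ a :: b :: q) y) {j : ℕ}
    (hj : p.length = j) : O.x (j + 1) (O.t j y) = O.t j (O.x j y) + dlt k a b • y := by
  subst hj
  have h1 := congrArg (fun z : Module.End k V => z y) (O.xt p a b q)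
  simp only [Module.End.mul_apply, LinearMap.add_apply, LinearMap.smul_apply] at h1
  rw [h] at h1
  exact h1

theorem tt_apply {p q : List I} {a b : I} {y : V} (h : O.Hom (p ++ a :: b :: q) y) {j : ℕ}
    (hj : p.length = j) : O.t j (O.t j y) = Qop a b (O.x j) (O.x (j + 1)) y := by
  subst hj
  have h1 := congrArg (fun z : Module.End k V => z y) (O.tt p a b q)
  simp only [Module.End.mul_apply] at h1
  rw [h] at h1
  exact h1

/-- commuting a crossing and a dot, with an unspecified constant -/
theorem Hom.tx {l : List I} {y : V} (h : O.Hom l y) (j : ℕ) :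
    ∃ c : k, O.t j (O.x (j + 1) y) = O.x j (O.t j y) + c • y := by
  by_cases hj : j + 1 < l.length
  · obtain ⟨p, a, b, q, hp, rfl⟩ := split_two hj
    exact ⟨_, tx_apply h hp⟩
  · refine ⟨0, ?_⟩
    rw [(h.x (j + 1)).t_zero (by omega), h.t_zero (by omega)]
    simp

theorem Hom.xt {l : List I} {y : V} (h : O.Hom l y) (j : ℕ) :
    ∃ c : k, O.x (j + 1) (O.t j y) = O.t j (O.x j y) + c • y := by
  by_cases hj : j + 1 < l.length
  · obtain ⟨p, a, b, q, hp, rfl⟩ := split_two hj
    exact ⟨_, xt_apply h hp⟩
  · refine ⟨0, ?_⟩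
    rw [(h.x j).t_zero (by omega), h.t_zero (by omega)]
    simp

theorem Hom.tt {l : List I} {y : V} (h : O.Hom l y) (j : ℕ) :
    ∃ c₀ c₁ c₂ : k, O.t j (O.t j y) = c₀ • y + c₁ • O.x j y + c₂ • O.x (j + 1) y := by
  by_cases hj : j + 1 < l.length
  · obtain ⟨p, a, b, q, hp, rfl⟩ := split_two hj
    rw [tt_apply h hp]
    unfold Qop
    split_ifs
    · exact ⟨0, 0, 0, by simp⟩
    · exact ⟨0, 1, -1, by simp [sub_eq_add_neg]⟩
    · exact ⟨0, -1, 1, by simp [sub_eq_add_neg]; abel⟩
    · exact ⟨1, 0, 0, by simp⟩
  · refine ⟨0, 0, 0, ?_⟩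
    rw [h.t_zero (by omega)]
    simp

theorem Hom.br {l : List I} {y : V} (h : O.Hom l y) (j : ℕ) :
    ∃ c : k, O.t (j + 1) (O.t j (O.t (j + 1) y)) = O.t j (O.t (j + 1) (O.t j y)) + c • y := by
  by_cases hj : j + 2 < l.length
  · obtain ⟨p, a, b, c, q, hp, rfl⟩ := split_three hj
    subst hp
    by_cases hac : a = c
    · subst hac
      have h1 := congrArg (fun z : Module.End k V => z y) (O.br_eq p a b q)
      simp only [Module.End.mul_apply, LinearMap.add_apply, LinearMap.smul_apply] at h1
      rw [h] at h1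
      exact ⟨_, h1⟩
    · have h1 := congrArg (fun z : Module.End k V => z y) (O.br_ne p a b c q hac)
      simp only [Module.End.mul_apply] at h1
      rw [h] at h1
      exact ⟨0, by rw [h1]; simp⟩
  · refine ⟨0, ?_⟩
    obtain ⟨l', h', hl', -⟩ := h.t_exists j
    rw [h.t_zero (by omega), h'.t_zero (by omega)]
    simp

end Ops

end Pool.Agent.H159
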