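import Pool.Agent.H159.Shift
import Pool.Agent.H159.EPD

/-!
# Comparing Ext groups of graded and of ungraded modules
-/

set_option linter.unusedSectionVars false
set_option linter.style.haveILetI false

namespace Pool.Agent.H159

open KQuiver

section

variable {k I : Type} [Field k] [DecidableEq I] [KQuiver I] {Ω : Finset (List I)}

/-- the ungraded algebra acts on the graded one -/
noncomputable instance klrModule : Module (KLR k I Ω) (GKLR k I Ω) :=
  Module.compHom (GKLR k I Ω) (toG k I Ω).toRingHom

theorem klr_smul (r : KLR k I Ω) (g : GKLR k I Ω) : r • g = toG k I Ω r * g := rfl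

instance : IsScalarTower (KLR k I Ω) (GKLR k I Ω) (GKLR k I Ω) where
  smul_assoc r g h := by
    rw [klr_smul, klr_smul, smul_eq_mul, smul_eq_mul, mul_assoc]

theorem toG_smul {M : Type} [AddCommGroup M] [Module (GKLR k I Ω) M] [Module (KLR k I Ω) M]
    [IsScalarTower (KLR k I Ω) (GKLR k I Ω) M] (r : KLR k I Ω) (y : M) :
    toG k I Ω r • y = r • y := by
  have h1 : r • ((1 : GKLR k I Ω) • y) = (r • (1 : GKLR k I Ω)) • y := (smul_assoc _ _ _).symm
  rw [one_smul, klr_smul, mul_one] at h1
  exact h1.symm

/-! ### maps out of the graded projective modules -/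

variable (k Ω) in
/-- the graded projective module of a word -/
abbrev PP (l : List I) (d : ℤ) : Type := Dm k Ω (sing l) d 0

variable (k Ω) in
/-- its generator -/
abbrev pgen (l : List I) (d : ℤ) : PP k Ω l d := dgen k Ω (sing l) d 0

theorem gops_e (l : List I) : (gops k I Ω).e l = toG k I Ω ((kops k I Ω).e l) := rfl

theorem gops_x (j : ℕ) : (gops k I Ω).x j = toG k I Ω ((kops k I Ω).x j) := rfl

theorem gops_t (j : ℕ) : (gops k I Ω).t j = toG k I Ω ((kops k I Ω).t j) := rfl

/-- elements of the algebra of operators come from the ungraded algebra -/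
theorem alg_act {M : Type} [AddCommGroup M] [Module k M] [Module (GKLR k I Ω) M]
    [IsScalarTower k (GKLR k I Ω) M] {a : Module.End k M} (ha : a ∈ (mops k I Ω M).alg 0) :
    ∃ r : KLR k I Ω, ∀ y, a y = toG k I Ω r • y := by
  unfold Ops.alg at ha
  induction ha using Algebra.adjoin_induction with
  | mem a ha =>
    rcases ha with ⟨l, rfl⟩ | ⟨j, rfl⟩ | ⟨j, -, rfl⟩
    · exact ⟨(kops k I Ω).e l, fun y => rfl⟩
    · exact ⟨(kops k I Ω).x j, fun y => rfl⟩
    · exact ⟨(kops k I Ω).t j, fun y => rfl⟩
  | algebraMap c =>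
    refine ⟨algebraMap k _ c, fun y => ?_⟩
    rw [AlgHom.commutes, algebraMap_smul, Module.algebraMap_end_apply]
  | add a b _ _ ha hb =>
    obtain ⟨r, hr⟩ := ha
    obtain ⟨s, hs⟩ := hb
    exact ⟨r + s, fun y => by rw [map_add, add_smul, LinearMap.add_apply, hr, hs]⟩
  | mul a b _ _ ha hb =>
    obtain ⟨r, hr⟩ := ha
    obtain ⟨s, hs⟩ := hb
    exact ⟨r * s, fun y => by rw [map_mul, mul_smul, Module.End.mul_apply, hr, hs]⟩

/-- the graded projective module is generated by its generator over the ungraded algebra -/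
theorem pgen_gen (l : List I) (d : ℤ) (z : PP k Ω l d) :
    ∃ r : KLR k I Ω, r • pgen k Ω l d = z := by
  obtain ⟨g, rfl⟩ := cy_surj z
  obtain ⟨a, ha, h1⟩ := smul_mem_alg' (sing_gen (k := k) (Ω := Ω) l d) g
  obtain ⟨r, hr⟩ := alg_act ha
  exact ⟨r, by rw [← toG_smul, ← hr, ← h1]⟩

section lift

variable {E : Type} [AddCommGroup E] [Module k E] [Module (KLR k I Ω) E]
  [IsScalarTower k (KLR k I Ω) E]

variable (k I Ω E) in
/-- the operators on a module over the ungraded algebra -/
noncomputable def kmops : Ops k I E := (kops k I Ω).map (Algebra.lsmul k k E)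

theorem kmops_sum : ∑ l ∈ Ω, (kmops k I Ω E).e l = 1 := by
  show ∑ l ∈ Ω, Algebra.lsmul k k E ((kops k I Ω).e l) = 1
  rw [← map_sum, kops_sum, map_one]

variable (k I Ω E) in
/-- the graded module attached to a module over the ungraded algebra -/
abbrev RG : Type := GWrap (regradeStr (kmops k I Ω E) kmops_sum) (regrade_sum kmops_sum)

variable (k I Ω E) in
/-- the sum map as a map of modules -/
noncomputable def rgsum : RG k I Ω E → E := fun w => gsum k E w

theorem rgsum_add (v w : RG k I Ω E) : rgsum k I Ω E (v + w) = rgsum k I Ω E v + rgsum k I Ω E w :=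
  map_add (gsum k E) v w

theorem gsum_lin (A : Module.End k (ℤ →₀ E)) (B : Module.End k E)
    (h : ∀ (d : ℤ) (l : List I) (y : E), (kmops k I Ω E).Hom l y →
      gsum k E (A (Finsupp.single d y)) = B y) (w : ℤ →₀ E) :
    gsum k E (A w) = B (gsum k E w) := by
  have h1 : (gsum k E) ∘ₗ A = B ∘ₗ (gsum k E) := by
    apply gext (O := kmops k I Ω E) kmops_sum
    intro d l y hy
    rw [LinearMap.comp_apply, LinearMap.comp_apply, h d l y hy]
    congr 1
    simp [gsum]
  exact congrArg (fun F : (ℤ →₀ E) →ₗ[k] E => F w) h1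

theorem rgsum_smul (r : KLR k I Ω) (w : RG k I Ω E) :
    rgsum k I Ω E (toG k I Ω r • w) = r • rgsum k I Ω E w := by
  have hs : ∀ (d : ℤ) (y : E), gsum k E (Finsupp.single d y) = y := by
    intro d y; simp [gsum]
  induction r using klr_induction generalizing w with
  | he l =>
    show gsum k E ((glift Ω _ _ ((gops k I Ω).e l) : Module.End k (ℤ →₀ E)) w) =
      (kmops k I Ω E).e l (gsum k E w)
    rw [glift_e]
    apply gsum_lin (I := I) (Ω := Ω)
    intro d l' y _
    show gsum k E (gE (kmops k I Ω E) l _) = _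
    rw [gE_single, hs]
  | hx j =>
    show gsum k E ((glift Ω _ _ ((gops k I Ω).x j) : Module.End k (ℤ →₀ E)) w) =
      (kmops k I Ω E).x j (gsum k E w)
    rw [glift_x]
    apply gsum_lin (I := I) (Ω := Ω)
    intro d l' y _
    show gsum k E (gX (kmops k I Ω E) j _) = _
    rw [gX_single, hs]
  | ht j =>
    show gsum k E ((glift Ω _ _ ((gops k I Ω).t j) : Module.End k (ℤ →₀ E)) w) =
      (kmops k I Ω E).t j (gsum k E w)
    rw [glift_t]
    apply gsum_lin (I := I) (Ω := Ω)
    intro d l' y hy
    show gsum k E (gT (kmops k I Ω E) Ω j _) = _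
    rw [gT_single kmops_sum _ _ hy, hs]
  | hc c =>
    rw [AlgHom.commutes, algebraMap_smul, algebraMap_smul]
    exact map_smul (gsum k E) c w
  | hadd a b ha hb => rw [map_add, add_smul, rgsum_add, ha, hb, add_smul]
  | hmul a b ha hb => rw [map_mul, mul_smul, ha, hb, mul_smul]

/-- Maps out of the graded projective module over the ungraded algebra. -/
theorem exists_res_lift (l : List I) (d : ℤ) (z : E) (hz : (kops k I Ω).e l • z = z) :
    ∃ H : PP k Ω l d →ₗ[KLR k I Ω] E, H (pgen k Ω l d) = z := by
  let w : RG k I Ω E := (Finsupp.single d z : ℤ →₀ E)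
  have hz' : (kmops k I Ω E).e l z = z := hz
  have hw : BiHom (k := k) (Ω := Ω) l d w := by
    rw [bihom_iff]
    constructor
    · rw [gwrap_smul, glift_e]
      show gE (kmops k I Ω E) l (Finsupp.single d z) = Finsupp.single d z
      rw [gE_single, hz']
    · rw [gwrap_smul, glift_f]
      show gF k E d (Finsupp.single d z) = Finsupp.single d z
      rw [gF_single_self]
  let φ : PP k Ω l d →ₗ[GKLR k I Ω] RG k I Ω E := clift _ w (sing_rel hw)
  have hφ : φ (pgen k Ω l d) = w := clift_gen _
  refine ⟨{ toFun := fun y => rgsum k I Ω E (φ y)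
            map_add' := fun y z => by rw [map_add, rgsum_add]
            map_smul' := fun r y => by
              rw [← toG_smul, map_smul, rgsum_smul]; rfl }, ?_⟩
  show rgsum k I Ω E (φ (pgen k Ω l d)) = z
  rw [hφ]
  show gsum k E (Finsupp.single d z) = z
  simp [gsum]

end lift

/-- The graded projective modules are projective over the ungraded algebra. -/
instance pp_projective (l : List I) (d : ℤ) : Module.Projective (KLR k I Ω) (PP k Ω l d) := by
  apply Module.Projective.of_lifting_property''
  intro f hf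
  obtain ⟨z, hz⟩ := hf (pgen k Ω l d)
  have h1 := sing_gen (k := k) (Ω := Ω) l d
  rw [bihom_iff] at h1
  obtain ⟨H, hH⟩ := exists_res_lift (E := PP k Ω l d →₀ KLR k I Ω) l d ((kops k I Ω).e l • z) (by
    rw [smul_smul, (kops k I Ω).e_self])
  refine ⟨H, ?_⟩
  apply LinearMap.ext
  intro y
  obtain ⟨r, rfl⟩ := pgen_gen l d y
  rw [LinearMap.comp_apply, map_smul, map_smul, hH, map_smul, hz, LinearMap.id_apply,
    ← toG_smul ((kops k I Ω).e l), ← gops_e, h1.1]

/-- The graded projective modules are projective over the graded algebra. -/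
instance pp_projective' (l : List I) (d : ℤ) : Module.Projective (GKLR k I Ω) (PP k Ω l d) := by
  apply Module.Projective.of_lifting_property''
  intro f hf
  obtain ⟨z, hz⟩ := hf (pgen k Ω l d)
  have h1 := sing_gen (k := k) (Ω := Ω) l d
  rw [bihom_iff] at h1
  have hz2 := bihom_proj (k := k) (Ω := Ω) l d z
  refine ⟨clift _ _ (sing_rel hz2), ?_⟩
  apply cy_hom_ext
  rw [LinearMap.comp_apply, clift_gen, map_smul, map_smul, hz, LinearMap.id_apply]
  show (gops k I Ω).e l • (gstr k I Ω).f d • pgen k Ω l d = pgen k Ω l d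
  rw [h1.2, h1.1]

end

end Pool.Agent.H159
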