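import Pool.Agent.H159.Res

/-!
# Comparing Ext groups of graded and of ungraded modules, the main comparison
-/

set_option linter.unusedSectionVars false
set_option linter.style.haveILetI false

namespace Pool.Agent.H159

open KQuiver

section

variable {k I : Type} [Field k] [DecidableEq I] [KQuiver I] {Ω : Finset (List I)}

variable (k Ω) in
/-- every vector is a finite sum of its degree parts -/
def LG (X : Type) [AddCommGroup X] [Module (GKLR k I Ω) X] : Prop :=
  ∀ y : X, ∃ S : Finset ℤ, ∀ S', S ⊆ S' → ∑ d ∈ S', (gstr k I Ω).f d • y = y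

theorem FU.lg {X : Type} [AddCommGroup X] [Module (GKLR k I Ω) X] (h : FU k Ω X) :
    LG k Ω X := by
  obtain ⟨S, hS⟩ := h
  intro y
  refine ⟨S, fun S' hS' => ?_⟩
  conv_rhs => rw [← hS y]
  symm
  apply Finset.sum_subset hS'
  intro d _ hd
  rw [← hS y, Finset.smul_sum]
  apply Finset.sum_eq_zero
  intro d' hd'
  rw [smul_smul, (gstr k I Ω).f_ne d d' (by rintro rfl; exact hd hd'), zero_smul]

theorem LG.sub {A B : Type} [AddCommGroup A] [Module (GKLR k I Ω) A] [AddCommGroup B]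
    [Module (GKLR k I Ω) B] (f : A →ₗ[GKLR k I Ω] B) (hf : Function.Injective f)
    (h : LG k Ω B) : LG k Ω A := by
  intro y
  obtain ⟨S, hS⟩ := h (f y)
  refine ⟨S, fun S' hS' => ?_⟩
  apply hf
  rw [map_sum]
  refine Eq.trans ?_ (hS S' hS')
  apply Finset.sum_congr rfl
  intro d _
  rw [map_smul]

/-- vectors which are sums of their degree parts -/
def LGv {A : Type} [AddCommGroup A] [Module (GKLR k I Ω) A] (y : A) : Prop :=
  ∃ S : Finset ℤ, ∀ S', S ⊆ S' → ∑ d ∈ S', (gstr k I Ω).f d • y = y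

theorem LGv.zero {A : Type} [AddCommGroup A] [Module (GKLR k I Ω) A] :
    LGv (k := k) (Ω := Ω) (0 : A) := ⟨∅, fun S' _ => by simp⟩

theorem LGv.add {A : Type} [AddCommGroup A] [Module (GKLR k I Ω) A] {y z : A}
    (hy : LGv (k := k) (Ω := Ω) y) (hz : LGv (k := k) (Ω := Ω) z) :
    LGv (k := k) (Ω := Ω) (y + z) := by
  obtain ⟨S1, h1⟩ := hy
  obtain ⟨S2, h2⟩ := hz
  refine ⟨S1 ∪ S2, fun S' hS' => ?_⟩
  have e1 := h1 S' (Finset.union_subset_left hS')
  have e2 := h2 S' (Finset.union_subset_right hS')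
  simp only [smul_add, Finset.sum_add_distrib]
  rw [e1, e2]

theorem lgv_bihom {A : Type} [AddCommGroup A] [Module k A] [Module (GKLR k I Ω) A]
    [IsScalarTower k (GKLR k I Ω) A] {l : List I} {d : ℤ} {y : A}
    (h : BiHom (k := k) (Ω := Ω) l d y) : LGv (k := k) (Ω := Ω) y := by
  refine ⟨{d}, fun S' hS' => ?_⟩
  rw [Finset.singleton_subset_iff] at hS'
  rw [Finset.sum_eq_single d]
  · exact h.2
  · intro d'' _ hd
    exact f_smul_ne h.2 hd
  · intro h'; exact absurd hS' h'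

theorem lgv_gen {A : Type} [AddCommGroup A] [Module k A] [Module (GKLR k I Ω) A]
    [IsScalarTower k (GKLR k I Ω) A] {l : List I} {d : ℤ} {y : A}
    (h : BiHom (k := k) (Ω := Ω) l d y) (r : GKLR k I Ω) : LGv (k := k) (Ω := Ω) (r • y) := by
  have h1 := smul_mem_alg h r
  generalize r • y = z at h1
  induction h1 using Submodule.span_induction with
  | mem z hz =>
    obtain ⟨-, l', d', hz⟩ := hz
    exact lgv_bihom hz
  | zero => exact LGv.zero
  | add z w _ _ hz hw => exact hz.add hw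
  | smul c z _ hz =>
    obtain ⟨S, hS⟩ := hz
    refine ⟨S, fun S' hS' => ?_⟩
    have e1 := hS S' hS'
    have e2 : ∀ d, (gstr k I Ω).f d • c • z = c • ((gstr k I Ω).f d • z) := fun d =>
      smul_comm _ _ _
    simp only [e2]
    rw [← Finset.smul_sum, e1]

theorem lg_pp (l : List I) (d : ℤ) : LG k Ω (PP k Ω l d) := by
  intro z
  obtain ⟨r, rfl⟩ := cy_surj z
  exact lgv_gen (sing_gen (k := k) (Ω := Ω) l d) r

/-! ### the family of graded projective modules -/

variable (k Ω) in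
/-- the graded projective modules as a family -/
def PPf (q : List I × ℤ) : Type := PP k Ω q.1 q.2

instance (q : List I × ℤ) : AddCommGroup (PPf k Ω q) :=
  inferInstanceAs (AddCommGroup (PP k Ω q.1 q.2))

instance (q : List I × ℤ) : Module k (PPf k Ω q) :=
  inferInstanceAs (Module k (PP k Ω q.1 q.2))

instance (q : List I × ℤ) : Module (GKLR k I Ω) (PPf k Ω q) :=
  inferInstanceAs (Module (GKLR k I Ω) (PP k Ω q.1 q.2))

noncomputable instance (q : List I × ℤ) : Module (KLR k I Ω) (PPf k Ω q) :=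
  inferInstanceAs (Module (KLR k I Ω) (PP k Ω q.1 q.2))

instance (q : List I × ℤ) : IsScalarTower k (GKLR k I Ω) (PPf k Ω q) :=
  inferInstanceAs (IsScalarTower k (GKLR k I Ω) (PP k Ω q.1 q.2))

instance (q : List I × ℤ) : IsScalarTower (KLR k I Ω) (GKLR k I Ω) (PPf k Ω q) :=
  inferInstanceAs (IsScalarTower (KLR k I Ω) (GKLR k I Ω) (PP k Ω q.1 q.2))

instance (q : List I × ℤ) : Module.Projective (KLR k I Ω) (PPf k Ω q) := pp_projective q.1 q.2

instance (q : List I × ℤ) : Module.Projective (GKLR k I Ω) (PPf k Ω q) := pp_projective' q.1 q.2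

theorem lg_ppf (q : List I × ℤ) : LG k Ω (PPf k Ω q) := lg_pp q.1 q.2

variable (k Ω) in
/-- the generator -/
def pgf (q : List I × ℤ) : PPf k Ω q := pgen k Ω q.1 q.2

variable (k Ω) in
/-- maps out of a member of the family -/
noncomputable def pclift {M : Type} [AddCommGroup M] [Module k M] [Module (GKLR k I Ω) M]
    [IsScalarTower k (GKLR k I Ω) M] (q : List I × ℤ) (y : M)
    (hy : BiHom (k := k) (Ω := Ω) q.1 q.2 y) : PPf k Ω q →ₗ[GKLR k I Ω] M :=
  (clift (RS k Ω (sing q.1) q.2 0) y (sing_rel hy) : PP k Ω q.1 q.2 →ₗ[GKLR k I Ω] M)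

theorem pclift_gen {M : Type} [AddCommGroup M] [Module k M] [Module (GKLR k I Ω) M]
    [IsScalarTower k (GKLR k I Ω) M] (q : List I × ℤ) (y : M)
    (hy : BiHom (k := k) (Ω := Ω) q.1 q.2 y) : pclift k Ω q y hy (pgf k Ω q) = y :=
  clift_gen (sing_rel hy)

/-! ### covers -/

section cover

variable (X : Type) [AddCommGroup X] [Module k X] [Module (GKLR k I Ω) X]
  [IsScalarTower k (GKLR k I Ω) X]

variable (k Ω) in
/-- the index set of the cover -/
abbrev CJ : Type := {q : List I × ℤ × X // BiHom (k := k) (Ω := Ω) q.1 q.2.1 q.2.2}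

variable (k Ω) in
/-- the cover by a graded projective module -/
def CP : Type := Π₀ j : CJ k Ω X, PPf k Ω (j.1.1, j.1.2.1)

noncomputable instance : AddCommGroup (CP k Ω X) :=
  inferInstanceAs (AddCommGroup (Π₀ j : CJ k Ω X, PPf k Ω (j.1.1, j.1.2.1)))

noncomputable instance : Module k (CP k Ω X) :=
  inferInstanceAs (Module k (Π₀ j : CJ k Ω X, PPf k Ω (j.1.1, j.1.2.1)))

noncomputable instance : Module (GKLR k I Ω) (CP k Ω X) :=
  inferInstanceAs (Module (GKLR k I Ω) (Π₀ j : CJ k Ω X, PPf k Ω (j.1.1, j.1.2.1)))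

noncomputable instance : Module (KLR k I Ω) (CP k Ω X) :=
  inferInstanceAs (Module (KLR k I Ω) (Π₀ j : CJ k Ω X, PPf k Ω (j.1.1, j.1.2.1)))

instance : IsScalarTower k (GKLR k I Ω) (CP k Ω X) :=
  inferInstanceAs (IsScalarTower k (GKLR k I Ω) (Π₀ j : CJ k Ω X, PPf k Ω (j.1.1, j.1.2.1)))

instance : IsScalarTower (KLR k I Ω) (GKLR k I Ω) (CP k Ω X) :=
  inferInstanceAs (IsScalarTower (KLR k I Ω) (GKLR k I Ω)
    (Π₀ j : CJ k Ω X, PPf k Ω (j.1.1, j.1.2.1)))

instance : Module.Projective (KLR k I Ω) (CP k Ω X) :=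
  inferInstanceAs (Module.Projective (KLR k I Ω) (Π₀ j : CJ k Ω X, PPf k Ω (j.1.1, j.1.2.1)))

instance : Module.Projective (GKLR k I Ω) (CP k Ω X) :=
  inferInstanceAs (Module.Projective (GKLR k I Ω) (Π₀ j : CJ k Ω X, PPf k Ω (j.1.1, j.1.2.1)))

variable (k Ω) in
open Classical in
/-- inclusions -/
noncomputable def cin (j : CJ k Ω X) : PPf k Ω (j.1.1, j.1.2.1) →ₗ[GKLR k I Ω] CP k Ω X :=
  DFinsupp.lsingle (R := GKLR k I Ω) (M := fun j : CJ k Ω X => PPf k Ω (j.1.1, j.1.2.1)) j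

variable (k Ω) in
open Classical in
/-- the covering map -/
noncomputable def cpi : CP k Ω X →ₗ[GKLR k I Ω] X :=
  DFinsupp.lsum (R := GKLR k I Ω) (M := fun j : CJ k Ω X => PPf k Ω (j.1.1, j.1.2.1)) ℕ
    (fun j : CJ k Ω X => pclift k Ω (j.1.1, j.1.2.1) j.1.2.2 j.2)

open Classical in
theorem cpi_single (j : CJ k Ω X) :
    cpi k Ω X (cin k Ω X j (pgf k Ω (j.1.1, j.1.2.1))) = j.1.2.2 := by
  have h : cpi k Ω X (cin k Ω X j (pgf k Ω (j.1.1, j.1.2.1))) =
      pclift k Ω (j.1.1, j.1.2.1) j.1.2.2 j.2 (pgf k Ω (j.1.1, j.1.2.1)) :=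
    DFinsupp.lsum_single (R := GKLR k I Ω)
      (M := fun j : CJ k Ω X => PPf k Ω (j.1.1, j.1.2.1)) ℕ _ j _
  rw [h]
  exact pclift_gen _ _ _

theorem cpi_surj (hX : LG k Ω X) : Function.Surjective (cpi k Ω X) := by
  classical
  intro y
  rw [← LinearMap.mem_range]
  obtain ⟨S, hS⟩ := hX y
  have h1 : y = ∑ l ∈ Ω, ∑ d ∈ S, (gops k I Ω).e l • (gstr k I Ω).f d • y := by
    conv_lhs => rw [← sum_e_apply (k := k) (Ω := Ω) y]
    apply Finset.sum_congr rfl
    intro l _
    conv_lhs => rw [← hS S (Finset.Subset.refl _)]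
    rw [Finset.smul_sum]
  rw [h1]
  apply Submodule.sum_mem
  intro l _
  apply Submodule.sum_mem
  intro d _
  rw [LinearMap.mem_range]
  exact ⟨_, cpi_single X ⟨(l, d, (gops k I Ω).e l • (gstr k I Ω).f d • y), bihom_proj l d y⟩⟩

theorem lg_cp : LG k Ω (CP k Ω X) := by
  classical
  have key : ∀ p : Π₀ j : CJ k Ω X, PPf k Ω (j.1.1, j.1.2.1),
      LGv (k := k) (Ω := Ω) (A := CP k Ω X) p := by
    intro p
    induction p using DFinsupp.induction with
    | h0 => exact LGv.zero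
    | ha i b f _ _ hf =>
      have h1 : LGv (k := k) (Ω := Ω) (A := CP k Ω X) (cin k Ω X i b) := by
        obtain ⟨S, hS⟩ := lg_ppf (i.1.1, i.1.2.1) b
        refine ⟨S, fun S' hS' => ?_⟩
        simp only [← map_smul]
        rw [← map_sum, hS S' hS']
      exact h1.add hf
  exact fun p => key p

end cover

/-! ### averaging -/

section avg

variable {P Y : Type} [AddCommGroup P] [Module k P] [Module (GKLR k I Ω) P]
  [IsScalarTower k (GKLR k I Ω) P] [Module (KLR k I Ω) P]
  [IsScalarTower (KLR k I Ω) (GKLR k I Ω) P]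
  [AddCommGroup Y] [Module k Y] [Module (GKLR k I Ω) Y]
  [IsScalarTower k (GKLR k I Ω) Y] [Module (KLR k I Ω) Y]
  [IsScalarTower (KLR k I Ω) (GKLR k I Ω) Y]

/-- the degree part of a map -/
noncomputable def Tpart (ψ : P →ₗ[KLR k I Ω] Y) (d : ℤ) (p : P) : Y :=
  (gstr k I Ω).f d • ψ ((gstr k I Ω).f d • p)

theorem Tpart_add (ψ : P →ₗ[KLR k I Ω] Y) (d : ℤ) (p q : P) :
    Tpart ψ d (p + q) = Tpart ψ d p + Tpart ψ d q := by
  unfold Tpart
  rw [smul_add, map_add, smul_add]

theorem Tpart_finite (hY : FU k Ω Y) (ψ : P →ₗ[KLR k I Ω] Y) (p : P) :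
    (Function.support (fun d => Tpart ψ d p)).Finite := by
  obtain ⟨S, hS⟩ := hY.f_zero
  apply (Finset.finite_toSet S).subset
  intro d hd
  by_contra h
  exact hd (hS d h _)

/-- the degree zero part of a map -/
noncomputable def avg (ψ : P →ₗ[KLR k I Ω] Y) (p : P) : Y := ∑ᶠ d : ℤ, Tpart ψ d p

theorem avg_add (hY : FU k Ω Y) (ψ : P →ₗ[KLR k I Ω] Y) (p q : P) :
    avg ψ (p + q) = avg ψ p + avg ψ q := by
  unfold avg
  simp only [Tpart_add]
  exact finsum_add_distrib (Tpart_finite hY ψ p) (Tpart_finite hY ψ q)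

theorem avg_comm (hY : FU k Ω Y) (ψ : P →ₗ[KLR k I Ω] Y) {r : KLR k I Ω} {s : ℤ}
    (h : ∀ d, toG k I Ω r * (gstr k I Ω).f d = (gstr k I Ω).f (d + s) * toG k I Ω r) (p : P) :
    avg ψ (toG k I Ω r • p) = toG k I Ω r • avg ψ p := by
  have h1 : ∀ d, Tpart ψ (d + s) (toG k I Ω r • p) = toG k I Ω r • Tpart ψ d p := by
    intro d
    unfold Tpart
    rw [smul_smul, ← h, mul_smul, toG_smul r ((gstr k I Ω).f d • p), map_smul, ← toG_smul,
      smul_smul, ← h, mul_smul]
  unfold avg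
  have h2 : ∑ᶠ d : ℤ, Tpart ψ d (toG k I Ω r • p) =
      ∑ᶠ d : ℤ, Tpart ψ (d + s) (toG k I Ω r • p) :=
    (finsum_comp_equiv (Equiv.addRight s) (f := fun d => Tpart ψ d (toG k I Ω r • p))).symm
  rw [h2]
  simp only [h1]
  exact (AddMonoidHom.map_finsum (DistribSMul.toAddMonoidHom Y (toG k I Ω r))
    (Tpart_finite hY ψ p)).symm

theorem avg_f (hY : FU k Ω Y) (ψ : P →ₗ[KLR k I Ω] Y) (d : ℤ) (p : P) :
    avg ψ ((gstr k I Ω).f d • p) = (gstr k I Ω).f d • avg ψ p := by
  have h1 : avg ψ ((gstr k I Ω).f d • p) = Tpart ψ d p := by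
    unfold avg
    rw [finsum_eq_single _ d]
    · unfold Tpart
      rw [smul_smul ((gstr k I Ω).f d) ((gstr k I Ω).f d) p, (gstr k I Ω).f_self]
    · intro d' hd'
      unfold Tpart
      rw [smul_smul ((gstr k I Ω).f d') ((gstr k I Ω).f d) p, (gstr k I Ω).f_ne d' d hd',
        zero_smul, map_zero, smul_zero]
  have h2 : (gstr k I Ω).f d • avg ψ p = Tpart ψ d p := by
    have h3 : (gstr k I Ω).f d • avg ψ p = ∑ᶠ d' : ℤ, (gstr k I Ω).f d • Tpart ψ d' p :=
      AddMonoidHom.map_finsum (DistribSMul.toAddMonoidHom Y ((gstr k I Ω).f d))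
        (Tpart_finite hY ψ p)
    rw [h3, finsum_eq_single _ d]
    · unfold Tpart
      rw [smul_smul, (gstr k I Ω).f_self]
    · intro d' hd'
      unfold Tpart
      rw [smul_smul, (gstr k I Ω).f_ne d d' (Ne.symm hd'), zero_smul]
  rw [h1, h2]

theorem avg_zero (ψ : P →ₗ[KLR k I Ω] Y) : avg ψ 0 = 0 := by
  unfold avg Tpart
  simp only [smul_zero, map_zero]
  exact finsum_zero

theorem avg_smul (hY : FU k Ω Y) (ψ : P →ₗ[KLR k I Ω] Y) (r : GKLR k I Ω) : ∀ p : P,
    avg ψ (r • p) = r • avg ψ p := by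
  induction r using gklr_induction with
  | he l =>
    intro p
    rw [gops_e]
    apply avg_comm hY ψ (s := 0)
    intro d
    rw [add_zero, ← gops_e]
    exact ((gstr k I Ω).f_e d l).symm
  | hx j =>
    intro p
    rw [gops_x]
    apply avg_comm hY ψ (s := 2)
    intro d
    exact (gstr k I Ω).x_f j d
  | ht j =>
    intro p
    have hl : ∀ l, avg ψ (((gops k I Ω).t j * (gops k I Ω).e l) • p) =
        ((gops k I Ω).t j * (gops k I Ω).e l) • avg ψ p := by
      intro l
      by_cases hj : j + 1 < l.length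
      · obtain ⟨p', a, b, q, rfl, rfl⟩ := Ops.split_two hj
        have e1 : (gops k I Ω).t p'.length * (gops k I Ω).e (p' ++ a :: b :: q) =
            toG k I Ω ((kops k I Ω).t p'.length * (kops k I Ω).e (p' ++ a :: b :: q)) := by
          rw [map_mul]; rfl
        rw [e1]
        apply avg_comm hY ψ (s := tdeg a b)
        intro d
        rw [← e1]
        exact (gstr k I Ω).t_f p' a b q d
      · rw [(gops k I Ω).t_e_zero j l (by omega), zero_smul, zero_smul, avg_zero]
    have e2 : (gops k I Ω).t j = ∑ l ∈ Ω, (gops k I Ω).t j * (gops k I Ω).e l := by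
      rw [← Finset.mul_sum, gops_sum, mul_one]
    have e3 : ∀ s : Finset (List I),
        avg ψ ((∑ l ∈ s, (gops k I Ω).t j * (gops k I Ω).e l) • p) =
          (∑ l ∈ s, (gops k I Ω).t j * (gops k I Ω).e l) • avg ψ p := by
      intro s
      induction s using Finset.induction_on with
      | empty => rw [Finset.sum_empty, zero_smul, zero_smul, avg_zero]
      | insert l s hls ih =>
        rw [Finset.sum_insert hls, add_smul, avg_add hY, ih, hl, add_smul]
    rw [e2]
    exact e3 Ω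
  | hf d => intro p; exact avg_f hY ψ d p
  | hc c =>
    intro p
    have e1 : algebraMap k (GKLR k I Ω) c = toG k I Ω (algebraMap k _ c) :=
      (AlgHom.commutes _ _).symm
    rw [e1]
    apply avg_comm hY ψ (s := 0)
    intro d
    rw [add_zero, ← e1]
    exact Algebra.commutes c _
  | hadd a b ha hb => intro p; rw [add_smul, avg_add hY, ha, hb, add_smul]
  | hmul a b ha hb => intro p; rw [mul_smul, ha, hb, mul_smul]

/-- the averaged map -/
noncomputable def avgHom (hY : FU k Ω Y) (ψ : P →ₗ[KLR k I Ω] Y) : P →ₗ[GKLR k I Ω] Y where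
  toFun := avg ψ
  map_add' := avg_add hY ψ
  map_smul' := fun r p => avg_smul hY ψ r p

end avg

/-- Vanishing of ungraded Ext groups implies vanishing of graded Ext groups. -/
theorem graded_vanish {Y : Type} [AddCommGroup Y] [Module k Y] [Module (GKLR k I Ω) Y]
    [IsScalarTower k (GKLR k I Ω) Y] [Module (KLR k I Ω) Y]
    [IsScalarTower (KLR k I Ω) (GKLR k I Ω) Y] (hY : FU k Ω Y) (n : ℕ) :
    ∀ (X : Type) [AddCommGroup X] [Module k X] [Module (GKLR k I Ω) X]
      [IsScalarTower k (GKLR k I Ω) X] [Module (KLR k I Ω) X]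
      [IsScalarTower (KLR k I Ω) (GKLR k I Ω) X], LG k Ω X →
      VE (KLR k I Ω) X Y n → VE (GKLR k I Ω) X Y n := by
  have hex : ∀ (X : Type) [AddCommGroup X] [Module k X] [Module (GKLR k I Ω) X]
      [IsScalarTower k (GKLR k I Ω) X], ∀ z, cpi k Ω X z = 0 ↔
        ∃ y, (LinearMap.ker (cpi k Ω X)).subtype y = z := by
    intro X _ _ _ _ z
    exact ⟨fun hz => ⟨⟨z, hz⟩, rfl⟩, by rintro ⟨y, rfl⟩; exact y.2⟩
  induction n with
  | zero =>
    intro X _ _ _ _ _ _ _ hV
    rw [ve_zero] at hV ⊢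
    intro φ
    have h1 := hV (φ.restrictScalars (KLR k I Ω))
    apply LinearMap.ext
    intro y
    exact congrArg (fun F : X →ₗ[KLR k I Ω] Y => F y) h1
  | succ n ih =>
    intro X _ _ _ _ _ _ hX hV
    have hs := cpi_surj X hX
    have hinj := Submodule.subtype_injective (LinearMap.ker (cpi k Ω X))
    let ι : LinearMap.ker (cpi k Ω X) →ₗ[GKLR k I Ω] CP k Ω X :=
      (LinearMap.ker (cpi k Ω X)).subtype
    let ιu : LinearMap.ker (cpi k Ω X) →ₗ[KLR k I Ω] CP k Ω X :=
      ι.restrictScalars (KLR k I Ω)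
    let πu : CP k Ω X →ₗ[KLR k I Ω] X := (cpi k Ω X).restrictScalars (KLR k I Ω)
    have hexu : ∀ z, πu z = 0 ↔ ∃ y, ιu y = z := hex X
    have hinju : Function.Injective ιu := hinj
    have hsu : Function.Surjective πu := hs
    rcases n with _ | n
    · rw [ve_one (K := LinearMap.ker (cpi k Ω X)) (P := CP k Ω X) ι (cpi k Ω X)
        (hex X) hinj hs]
      rw [ve_one (K := LinearMap.ker (cpi k Ω X)) (P := CP k Ω X) ιu πu hexu hinju hsu] at hV
      intro φ
      obtain ⟨ψ, hψ⟩ := hV (φ.restrictScalars (KLR k I Ω))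
      refine ⟨avgHom hY ψ, ?_⟩
      apply LinearMap.ext
      intro z
      show avg ψ z.1 = φ z
      obtain ⟨S, hS⟩ := hY
      have h1 : ∀ d, Tpart ψ d z.1 = (gstr k I Ω).f d • φ z := by
        intro d
        unfold Tpart
        have h2 : ψ ((gstr k I Ω).f d • z.1) = φ ((gstr k I Ω).f d • z) :=
          congrArg (fun F : LinearMap.ker (cpi k Ω X) →ₗ[KLR k I Ω] Y =>
            F ((gstr k I Ω).f d • z)) hψ
        rw [h2, map_smul, smul_smul, (gstr k I Ω).f_self]
      unfold avg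
      simp only [h1]
      rw [finsum_eq_sum_of_support_subset (s := S), hS]
      intro d hd
      by_contra hd'
      apply hd
      show (gstr k I Ω).f d • φ z = 0
      rw [← hS (φ z), Finset.smul_sum]
      apply Finset.sum_eq_zero
      intro d' hd''
      rw [smul_smul, (gstr k I Ω).f_ne d d' (by rintro rfl; exact hd' hd''), zero_smul]
    · have h1 := ve_to_shift (K := LinearMap.ker (cpi k Ω X)) (P := CP k Ω X) ιu πu
        hexu hinju hsu n hV
      have h2 := ih (LinearMap.ker (cpi k Ω X)) ((lg_cp X).sub ι hinj) h1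
      exact ve_of_shift (K := LinearMap.ker (cpi k Ω X)) (P := CP k Ω X) ι (cpi k Ω X)
        (hex X) hinj hs _ h2

end

end Pool.Agent.H159
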