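import Pool.Agent.H159.Cyc

/-!
# Strands of good chains
-/

set_option linter.unusedSectionVars false

namespace Pool.Agent.H159

open KQuiver

section

variable {k I : Type} [Field k] [DecidableEq I] [KQuiver I]

/-- A good chain: consecutive letters are joined by an arrow, other letters are far apart. -/
def GoodC (s : List I) : Prop :=
  ∀ p a q b r, s = p ++ a :: (q ++ b :: r) → a ≠ b ∧ (q = [] → arr a b) ∧
    (q ≠ [] → ¬ arr a b ∧ ¬ arr b a)

theorem GoodC.nodup {s : List I} (h : GoodC s) : s.Nodup := by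
  rw [List.nodup_iff_sublist]
  intro a ha
  obtain ⟨r1, r2, h1, h2, h3⟩ := List.append_sublist_iff.mp (show ([a] ++ [a]).Sublist s from ha)
  rw [List.singleton_sublist] at h2 h3
  obtain ⟨p, q1, rfl⟩ := List.append_of_mem h2
  obtain ⟨q2, r, rfl⟩ := List.append_of_mem h3
  exact (h p a (q1 ++ q2) a r (by rw [h1]; simp)).1 rfl

theorem GoodC.middle {p s q : List I} (h : GoodC (p ++ s ++ q)) : GoodC s := by
  intro p' a q' b r hs
  apply h (p ++ p') a q' b (r ++ q)
  rw [hs]; simp

theorem good_singleton (a : I) : GoodC [a] := by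
  intro p a' q b r h
  have := congrArg List.length h
  simp at this
  omega

theorem ins_split {ss : List (List I)} : ∀ {p j : ℕ}, Ins p ss j →
    ∃ A s₁ a b s₂ C, ss = A ++ (s₁ ++ a :: b :: s₂) :: C ∧
      j = p + (A.flatten.length + s₁.length) := by
  induction ss with
  | nil => intro p j h; exact h.elim
  | cons s ss ih =>
    intro p j h
    rcases h with h | h
    · obtain ⟨s₁, a, b, s₂, h1, h2⟩ := split_two' (l := s) (j := j - p) (by omega)
      exact ⟨[], s₁, a, b, s₂, ss, by rw [h2]; rfl, by simp; omega⟩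
    · obtain ⟨A, s₁, a, b, s₂, C, h1, h2⟩ := ih h
      refine ⟨s :: A, s₁, a, b, s₂, C, by rw [h1]; rfl, ?_⟩
      rw [List.flatten_cons, List.length_append]
      omega

variable (k) in
/-- the field of rational functions in the spectral parameters -/
abbrev ZK : Type := FractionRing (MvPolynomial ℕ k)

variable (k) in
/-- the spectral parameters -/
noncomputable def zv (i : ℕ) : ZK k := algebraMap (MvPolynomial ℕ k) (ZK k) (MvPolynomial.X i)

theorem zv_inj {i j : ℕ} (h : zv k i = zv k j) : i = j := by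
  have := IsFractionRing.injective (MvPolynomial ℕ k) (ZK k) h
  exact MvPolynomial.X_injective this

variable (k I) in
/-- spectral parameter of a strand -/
noncomputable def zc (s : ℕ × I) : ZK k := zv k s.1

theorem zc_ne (s t : ℕ × I) (h : s.2 = t.2) (hst : s ≠ t) : zc k I s ≠ zc k I t := by
  intro h'
  apply hst
  exact Prod.ext (zv_inj h') h

variable (k I) in
/-- The rational representation, as operators over `k`. -/
noncomputable def zrep : Ops k I (List (ℕ × I) →₀ ZK k) :=
  Ops.restrictScalars k (Frep.frep Prod.snd (zc k I) zc_ne)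

/-- the strands of indexed chains -/
def tch (ts : List (ℕ × List I)) : List (List (ℕ × I)) := ts.map (fun q => q.2.map (Prod.mk q.1))

/-- the starting list of strands -/
def tl (ts : List (ℕ × List I)) : List (ℕ × I) := (tch ts).flatten

theorem tl_append (A B : List (ℕ × List I)) : tl (A ++ B) = tl A ++ tl B := by
  simp [tl, tch]

theorem tl_cons (q : ℕ × List I) (B : List (ℕ × List I)) :
    tl (q :: B) = q.2.map (Prod.mk q.1) ++ tl B := by
  simp [tl, tch]

/-- good indexed chains -/
def TGood (ts : List (ℕ × List I)) : Prop := (ts.map Prod.fst).Nodup ∧ ∀ q ∈ ts, GoodC q.2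

theorem labs_tch (ts : List (ℕ × List I)) : labs Prod.snd (tch ts) = ts.map Prod.snd := by
  unfold labs tch
  rw [List.map_map]
  apply List.map_congr_left
  intro q _
  simp [Function.comp_def]

theorem tl_labels (ts : List (ℕ × List I)) : (tl ts).map Prod.snd = (ts.map Prod.snd).flatten := by
  rw [← labs_tch]
  unfold labs tl
  rw [List.map_flatten]

theorem tl_nodup {ts : List (ℕ × List I)} (h : TGood ts) : (tl ts).Nodup := by
  unfold tl tch
  rw [List.nodup_flatten]
  constructor
  · intro l hl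
    rw [List.mem_map] at hl
    obtain ⟨q, hq, rfl⟩ := hl
    exact (h.2 q hq).nodup.map (fun a b hab => (Prod.ext_iff.mp hab).2)
  · rw [List.pairwise_map]
    have h1 := h.1
    rw [List.Nodup, List.pairwise_map] at h1
    apply List.Pairwise.imp _ h1
    intro q q' hqq
    rw [List.disjoint_left]
    intro s hs hs'
    rw [List.mem_map] at hs hs'
    obtain ⟨a, -, rfl⟩ := hs
    obtain ⟨b, -, hb⟩ := hs'
    exact hqq (Prod.ext_iff.mp hb).1.symm

theorem cA_ne_zero {s t : ℕ × I} (h : s.1 ≠ t.1) : Frep.cA Prod.snd (zc k I) s t ≠ 0 := by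
  have h1 : zc k I s - zc k I t ≠ 0 := sub_ne_zero.mpr (fun h' => h (zv_inj h'))
  unfold Frep.cA
  split_ifs
  · exact inv_ne_zero h1
  · exact h1
  · exact one_ne_zero

theorem tch_pairwise {ts : List (ℕ × List I)} (h : TGood ts) :
    (tch ts).Pairwise (fun a b => ∀ t ∈ a, ∀ s ∈ b, Frep.cA Prod.snd (zc k I) t s ≠ 0) := by
  unfold tch
  rw [List.pairwise_map]
  have h1 := h.1
  rw [List.Nodup, List.pairwise_map] at h1
  apply List.Pairwise.imp _ h1
  intro q q' hqq t ht s hs
  rw [List.mem_map] at ht hs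
  obtain ⟨a, -, rfl⟩ := ht
  obtain ⟨b, -, rfl⟩ := hs
  exact cA_ne_zero hqq

theorem tch_ins {ts : List (ℕ × List I)} (h : TGood ts) (j : ℕ)
    (hj : Ins 0 (ts.map Prod.snd) j) :
    Frep.ot Prod.snd (zc k I) j (Frep.bb (tl ts)) = 0 := by
  obtain ⟨A, s₁, a, b, s₂, C, h1, h2⟩ := ins_split hj
  rw [List.map_eq_append_iff] at h1
  obtain ⟨tA, tr, rfl, hA, hr⟩ := h1
  rw [List.map_eq_cons_iff] at hr
  obtain ⟨q, tC, rfl, hq, hC⟩ := hr
  obtain ⟨i, s⟩ := q
  simp only at hq
  subst hq
  have hg := h.2 (i, s₁ ++ a :: b :: s₂) (by simp)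
  have hab := hg s₁ a [] b s₂ rfl
  have e1 : tl (tA ++ (i, s₁ ++ a :: b :: s₂) :: tC) =
      (tl tA ++ s₁.map (Prod.mk i)) ++ (i, a) :: (i, b) :: (s₂.map (Prod.mk i) ++ tl tC) := by
    simp [tl, tch]
  have hn := tl_nodup h
  rw [e1] at hn ⊢
  have hlen : (tl tA ++ s₁.map (Prod.mk i)).length = j := by
    rw [h2, List.length_append, List.length_map, zero_add]
    congr 1
    rw [← hA, ← tl_labels, List.length_map]
  rw [Frep.ot_bb hn hlen]
  have h3 : Frep.cA Prod.snd (zc k I) (i, a) (i, b) = 0 := by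
    unfold Frep.cA
    rw [if_neg hab.1, if_pos (hab.2.1 rfl)]
    simp [zc]
  have h4 : Frep.cB Prod.snd (zc k I) (i, a) (i, b) = 0 := Frep.cB_ne hab.1
  rw [h3, h4, zero_smul, zero_smul, add_zero]

theorem zrep_indep {ts : List (ℕ × List I)} (h : TGood ts) (u : List I) :
    LinearIndependent (ZK k) (fun i : Fin (BB 0 (ts.map Prod.snd) u).length =>
      (Frep.frep Prod.snd (zc k I) zc_ne).wd ((BB 0 (ts.map Prod.snd) u)[i])
        (Frep.bb (tl ts))) := by
  have key : ∀ ss, labs Prod.snd (tch ts) = ss →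
      LinearIndependent (ZK k) (fun i : Fin (BB 0 ss u).length =>
      (Frep.frep Prod.snd (zc k I) zc_ne).wd ((BB 0 ss u)[i]) (Frep.bb (tl ts))) := by
    rintro _ rfl
    exact Frep.frep_indep (K := ZK k) (zc_ne (k := k) (I := I)) (tch ts) (tl_nodup h)
      (tch_pairwise h) (by rw [labs_tch]; exact tch_ins h) u
  exact key _ (labs_tch ts)

theorem wd_restrict (T : List ℕ) (y : List (ℕ × I) →₀ ZK k) :
    (zrep k I).wd T y = (Frep.frep Prod.snd (zc k I) zc_ne).wd T y := by
  induction T with
  | nil => rfl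
  | cons j T ih =>
    show (zrep k I).t j ((zrep k I).wd T y) = _
    rw [ih]
    rfl

end

end Pool.Agent.H159
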