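import Pool.Agent.H159.Sorted
import Pool.Agent.H159.Strand

/-!
# Functions on words satisfying the Serre relations
-/

set_option linter.unusedSectionVars false
set_option linter.unusedSimpArgs false

namespace Pool.Agent.H159

open KQuiver

/-- far vertices -/
def far {I : Type} [KQuiver I] (a b : I) : Prop := a ≠ b ∧ ¬ arr a b ∧ ¬ arr b a

theorem far_symm {I : Type} [KQuiver I] {a b : I} (h : far a b) : far b a :=
  ⟨h.1.symm, h.2.2, h.2.1⟩

/-- the commutator -/
def br {R : Type} [Ring R] (x y : R) : R := x * y - y * x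

section br

variable {R : Type} [Ring R] (x y z : R)

theorem br_br : br (br x y) z = br x (br y z) - br y (br x z) := by
  unfold br; noncomm_ring

theorem br_skew : br x y = - br y x := by unfold br; noncomm_ring

theorem br_zero : br x 0 = 0 := by simp [br]

theorem zero_br : br 0 x = 0 := by simp [br]

theorem br_neg : br x (-y) = - br x y := by unfold br; noncomm_ring

theorem neg_br : br (-x) y = - br x y := by unfold br; noncomm_ring

theorem br_zero_symm {x y : R} (h : br x y = 0) : br y x = 0 := by
  rw [br_skew, h, neg_zero]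

theorem comm_of_br {x y : R} (h : br x y = 0) : x * y = y * x := sub_eq_zero.mp h

theorem br_of_comm {x y : R} (h : x * y = y * x) : br x y = 0 := sub_eq_zero.mpr h

end br

variable (I : Type) [KQuiver I] [DecidableEq I]

/-- functions on words satisfying the Serre relations in every context -/
def FF : Submodule ℤ (List I → ℤ) where
  carrier := {f | (∀ p a b q, far a b → f (p ++ a :: b :: q) = f (p ++ b :: a :: q)) ∧
    ∀ p a b q, arr a b ∨ arr b a →
      2 * f (p ++ a :: b :: a :: q) = f (p ++ a :: a :: b :: q) + f (p ++ b :: a :: a :: q)}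
  add_mem' := by
    rintro f g ⟨h1, h2⟩ ⟨h3, h4⟩
    refine ⟨fun p a b q h => ?_, fun p a b q h => ?_⟩
    · rw [Pi.add_apply, Pi.add_apply, h1 p a b q h, h3 p a b q h]
    · have := h2 p a b q h
      have := h4 p a b q h
      simp only [Pi.add_apply]
      linarith
  zero_mem' := ⟨fun _ _ _ _ _ => rfl, fun _ _ _ _ _ => by simp⟩
  smul_mem' := by
    rintro c f ⟨h1, h2⟩
    refine ⟨fun p a b q h => ?_, fun p a b q h => ?_⟩
    · rw [Pi.smul_apply, Pi.smul_apply, h1 p a b q h]
    · have := h2 p a b q h
      simp only [Pi.smul_apply, smul_eq_mul]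
      rw [← mul_add, ← this]; ring

/-- the ring of endomorphisms -/
abbrev UU : Type := Module.End ℤ (FF I)

variable {I}

/-- appending a letter -/
def ue (c : I) : UU I where
  toFun f := ⟨fun w => f.1 (w ++ [c]), by
    refine ⟨fun p a b q h => ?_, fun p a b q h => ?_⟩
    · have := f.2.1 p a b (q ++ [c]) h
      simpa using this
    · have := f.2.2 p a b (q ++ [c]) h
      simpa using this⟩
  map_add' f g := rfl
  map_smul' c f := rfl

theorem ue_apply (c : I) (f : FF I) (w : List I) : (ue c f).1 w = f.1 (w ++ [c]) := rfl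

theorem ue_mul_apply (c : I) (X : UU I) (f : FF I) (w : List I) :
    ((ue c * X) f).1 w = (X f).1 (w ++ [c]) := rfl

theorem uu_ext {X Y : UU I} (h : ∀ f w, (X f).1 w = (Y f).1 w) : X = Y :=
  LinearMap.ext fun f => Subtype.ext (funext fun w => h f w)

theorem ue_far {a b : I} (h : far a b) : br (ue a) (ue b) = (0 : UU I) := by
  unfold br
  rw [sub_eq_zero]
  apply uu_ext
  intro f w
  have := f.2.1 w a b [] h
  show f.1 (w ++ [a] ++ [b]) = f.1 (w ++ [b] ++ [a])
  simpa using this

theorem ue_serre {a b : I} (h : arr a b ∨ arr b a) :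
    br (ue a) (br (ue a) (ue b)) = (0 : UU I) := by
  have h1 : ue a * ue a * ue b + ue b * ue a * ue a = ue a * ue b * ue a + ue a * ue b * ue a := by
    apply uu_ext
    intro f w
    have := f.2.2 w a b [] h
    show f.1 (w ++ [a] ++ [a] ++ [b]) + f.1 (w ++ [b] ++ [a] ++ [a]) =
      f.1 (w ++ [a] ++ [b] ++ [a]) + f.1 (w ++ [a] ++ [b] ++ [a])
    simp only [List.append_assoc, List.singleton_append, List.cons_append, List.nil_append]
    linarith
  unfold br
  have h2 : ue a * (ue a * ue b - ue b * ue a) - (ue a * ue b - ue b * ue a) * ue a =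
      (ue a * ue a * ue b + ue b * ue a * ue a) -
        (ue a * ue b * ue a + ue a * ue b * ue a) := by noncomm_ring
  rw [h2, h1, sub_self]

theorem two_torsion {X : UU I} (h : X + X = 0) : X = 0 := by
  apply uu_ext
  intro f w
  have h1 := congrArg (fun Y : UU I => (Y f).1 w) h
  have h2 : (X f).1 w + (X f).1 w = 0 := h1
  show (X f).1 w = 0
  omega

/-- root vectors -/
def EE : List I → UU I
  | [] => 0
  | a :: r => r.foldl (fun X b => br X (ue b)) (ue a)

theorem EE_single (a : I) : EE [a] = ue a := rfl

theorem EE_concat {s : List I} (hs : s ≠ []) (b : I) : EE (s ++ [b]) = br (EE s) (ue b) := by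
  rcases s with _ | ⟨a, r⟩
  · exact absurd rfl hs
  · show (r ++ [b]).foldl _ _ = _
    rw [List.foldl_append]
    rfl

theorem EE_comm {s : List I} {X : UU I} (h : ∀ c ∈ s, br (ue c) X = 0) : br (EE s) X = 0 := by
  induction s using List.reverseRecOn with
  | nil => show br (0 : UU I) X = 0; rw [zero_br]
  | append_singleton s b ih =>
    by_cases hs : s = []
    · subst hs
      rw [List.nil_append, EE_single]
      exact h b (by simp)
    · rw [EE_concat hs, br_br, h b (by simp), ih (fun c hc => h c (by simp [hc])), br_zero,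
        br_zero, sub_zero]

theorem EE_comm' {s : List I} {X : UU I} (h : ∀ c ∈ s, br X (ue c) = 0) : br X (EE s) = 0 :=
  br_zero_symm (EE_comm (fun c hc => br_zero_symm (h c hc)))

/-- letters of a good chain -/
theorem GoodC.farlast {s : List I} {b : I} (h : GoodC (s ++ [b])) {t : List I} {c : I}
    (hs : s = t ++ [c]) : arr c b ∧ ∀ a ∈ t, far a b := by
  subst hs
  constructor
  · exact (h t c [] b [] (by simp)).2.1 rfl
  · intro a ha
    obtain ⟨p, q, rfl⟩ := List.append_of_mem ha
    have h1 := h p a (q ++ [c]) b [] (by simp)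
    exact ⟨h1.1, h1.2.2 (by simp)⟩

theorem GoodC.farfirst {b c : I} {t : List I} (h : GoodC (b :: c :: t)) :
    arr b c ∧ ∀ a ∈ t, far b a := by
  constructor
  · exact (h [] b [] c t (by simp)).2.1 rfl
  · intro a ha
    obtain ⟨p, q, rfl⟩ := List.append_of_mem ha
    have h1 := h [] b (c :: p) a q (by simp)
    exact ⟨h1.1, h1.2.2 (by simp)⟩

theorem GoodC.left {p q : List I} (h : GoodC (p ++ q)) : GoodC p :=
  GoodC.middle (p := []) (q := q) (by simpa using h)

theorem GoodC.right {p q : List I} (h : GoodC (p ++ q)) : GoodC q :=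
  GoodC.middle (p := p) (q := []) (by simpa using h)

theorem exists_concat {I : Type} {s : List I} (hs : s ≠ []) : ∃ t c, s = t ++ [c] := by
  rcases List.eq_nil_or_concat s with h | ⟨t, c, h⟩
  · exact absurd h hs
  · exact ⟨t, c, by rw [h, List.concat_eq_append]⟩

theorem EE_append {s t : List I} (hs : s ≠ []) (ht : t ≠ []) (hg : GoodC (s ++ t)) :
    EE (s ++ t) = br (EE s) (EE t) := by
  induction t using List.reverseRecOn with
  | nil => exact absurd rfl ht
  | append_singleton t b ih =>
    by_cases ht' : t = []
    · subst ht'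
      rw [List.nil_append, EE_concat hs, EE_single]
    · rw [← List.append_assoc] at hg ⊢
      rw [EE_concat (by simp [hs]), ih ht' hg.left, EE_concat ht', br_br]
      have h1 : br (EE s) (ue b) = 0 := by
        apply EE_comm
        intro c hc
        apply ue_far
        obtain ⟨t', d, rfl⟩ := exists_concat ht'
        have := hg.farlast (t := s ++ t') (c := d) (by simp)
        exact this.2 c (by simp [hc])
      rw [h1, br_zero, sub_zero]

/-- the last letter -/
theorem EE_last {s : List I} (hs : s ≠ []) {m : I} (hg : GoodC (s ++ [m])) :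
    br (EE (s ++ [m])) (ue m) = 0 := by
  obtain ⟨t, a, rfl⟩ := exists_concat hs
  obtain ⟨harr, hfar⟩ := hg.farlast rfl
  have hS : br (br (ue a) (ue m)) (ue m) = (0 : UU I) := by
    apply br_zero_symm
    rw [br_skew (ue a) (ue m), br_neg, ue_serre (Or.inr harr), neg_zero]
  rw [EE_concat hs]
  by_cases ht : t = []
  · subst ht
    rw [List.nil_append, EE_single]
    exact hS
  · rw [EE_concat ht]
    have h2 : br (EE t) (ue m) = 0 := EE_comm (fun c hc => ue_far (hfar c hc))
    rw [br_br (EE t) (ue a) (ue m), h2, br_zero, sub_zero, br_br, hS, h2, br_zero,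
      br_zero, sub_zero]

/-- the first letter -/
theorem EE_first {s : List I} (hs : s ≠ []) {m : I} (hg : GoodC (m :: s)) :
    br (EE (m :: s)) (ue m) = 0 := by
  rcases s with _ | ⟨b, t⟩
  · exact absurd rfl hs
  obtain ⟨harr, hfar⟩ := hg.farfirst
  have hS : br (br (ue m) (ue b)) (ue m) = (0 : UU I) :=
    br_zero_symm (ue_serre (Or.inl harr))
  by_cases ht : t = []
  · subst ht
    have : EE [m, b] = br (EE [m]) (ue b) := EE_concat (s := [m]) (by simp) b
    rw [this, EE_single]
    exact hS
  · have h1 : EE (m :: b :: t) = br (br (ue m) (ue b)) (EE t) := by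
      have := EE_append (s := [m, b]) (t := t) (by simp) ht (by simpa using hg)
      have h2 : EE [m, b] = br (EE [m]) (ue b) := EE_concat (s := [m]) (by simp) b
      rw [h2, EE_single] at this
      exact this
    have h2 : br (EE t) (ue m) = 0 := EE_comm (fun c hc => ue_far (far_symm (hfar c hc)))
    rw [h1, br_br (br (ue m) (ue b)) (EE t) (ue m), h2, br_zero, hS, br_zero, sub_zero]

/-- root vectors commute with the letters of the chain -/
theorem EE_mem {s : List I} (hg : GoodC s) {m : I} (hm : m ∈ s) : br (EE s) (ue m) = 0 := by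
  obtain ⟨s₁, s₃, rfl⟩ := List.append_of_mem hm
  by_cases h1 : s₁ = []
  · subst h1
    by_cases h3 : s₃ = []
    · subst h3
      rw [List.nil_append, EE_single]
      unfold br; simp
    · exact EE_first h3 hg
  · by_cases h3 : s₃ = []
    · subst h3
      exact EE_last h1 hg
    · have hg1 : GoodC (s₁ ++ [m]) := by
        have : GoodC ((s₁ ++ [m]) ++ s₃) := by simpa using hg
        exact this.left
      have hg3 : GoodC (m :: s₃) := hg.right
      have e1 : EE (s₁ ++ m :: s₃) = br (br (EE s₁) (ue m)) (EE s₃) := by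
        have := EE_append (s := s₁ ++ [m]) (t := s₃) (by simp) h3 (by simpa using hg)
        rw [EE_concat h1] at this
        simpa using this
      have e3 : EE (m :: s₃) = br (ue m) (EE s₃) :=
        EE_append (s := [m]) (t := s₃) (by simp) h3 (by simpa using hg3)
      have e2 : EE (s₁ ++ m :: s₃) = br (EE s₁) (br (ue m) (EE s₃)) := by
        rw [EE_append h1 (by simp) hg, e3]
      have c1 : br (br (EE s₁) (ue m)) (ue m) = 0 := by
        have := EE_last h1 hg1
        rwa [EE_concat h1] at this
      have c3 : br (br (ue m) (EE s₃)) (ue m) = 0 := by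
        have := EE_first h3 hg3
        rwa [e3] at this
      apply two_torsion
      have k1 : br (EE (s₁ ++ m :: s₃)) (ue m) = -br (br (EE s₁) (ue m)) (br (ue m) (EE s₃)) := by
        rw [e1, br_br (br (EE s₁) (ue m)) (EE s₃) (ue m), c1, br_zero, sub_zero,
          br_skew (EE s₃) (ue m), br_neg]
      have k2 : br (EE (s₁ ++ m :: s₃)) (ue m) = br (br (EE s₁) (ue m)) (br (ue m) (EE s₃)) := by
        rw [e2, br_br (EE s₁) (br (ue m) (EE s₃)) (ue m), c3, br_zero, zero_sub,
          br_skew (br (ue m) (EE s₃)), neg_neg]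
      nth_rewrite 1 [k1]
      rw [k2, neg_add_cancel]

/-- nested chains -/
theorem EE_nested {s p t q : List I} (hg : GoodC s) (hs : s = p ++ t ++ q) :
    br (EE s) (EE t) = 0 := by
  apply EE_comm'
  intro c hc
  apply EE_mem hg
  rw [hs]; simp [hc]

end Pool.Agent.H159
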