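import Pool.Agent.H159.Blocks

/-!
# Word dimensions of modules satisfy the Serre relations
-/

set_option linter.unusedSectionVars false
set_option linter.unusedSimpArgs false

namespace Pool.Agent.H159

open KQuiver

theorem rank_split {k V W : Type} [Field k] [AddCommGroup V] [Module k V] [AddCommGroup W]
    [Module k W] [Module.Finite k V] (P : Submodule k V) (T : V →ₗ[k] W) :
    Module.finrank k P = Module.finrank k (P.map T) +
      Module.finrank k (P ⊓ LinearMap.ker T : Submodule k V) := by
  rw [← LinearMap.finrank_range_add_finrank_ker (T.domRestrict P)]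
  congr 1
  · have : LinearMap.range (T.domRestrict P) = P.map T := by
      ext y
      simp [LinearMap.mem_range, Submodule.mem_map]
    rw [this]
  · rw [← Submodule.finrank_map_subtype_eq P (LinearMap.ker (T.domRestrict P))]
    have : (LinearMap.ker (T.domRestrict P)).map P.subtype = P ⊓ LinearMap.ker T := by
      ext y
      simp only [Submodule.mem_map, LinearMap.mem_ker, Submodule.mem_inf]
      constructor
      · rintro ⟨z, hz, rfl⟩
        exact ⟨z.2, hz⟩
      · rintro ⟨h1, h2⟩
        exact ⟨⟨y, h1⟩, h2, rfl⟩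
    rw [this]

variable {k I V : Type} [Field k] [KQuiver I] [AddCommGroup V] [Module k V]

/-- the space of vectors attached to a word -/
noncomputable def wsp (O : Ops k I V) (u : List I) : Submodule k V :=
  LinearMap.ker (O.e u - 1)

theorem mem_wsp {O : Ops k I V} {u : List I} {y : V} : y ∈ wsp O u ↔ O.Hom u y := by
  unfold wsp
  rw [LinearMap.mem_ker, LinearMap.sub_apply, sub_eq_zero]
  rfl

variable (O : Ops k I V)

/-- the dimension of the word space -/
noncomputable def wdm (u : List I) : ℤ := Module.finrank k (wsp O u)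

theorem wdm_far {p q : List I} {a b : I} (h : far a b) :
    wdm O (p ++ a :: b :: q) = wdm O (p ++ b :: a :: q) := by
  unfold wdm
  congr 1
  apply LinearEquiv.finrank_eq
  have key : ∀ a b : I, far a b → ∀ y, O.Hom (p ++ a :: b :: q) y →
      O.t p.length (O.t p.length y) = y := by
    intro a b h y hy
    rw [Ops.tt_apply hy rfl]
    unfold Qop
    rw [if_neg h.1, if_neg h.2.1, if_neg h.2.2]
    rfl
  exact
    { toFun := fun y => ⟨O.t p.length y.1, mem_wsp.mpr ((mem_wsp.mp y.2).t rfl)⟩
      map_add' := fun y z => Subtype.ext (map_add _ _ _)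
      map_smul' := fun c y => Subtype.ext (map_smul _ _ _)
      invFun := fun y => ⟨O.t p.length y.1, mem_wsp.mpr ((mem_wsp.mp y.2).t rfl)⟩
      left_inv := fun y => Subtype.ext (key a b h y.1 (mem_wsp.mp y.2))
      right_inv := fun y => Subtype.ext (key b a (far_symm h) y.1 (mem_wsp.mp y.2)) }

/-- equal neighbours: the image of the crossing is its kernel -/
theorem rank_equal [Module.Finite k V] {p q : List I} {a : I} {j : ℕ} (hj : p.length = j) :
    wdm O (p ++ a :: a :: q) =
      2 * (Module.finrank k (wsp O (p ++ a :: a :: q) ⊓ LinearMap.ker (O.t j) :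
        Submodule k V) : ℤ) := by
  have h1 := rank_split (wsp O (p ++ a :: a :: q)) (O.t j)
  have h2 : (wsp O (p ++ a :: a :: q)).map (O.t j) =
      wsp O (p ++ a :: a :: q) ⊓ LinearMap.ker (O.t j) := by
    apply le_antisymm
    · rintro _ ⟨y, hy, rfl⟩
      have hy' := mem_wsp.mp hy
      refine ⟨mem_wsp.mpr (hy'.t hj), ?_⟩
      rw [SetLike.mem_coe, LinearMap.mem_ker, Ops.tt_apply hy' hj]
      unfold Qop
      rw [if_pos rfl]
      rfl
    · rintro y ⟨hy, hy2⟩
      have hy' := mem_wsp.mp hy
      rw [SetLike.mem_coe, LinearMap.mem_ker] at hy2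
      refine ⟨O.x (j + 1) y, mem_wsp.mpr (hy'.x _), ?_⟩
      rw [Ops.tx_apply hy' hj, hy2, map_zero, zero_add]
      simp [dlt]
  rw [h2] at h1
  unfold wdm
  rw [h1]
  push_cast
  ring

theorem Qop_vec_left {a b : I} (h : arr a b ∨ arr b a) {u v : Module.End k V} {y w1 w2 : V}
    (h1 : u y = w1) (h2 : v y = w2) :
    Qop a b u v y = epsk k a b • (w1 - w2) := by
  unfold Qop epsk
  have hne : a ≠ b := by
    rintro rfl
    rcases h with h | h <;> exact KQuiver.irrefl _ h
  rw [if_neg hne]
  by_cases hab : arr a b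
  · rw [if_pos hab, if_pos hab, LinearMap.sub_apply, h1, h2, one_smul]
  · have hba := h.resolve_left hab
    rw [if_neg hab, if_pos hba, if_neg hab, if_pos hba, LinearMap.sub_apply, h1, h2, neg_smul,
      one_smul, neg_sub]

theorem epsk_sq {a b : I} (h : arr a b ∨ arr b a) : epsk k a b * epsk k a b = 1 := by
  unfold epsk
  by_cases hab : arr a b
  · rw [if_pos hab, one_mul]
  · rw [if_neg hab, if_pos (h.resolve_left hab)]
    ring

theorem epsk_symm {a b : I} (h : arr a b ∨ arr b a) : epsk k b a = - epsk k a b := by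
  unfold epsk
  by_cases hab : arr a b
  · rw [if_pos hab, if_neg (KQuiver.asymm _ _ hab), if_pos hab]
  · have hba := h.resolve_left hab
    rw [if_pos hba, if_neg hab, if_pos hba, neg_neg]

/-- The Serre relation for word dimensions. -/
theorem wdm_serre [Module.Finite k V] {p q : List I} {a b : I} (h : arr a b ∨ arr b a) :
    2 * wdm O (p ++ a :: b :: a :: q) =
      wdm O (p ++ a :: a :: b :: q) + wdm O (p ++ b :: a :: a :: q) := by
  have hab : a ≠ b := by
    rintro rfl
    rcases h with h | h <;> exact KQuiver.irrefl _ h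
  obtain ⟨n, hn⟩ : ∃ n, p.length = n := ⟨_, rfl⟩
  have hn1 : (p ++ [b]).length = n + 1 := by simp [hn]
  have hn1' : ∀ c : I, (p ++ [c]).length = n + 1 := by intro c; simp [hn]
  have r2 := rank_equal O (p := p) (q := b :: q) (a := a) hn
  have r3 : wdm O (p ++ b :: a :: a :: q) =
      2 * (Module.finrank k (wsp O (p ++ b :: a :: a :: q) ⊓ LinearMap.ker (O.t (n + 1)) :
        Submodule k V) : ℤ) := by
    have := rank_equal O (p := p ++ [b]) (q := q) (a := a) hn1
    have e1 : (p ++ [b]) ++ a :: a :: q = p ++ b :: a :: a :: q := by simp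
    rw [e1] at this
    exact this
  rw [r2, r3, ← mul_add]
  congr 1
  set Z := wsp O (p ++ a :: a :: b :: q) ⊓ LinearMap.ker (O.t n) with hZ
  set Z' := wsp O (p ++ b :: a :: a :: q) ⊓ LinearMap.ker (O.t (n + 1)) with hZ'
  -- moves between words
  have m1 : ∀ (c d e : I) (y : V), O.Hom (p ++ c :: d :: e :: q) y →
      O.Hom (p ++ c :: e :: d :: q) (O.t (n + 1) y) := by
    intro c d e y hy
    have h1 : O.Hom ((p ++ [c]) ++ d :: e :: q) y := by simpa using hy
    have h2 := h1.t (hn1' c)
    simpa using h2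
  have m0 : ∀ (c d e : I) (y : V), O.Hom (p ++ c :: d :: e :: q) y →
      O.Hom (p ++ d :: c :: e :: q) (O.t n y) := by
    intro c d e y hy
    exact hy.t hn
  -- squares
  have sq0 : ∀ (c d : I) (y : V), O.Hom (p ++ c :: c :: d :: q) y → O.t n (O.t n y) = 0 := by
    intro c d y hy
    rw [Ops.tt_apply hy hn]
    unfold Qop
    rw [if_pos rfl]
    rfl
  have sq1 : ∀ (c d : I) (y : V), O.Hom (p ++ d :: c :: c :: q) y →
      O.t (n + 1) (O.t (n + 1) y) = 0 := by
    intro c d y hy
    have h1 : O.Hom ((p ++ [d]) ++ c :: c :: q) y := by simpa using hy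
    rw [Ops.tt_apply h1 (hn1' d)]
    unfold Qop
    rw [if_pos rfl]
    rfl
  -- braid relations
  have b1 : ∀ y, O.Hom (p ++ a :: b :: a :: q) y →
      O.t (n + 1) (O.t n (O.t (n + 1) y)) =
        O.t n (O.t (n + 1) (O.t n y)) + epsk k a b • y := by
    intro y hy
    have h1 := congrArg (fun z : Module.End k V => z y) (O.br_eq p a b q)
    simp only [Module.End.mul_apply, LinearMap.add_apply, LinearMap.smul_apply] at h1
    rw [hy, hn] at h1
    exact h1
  have b2 : ∀ (c d e : I), c ≠ e → ∀ y, O.Hom (p ++ c :: d :: e :: q) y →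
      O.t (n + 1) (O.t n (O.t (n + 1) y)) = O.t n (O.t (n + 1) (O.t n y)) := by
    intro c d e hce y hy
    have h1 := congrArg (fun z : Module.End k V => z y) (O.br_ne p c d e q hce)
    simp only [Module.End.mul_apply] at h1
    rw [hy, hn] at h1
    exact h1
  -- values on `Z`
  have z1 : ∀ z, O.Hom (p ++ a :: a :: b :: q) z → O.t n z = 0 →
      O.t n (O.t (n + 1) (O.t (n + 1) z)) = epsk k a b • z := by
    intro z hz hz0
    have h1 : O.Hom ((p ++ [a]) ++ a :: b :: q) z := by simpa using hz
    rw [Ops.tt_apply h1 (hn1' a), Qop_vec_left h rfl rfl, map_smul, map_sub,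
      Ops.tx_apply hz hn, Ops.t_x_comm (i := n) (j := n + 1 + 1) (by omega) (by omega), hz0]
    simp [dlt]
  have z2 : ∀ z, O.Hom (p ++ b :: a :: a :: q) z → O.t (n + 1) z = 0 →
      O.t (n + 1) (O.t n (O.t n z)) = - (epsk k a b • z) := by
    intro z hz hz0
    have h1 : O.Hom ((p ++ [b]) ++ a :: a :: q) z := by simpa using hz
    have h2 : O.t (n + 1) (O.x (n + 1) z) = - z := by
      have := Ops.xt_apply h1 (hn1' b)
      rw [hz0, map_zero] at this
      simp only [dlt, if_true, one_smul] at this
      exact eq_neg_of_add_eq_zero_left this.symm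
    rw [Ops.tt_apply hz hn, Qop_vec_left h.symm rfl rfl, map_smul, map_sub,
      Ops.t_x_comm (i := n + 1) (j := n) (by omega) (by omega), hz0, h2, map_zero,
      epsk_symm h]
    simp
  have e : wsp O (p ++ a :: b :: a :: q) ≃ₗ[k] (Z × Z') :=
    { toFun := fun y => (⟨O.t n (O.t (n + 1) y.1),
          mem_wsp.mpr (m0 _ _ _ _ (m1 _ _ _ _ (mem_wsp.mp y.2))),
          LinearMap.mem_ker.mpr (sq0 _ _ _ (m1 _ _ _ _ (mem_wsp.mp y.2)))⟩,
        ⟨O.t (n + 1) (O.t n y.1), mem_wsp.mpr (m1 _ _ _ _ (m0 _ _ _ _ (mem_wsp.mp y.2))),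
          LinearMap.mem_ker.mpr (sq1 _ _ _ (m0 _ _ _ _ (mem_wsp.mp y.2)))⟩)
      map_add' := by
        intro y z
        refine Prod.ext (Subtype.ext ?_) (Subtype.ext ?_)
        · show O.t n (O.t (n + 1) (y.1 + z.1)) = _
          rw [map_add, map_add]; rfl
        · show O.t (n + 1) (O.t n (y.1 + z.1)) = _
          rw [map_add, map_add]; rfl
      map_smul' := by
        intro c y
        refine Prod.ext (Subtype.ext ?_) (Subtype.ext ?_)
        · show O.t n (O.t (n + 1) (c • y.1)) = _
          rw [map_smul, map_smul]; rfl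
        · show O.t (n + 1) (O.t n (c • y.1)) = _
          rw [map_smul, map_smul]; rfl
      invFun := fun z => ⟨epsk k a b • (O.t (n + 1) z.1.1 - O.t n z.2.1), by
        apply Submodule.smul_mem
        apply Submodule.sub_mem
        · exact mem_wsp.mpr (m1 _ _ _ _ (mem_wsp.mp z.1.2.1))
        · exact mem_wsp.mpr (m0 _ _ _ _ (mem_wsp.mp z.2.2.1))⟩
      left_inv := by
        intro y
        apply Subtype.ext
        show epsk k a b • (O.t (n + 1) (O.t n (O.t (n + 1) y.1)) -
          O.t n (O.t (n + 1) (O.t n y.1))) = y.1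
        rw [b1 _ (mem_wsp.mp y.2), add_sub_cancel_left, smul_smul, epsk_sq h, one_smul]
      right_inv := by
        rintro ⟨⟨z, hz, hz0⟩, ⟨z', hz', hz0'⟩⟩
        rw [SetLike.mem_coe, LinearMap.mem_ker] at hz0 hz0'
        have hz := mem_wsp.mp hz
        have hz' := mem_wsp.mp hz'
        have c1 : O.t n (O.t (n + 1) (O.t n z')) = 0 := by
          rw [← b2 _ _ _ (Ne.symm hab) _ hz', hz0', map_zero, map_zero]
        have c2 : O.t (n + 1) (O.t n (O.t (n + 1) z)) = 0 := by
          rw [b2 _ _ _ hab _ hz, hz0, map_zero, map_zero]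
        refine Prod.ext (Subtype.ext ?_) (Subtype.ext ?_)
        · show O.t n (O.t (n + 1) (epsk k a b • (O.t (n + 1) z - O.t n z'))) = z
          rw [map_smul, map_smul, map_sub, map_sub, z1 z hz hz0, c1, sub_zero, smul_smul,
            epsk_sq h, one_smul]
        · show O.t (n + 1) (O.t n (epsk k a b • (O.t (n + 1) z - O.t n z'))) = z'
          rw [map_smul, map_smul, map_sub, map_sub, z2 z' hz' hz0', c2, zero_sub, neg_neg,
            smul_smul, epsk_sq h, one_smul] }
  unfold wdm
  rw [LinearEquiv.finrank_eq e, Module.finrank_prod]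
  push_cast
  rfl

/-- the function of word dimensions -/
noncomputable def wff [DecidableEq I] [Module.Finite k V] : FF I :=
  ⟨wdm O, fun _ _ _ _ h => wdm_far O h, fun _ _ _ _ h => wdm_serre O h⟩

end Pool.Agent.H159
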