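import Pool.Agent.H159.Cat

/-!
# Dimension shifting for modules
-/

set_option linter.unusedSectionVars false

namespace Pool.Agent.H159

open CategoryTheory CategoryTheory.Abelian

section

variable (R : Type) [Ring R]

/-- vanishing of an Ext group -/
def VE (M Y : Type) [AddCommGroup M] [Module R M] [AddCommGroup Y] [Module R Y] (n : ℕ) : Prop :=
  Subsingleton (Ext (ModuleCat.of R M) (ModuleCat.of R Y) n)

variable {R}

variable {K P X Y : Type} [AddCommGroup K] [Module R K] [AddCommGroup P] [Module R P]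
  [AddCommGroup X] [Module R X] [AddCommGroup Y] [Module R Y]

theorem ve_zero : VE R X Y 0 ↔ ∀ φ : X →ₗ[R] Y, φ = 0 := by
  unfold VE
  constructor
  · intro h φ
    have h1 : Ext.addEquiv₀.symm (ModuleCat.ofHom φ) =
        (Ext.addEquiv₀.symm 0 : Ext (ModuleCat.of R X) (ModuleCat.of R Y) 0) :=
      Subsingleton.elim _ _
    have h2 := Ext.addEquiv₀.symm.injective h1
    have h3 := congrArg ModuleCat.Hom.hom h2
    exact h3
  · intro h
    refine subsingleton_of_forall_eq 0 (fun x => ?_)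
    obtain ⟨f, rfl⟩ := Ext.addEquiv₀.symm.surjective x
    have h1 : f = 0 := ModuleCat.hom_ext (h f.hom)
    rw [h1, map_zero]

theorem proj_ext_zero [hP : Module.Projective R P] (n : ℕ)
    (x : Ext (ModuleCat.of R P) (ModuleCat.of R Y) (n + 1)) : x = 0 := by
  have : Projective (ModuleCat.of R P) := (IsProjective.iff_projective P).mp hP
  exact Ext.eq_zero_of_projective x

variable (f : K →ₗ[R] P) (g : P →ₗ[R] X) (h : ∀ z, g z = 0 ↔ ∃ y, f y = z)
  (hf : Function.Injective f) (hg : Function.Surjective g)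

include h hf hg in
theorem ve_one [Module.Projective R P] :
    VE R X Y 1 ↔ ∀ φ : K →ₗ[R] Y, ∃ ψ : P →ₗ[R] Y, ψ ∘ₗ f = φ := by
  have hS := scx_exact f g h hf hg
  unfold VE
  constructor
  · intro hV φ
    have h1 : hS.extClass.comp (Ext.mk₀ (ModuleCat.ofHom φ)) (add_zero 1) = 0 :=
      Subsingleton.elim _ _
    obtain ⟨x2, hx2⟩ := Ext.contravariant_sequence_exact₁ hS (ModuleCat.of R Y) _ _ h1
    obtain ⟨ψ, rfl⟩ := Ext.addEquiv₀.symm.surjective x2
    rw [Ext.addEquiv₀_symm_apply, Ext.mk₀_comp_mk₀] at hx2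
    have h2 := (Ext.mk₀_bijective _ _).1 hx2
    exact ⟨ψ.hom, congrArg ModuleCat.Hom.hom h2⟩
  · intro hφ
    refine subsingleton_of_forall_eq 0 (fun x => ?_)
    obtain ⟨x1, hx1⟩ := Ext.contravariant_sequence_exact₃ hS (ModuleCat.of R Y) x
      (proj_ext_zero 0 _) (add_zero 1)
    obtain ⟨φ, rfl⟩ := Ext.addEquiv₀.symm.surjective x1
    obtain ⟨ψ, hψ⟩ := hφ φ.hom
    have h2 : φ = ModuleCat.ofHom f ≫ ModuleCat.ofHom ψ := by
      apply ModuleCat.hom_ext
      exact hψ.symm
    rw [← hx1, h2, Ext.addEquiv₀_symm_apply, ← Ext.mk₀_comp_mk₀]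
    rw [← Ext.comp_assoc_of_second_deg_zero]
    have h3 := hS.extClass_comp
    have h4 : hS.extClass.comp (Ext.mk₀ (ModuleCat.ofHom f)) (add_zero 1) = 0 := h3
    rw [h4, Ext.zero_comp]

include h hf hg in
theorem ve_of_shift [Module.Projective R P] (n : ℕ) (hK : VE R K Y n) : VE R X Y (n + 1) := by
  have hS := scx_exact f g h hf hg
  unfold VE at hK ⊢
  refine subsingleton_of_forall_eq 0 (fun x => ?_)
  obtain ⟨x1, hx1⟩ := Ext.contravariant_sequence_exact₃ hS (ModuleCat.of R Y) x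
    (proj_ext_zero n _) (add_comm 1 n)
  have h2 : x1 = 0 := Subsingleton.elim (α := Ext (ModuleCat.of R K) (ModuleCat.of R Y) n) _ _
  rw [← hx1, h2, Ext.comp_zero]

include h hf hg in
theorem ve_to_shift [Module.Projective R P] (n : ℕ) (hX : VE R X Y (n + 2)) :
    VE R K Y (n + 1) := by
  have hS := scx_exact f g h hf hg
  unfold VE at hX ⊢
  refine subsingleton_of_forall_eq 0 (fun x => ?_)
  have h1 : hS.extClass.comp x (add_comm 1 (n + 1)) = 0 :=
    Subsingleton.elim (α := Ext (ModuleCat.of R X) (ModuleCat.of R Y) (n + 2)) _ _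
  obtain ⟨x2, hx2⟩ := Ext.contravariant_sequence_exact₁ hS (ModuleCat.of R Y) x _ h1
  have h2 : x2 = 0 := proj_ext_zero n x2
  rw [← hx2, h2, Ext.comp_zero]

end

end Pool.Agent.H159
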