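import Pool.Agent.H159.Span

/-!
# Labelled shuffles and the spanning set of an induced module
-/

set_option linter.unusedSectionVars false

namespace Pool.Agent.H159

open KQuiver

section comb

variable {I : Type} [DecidableEq I]

/-- remove the first letter of the first chain -/
def hpick (c : I) (ss : List (List I)) : List I → List (ℕ × List (List I))
  | [] => []
  | d :: s' => if d = c then [(0, s' :: ss)] else []

/-- the ways to remove the first letter `c` of one of the chains: the number of letters before it
and the remaining chains -/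
def picks (c : I) : List (List I) → List (ℕ × List (List I))
  | [] => []
  | s :: ss => hpick c ss s ++ (picks c ss).map fun q => (q.1 + s.length, s :: q.2)

/-- the number of labelled shuffles of the chains `ss` with result `u` -/
def sh (ss : List (List I)) : List I → ℕ
  | [] => if ss.flatten = [] then 1 else 0
  | c :: u => ((picks c ss).map fun q => sh q.2 u).sum

/-- the list of words in the crossings attached to the shuffles -/
def BB (p : ℕ) (ss : List (List I)) : List I → List (List ℕ)
  | [] => if ss.flatten = [] then [[]] else []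
  | c :: u => (picks c ss).flatMap fun q => (BB (p + 1) q.2 u).map (· ++ List.range' p q.1)

theorem length_BB (p : ℕ) (ss : List (List I)) (u : List I) : (BB p ss u).length = sh ss u := by
  induction u generalizing p ss with
  | nil => unfold BB sh; split_ifs <;> rfl
  | cons c u ih =>
    unfold BB sh
    rw [List.length_flatMap]
    congr 1
    apply List.map_congr_left
    intro q _
    rw [List.length_map, ih]

/-- positions strictly inside one chain -/
def Ins : ℕ → List (List I) → ℕ → Prop
  | _, [], _ => False
  | p, s :: ss, j => (p ≤ j ∧ j + 1 < p + s.length) ∨ Ins (p + s.length) ss j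

theorem Ins_append (p : ℕ) (A B : List (List I)) (j : ℕ) :
    Ins p (A ++ B) j ↔ Ins p A j ∨ Ins (p + A.flatten.length) B j := by
  induction A generalizing p with
  | nil => simp [Ins]
  | cons s A ih =>
    rw [List.cons_append, Ins, Ins, ih, or_assoc, List.flatten_cons, List.length_append, add_assoc]

theorem Ins_bounds {p : ℕ} {A : List (List I)} {j : ℕ} (h : Ins p A j) :
    p ≤ j ∧ j + 1 < p + A.flatten.length := by
  induction A generalizing p with
  | nil => exact h.elim
  | cons s A ih =>
    rw [List.flatten_cons, List.length_append]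
    rcases h with h | h
    · omega
    · have := ih h; omega

theorem Ins_succ {p : ℕ} {A : List (List I)} {j : ℕ} (h : Ins (p + 1) A (j + 1)) : Ins p A j := by
  induction A generalizing p with
  | nil => exact h.elim
  | cons s A ih =>
    rcases h with h | h
    · left; omega
    · right
      apply ih
      have h1 : p + 1 + s.length = p + s.length + 1 := by omega
      rw [← h1]; exact h

theorem picks_spec {c : I} {ss : List (List I)} {q : ℕ × List (List I)} (h : q ∈ picks c ss) :
    ∃ A d C, ss = A ++ (c :: d) :: C ∧ q = (A.flatten.length, A ++ d :: C) := by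
  induction ss generalizing q with
  | nil => simp [picks] at h
  | cons s ss ih =>
    rw [picks, List.mem_append] at h
    rcases h with h | h
    · cases s with
      | nil => simp [hpick] at h
      | cons d s' =>
        rw [hpick] at h
        by_cases hd : d = c
        · subst hd
          simp only [if_true, List.mem_singleton] at h
          exact ⟨[], s', ss, rfl, h⟩
        · simp [hd] at h
    · rw [List.mem_map] at h
      obtain ⟨r, hr, rfl⟩ := h
      obtain ⟨A, d, C, h1, h2⟩ := ih hr
      subst h2
      refine ⟨s :: A, d, C, by rw [h1]; rfl, ?_⟩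
      simp [add_comm]

theorem mem_picks (A : List (List I)) (c : I) (d : List I) (C : List (List I)) :
    (A.flatten.length, A ++ d :: C) ∈ picks c (A ++ (c :: d) :: C) := by
  induction A with
  | nil => simp [picks, hpick]
  | cons s A ih =>
    rw [List.cons_append, picks, List.mem_append]
    right
    rw [List.mem_map]
    exact ⟨_, ih, by simp [add_comm]⟩

theorem pick_or_ins (p : ℕ) (ss : List (List I)) {m : ℕ} (hm : m < ss.flatten.length) :
    (∃ ss', (m, ss') ∈ picks (ss.flatten[m]) ss) ∨ (1 ≤ m ∧ Ins p ss (p + m - 1)) := by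
  induction ss generalizing p m with
  | nil => simp at hm
  | cons s ss ih =>
    rw [List.flatten_cons, List.length_append] at hm
    rcases Nat.lt_or_ge m s.length with h | h
    · rcases Nat.eq_zero_or_pos m with h0 | h0
      · subst h0
        cases s with
        | nil => simp at h
        | cons d s' =>
          left
          refine ⟨s' :: ss, ?_⟩
          simp [picks, hpick]
      · right
        exact ⟨h0, Or.inl (by omega)⟩
    · obtain ⟨m', rfl⟩ : ∃ m', m = m' + s.length := ⟨m - s.length, by omega⟩
      rcases ih (p + s.length) (m := m') (by omega) with ⟨ss', h'⟩ | ⟨h1, h2⟩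
      · left
        refine ⟨s :: ss', ?_⟩
        have h3 : (s :: ss).flatten[m' + s.length]'(by
            rw [List.flatten_cons, List.length_append]; omega) = ss.flatten[m']'(by omega) := by
          simp [List.getElem_append_right]
        rw [h3, picks, List.mem_append]
        right
        rw [List.mem_map]
        exact ⟨_, h', rfl⟩
      · right
        refine ⟨by omega, Or.inr ?_⟩
        have h3 : p + s.length + m' - 1 = p + (m' + s.length) - 1 := by omega
        rw [h3] at h2
        exact h2

end comb

namespace Ops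

variable {k I V : Type} [CommRing k] [KQuiver I] [AddCommGroup V] [Module k V] (O : Ops k I V)

/-- the operator of a word in the crossings -/
def wd : List ℕ → Module.End k V
  | [] => 1
  | j :: js => O.t j * wd js

variable {O}

theorem wd_append (a b : List ℕ) (y : V) : O.wd (a ++ b) y = O.wd a (O.wd b y) := by
  induction a with
  | nil => rfl
  | cons j a ih => rw [List.cons_append, wd, wd, Module.End.mul_apply, ih, Module.End.mul_apply]

theorem wd_range' (p m : ℕ) (y : V) : O.wd (List.range' p m) y = O.dn p m y := by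
  induction m generalizing y with
  | zero => rfl
  | succ m ih =>
    rw [List.range'_concat, wd_append, ih, dn_succ_apply]
    simp [wd]

variable (O) in
/-- error terms -/
def NL (p m : ℕ) (y : V) : Submodule k V :=
  Submodule.span k {z | ∃ b ∈ O.alg (p + 1), ∃ m' < m, z = b (O.dn p m' y)}

theorem mem_NL {p m m' : ℕ} {y : V} {b : Module.End k V} (hb : b ∈ O.alg (p + 1)) (hm : m' < m) :
    b (O.dn p m' y) ∈ O.NL p m y := Submodule.subset_span ⟨b, hb, m', hm, rfl⟩

theorem dn_dn_mem_NL {p m m' i r : ℕ} {y : V} (hm : m' < m) (hi : p + m' + 1 ≤ i ∨ m' = 0)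
    (hi' : p + 1 ≤ i) : O.dn p m' (O.dn i r y) ∈ O.NL p m y := by
  rw [dn_dn_comm hi]
  exact mem_NL (dn_mem hi' _) hm

/-- moving a dot in the middle -/
theorem x_dn_mid {l : List I} {y : V} (h : O.Hom l y) {p m i : ℕ} (h1 : p ≤ i)
    (h2 : i < p + m) : O.x (i + 1) (O.dn p m y) - O.dn p m (O.x i y) ∈ O.NL p m y := by
  obtain ⟨r, hr⟩ : ∃ r, m = (i - p) + (r + 1) := ⟨m - (i - p) - 1, by omega⟩
  have hpi : p + (i - p) = i := by omega
  have e1 : ∀ z : V, O.dn i (r + 1) z = O.t i (O.dn (i + 1) r z) := by
    intro z
    have h3 : r + 1 = 1 + r := by omega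
    rw [h3, dn_add_apply]
    rfl
  have e2 : ∀ z : V, O.dn p m z = O.dn p (i - p) (O.t i (O.dn (i + 1) r z)) := by
    intro z
    rw [hr, dn_add_apply, hpi, e1]
  obtain ⟨l', h', -, -⟩ := h.dn_exists (i + 1) r
  obtain ⟨c, hc⟩ := h'.xt i
  have e3 : O.dn (i + 1) r (O.x i y) = O.x i (O.dn (i + 1) r y) :=
    dn_x_comm (Or.inl (by omega)) y
  have e4 : O.t i (O.x i (O.dn (i + 1) r y)) =
      O.x (i + 1) (O.t i (O.dn (i + 1) r y)) - c • O.dn (i + 1) r y := by
    rw [hc]; abel
  have e5 : O.dn p (i - p) (O.x (i + 1) (O.t i (O.dn (i + 1) r y))) =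
      O.x (i + 1) (O.dn p (i - p) (O.t i (O.dn (i + 1) r y))) :=
    dn_x_comm (Or.inr (by omega)) _
  have e7 : O.x (i + 1) (O.dn p m y) - O.dn p m (O.x i y) =
      c • O.dn p (i - p) (O.dn (i + 1) r y) := by
    rw [e2, e2, e3, e4, map_sub, map_smul, e5]
    abel
  rw [e7]
  exact Submodule.smul_mem _ _ (dn_dn_mem_NL (by omega) (by omega) (by omega))

/-- moving a dot from the end -/
theorem x_dn_end {m : ℕ} : ∀ {l : List I} {y : V} (_ : O.Hom l y) {p : ℕ},
    O.x p (O.dn p m y) - O.dn p m (O.x (p + m) y) ∈ O.NL p m y := by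
  induction m with
  | zero =>
    intro l y h p
    simp [dn_zero_apply]
  | succ m ih =>
    intro l y h p
    rw [dn_succ_apply, dn_succ_apply]
    obtain ⟨c, hc⟩ := h.tx (p + m)
    obtain ⟨l', h', -, -⟩ := h.t_exists (p + m)
    have h3 := ih h' (p := p)
    rw [← add_assoc, hc, map_add, map_smul, ← sub_sub]
    apply Submodule.sub_mem
    · refine Submodule.span_le.mpr ?_ h3
      rintro z ⟨b, hb, m', hm', rfl⟩
      rw [dn_t_comm (by omega)]
      exact Submodule.subset_span ⟨b * O.t (p + m),
        Subalgebra.mul_mem _ hb (t_mem (by omega)), m', by omega, rfl⟩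
    · exact Submodule.smul_mem _ _ (mem_NL (b := 1) (Subalgebra.one_mem _) (by omega))

theorem x_dn {l : List I} {y : V} (h : O.Hom l y) (p m j : ℕ) :
    ∃ j', O.x j (O.dn p m y) - O.dn p m (O.x j' y) ∈ O.NL p m y := by
  rcases Nat.lt_trichotomy j p with h1 | h1 | h1
  · exact ⟨j, by rw [dn_x_comm (Or.inl h1)]; simp⟩
  · subst h1
    exact ⟨_, x_dn_end h⟩
  · rcases Nat.lt_or_ge (p + m) j with h2 | h2
    · exact ⟨j, by rw [dn_x_comm (Or.inr h2)]; simp⟩
    · obtain ⟨i, rfl⟩ : ∃ i, j = i + 1 := ⟨j - 1, by omega⟩
      exact ⟨i, x_dn_mid h (by omega) (by omega)⟩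

theorem t_dn_mid {l : List I} {y : V} (h : O.Hom l y) {p m i : ℕ} (h1 : p ≤ i)
    (h2 : i + 1 < p + m) : O.t (i + 1) (O.dn p m y) - O.dn p m (O.t i y) ∈ O.NL p m y := by
  obtain ⟨r, hr⟩ : ∃ r, m = (i - p) + (r + 2) := ⟨m - (i - p) - 2, by omega⟩
  have hpi : p + (i - p) = i := by omega
  have e1 : ∀ z : V, O.dn i (r + 2) z = O.t i (O.t (i + 1) (O.dn (i + 2) r z)) := by
    intro z
    have h3 : r + 2 = 2 + r := by omega
    rw [h3, dn_add_apply]
    rfl
  have e2 : ∀ z : V, O.dn p m z =
      O.dn p (i - p) (O.t i (O.t (i + 1) (O.dn (i + 2) r z))) := by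
    intro z
    rw [hr, dn_add_apply, hpi, e1]
  obtain ⟨l', h', -, -⟩ := h.dn_exists (i + 2) r
  obtain ⟨c, hc⟩ := h'.br i
  have e3 : O.dn (i + 2) r (O.t i y) = O.t i (O.dn (i + 2) r y) :=
    dn_t_comm (by omega) y
  have e4 : O.t i (O.t (i + 1) (O.t i (O.dn (i + 2) r y))) =
      O.t (i + 1) (O.t i (O.t (i + 1) (O.dn (i + 2) r y))) - c • O.dn (i + 2) r y := by
    rw [hc]; abel
  have e5 : O.dn p (i - p) (O.t (i + 1) (O.t i (O.t (i + 1) (O.dn (i + 2) r y)))) =
      O.t (i + 1) (O.dn p (i - p) (O.t i (O.t (i + 1) (O.dn (i + 2) r y)))) :=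
    dn_t_comm (by omega) _
  have e7 : O.t (i + 1) (O.dn p m y) - O.dn p m (O.t i y) =
      c • O.dn p (i - p) (O.dn (i + 2) r y) := by
    rw [e2, e2, e3, e4, map_sub, map_smul, e5]
    abel
  rw [e7]
  exact Submodule.smul_mem _ _ (dn_dn_mem_NL (by omega) (by omega) (by omega))

end Ops

end Pool.Agent.H159
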