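import Pool.Agent.H159.Wrap
import Pool.Agent.H159.Thick
import Pool.Agent.H159.BlockV

/-!
# Simple modules on which the dots are nilpotent are gradable
-/

set_option linter.unusedSectionVars false
set_option linter.unusedSimpArgs false

namespace Pool.Agent.H159

open KQuiver

section ops

variable {k I V : Type} [Field k] [KQuiver I] [AddCommGroup V] [Module k V] {O : Ops k I V}

/-- commuting nilpotent operators have a common kernel -/
theorem exists_killed (hnil : ∀ j, ∃ N, ∀ y, (O.x j ^ N) y = 0) {l : List I} {y : V}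
    (hy : O.Hom l y) (hy0 : y ≠ 0) : ∃ v, v ≠ 0 ∧ O.Hom l v ∧ ∀ j, O.x j v = 0 := by
  have hpow : ∀ (j m : ℕ) (z : V), O.Hom l z → O.Hom l ((O.x j ^ m) z) := by
    intro j m z hz
    induction m with
    | zero => simpa using hz
    | succ m ih => rw [pow_succ', Module.End.mul_apply]; exact ih.x j
  have hcomm : ∀ (i j m : ℕ) (z : V), O.x i ((O.x j ^ m) z) = (O.x j ^ m) (O.x i z) := by
    intro i j m z
    induction m with
    | zero => rfl
    | succ m ih =>
      rw [pow_succ', Module.End.mul_apply, Module.End.mul_apply, Ops.x_comm, ih]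
  have key : ∀ n : ℕ, ∃ v, v ≠ 0 ∧ O.Hom l v ∧ ∀ j < n, O.x j v = 0 := by
    intro n
    induction n with
    | zero => exact ⟨y, hy0, hy, fun j hj => absurd hj (Nat.not_lt_zero j)⟩
    | succ n ih =>
      obtain ⟨v, hv0, hv, hvx⟩ := ih
      obtain ⟨N, hN⟩ := hnil n
      have hex : ∃ m, (O.x n ^ m) v = 0 := ⟨N, hN v⟩
      classical
      have h1 := Nat.find_spec hex
      have h2 : Nat.find hex ≠ 0 := by
        intro h0
        rw [h0] at h1
        exact hv0 (by simpa using h1)
      obtain ⟨m, hm⟩ := Nat.exists_eq_succ_of_ne_zero h2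
      have h3 : (O.x n ^ m) v ≠ 0 := Nat.find_min hex (by omega)
      refine ⟨(O.x n ^ m) v, h3, hpow n m v hv, ?_⟩
      intro j hj
      rcases Nat.lt_succ_iff_lt_or_eq.mp hj with h4 | h4
      · rw [hcomm, hvx j h4, map_zero]
      · rw [h4, ← Module.End.mul_apply, ← pow_succ']
        rw [hm] at h1
        exact h1
  obtain ⟨v, hv0, hv, hvx⟩ := key l.length
  refine ⟨v, hv0, hv, fun j => ?_⟩
  by_cases hj : j < l.length
  · exact hvx j hj
  · exact hv.x_zero (not_lt.mp hj)

end ops

section lower

variable {k I V : Type} [Field k] [LinearOrder I] [KQuiver I] [LinQ I] [AddCommGroup V]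
  [Module k V] {O : Ops k I V}

theorem wdm_ne_zero [Module.Finite k V] {u : List I} (h : wdm O u ≠ 0) :
    ∃ y, O.Hom u y ∧ y ≠ 0 := by
  by_contra hne
  push Not at hne
  apply h
  unfold wdm
  rw [Nat.cast_eq_zero, Submodule.finrank_eq_zero, Submodule.eq_bot_iff]
  exact fun y hy => hne y (mem_wsp.mp hy)

/-- the lower bound at the largest word, for nilpotent dots -/
theorem lower_bound_nil [Module.Finite k V] (hnil : ∀ j, ∃ N, ∀ y, (O.x j ^ N) y = 0)
    {ss : List (List I)} (hss : SC ss) (hmax : IsMaxW (wff O) ss.flatten) :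
    (fct ss : ℤ) ≤ wdm O ss.flatten := by
  obtain ⟨bs, h1, h2, h3, -⟩ := exists_blocks ss hss
  rw [← h2] at hmax ⊢
  have h4 := bn_value bs h1 (f := wff O) [] hmax
  rw [List.nil_append, List.nil_append] at h4
  have h4' : wdm O (bn bs) = (bk bs : ℤ) * wdm O (bw bs) := h4
  have hbk : 0 < bk bs := by
    clear hmax h4 h4' h2 h3
    induction bs with
    | nil => exact Nat.one_pos
    | cons q bs ih =>
      unfold bk
      exact Nat.mul_pos (Nat.pow_pos (Nat.factorial_pos _)) (ih (fun q hq => h1 q (by simp [hq])))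
  have h5 : wdm O (bn bs) ≠ 0 := by
    rw [h4']
    exact mul_ne_zero (by exact_mod_cast hbk.ne') hmax.1
  obtain ⟨y, hy, hy0⟩ := wdm_ne_zero h5
  obtain ⟨v, hv0, hvb, hvx⟩ := exists_killed hnil hy hy0
  have h6 := nil_bound (O := O) (blkL bs) (v := v)
    (by rw [blkw_blkL]; exact hvb) hvx hv0
  rw [blkw_blkL, blkL_prod (fun q hq => (h1 q hq).2.1), h4'] at h6
  push_cast at h6
  rw [← h3]
  have hbk' : (0 : ℤ) < bk bs := by exact_mod_cast hbk
  exact le_of_mul_le_mul_left h6 hbk'

end lower

section homog

variable {k I : Type} [Field k] [DecidableEq I] [KQuiver I] {Ω : Finset (List I)}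

variable (k I Ω) in
/-- homogeneous elements of the quiver Hecke algebra -/
def HS : Set (KLR k I Ω) :=
  {s | ∃ c : ℤ, ∀ d, toG k I Ω s * (gstr k I Ω).f d = (gstr k I Ω).f (d + c) * toG k I Ω s}

/-- every element is a sum of homogeneous elements -/
theorem mem_closure_HS (r : KLR k I Ω) : r ∈ AddSubmonoid.closure (HS k I Ω) := by
  induction r using klr_induction with
  | he l =>
    apply AddSubmonoid.subset_closure
    refine ⟨0, fun d => ?_⟩
    rw [add_zero, ← gops_e]
    exact ((gstr k I Ω).f_e d l).symm
  | hx j =>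
    apply AddSubmonoid.subset_closure
    exact ⟨2, fun d => (gstr k I Ω).x_f j d⟩
  | ht j =>
    have e2 : (kops k I Ω).t j = ∑ l ∈ Ω, (kops k I Ω).t j * (kops k I Ω).e l := by
      rw [← Finset.mul_sum, kops_sum, mul_one]
    rw [e2]
    apply AddSubmonoid.sum_mem
    intro l _
    apply AddSubmonoid.subset_closure
    by_cases hj : j + 1 < l.length
    · obtain ⟨p', a, b, q, rfl, rfl⟩ := Ops.split_two hj
      refine ⟨tdeg a b, fun d => ?_⟩
      rw [map_mul]
      exact (gstr k I Ω).t_f p' a b q d
    · refine ⟨0, fun d => ?_⟩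
      rw [(kops k I Ω).t_e_zero j l (by omega), map_zero, zero_mul, mul_zero]
  | hc c =>
    apply AddSubmonoid.subset_closure
    refine ⟨0, fun d => ?_⟩
    rw [add_zero, AlgHom.commutes]
    exact Algebra.commutes c _
  | hadd a b ha hb => exact AddSubmonoid.add_mem _ ha hb
  | hmul a b ha hb =>
    induction ha using AddSubmonoid.closure_induction with
    | mem a ha =>
      induction hb using AddSubmonoid.closure_induction with
      | mem b hb =>
        apply AddSubmonoid.subset_closure
        obtain ⟨c, hc⟩ := ha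
        obtain ⟨c', hc'⟩ := hb
        refine ⟨c' + c, fun d => ?_⟩
        rw [map_mul, mul_assoc, hc', ← mul_assoc, hc, mul_assoc, add_assoc]
      | zero => rw [mul_zero]; exact AddSubmonoid.zero_mem _
      | add x y _ _ hx hy => rw [mul_add]; exact AddSubmonoid.add_mem _ hx hy
    | zero => rw [zero_mul]; exact AddSubmonoid.zero_mem _
    | add x y _ _ hx hy => rw [add_mul]; exact AddSubmonoid.add_mem _ hx hy

variable {D : Type} [AddCommGroup D] [Module k D] [Module (GKLR k I Ω) D]
  [IsScalarTower k (GKLR k I Ω) D] [Module (KLR k I Ω) D]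
  [IsScalarTower (KLR k I Ω) (GKLR k I Ω) D]

variable (k Ω D) in
/-- the largest submodule avoiding the word `w` -/
def Nw (w : List I) : Submodule (GKLR k I Ω) D where
  carrier := {y | ∀ s : KLR k I Ω, (kops k I Ω).e w • s • y = 0}
  add_mem' := by
    intro a b ha hb s
    rw [smul_add, smul_add, ha s, hb s, add_zero]
  zero_mem' := by
    intro s
    rw [smul_zero, smul_zero]
  smul_mem' := by
    intro r
    have htoG : ∀ (t : KLR k I Ω) (y : D), (∀ s : KLR k I Ω, (kops k I Ω).e w • s • y = 0) →
        ∀ s : KLR k I Ω, (kops k I Ω).e w • s • (toG k I Ω t • y) = 0 := by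
      intro t y hy s
      rw [toG_smul, smul_smul s t]
      exact hy _
    induction r using gklr_induction with
    | he l => intro y hy; rw [gops_e]; exact htoG _ y hy
    | hx j => intro y hy; rw [gops_x]; exact htoG _ y hy
    | ht j => intro y hy; rw [gops_t]; exact htoG _ y hy
    | hf d =>
      intro y hy s
      have hs := mem_closure_HS s
      induction hs using AddSubmonoid.closure_induction with
      | mem s hs =>
        obtain ⟨c, hc⟩ := hs
        rw [← toG_smul, ← toG_smul, smul_smul (toG k I Ω s), hc, mul_smul, smul_smul,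
          ← gops_e, ← (gstr k I Ω).f_e, mul_smul, gops_e, toG_smul, toG_smul]
        have := hy s
        rw [this, smul_zero]
      | zero => rw [zero_smul, smul_zero]
      | add a b _ _ ha hb => rw [add_smul, smul_add, ha, hb, add_zero]
    | hc c =>
      intro y hy
      have e1 : algebraMap k (GKLR k I Ω) c = toG k I Ω (algebraMap k _ c) :=
        (AlgHom.commutes _ _).symm
      rw [e1]
      exact htoG _ y hy
    | hadd a b ha hb =>
      intro y hy s
      rw [add_smul, smul_add, smul_add, ha hy s, hb hy s, add_zero]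
    | hmul a b ha hb =>
      intro y hy
      rw [mul_smul]
      exact ha (hb hy)

theorem mem_Nw {w : List I} {y : D} :
    y ∈ Nw k Ω D w ↔ ∀ s : KLR k I Ω, (kops k I Ω).e w • s • y = 0 := Iff.rfl

end homog

end Pool.Agent.H159
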