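import Pool.Agent.H159.Shuf

/-!
# Shuffles of a nonincreasing list of chains
-/

set_option linter.unusedSectionVars false

namespace Pool.Agent.H159

open KQuiver

/-- A linear order compatible with a quiver which is a union of linearly oriented lines. -/
class LinQ (I : Type) [LinearOrder I] [KQuiver I] : Prop where
  lt_of_arr : ∀ {a b : I}, arr a b → a < b
  succ_unique : ∀ {a b c : I}, arr a b → arr a c → b = c
  pred_unique : ∀ {a b c : I}, arr a c → arr b c → a = b

section

variable {I : Type} [LinearOrder I] [KQuiver I] [LinQ I]

theorem cons_le_cons' {a b : I} {l m : List I} : a :: l ≤ b :: m ↔ a < b ∨ a = b ∧ l ≤ m := by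
  rw [← not_lt, List.cons_lt_cons_iff]
  constructor
  · intro h
    push Not at h
    rcases lt_or_eq_of_le h.1 with h1 | h1
    · exact Or.inl h1
    · exact Or.inr ⟨h1, h.2 h1.symm⟩
  · rintro (h | ⟨rfl, h⟩)
    · rintro (h' | ⟨h', -⟩)
      · exact lt_asymm h h'
      · exact h.ne' h'
    · rintro (h' | ⟨-, h'⟩)
      · exact lt_irrefl _ h'
      · exact absurd h' (not_lt.mpr h)

theorem nil_le' (l : List I) : [] ≤ l := by
  rw [← not_lt]
  intro h
  exact absurd h (List.not_lt_nil l)

theorem le_nil {l : List I} (h : l ≤ []) : l = [] := le_antisymm h (nil_le' l)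

/-- sum over the ways to remove a first letter -/
def psum (c : I) (F : List (List I) → ℕ) (ss : List (List I)) : ℕ :=
  ((picks c ss).map fun q => F q.2).sum

theorem sh_cons (ss : List (List I)) (c : I) (u : List I) :
    sh ss (c :: u) = psum c (fun r => sh r u) ss := rfl

theorem psum_nil (c : I) (F : List (List I) → ℕ) : psum c F [] = 0 := rfl

theorem psum_cons (c : I) (F : List (List I) → ℕ) (s : List I) (ss : List (List I)) :
    psum c F (s :: ss) = ((hpick c ss s).map fun q => F q.2).sum +
      psum c (fun r => F (s :: r)) ss := by
  unfold psum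
  rw [picks, List.map_append, List.sum_append, List.map_map]
  rfl

theorem psum_cons_nil (c : I) (F : List (List I) → ℕ) (ss : List (List I)) :
    psum c F ([] :: ss) = psum c (fun r => F ([] :: r)) ss := by
  rw [psum_cons]
  simp [hpick]

theorem psum_cons_cons (c : I) (F : List (List I) → ℕ) (d : I) (s : List I)
    (ss : List (List I)) : psum c F ((d :: s) :: ss) =
      (if d = c then F (s :: ss) else 0) + psum c (fun r => F ((d :: s) :: r)) ss := by
  rw [psum_cons]
  congr 1
  rw [hpick]
  split_ifs <;> simp

theorem psum_append (c : I) (A B : List (List I)) : ∀ (F : List (List I) → ℕ),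
    psum c F (A ++ B) = psum c (fun r => F (r ++ B)) A + psum c (fun r => F (A ++ r)) B := by
  induction A with
  | nil => intro F; simp [psum_nil]
  | cons s A ih =>
    intro F
    rw [List.cons_append, psum_cons, psum_cons, ih, ← add_assoc]
    congr 2
    cases s with
    | nil => simp [hpick]
    | cons d s =>
      rw [hpick, hpick]
      split_ifs <;> simp

theorem psum_zero {c : I} {F : List (List I) → ℕ} {ss : List (List I)}
    (h : ∀ x r, x :: r ∈ ss → x ≠ c) : psum c F ss = 0 := by
  unfold psum
  have : picks c ss = [] := by
    rw [List.eq_nil_iff_forall_not_mem]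
    intro q hq
    obtain ⟨A, d, C, h1, -⟩ := picks_spec hq
    exact h c d (by rw [h1]; simp) rfl
  rw [this]; rfl

theorem psum_congr {c : I} {F G : List (List I) → ℕ} (h : ∀ r, F r = G r)
    (ss : List (List I)) : psum c F ss = psum c G ss := by
  have : F = G := funext h
  rw [this]

theorem sh_nil_chain (u : List I) : ∀ A C : List (List I), sh (A ++ [] :: C) u = sh (A ++ C) u := by
  induction u with
  | nil => intro A C; simp [sh]
  | cons c u ih =>
    intro A C
    rw [sh_cons, sh_cons, psum_append, psum_append, psum_cons_nil]
    congr 1
    · apply psum_congr; intro r; exact ih r C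
    · apply psum_congr; intro r; exact ih A r

/-- only the chain with a large first letter contributes -/
theorem sh_big {m : I} {A C : List (List I)} (hA : ∀ x r, x :: r ∈ A → x ≤ m)
    (hC : ∀ x r, x :: r ∈ C → x ≤ m) {c : I} (hc : m < c) (s u : List I) :
    sh (A ++ s :: C) (c :: u) = match s with
      | [] => 0
      | d :: s' => if d = c then sh (A ++ s' :: C) u else 0 := by
  rw [sh_cons, psum_append, psum_zero (ss := A) (by
    intro x r hx h
    exact absurd (hA x r hx) (by rw [h]; exact not_le.mpr hc)), zero_add]
  have hC' : ∀ F, psum c F C = 0 := fun F => psum_zero (by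
    intro x r hx h
    exact absurd (hC x r hx) (by rw [h]; exact not_le.mpr hc))
  cases s with
  | nil => rw [psum_cons_nil, hC']
  | cons d s' => rw [psum_cons_cons, hC', add_zero]

theorem sh_big_run {m : I} {A C : List (List I)} (hA : ∀ x r, x :: r ∈ A → x ≤ m)
    (hC : ∀ x r, x :: r ∈ C → x ≤ m) (u : List I) : ∀ (t : List I), (∀ x ∈ t, m < x) →
    sh (A ++ t :: C) (t ++ u) = sh (A ++ C) u := by
  intro t
  induction t with
  | nil => intro _; rw [List.nil_append, sh_nil_chain]
  | cons b t ih =>
    intro ht
    rw [List.cons_append, sh_big hA hC (ht b (by simp))]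
    simp only [if_true]
    exact ih (fun x hx => ht x (by simp [hx]))

/-- the comparison lemma -/
theorem sh_run {m : I} {A C : List (List I)} (hA : ∀ x r, x :: r ∈ A → x ≤ m)
    (hC : ∀ x r, x :: r ∈ C → x ≤ m) (w : List I) : ∀ (t s u : List I),
    (∀ x ∈ t, m < x) → t.IsChain arr → s.IsChain arr →
    (∀ x s' y t', s = x :: s' → t = y :: t' → x = y) → s ≤ t →
    sh (A ++ s :: C) u ≠ 0 → t ++ w ≤ u → s = t ∧ ∃ u', u = t ++ u' ∧ w ≤ u' := by
  intro t
  induction t with
  | nil =>
    intro s u _ _ _ _ hst _ hu
    exact ⟨le_nil hst, u, rfl, hu⟩
  | cons b t ih =>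
    intro s u ht hct hcs hhead hst hsh hu
    rcases u with _ | ⟨c, u⟩
    · exact absurd (le_nil hu) (by simp)
    · rw [List.cons_append, cons_le_cons'] at hu
      have hbc : b ≤ c := by
        rcases hu with h | h
        · exact h.le
        · exact h.1.le
      have hmc : m < c := lt_of_lt_of_le (ht b (by simp)) hbc
      rw [sh_big hA hC hmc] at hsh
      rcases s with _ | ⟨d, s⟩
      · exact absurd rfl hsh
      · simp only at hsh
        by_cases hdc : d = c
        · subst hdc
          rw [if_pos rfl] at hsh
          have hdb : d = b := hhead d s b t rfl rfl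
          subst hdb
          have hst' : s ≤ t := by
            rw [cons_le_cons'] at hst
            rcases hst with h | h
            · exact absurd h (lt_irrefl _)
            · exact h.2
          have hu' : t ++ w ≤ u := by
            rcases hu with h | h
            · exact absurd h (lt_irrefl _)
            · exact h.2
          have hh : ∀ x s' y t', s = x :: s' → t = y :: t' → x = y := by
            rintro x s' y t' rfl rfl
            rw [List.isChain_cons_cons] at hct hcs
            exact LinQ.succ_unique hcs.1 hct.1
          obtain ⟨h1, u', h2, h3⟩ := ih s u (fun x hx => ht x (by simp [hx]))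
            hct.tail hcs.tail hh hst' hsh hu'
          exact ⟨by rw [h1], u', by rw [h2]; rfl, h3⟩
        · rw [if_neg hdc] at hsh
          exact absurd rfl hsh

theorem lt_of_mem_tail {a : I} {t : List I} (h : (a :: t).IsChain arr) : ∀ x ∈ t, a < x := by
  induction t generalizing a with
  | nil => simp
  | cons b t ih =>
    rw [List.isChain_cons_cons] at h
    intro x hx
    have hab := LinQ.lt_of_arr h.1
    rcases List.mem_cons.mp hx with rfl | hx
    · exact hab
    · exact lt_trans hab (ih h.2 x hx)

/-- nonincreasing lists of nonempty chains -/
def SC (ss : List (List I)) : Prop :=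
  (∀ s ∈ ss, s.IsChain arr ∧ s ≠ []) ∧ ss.Pairwise (fun a b => b ≤ a)

/-- the product of the factorials of the multiplicities -/
def fct : List (List I) → ℕ
  | [] => 1
  | s :: ss => (s :: ss).count s * fct ss

theorem SC.tail {s : List I} {ss : List (List I)} (h : SC (s :: ss)) : SC ss :=
  ⟨fun s' hs' => h.1 s' (by simp [hs']), (List.pairwise_cons.mp h.2).2⟩

theorem SC.le_head {s : List I} {ss : List (List I)} (h : SC (s :: ss)) :
    ∀ r ∈ s :: ss, r ≤ s := by
  intro r hr
  rcases List.mem_cons.mp hr with rfl | hr
  · exact le_rfl
  · exact (List.pairwise_cons.mp h.2).1 r hr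

theorem SC.remove {s : List I} {R A C : List (List I)} (h : SC (s :: R))
    (h' : s :: R = A ++ s :: C) : A ++ C = R := by
  have h1 : (s :: R).Perm (s :: (A ++ C)) := by
    rw [h']; exact List.perm_middle
  have h2 : (A ++ C).Perm R := ((List.perm_cons s).mp h1).symm
  have h3 : (A ++ C).Pairwise (fun a b => b ≤ a) := by
    have h4 := h.2
    rw [h'] at h4
    rw [List.pairwise_append] at h4 ⊢
    refine ⟨h4.1, (List.pairwise_cons.mp h4.2.1).2, ?_⟩
    intro a ha b hb
    exact h4.2.2 a ha b (by simp [hb])
  exact h2.eq_of_pairwise (fun a b _ _ h1 h2 => le_antisymm h2 h1) h3 h.tail.2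

/-- The largest shuffle of a nonincreasing list of chains is the concatenation. -/
theorem sh_sorted : ∀ ss : List (List I), SC ss →
    (∀ u, sh ss u ≠ 0 → u ≤ ss.flatten) ∧ sh ss ss.flatten = fct ss := by
  intro ss
  induction ss with
  | nil =>
    intro _
    refine ⟨?_, by simp [sh, fct]⟩
    intro u hu
    cases u with
    | nil => exact le_rfl
    | cons c u => exact absurd (by rw [sh_cons, psum_nil]) hu
  | cons s R ih =>
    intro hs
    obtain ⟨ih1, ih2⟩ := ih hs.tail
    rcases s with _ | ⟨a, t⟩
    · exact absurd rfl (hs.1 [] (by simp)).2
    have hch := (hs.1 (a :: t) (by simp)).1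
    have hlt := lt_of_mem_tail hch
    -- heads are at most `a`
    have hheads : ∀ x r, x :: r ∈ (a :: t) :: R → x ≤ a := by
      intro x r hx
      have := hs.le_head _ hx
      rw [cons_le_cons'] at this
      rcases this with h | h
      · exact h.le
      · exact h.1.le
    -- the key step
    have key : ∀ (A C : List (List I)) (d u0 : List I), (a :: t) :: R = A ++ (a :: d) :: C →
        sh (A ++ d :: C) u0 ≠ 0 → t ++ R.flatten ≤ u0 →
        d = t ∧ u0 = t ++ R.flatten := by
      intro A C d u0 h1 h2 h3
      have hA : ∀ x r, x :: r ∈ A → x ≤ a := fun x r hx => hheads x r (by rw [h1]; simp [hx])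
      have hC : ∀ x r, x :: r ∈ C → x ≤ a := fun x r hx => hheads x r (by rw [h1]; simp [hx])
      have hd := hs.1 (a :: d) (by rw [h1]; simp)
      have hdt : d ≤ t := by
        have := hs.le_head (a :: d) (by rw [h1]; simp)
        rw [cons_le_cons'] at this
        rcases this with h | h
        · exact absurd h (lt_irrefl _)
        · exact h.2
      obtain ⟨h4, u', h5, h6⟩ := sh_run hA hC R.flatten t d u0 hlt hch.tail hd.1.tail (by
        rintro x s' y t' rfl rfl
        have e1 := hd.1
        rw [List.isChain_cons_cons] at hch e1
        exact LinQ.succ_unique e1.1 hch.1) hdt h2 h3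
      subst h4 h5
      rw [sh_big_run hA hC u' d hlt] at h2
      have h7 := hs.remove h1
      rw [h7] at h2
      exact ⟨rfl, by rw [le_antisymm (ih1 u' h2) h6]⟩
    constructor
    · intro u hu
      by_contra hlt'
      rw [not_le] at hlt'
      have hle := hlt'.le
      rcases u with _ | ⟨c, u0⟩
      · exact absurd (le_nil hle) (by simp)
      · rw [List.flatten_cons, List.cons_append, cons_le_cons'] at hle
        rw [sh_cons] at hu
        have hex : ∃ q ∈ picks c ((a :: t) :: R), sh q.2 u0 ≠ 0 := by
          by_contra hno
          push Not at hno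
          apply hu
          unfold psum
          apply List.sum_eq_zero
          intro x hx
          rw [List.mem_map] at hx
          obtain ⟨q, hq, rfl⟩ := hx
          exact hno q hq
        obtain ⟨q, hq, hq'⟩ := hex
        obtain ⟨A, d, C, h1, h2⟩ := picks_spec hq
        have hca : c ≤ a := hheads c d (by rw [h1]; simp)
        have hac : c = a := by
          rcases hle with h | h
          · exact absurd hca (not_le.mpr h)
          · exact h.1.symm
        subst hac
        have hle' : t ++ R.flatten ≤ u0 := by
          rcases hle with h | h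
          · exact absurd h (lt_irrefl _)
          · exact h.2
        rw [h2] at hq'
        obtain ⟨h3, h4⟩ := key A C d u0 h1 hq' hle'
        subst h4
        exact lt_irrefl _ hlt'
    · rw [List.flatten_cons, List.cons_append, sh_cons]
      have hcount : ∀ B A : List (List I), (a :: t) :: R = A ++ B →
          psum a (fun r => sh (A ++ r) (t ++ R.flatten)) B =
            B.count (a :: t) * sh R R.flatten := by
        intro B
        induction B with
        | nil => intro A _; simp [psum_nil]
        | cons b B ihB =>
          intro A hAB
          have h5 : psum a (fun r => sh (A ++ b :: r) (t ++ R.flatten)) B =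
              B.count (a :: t) * sh R R.flatten := by
            have := ihB (A ++ [b]) (by rw [hAB]; simp)
            rw [← this]
            apply psum_congr
            intro r
            simp
          rcases b with _ | ⟨b, d⟩
          · rw [psum_cons_nil, h5, List.count_cons_of_ne (by simp)]
          · rw [psum_cons_cons, h5]
            by_cases hba : b = a
            · subst hba
              rw [if_pos rfl]
              by_cases hdt : d = t
              · subst hdt
                rw [List.count_cons_self, add_mul, one_mul, add_comm]
                congr 1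
                have hA : ∀ x r, x :: r ∈ A → x ≤ b :=
                  fun x r hx => hheads x r (by rw [hAB]; simp [hx])
                have hC : ∀ x r, x :: r ∈ B → x ≤ b :=
                  fun x r hx => hheads x r (by rw [hAB]; simp [hx])
                rw [sh_big_run hA hC _ d hlt, hs.remove hAB]
              · rw [List.count_cons_of_ne (by simp [Ne.symm hdt, hdt])]
                have : sh (A ++ d :: B) (t ++ R.flatten) = 0 := by
                  by_contra hne
                  exact hdt (key A B d _ hAB hne le_rfl).1
                rw [this, zero_add]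
            · rw [if_neg hba, zero_add, List.count_cons_of_ne (by simp [Ne.symm hba, hba])]
      have h6 := hcount ((a :: t) :: R) [] rfl
      simp only [List.nil_append] at h6
      rw [h6, ih2]
      rfl

end

end Pool.Agent.H159
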