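import Pool.Agent.H159.Ops

/-!
# Moving one strand to the front: the spanning lemma for quiver Hecke algebras
-/

set_option linter.unusedSectionVars false

namespace Pool.Agent.H159

open KQuiver

namespace Ops

variable {k I V : Type} [CommRing k] [KQuiver I] [AddCommGroup V] [Module k V] (O : Ops k I V)

/-- generators of the subalgebra acting on the positions `≥ p` (and by all dots) -/
def gens (p : ℕ) : Set (Module.End k V) :=
  {a | (∃ l, a = O.e l) ∨ (∃ j, a = O.x j) ∨ (∃ j, p ≤ j ∧ a = O.t j)}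

/-- the subalgebra acting on the positions `≥ p` (and by all dots) -/
def alg (p : ℕ) : Subalgebra k (Module.End k V) := Algebra.adjoin k (O.gens p)

/-- `t p * t (p + 1) * ... * t (p + m - 1)` -/
def dn (p : ℕ) : ℕ → Module.End k V
  | 0 => 1
  | m + 1 => dn p m * O.t (p + m)

variable {O}

theorem e_mem (p : ℕ) (l : List I) : O.e l ∈ O.alg p :=
  Algebra.subset_adjoin (Or.inl ⟨l, rfl⟩)

theorem x_mem (p : ℕ) (j : ℕ) : O.x j ∈ O.alg p :=
  Algebra.subset_adjoin (Or.inr (Or.inl ⟨j, rfl⟩))

theorem t_mem {p j : ℕ} (h : p ≤ j) : O.t j ∈ O.alg p :=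
  Algebra.subset_adjoin (Or.inr (Or.inr ⟨j, h, rfl⟩))

theorem alg_mono {p q : ℕ} (h : p ≤ q) : O.alg q ≤ O.alg p := by
  apply Algebra.adjoin_mono
  rintro a (h1 | h1 | ⟨j, hj, h1⟩)
  · exact Or.inl h1
  · exact Or.inr (Or.inl h1)
  · exact Or.inr (Or.inr ⟨j, h.trans hj, h1⟩)

theorem dn_mem {p q : ℕ} (h : p ≤ q) (m : ℕ) : O.dn q m ∈ O.alg p := by
  induction m with
  | zero => exact Subalgebra.one_mem _
  | succ m ih => exact Subalgebra.mul_mem _ ih (t_mem (by omega))

theorem dn_zero_apply (p : ℕ) (y : V) : O.dn p 0 y = y := rfl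

theorem dn_succ_apply (p m : ℕ) (y : V) : O.dn p (m + 1) y = O.dn p m (O.t (p + m) y) := rfl

theorem dn_add_apply (p a b : ℕ) (y : V) : O.dn p (a + b) y = O.dn p a (O.dn (p + a) b y) := by
  induction b generalizing y with
  | zero => rfl
  | succ b ih =>
    rw [← add_assoc, dn_succ_apply, dn_succ_apply, ih, ← add_assoc]

theorem dn_x_comm {p m j : ℕ} (h : j < p ∨ p + m < j) (y : V) :
    O.dn p m (O.x j y) = O.x j (O.dn p m y) := by
  induction m generalizing y with
  | zero => rfl
  | succ m ih =>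
    rw [dn_succ_apply, dn_succ_apply, t_x_comm (by omega) (by omega), ih (by omega)]

theorem dn_t_comm {p m j : ℕ} (h : j + 2 ≤ p ∨ p + m + 1 ≤ j ∨ m = 0) (y : V) :
    O.dn p m (O.t j y) = O.t j (O.dn p m y) := by
  induction m generalizing y with
  | zero => rfl
  | succ m ih =>
    rw [dn_succ_apply, dn_succ_apply, t_t_comm (by omega), ih (by omega)]

theorem dn_dn_comm {p m q r : ℕ} (h : p + m + 1 ≤ q ∨ m = 0) (y : V) :
    O.dn p m (O.dn q r y) = O.dn q r (O.dn p m y) := by
  induction r generalizing y with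
  | zero => rfl
  | succ r ih =>
    rw [dn_succ_apply, dn_succ_apply, ih, dn_t_comm (by omega)]

/-- homogeneous for some word of given length and given prefix -/
def HomL (n p : ℕ) (α : List I) (y : V) : Prop :=
  ∃ l, O.Hom l y ∧ l.length = n ∧ l.take p = α

theorem Hom.dn_exists {l : List I} {y : V} (h : O.Hom l y) (p m : ℕ) :
    ∃ l', O.Hom l' (O.dn p m y) ∧ l'.length = l.length ∧ l'.take p = l.take p := by
  induction m generalizing y l with
  | zero => exact ⟨l, h, rfl, rfl⟩
  | succ m ih =>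
    obtain ⟨l', h', h1, h2⟩ := h.t_exists (p + m)
    obtain ⟨l'', h'', h3, h4⟩ := ih h'
    refine ⟨l'', h'', h3.trans h1, h4.trans ?_⟩
    have := congrArg (List.take p) h2
    rw [List.take_take, List.take_take] at this
    simpa using this

variable (O) in
/-- the span of the `b (dn p m y)` with `b` in `alg (p + 1)` -/
def NN (p : ℕ) (y : V) : Submodule k V :=
  Submodule.span k {z | ∃ b ∈ O.alg (p + 1), ∃ m, z = b (O.dn p m y)}

theorem mem_NN {p : ℕ} {y : V} {b : Module.End k V} (hb : b ∈ O.alg (p + 1)) (m : ℕ) :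
    b (O.dn p m y) ∈ O.NN p y := Submodule.subset_span ⟨b, hb, m, rfl⟩

theorem dn_mem_NN {p : ℕ} {y : V} (m : ℕ) : O.dn p m y ∈ O.NN p y :=
  mem_NN (b := 1) (Subalgebra.one_mem _) m

theorem NN_stable {p : ℕ} {y z : V} {b : Module.End k V} (hb : b ∈ O.alg (p + 1))
    (hz : z ∈ O.NN p y) : b z ∈ O.NN p y := by
  unfold NN at hz
  induction hz using Submodule.span_induction with
  | mem z hz =>
    obtain ⟨c, hc, m, rfl⟩ := hz
    exact mem_NN (b := b * c) (Subalgebra.mul_mem _ hb hc) m
  | zero => simp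
  | add z w _ _ hz hw => rw [map_add]; exact Submodule.add_mem _ hz hw
  | smul c z _ hz => rw [map_smul]; exact Submodule.smul_mem _ _ hz

/-- moving a dot through -/
theorem dn_x_mem_mid {l : List I} {y : V} (h : O.Hom l y) {p m i : ℕ} (h1 : p ≤ i)
    (h2 : i < p + m) : O.dn p m (O.x i y) ∈ O.NN p y := by
  obtain ⟨r, hr⟩ : ∃ r, m = (i - p) + (r + 1) := ⟨m - (i - p) - 1, by omega⟩
  have hpi : p + (i - p) = i := by omega
  have e1 : ∀ z : V, O.dn i (r + 1) z = O.t i (O.dn (i + 1) r z) := by
    intro z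
    have h3 : r + 1 = 1 + r := by omega
    rw [h3, dn_add_apply]
    rfl
  have e2 : ∀ z : V, O.dn p m z = O.dn p (i - p) (O.t i (O.dn (i + 1) r z)) := by
    intro z
    rw [hr, dn_add_apply, hpi, e1]
  obtain ⟨l', h', -, -⟩ := h.dn_exists (i + 1) r
  obtain ⟨c, hc⟩ := h'.xt i
  have e3 : O.dn (i + 1) r (O.x i y) = O.x i (O.dn (i + 1) r y) :=
    dn_x_comm (Or.inl (by omega)) y
  have e4 : O.t i (O.x i (O.dn (i + 1) r y)) =
      O.x (i + 1) (O.t i (O.dn (i + 1) r y)) - c • O.dn (i + 1) r y := by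
    rw [hc]; abel
  have e5 : O.dn p (i - p) (O.x (i + 1) (O.t i (O.dn (i + 1) r y))) =
      O.x (i + 1) (O.dn p (i - p) (O.t i (O.dn (i + 1) r y))) :=
    dn_x_comm (Or.inr (by omega)) _
  have e6 : O.dn p (i - p) (O.dn (i + 1) r y) = O.dn (i + 1) r (O.dn p (i - p) y) :=
    dn_dn_comm (by omega) _
  rw [e2, e3, e4, map_sub, map_smul, e5, e6, ← e2]
  apply Submodule.sub_mem
  · exact mem_NN (x_mem _ _) m
  · apply Submodule.smul_mem
    exact mem_NN (dn_mem (by omega) _) _

theorem dn_x_mem_end {m : ℕ} : ∀ {l : List I} {y : V} (_ : O.Hom l y) {p : ℕ},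
    O.dn p m (O.x (p + m) y) ∈
      Submodule.span k {z | ∃ b ∈ O.alg (p + 1), ∃ m' ≤ m, z = b (O.dn p m' y)} := by
  induction m with
  | zero =>
    intro l y h p
    exact Submodule.subset_span ⟨_, x_mem _ _, 0, le_rfl, rfl⟩
  | succ m ih =>
    intro l y h p
    rw [dn_succ_apply]
    obtain ⟨c, hc⟩ := h.tx (p + m)
    rw [← add_assoc, hc, map_add, map_smul]
    apply Submodule.add_mem
    · obtain ⟨l', h', -, -⟩ := h.t_exists (p + m)
      have h3 := ih h' (p := p)
      refine Submodule.span_le.mpr ?_ h3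
      rintro z ⟨b, hb, m', hm', rfl⟩
      rcases Nat.lt_or_ge m' m with hlt | hge
      · rw [dn_t_comm (by omega)]
        exact Submodule.subset_span ⟨b * O.t (p + m),
          Subalgebra.mul_mem _ hb (t_mem (by omega)), m', by omega, rfl⟩
      · have : m' = m := by omega
        subst this
        exact Submodule.subset_span ⟨b, hb, m' + 1, le_rfl, rfl⟩
    · apply Submodule.smul_mem
      exact Submodule.subset_span ⟨1, Subalgebra.one_mem _, m, by omega, rfl⟩

theorem dn_x_mem {l : List I} {y : V} (h : O.Hom l y) (p m i : ℕ) :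
    O.dn p m (O.x i y) ∈ O.NN p y := by
  rcases Nat.lt_or_ge i p with h1 | h1
  · rw [dn_x_comm (Or.inl h1)]
    exact mem_NN (x_mem _ _) m
  · rcases Nat.lt_trichotomy i (p + m) with h2 | h2 | h2
    · exact dn_x_mem_mid h h1 h2
    · subst h2
      have := dn_x_mem_end h (p := p) (m := m)
      refine Submodule.span_mono ?_ this
      rintro z ⟨b, hb, m', -, rfl⟩
      exact ⟨b, hb, m', rfl⟩
    · rw [dn_x_comm (Or.inr h2)]
      exact mem_NN (x_mem _ _) m

theorem dn_t_mem {l : List I} {y : V} (h : O.Hom l y) {p i : ℕ} (m : ℕ) (hi : p ≤ i) :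
    O.dn p m (O.t i y) ∈ O.NN p y := by
  rcases Nat.lt_or_ge (p + m) i with h1 | h1
  · rw [dn_t_comm (by omega)]
    exact mem_NN (t_mem (by omega)) m
  · rcases Nat.eq_or_lt_of_le h1 with h2 | h2
    · subst h2
      rw [← dn_succ_apply]
      exact dn_mem_NN _
    · rcases Nat.eq_or_lt_of_le (Nat.succ_le_of_lt h2) with h3 | h3
      · obtain ⟨m', rfl⟩ : ∃ m', m = m' + 1 := ⟨m - 1, by omega⟩
        have h4 : i = p + m' := by omega
        subst h4
        rw [dn_succ_apply]
        obtain ⟨c₀, c₁, c₂, hc⟩ := h.tt (p + m')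
        rw [hc, map_add, map_add, map_smul, map_smul, map_smul]
        apply Submodule.add_mem
        · apply Submodule.add_mem
          · exact Submodule.smul_mem _ _ (dn_mem_NN _)
          · exact Submodule.smul_mem _ _ (dn_x_mem h _ _ _)
        · exact Submodule.smul_mem _ _ (dn_x_mem h _ _ _)
      · obtain ⟨r, hr⟩ : ∃ r, m = (i - p) + (r + 2) := ⟨m - (i - p) - 2, by omega⟩
        have hpi : p + (i - p) = i := by omega
        have e1 : ∀ z : V, O.dn i (r + 2) z = O.t i (O.t (i + 1) (O.dn (i + 2) r z)) := by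
          intro z
          have h3 : r + 2 = 2 + r := by omega
          rw [h3, dn_add_apply]
          rfl
        have e2 : ∀ z : V, O.dn p m z =
            O.dn p (i - p) (O.t i (O.t (i + 1) (O.dn (i + 2) r z))) := by
          intro z
          rw [hr, dn_add_apply, hpi, e1]
        obtain ⟨l', h', -, -⟩ := h.dn_exists (i + 2) r
        obtain ⟨c, hc⟩ := h'.br i
        have e3 : O.dn (i + 2) r (O.t i y) = O.t i (O.dn (i + 2) r y) :=
          dn_t_comm (by omega) y
        have e4 : O.t i (O.t (i + 1) (O.t i (O.dn (i + 2) r y))) =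
            O.t (i + 1) (O.t i (O.t (i + 1) (O.dn (i + 2) r y))) - c • O.dn (i + 2) r y := by
          rw [hc]; abel
        have e5 : O.dn p (i - p) (O.t (i + 1) (O.t i (O.t (i + 1) (O.dn (i + 2) r y)))) =
            O.t (i + 1) (O.dn p (i - p) (O.t i (O.t (i + 1) (O.dn (i + 2) r y)))) :=
          dn_t_comm (by omega) _
        have e6 : O.dn p (i - p) (O.dn (i + 2) r y) = O.dn (i + 2) r (O.dn p (i - p) y) :=
          dn_dn_comm (by omega) _
        rw [e2, e3, e4, map_sub, map_smul, e5, e6, ← e2]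
        apply Submodule.sub_mem
        · exact mem_NN (t_mem (by omega)) m
        · apply Submodule.smul_mem
          exact mem_NN (dn_mem (by omega) _) _

theorem NN_le_of_gen {l : List I} {y : V} (h : O.Hom l y) {p : ℕ} {g : Module.End k V}
    (hg : g ∈ O.gens p) : (∃ l', O.Hom l' (g y)) ∧ O.NN p (g y) ≤ O.NN p y := by
  have key : ∀ (hm : ∀ m, O.dn p m (g y) ∈ O.NN p y), O.NN p (g y) ≤ O.NN p y := by
    intro hm
    refine Submodule.span_le.mpr ?_
    rintro z ⟨b, hb, m, rfl⟩
    exact NN_stable hb (hm m)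
  rcases hg with ⟨l', rfl⟩ | ⟨j, rfl⟩ | ⟨j, hj, rfl⟩
  · by_cases hl : l' = l
    · subst hl
      rw [h]
      exact ⟨⟨_, h⟩, le_rfl⟩
    · rw [h.e_ne hl]
      refine ⟨⟨l, zero_hom l⟩, ?_⟩
      refine Submodule.span_le.mpr ?_
      rintro z ⟨b, hb, m, rfl⟩
      simp
  · exact ⟨⟨l, h.x j⟩, key fun m => dn_x_mem h _ _ _⟩
  · obtain ⟨l', h', -, -⟩ := h.t_exists j
    exact ⟨⟨l', h'⟩, key fun m => dn_t_mem h _ hj⟩

/-- The spanning lemma: an element of `alg p` applied to a homogeneous vector is a combination of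
elements of `alg (p + 1)` applied to the vectors `dn p m y`. -/
theorem alg_apply_mem {p : ℕ} {a : Module.End k V} (ha : a ∈ O.alg p) {l : List I} {y : V}
    (h : O.Hom l y) : a y ∈ O.NN p y := by
  have ha' : a ∈ Submodule.span k (Submonoid.closure (O.gens p) : Set (Module.End k V)) := by
    have := Algebra.adjoin_eq_span (R := k) (s := O.gens p)
    rw [← this]
    exact ha
  clear ha
  induction ha' using Submodule.span_induction with
  | mem a ha =>
    induction ha using Submonoid.closure_induction_right generalizing y l with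
    | one => exact dn_mem_NN 0
    | mul_right a _ g hg ih =>
      obtain ⟨⟨l', h'⟩, hle⟩ := NN_le_of_gen h hg
      exact hle (ih h')
  | zero => simp
  | add a b _ _ ha hb => rw [LinearMap.add_apply]; exact Submodule.add_mem _ ha hb
  | smul c a _ ha => rw [LinearMap.smul_apply]; exact Submodule.smul_mem _ _ ha

/-- elements of `alg p` preserve the length and the first `p` letters -/
theorem alg_apply_homL {p : ℕ} {a : Module.End k V} (ha : a ∈ O.alg p) {n : ℕ} {α : List I}
    {y : V} (h : y ∈ Submodule.span k {z | O.HomL n p α z}) :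
    a y ∈ Submodule.span k {z | O.HomL n p α z} := by
  unfold alg at ha
  induction ha using Algebra.adjoin_induction generalizing y with
  | mem g hg =>
    induction h using Submodule.span_induction with
    | mem z hz =>
      obtain ⟨l, hl, h1, h2⟩ := hz
      apply Submodule.subset_span
      rcases hg with ⟨l', rfl⟩ | ⟨j, rfl⟩ | ⟨j, hj, rfl⟩
      · by_cases hl' : l' = l
        · subst hl'
          exact ⟨l', by rw [hl]; exact hl, h1, h2⟩
        · exact ⟨l, by rw [hl.e_ne hl']; exact zero_hom l, h1, h2⟩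
      · exact ⟨l, hl.x j, h1, h2⟩
      · obtain ⟨l', h', h3, h4⟩ := hl.t_exists j
        refine ⟨l', h', h3.trans h1, ?_⟩
        rw [← h2]
        have := congrArg (List.take p) h4
        rw [List.take_take, List.take_take] at this
        simpa [hj] using this
    | zero => simp
    | add z w _ _ hz hw => rw [map_add]; exact Submodule.add_mem _ hz hw
    | smul c z _ hz => rw [map_smul]; exact Submodule.smul_mem _ _ hz
  | algebraMap c =>
    rw [Module.algebraMap_end_apply]
    exact Submodule.smul_mem _ _ h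
  | add a b _ _ ha hb => rw [LinearMap.add_apply]; exact Submodule.add_mem _ (ha h) (hb h)
  | mul a b _ _ ha hb => exact ha (hb h)

theorem e_apply_homL_zero {n p : ℕ} {α : List I} {y : V}
    (h : y ∈ Submodule.span k {z | O.HomL n p α z}) {l : List I}
    (hl : l.length ≠ n ∨ l.take p ≠ α) : O.e l y = 0 := by
  induction h using Submodule.span_induction with
  | mem z hz =>
    obtain ⟨l', h', h1, h2⟩ := hz
    apply h'.e_ne
    rintro rfl
    rcases hl with hl | hl
    · exact hl h1
    · exact hl h2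
  | zero => simp
  | add z w _ _ hz hw => rw [map_add, hz, hw, add_zero]
  | smul c z _ hz => rw [map_smul, hz, smul_zero]

end Ops

end Pool.Agent.H159
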