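import Pool.Agent.H159.Shuf

/-!
# The spanning theorem
-/

set_option linter.unusedSectionVars false

namespace Pool.Agent.H159

open KQuiver

namespace Ops

variable {k I V : Type} [CommRing k] [DecidableEq I] [KQuiver I] [AddCommGroup V] [Module k V]
  (O : Ops k I V)

/-- the span of the shuffle words applied to `W` -/
def SB (p : ℕ) (ss : List (List I)) (u : List I) (W : Submodule k V) : Submodule k V :=
  Submodule.span k {z | ∃ T ∈ BB p ss u, ∃ w ∈ W, z = O.wd T w}

variable {O}

theorem Hom.dn {α β γ : List I} {c : I} {y : V} (h : O.Hom (α ++ (β ++ c :: γ)) y) {p m : ℕ}
    (hp : α.length = p) (hm : β.length = m) : O.Hom (α ++ c :: (β ++ γ)) (O.dn p m y) := by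
  subst hp hm
  induction β using List.reverseRecOn generalizing γ y with
  | nil => simpa [dn_zero_apply] using h
  | append_singleton β b ih =>
    rw [List.length_append, List.length_singleton, dn_succ_apply]
    have h1 : O.Hom ((α ++ β) ++ b :: c :: γ) y := by simpa using h
    have h2 := h1.t (j := α.length + β.length) (by simp)
    have h3 : O.Hom (α ++ (β ++ c :: (b :: γ))) (O.t (α.length + β.length) y) := by
      simpa using h2
    have h4 := ih h3
    simpa using h4

theorem Hom.BB {u : List I} : ∀ {α : List I} {ss : List (List I)} {y : V}
    (_ : O.Hom (α ++ ss.flatten) y) {T : List ℕ} (_ : T ∈ BB α.length ss u),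
    O.Hom (α ++ u) (O.wd T y) := by
  induction u with
  | nil =>
    intro α ss y h T hT
    unfold Pool.Agent.H159.BB at hT
    split_ifs at hT with hf
    · rw [List.mem_singleton] at hT
      subst hT
      rw [hf] at h
      exact h
    · simp at hT
  | cons c u ih =>
    intro α ss y h T hT
    unfold Pool.Agent.H159.BB at hT
    rw [List.mem_flatMap] at hT
    obtain ⟨q, hq, hT⟩ := hT
    rw [List.mem_map] at hT
    obtain ⟨T', hT', rfl⟩ := hT
    obtain ⟨A, d, C, rfl, rfl⟩ := picks_spec hq
    rw [wd_append, wd_range']
    have h1 : O.Hom (α ++ (A.flatten ++ c :: (d ++ C.flatten))) y := by simpa using h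
    have h2 := h1.dn rfl rfl
    have h3 : O.Hom ((α ++ [c]) ++ (A ++ d :: C).flatten)
        (O.dn α.length A.flatten.length y) := by simpa using h2
    have h4 := ih h3 (T := T') (by simpa using hT')
    simpa using h4

theorem alg_HomL {p : ℕ} {a : Module.End k V} (ha : a ∈ O.alg p) {l : List I} {y : V}
    (h : O.Hom l y) : a y ∈ Submodule.span k {z | O.HomL l.length p (l.take p) z} :=
  alg_apply_homL ha (Submodule.subset_span ⟨l, h, rfl, rfl⟩)

theorem spanB (u : List I) : ∀ (α : List I) (ss : List (List I)) (W N : Submodule k V)
    (_ : ∀ y ∈ W, O.Hom (α ++ ss.flatten) y)
    (_ : ∀ b ∈ O.alg α.length, ∀ z ∈ N, b z ∈ N)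
    (_ : ∀ j, ∀ y ∈ W, O.x j y ∈ W ⊔ N)
    (_ : ∀ j, Ins α.length ss j → ∀ y ∈ W, O.t j y ∈ N)
    (a : Module.End k V) (_ : a ∈ O.alg α.length) (y : V) (_ : y ∈ W),
    O.e (α ++ u) (a y) ∈ O.SB α.length ss u W ⊔ N := by
  induction u with
  | nil =>
    intro α ss W N hW hN hx ht a ha y hy
    rw [List.append_nil]
    by_cases hf : ss.flatten = []
    · have hSB : W ≤ O.SB α.length ss [] W := by
        intro w hw
        apply Submodule.subset_span
        exact ⟨[], by simp [Pool.Agent.H159.BB, hf], w, hw, rfl⟩
      have key : ∀ b ∈ O.alg α.length, ∀ z ∈ W ⊔ N, b z ∈ W ⊔ N := by
        intro b hb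
        unfold alg at hb
        induction hb using Algebra.adjoin_induction with
        | mem g hg =>
          intro z hz
          obtain ⟨w, hw, n, hn, rfl⟩ := Submodule.mem_sup.mp hz
          rw [map_add]
          apply Submodule.add_mem _ _
            (Submodule.mem_sup_right (hN _ (Algebra.subset_adjoin hg) _ hn))
          rcases hg with ⟨l', rfl⟩ | ⟨j, rfl⟩ | ⟨j, hj, rfl⟩
          · by_cases hl' : l' = α ++ ss.flatten
            · subst hl'
              rw [hW w hw]
              exact Submodule.mem_sup_left hw
            · rw [(hW w hw).e_ne hl']
              exact Submodule.zero_mem _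
          · exact hx j w hw
          · rw [(hW w hw).t_zero (by rw [hf, List.append_nil]; omega)]
            exact Submodule.zero_mem _
        | algebraMap c =>
          intro z hz
          rw [Module.algebraMap_end_apply]
          exact Submodule.smul_mem _ _ hz
        | add a b _ _ ha hb => intro z hz; exact Submodule.add_mem _ (ha z hz) (hb z hz)
        | mul a b _ _ ha hb => intro z hz; exact ha _ (hb _ hz)
      have h1 := key (O.e α * a) (Subalgebra.mul_mem _ (e_mem _ _) ha) y
        (Submodule.mem_sup_left hy)
      exact sup_le_sup_right hSB N h1
    · have h1 := alg_HomL ha (hW y hy)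
      rw [e_apply_homL_zero h1 (Or.inl ?_)]
      · exact Submodule.zero_mem _
      · intro h2
        rw [List.length_append] at h2
        apply hf
        rw [← List.length_eq_zero_iff]
        omega
  | cons c u ih =>
    intro α ss W N hW hN hx ht a ha y hy
    set p := α.length with hp
    set G : Submodule k V := O.SB p ss (c :: u) W ⊔ N with hG
    have hmono : ∀ b ∈ O.alg (p + 1), b ∈ O.alg p := fun b hb => alg_mono (Nat.le_succ p) hb
    -- the main claim
    have claim : ∀ m : ℕ, ∀ b ∈ O.alg (p + 1), ∀ y ∈ W,
        O.e (α ++ c :: u) (b (O.dn p m y)) ∈ G := by
      intro m
      induction m using Nat.strong_induction_on with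
      | _ m IH =>
      intro b hb y hy
      have hyW := hW y hy
      rcases Nat.lt_or_ge m ss.flatten.length with hm | hm
      · -- the position `m` is a letter of `ss.flatten`
        have hsplit : ss.flatten = ss.flatten.take m ++
            ss.flatten[m] :: ss.flatten.drop (m + 1) := by
          rw [← List.drop_eq_getElem_cons, List.take_append_drop]
        have hlen : (ss.flatten.take m).length = m := by
          rw [List.length_take]; omega
        have hdn : O.Hom (α ++ ss.flatten[m] :: (ss.flatten.take m ++
            ss.flatten.drop (m + 1))) (O.dn p m y) := by
          apply Hom.dn _ hp.symm hlen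
          rw [← hsplit]
          exact hyW
        by_cases hc : ss.flatten[m] = c
        · rcases pick_or_ins p ss hm with ⟨ss', hss'⟩ | ⟨h1, h2⟩
          · rw [hc] at hss'
            -- the new data
            obtain ⟨A, d, C, hA, hA'⟩ := picks_spec hss'
            have hmA : m = A.flatten.length := congrArg Prod.fst hA'
            have hssA : ss' = A ++ d :: C := congrArg Prod.snd hA'
            set W' : Submodule k V := W.map (O.dn p m) with hW'
            set E : Submodule k V := Submodule.span k
              {z | ∃ b ∈ O.alg (p + 1), ∃ m' < m, ∃ w ∈ W, z = b (O.dn p m' w)} with hE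
            have hNL : ∀ w ∈ W, O.NL p m w ≤ E := by
              intro w hw
              apply Submodule.span_mono
              rintro z ⟨b, hb, m', hm', rfl⟩
              exact ⟨b, hb, m', hm', w, hw, rfl⟩
            have hEstab : ∀ b ∈ O.alg (p + 1), ∀ z ∈ E, b z ∈ E := by
              intro b hb z hz
              induction hz using Submodule.span_induction with
              | mem z hz =>
                obtain ⟨b', hb', m', hm', w, hw, rfl⟩ := hz
                exact Submodule.subset_span ⟨b * b', Subalgebra.mul_mem _ hb hb', m', hm', w, hw,
                  rfl⟩
              | zero => simp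
              | add z w _ _ hz hw => rw [map_add]; exact Submodule.add_mem _ hz hw
              | smul c z _ hz => rw [map_smul]; exact Submodule.smul_mem _ _ hz
            have hdnN : ∀ m, ∀ z ∈ N, O.dn p m z ∈ N := fun m z hz => hN _ (dn_mem le_rfl _) z hz
            have hα' : (α ++ [c]).length = p + 1 := by simp [hp]
            have hih := ih (α ++ [c]) ss' W' (N ⊔ E) ?_ ?_ ?_ ?_ b (by rw [hα']; exact hb)
              (O.dn p m y) (Submodule.mem_map_of_mem hy)
            · rw [hα', List.append_assoc, List.singleton_append] at hih
              have hzz : O.e (α ++ c :: u) (b (O.dn p m y)) =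
                  O.e (α ++ c :: u) (O.e (α ++ c :: u) (b (O.dn p m y))) := by
                have := congrArg (fun z : Module.End k V => z (b (O.dn p m y)))
                  (O.e_self (α ++ c :: u))
                exact this.symm
              have hstep : ∀ z ∈ O.SB (p + 1) ss' u W',
                  O.e (α ++ c :: u) z ∈ O.SB p ss (c :: u) W := by
                intro z hz
                unfold SB at hz
                induction hz using Submodule.span_induction with
                | mem z hz =>
                  obtain ⟨T, hT, w', hw', rfl⟩ := hz
                  obtain ⟨w, hw, rfl⟩ := Submodule.mem_map.mp hw'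
                  have hTT : T ++ List.range' p m ∈ Pool.Agent.H159.BB p ss (c :: u) := by
                    rw [Pool.Agent.H159.BB, List.mem_flatMap]
                    exact ⟨_, hss', by simpa using hT⟩
                  have hw2 := (hW w hw).BB (u := c :: u) (by rw [← hp]; exact hTT)
                  rw [wd_append, wd_range'] at hw2
                  rw [hw2]
                  apply Submodule.subset_span
                  exact ⟨_, hTT, w, hw, by rw [wd_append, wd_range']⟩
                | zero => simp
                | add z w _ _ hz hw => rw [map_add]; exact Submodule.add_mem _ hz hw
                | smul c z _ hz => rw [map_smul]; exact Submodule.smul_mem _ _ hz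
              have hEstep : ∀ z ∈ E, O.e (α ++ c :: u) z ∈ G := by
                intro z hz
                induction hz using Submodule.span_induction with
                | mem z hz =>
                  obtain ⟨b', hb', m', hm', w, hw, rfl⟩ := hz
                  exact IH m' hm' b' hb' w hw
                | zero => simp
                | add z w _ _ hz hw => rw [map_add]; exact Submodule.add_mem _ hz hw
                | smul c z _ hz => rw [map_smul]; exact Submodule.smul_mem _ _ hz
              rw [hzz]
              obtain ⟨z1, hz1, z2, hz2, hz⟩ := Submodule.mem_sup.mp hih
              obtain ⟨n, hn, e', he', rfl⟩ := Submodule.mem_sup.mp hz2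
              rw [← hz, map_add, map_add]
              apply Submodule.add_mem
              · exact Submodule.mem_sup_left (hstep _ hz1)
              · exact Submodule.add_mem _ (Submodule.mem_sup_right (hN _ (e_mem _ _) _ hn))
                  (hEstep _ he')
            · -- words
              rintro _ hy'
              obtain ⟨w, hw, rfl⟩ := Submodule.mem_map.mp hy'
              have h1 : O.Hom (α ++ (A.flatten ++ c :: (d ++ C.flatten))) w := by
                have := hW w hw
                rw [hA] at this
                simpa using this
              have h2 := h1.dn hp.symm hmA.symm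
              rw [hssA]
              simpa using h2
            · -- stability
              intro b' hb' z hz
              rw [hα'] at hb'
              obtain ⟨n, hn, e', he', rfl⟩ := Submodule.mem_sup.mp hz
              rw [map_add]
              exact Submodule.add_mem _ (Submodule.mem_sup_left (hN _ (hmono _ hb') _ hn))
                (Submodule.mem_sup_right (hEstab _ hb' _ he'))
            · -- dots
              rintro j _ hy'
              obtain ⟨w, hw, rfl⟩ := Submodule.mem_map.mp hy'
              obtain ⟨j', hj'⟩ := x_dn (hW w hw) p m j
              have h3 : O.x j (O.dn p m w) = (O.x j (O.dn p m w) - O.dn p m (O.x j' w)) +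
                  O.dn p m (O.x j' w) := by abel
              rw [h3]
              apply Submodule.add_mem
              · exact Submodule.mem_sup_right (Submodule.mem_sup_right (hNL w hw hj'))
              · obtain ⟨w1, hw1, n1, hn1, h4⟩ := Submodule.mem_sup.mp (hx j' w hw)
                rw [← h4, map_add]
                apply Submodule.add_mem
                · exact Submodule.mem_sup_left (Submodule.mem_map_of_mem hw1)
                · exact Submodule.mem_sup_right (Submodule.mem_sup_left (hdnN _ _ hn1))
            · -- crossings
              rintro j hj _ hy'
              obtain ⟨w, hw, rfl⟩ := Submodule.mem_map.mp hy'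
              rw [hα', hssA, Ins_append] at hj
              rcases hj with hj | hj
              · have hb1 := Ins_bounds hj
                obtain ⟨i, rfl⟩ : ∃ i, j = i + 1 := ⟨j - 1, by omega⟩
                have hj2 := Ins_succ hj
                have hj3 : Ins p ss i := by
                  rw [hA, Ins_append]; exact Or.inl hj2
                have h5 := t_dn_mid (hW w hw) (p := p) (m := m) (i := i) (by omega) (by omega)
                have h3 : O.t (i + 1) (O.dn p m w) =
                    (O.t (i + 1) (O.dn p m w) - O.dn p m (O.t i w)) + O.dn p m (O.t i w) := by abel
                rw [h3]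
                apply Submodule.add_mem
                · exact Submodule.mem_sup_right (hNL w hw h5)
                · exact Submodule.mem_sup_left (hdnN _ _ (ht i hj3 w hw))
              · have hb1 := Ins_bounds hj
                rw [← hmA] at hj hb1
                have hj3 : Ins p ss j := by
                  rw [hA, Ins_append]
                  right
                  rw [← hmA]
                  rcases hj with hj | hj
                  · left
                    rw [List.length_cons]
                    omega
                  · right
                    rw [List.length_cons]
                    have : p + 1 + m + d.length = p + m + (d.length + 1) := by omega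
                    rw [← this]
                    exact hj
                rw [← dn_t_comm (by omega)]
                exact Submodule.mem_sup_left (hdnN _ _ (ht j hj3 w hw))
          · -- inside a chain
            obtain ⟨m', rfl⟩ : ∃ m', m = m' + 1 := ⟨m - 1, by omega⟩
            have h3 : p + (m' + 1) - 1 = p + m' := by omega
            rw [h3] at h2
            rw [dn_succ_apply]
            apply Submodule.mem_sup_right
            apply hN _ (e_mem _ _)
            apply hN _ (hmono _ hb)
            apply hN _ (dn_mem le_rfl _)
            exact ht _ h2 y hy
        · -- wrong letter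
          have h1 := alg_HomL hb hdn
          rw [e_apply_homL_zero h1 (Or.inr ?_)]
          · exact Submodule.zero_mem _
          · intro h2
            rw [hp, List.take_append, List.take_append] at h2
            simp at h2
            exact hc h2.symm
      · rcases Nat.eq_zero_or_pos m with h0 | h0
        · subst h0
          have hf : ss.flatten.length = 0 := by omega
          rw [dn_zero_apply]
          have h1 := alg_HomL hb hyW
          rw [e_apply_homL_zero h1 (Or.inl ?_)]
          · exact Submodule.zero_mem _
          · rw [List.length_append, List.length_append, List.length_cons]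
            omega
        · obtain ⟨m', rfl⟩ : ∃ m', m = m' + 1 := ⟨m - 1, by omega⟩
          rw [dn_succ_apply, hyW.t_zero (by rw [List.length_append]; omega)]
          simp
    -- conclusion
    have h1 := alg_apply_mem ha (hW y hy)
    generalize a y = z0 at h1
    unfold NN at h1
    induction h1 using Submodule.span_induction with
    | mem z hz =>
      obtain ⟨b, hb, m, rfl⟩ := hz
      exact claim m b hb y hy
    | zero => simp
    | add z w _ _ hz hw => rw [map_add]; exact Submodule.add_mem _ hz hw
    | smul c z _ hz => rw [map_smul]; exact Submodule.smul_mem _ _ hz

end Ops

end Pool.Agent.H159
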