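import Pool.Agent.H159.Ind

/-!
# The exact sequence which cuts the last letter of a chain
-/

set_option linter.unusedSectionVars false

namespace Pool.Agent.H159

open KQuiver

namespace Ops

variable {k I V : Type} [CommRing k] [DecidableEq I] [KQuiver I] [AddCommGroup V] [Module k V]
  {O : Ops k I V}

theorem Hom.t_dn_exact {α β₁ β₂ γ : List I} {b₁ b₂ c : I} {y : V}
    (h : O.Hom (α ++ ((β₁ ++ b₁ :: b₂ :: β₂) ++ c :: γ)) y) (hne : b₁ ≠ c) {p m i : ℕ}
    (hp : α.length = p) (hm : β₁.length + 2 + β₂.length = m) (hi : p + β₁.length = i) :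
    O.t (i + 1) (O.dn p m y) = O.dn p m (O.t i y) := by
  subst hi
  have e2 : ∀ z : V, O.dn p m z = O.dn p β₁.length (O.t (p + β₁.length)
      (O.t (p + β₁.length + 1) (O.dn (p + β₁.length + 2) β₂.length z))) := by
    intro z
    have h3 : m = β₁.length + (2 + β₂.length) := by omega
    rw [h3, dn_add_apply, dn_add_apply]
    rfl
  have h1 : O.Hom ((α ++ β₁ ++ [b₁, b₂]) ++ (β₂ ++ c :: γ)) y := by simpa using h
  have h2 := h1.dn (p := p + β₁.length + 2) (m := β₂.length) (by simp; omega) rfl
  have h3 : O.Hom ((α ++ β₁) ++ b₁ :: b₂ :: c :: (β₂ ++ γ))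
      (O.dn (p + β₁.length + 2) β₂.length y) := by simpa using h2
  have h4 := congrArg (fun z : Module.End k V => z (O.dn (p + β₁.length + 2) β₂.length y))
    (O.br_ne (α ++ β₁) b₁ b₂ c (β₂ ++ γ) hne)
  simp only [Module.End.mul_apply] at h4
  rw [h3] at h4
  have hlen : (α ++ β₁).length = p + β₁.length := by rw [List.length_append, hp]
  rw [hlen] at h4
  rw [e2, e2, dn_t_comm (O := O) (p := p + β₁.length + 2) (j := p + β₁.length) (by omega), ← h4,
    ← dn_t_comm (O := O) (p := p) (m := β₁.length) (j := p + β₁.length + 1) (by omega)]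

/-- undoing far crossings -/
theorem Hom.undo {N : Submodule k V} (hN : ∀ j, ∀ y ∈ N, O.t j y ∈ N) {β : List I} :
    ∀ {α γ : List I} {c' b : I} {y : V} (_ : O.Hom (α ++ ((β ++ [c']) ++ b :: γ)) y)
    (_ : ∀ a ∈ β, a ≠ b ∧ ¬ arr a b ∧ ¬ arr b a)
    (_ : O.dn α.length (β.length + 1) y ∈ N), O.t (α.length + β.length) y ∈ N := by
  induction β with
  | nil =>
    intro α γ c' b y h _ hd
    simpa [dn_succ_apply, dn_zero_apply] using hd
  | cons b₁ β ih =>
    intro α γ c' b y h hfar hd
    have h1 : O.Hom ((α ++ [b₁]) ++ ((β ++ [c']) ++ b :: γ)) y := by simpa using h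
    have h2 : O.dn α.length ((b₁ :: β).length + 1) y =
        O.t α.length (O.dn (α.length + 1) (β.length + 1) y) := by
      have : (b₁ :: β).length + 1 = 1 + (β.length + 1) := by simp; omega
      rw [this, dn_add_apply]
      rfl
    rw [h2] at hd
    have h3 := h1.dn (p := α.length + 1) (m := β.length + 1) (by simp) (by simp)
    have h4 : O.Hom (α ++ b₁ :: b :: ((β ++ [c']) ++ γ))
        (O.dn (α.length + 1) (β.length + 1) y) := by simpa using h3
    have h5 := tt_apply h4 rfl
    have hf := hfar b₁ (by simp)
    unfold Qop at h5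
    rw [if_neg hf.1, if_neg hf.2.1, if_neg hf.2.2] at h5
    have h6 := hN α.length _ hd
    rw [h5] at h6
    have h7 := ih h1 (fun a ha => hfar a (by simp [ha])) (by simpa using h6)
    simpa [add_assoc, add_comm 1] using h7

end Ops

section

variable {k I : Type} [Field k] [DecidableEq I] [KQuiver I] {Ω : Finset (List I)}

/-- splitting off the last letter of a good chain -/
theorem GoodC.last {s : List I} {b : I} (h : GoodC (s ++ [b])) :
    b ∉ s ∧ (∀ t c', s = t ++ [c'] → arr c' b ∧ ∀ a ∈ t, a ≠ b ∧ ¬ arr a b ∧ ¬ arr b a) := by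
  constructor
  · intro hb
    obtain ⟨p, q, rfl⟩ := List.append_of_mem hb
    exact (h p b q b [] (by simp)).1 rfl
  · rintro t c' rfl
    constructor
    · exact (h t c' [] b [] (by simp)).2.1 rfl
    · intro a ha
      obtain ⟨p, q, rfl⟩ := List.append_of_mem ha
      have h1 := h p a (q ++ [c']) b [] (by simp)
      exact ⟨h1.1, h1.2.2 (by simp)⟩

variable (k I Ω) in
/-- products of consecutive crossings -/
noncomputable def ldn (p m : ℕ) : GKLR k I Ω := lwd k I Ω (List.range' p m)

theorem ldn_smul {M : Type} [AddCommGroup M] [Module k M] [Module (GKLR k I Ω) M]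
    [IsScalarTower k (GKLR k I Ω) M] (p m : ℕ) (y : M) :
    ldn k I Ω p m • y = (mops k I Ω M).dn p m y := by
  unfold ldn
  rw [lwd_smul, Ops.wd_range']

/-- degrees after moving a letter to the left -/
theorem bihom_dn {M : Type} [AddCommGroup M] [Module k M] [Module (GKLR k I Ω) M]
    [IsScalarTower k (GKLR k I Ω) M] {β : List I} : ∀ {α γ : List I} {b : I} {d : ℤ} {y : M}
    (_ : BiHom (k := k) (Ω := Ω) (α ++ (β ++ b :: γ)) d y) {p m : ℕ} (_ : α.length = p)
    (_ : β.length = m),
    BiHom (k := k) (Ω := Ω) (α ++ b :: (β ++ γ)) (d + (β.map (fun a => tdeg a b)).sum)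
      ((mops k I Ω M).dn p m y) := by
  induction β using List.reverseRecOn with
  | nil =>
    intro α γ b d y h p m hp hm
    simp only [List.length_nil] at hm
    subst hm
    simpa [Ops.dn_zero_apply] using h
  | append_singleton β c ih =>
    intro α γ b d y h p m hp hm
    rw [List.length_append, List.length_singleton] at hm
    subst hm
    rw [Ops.dn_succ_apply]
    have h1 : BiHom (k := k) (Ω := Ω) ((α ++ β) ++ c :: b :: γ) d y := by simpa using h
    have h2 := h1.t (j := p + β.length) (by rw [List.length_append, hp])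
    have h3 : BiHom (k := k) (Ω := Ω) (α ++ (β ++ b :: (c :: γ))) (d + tdeg c b)
        ((gops k I Ω).t (p + β.length) • y) := by simpa using h2
    have h4 := ih h3 hp rfl
    have h5 : d + tdeg c b + (β.map (fun a => tdeg a b)).sum =
        d + ((β ++ [c]).map (fun a => tdeg a b)).sum := by
      rw [List.map_append, List.sum_append]; simp; ring
    rw [h5] at h4
    have h6 : β ++ [c] ++ γ = β ++ c :: γ := by simp
    rw [h6]
    exact h4

theorem tdeg_far {a b : I} (h : a ≠ b ∧ ¬ arr a b ∧ ¬ arr b a) : tdeg a b = 0 := by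
  unfold tdeg
  rw [if_neg h.1, if_neg (by rintro (h' | h'); exacts [h.2.1 h', h.2.2 h'])]

theorem tdeg_arr {a b : I} (h : arr a b) : tdeg a b = 1 := by
  unfold tdeg
  have : a ≠ b := by rintro rfl; exact KQuiver.irrefl _ h
  rw [if_neg this, if_pos (Or.inl h)]

variable {A C : List (List I)} {s : List I} {b : I}

/-- hypotheses on the chains -/
theorem GC.cut (hg : GC (A ++ (s ++ [b]) :: C)) (hs : s ≠ []) : GC (A ++ s :: [b] :: C) := by
  intro r hr
  simp only [List.mem_append, List.mem_cons] at hr
  rcases hr with hr | rfl | rfl | hr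
  · exact hg r (by simp [hr])
  · have := (hg (r ++ [b]) (by simp)).1
    exact ⟨GoodC.middle (p := []) (q := [b]) (by simpa using this), hs⟩
  · exact ⟨good_singleton b, by simp⟩
  · exact hg r (by simp [hr])

theorem GC.swap (hg : GC (A ++ (s ++ [b]) :: C)) (hs : s ≠ []) : GC (A ++ [b] :: s :: C) := by
  intro r hr
  apply hg.cut hs r
  simp only [List.mem_append, List.mem_cons] at hr ⊢
  tauto

/-- the image of the generator under the swap map satisfies the relations -/
theorem phi_DP (hg : GC (A ++ (s ++ [b]) :: C)) (hs : s ≠ []) {M : Type} [AddCommGroup M]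
    [Module k M] [Module (GKLR k I Ω) M] [IsScalarTower k (GKLR k I Ω) M] {d : ℤ} {y : M}
    (hy : DP k Ω (A ++ s :: [b] :: C) d y) :
    DP k Ω (A ++ [b] :: s :: C) (d + 1) (ldn k I Ω A.flatten.length s.length • y) := by
  have hgood := (hg (s ++ [b]) (by simp)).1
  obtain ⟨hb, hlast⟩ := hgood.last
  obtain ⟨t, c', rfl⟩ : ∃ t c', s = t ++ [c'] := by
    rcases List.eq_nil_or_concat s with h | ⟨t, c', h⟩
    · exact absurd h hs
    · exact ⟨t, c', by rw [h, List.concat_eq_append]⟩
  obtain ⟨harr, hfar⟩ := hlast t c' rfl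
  have hw : (A ++ (t ++ [c']) :: [b] :: C).flatten =
      A.flatten ++ ((t ++ [c']) ++ b :: C.flatten) := by simp
  have hw' : (A ++ [b] :: (t ++ [c']) :: C).flatten =
      A.flatten ++ b :: ((t ++ [c']) ++ C.flatten) := by simp
  have hbi := hy.1
  rw [hw] at hbi
  rw [ldn_smul]
  refine ⟨?_, ?_⟩
  · rw [hw']
    have h1 := bihom_dn hbi rfl rfl
    have h2 : ((t ++ [c']).map (fun a => tdeg a b)).sum = 1 := by
      rw [List.map_append, List.sum_append, List.map_cons, List.map_nil, List.sum_singleton,
        tdeg_arr harr, List.map_congr_left (fun a ha => tdeg_far (hfar a ha))]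
      simp
    rw [h2] at h1
    exact h1
  · intro j hj
    show (mops k I Ω M).t j _ = 0
    rw [Ins_append] at hj
    rcases hj with hj | hj
    · -- a position in `A`
      have hb1 := Ins_bounds hj
      rw [← Ops.dn_t_comm (by omega)]
      have h2 : (gops k I Ω).t j • y = 0 := hy.2 j (by rw [Ins_append]; exact Or.inl hj)
      have h3 : (mops k I Ω M).t j y = 0 := h2
      rw [h3, map_zero]
    · rcases hj with hj | hj
      · simp only [List.length_singleton] at hj; omega
      · rcases hj with hj | hj
        · -- inside `s`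
          simp only [List.length_singleton, zero_add] at hj
          obtain ⟨i, rfl⟩ : ∃ i, j = A.flatten.length + (i + 1) := ⟨j - A.flatten.length - 1, by
            omega⟩
          obtain ⟨β₁, b₁, b₂, β₂, h1, h2⟩ := split_two' (l := t ++ [c']) (j := i) (by omega)
          have h3 : Ins 0 (A ++ (t ++ [c']) :: [b] :: C) (A.flatten.length + i) := by
            rw [Ins_append]
            right
            left
            omega
          have h4 : (mops k I Ω M).t (A.flatten.length + i) y = 0 := hy.2 _ h3
          have hbi2 := hbi.1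
          rw [h2] at hbi2
          have hne : b₁ ≠ b := by
            rintro rfl
            exact hb (by rw [h2]; simp)
          have h5 := hbi2.t_dn_exact hne (p := A.flatten.length) (m := (t ++ [c']).length)
            (i := A.flatten.length + i) rfl (by
              have := congrArg List.length h2
              simp only [List.length_append, List.length_cons] at this ⊢
              omega) (by omega)
          rw [h4, map_zero] at h5
          exact h5
        · -- a position in `C`
          have hb1 := Ins_bounds hj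
          simp only [List.length_singleton, zero_add] at hj hb1
          rw [← Ops.dn_t_comm (by omega)]
          have h2 : (gops k I Ω).t j • y = 0 := hy.2 j (by
            rw [Ins_append]
            right
            right
            right
            simp only [List.length_singleton, zero_add]
            have e1 : A.flatten.length + (t ++ [c']).length + 1 =
                A.flatten.length + 1 + (t ++ [c']).length := by omega
            rw [e1]
            exact hj)
          have h3 : (mops k I Ω M).t j y = 0 := h2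
          rw [h3, map_zero]

/-- moving a strand to the left in the rational representation -/
theorem zrep_dn {β : List (ℕ × I)} : ∀ {α γ : List (ℕ × I)} {st : ℕ × I}
    (_ : (α ++ (β ++ st :: γ)).Nodup) (_ : ∀ t ∈ β, t.1 ≠ st.1 ∧ t.2 ≠ st.2) {p m : ℕ}
    (_ : α.length = p) (_ : β.length = m),
    ∃ κ : ZK k, κ ≠ 0 ∧ (zrep k I).dn p m (Frep.bb (α ++ (β ++ st :: γ))) =
      κ • Frep.bb (α ++ st :: (β ++ γ)) := by
  induction β using List.reverseRecOn with
  | nil =>
    intro α γ st _ _ p m hp hm
    simp only [List.length_nil] at hm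
    subst hm
    exact ⟨1, one_ne_zero, by simp [Ops.dn_zero_apply]⟩
  | append_singleton β t ih =>
    intro α γ st hn hf p m hp hm
    rw [List.length_append, List.length_singleton] at hm
    subst hm
    have e1 : α ++ (β ++ [t] ++ st :: γ) = (α ++ β) ++ t :: st :: γ := by simp
    have e2 : (α ++ β) ++ st :: t :: γ = α ++ (β ++ st :: (t :: γ)) := by simp
    rw [e1] at hn ⊢
    have hft := hf t (by simp)
    have h1 : (zrep k I).t (p + β.length) (Frep.bb ((α ++ β) ++ t :: st :: γ)) =
        Frep.cA Prod.snd (zc k I) t st • Frep.bb ((α ++ β) ++ st :: t :: γ) := by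
      have := Frep.ot_bb (lab := Prod.snd) (c := zc k I) hn (j := p + β.length)
        (by rw [List.length_append, hp])
      rw [Frep.cB_ne hft.2, zero_smul, add_zero] at this
      exact this
    have hn' := Frep.nodup_swap.mp hn
    rw [e2] at hn'
    obtain ⟨κ, hκ, h2⟩ := ih (α := α) (γ := t :: γ) (st := st) hn'
      (fun t' ht' => hf t' (by simp [ht'])) hp rfl
    refine ⟨Frep.cA Prod.snd (zc k I) t st * κ, mul_ne_zero (cA_ne_zero hft.1) hκ, ?_⟩
    rw [Ops.dn_succ_apply, h1, e2]
    have h3 : ∀ (T : List ℕ) (c : ZK k) (z : List (ℕ × I) →₀ ZK k),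
        (zrep k I).wd T (c • z) = c • (zrep k I).wd T z := by
      intro T c z
      rw [wd_restrict, wd_restrict, map_smul]
    rw [← Ops.wd_range', h3, Ops.wd_range', h2, smul_smul]
    simp

theorem phi_rel (hg : GC (A ++ (s ++ [b]) :: C)) (hs : s ≠ []) (d : ℤ) :
    ∀ r ∈ RS k Ω (A ++ [b] :: s :: C) (d + 1) 0,
      r • (ldn k I Ω A.flatten.length s.length • dgen k Ω (A ++ s :: [b] :: C) d 0) = 0 :=
  RS_iff'.mpr ⟨phi_DP hg hs (dgen_DP _ d 0), by intro i' hi'; omega⟩

variable (k Ω) in
/-- the swap map -/
noncomputable def phi (hg : GC (A ++ (s ++ [b]) :: C)) (hs : s ≠ []) (d : ℤ) :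
    Dm k Ω (A ++ [b] :: s :: C) (d + 1) 0 →ₗ[GKLR k I Ω] Dm k Ω (A ++ s :: [b] :: C) d 0 :=
  clift _ _ (phi_rel hg hs d)

theorem phi_inj (hΩ : ∀ l ∈ Ω, ∀ l', l.Perm l' → l' ∈ Ω)
    (hg : GC (A ++ (s ++ [b]) :: C)) (hs : s ≠ [])
    (hw : (A ++ s :: [b] :: C).flatten ∈ Ω) (d : ℤ) : Function.Injective (phi k Ω hg hs d) := by
  have hg' := hg.cut hs
  obtain ⟨Θ, hΘ⟩ := exists_theta (k := k) hΩ (ixd_good hg') (ixd_snd _) hw d
  have hsnd := ixd_snd (A ++ s :: [b] :: C)
  have hts := ixd_good hg'
  generalize ixd (A ++ s :: [b] :: C) = ts at hΘ hsnd hts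
  rw [List.map_eq_append_iff] at hsnd
  obtain ⟨tA, tr, rfl, hA, hr⟩ := hsnd
  rw [List.map_eq_cons_iff] at hr
  obtain ⟨q1, tr', rfl, hq1, hr'⟩ := hr
  rw [List.map_eq_cons_iff] at hr'
  obtain ⟨q2, tC, rfl, hq2, hC⟩ := hr'
  obtain ⟨i1, s1⟩ := q1
  obtain ⟨i2, s2⟩ := q2
  simp only at hq1 hq2
  subst hq1 hq2
  have hperm : (tA ++ (i1, s1) :: (i2, [b]) :: tC).Perm
      (tA ++ (i2, [b]) :: (i1, s1) :: tC) := List.Perm.append_left _ (List.Perm.swap _ _ _)
  have hts1 : TGood (tA ++ (i2, [b]) :: (i1, s1) :: tC) :=
    ⟨(hperm.map _).nodup_iff.mp hts.1, fun q hq => hts.2 q (hperm.mem_iff.mpr hq)⟩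
  have hi : i1 ≠ i2 := by
    have h1 := hts.1
    rw [List.map_append, List.map_cons, List.map_cons] at h1
    exact Frep.ne_of_nodup h1
  have hb := ((hg (s1 ++ [b]) (by simp)).1).last.1
  have e1 : tl (tA ++ (i1, s1) :: (i2, [b]) :: tC) =
      tl tA ++ (s1.map (Prod.mk i1) ++ (i2, b) :: tl tC) := by
    rw [tl_append, tl_cons, tl_cons]; simp
  have e2 : tl (tA ++ (i2, [b]) :: (i1, s1) :: tC) =
      tl tA ++ (i2, b) :: (s1.map (Prod.mk i1) ++ tl tC) := by
    rw [tl_append, tl_cons, tl_cons]; simp
  have hn := tl_nodup hts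
  rw [e1] at hn
  have hlen : (tl tA).length = A.flatten.length := by
    rw [← hA, ← tl_labels, List.length_map]
  obtain ⟨κ, hκ, h2⟩ := zrep_dn (k := k) hn (by
    intro t ht
    rw [List.mem_map] at ht
    obtain ⟨a, ha, rfl⟩ := ht
    exact ⟨hi, by rintro rfl; exact hb ha⟩) hlen (m := s1.length) (by simp)
  refine clift_injective (hg.swap hs) Θ hts1 (by rw [List.map_append, hA, List.map_cons,
    List.map_cons, hC]) hκ ?_ _
  unfold ldn
  rw [theta_wd, hΘ, Ops.wd_range', e1, h2, e2]

theorem rho_rel (A C : List (List I)) (s : List I) (b : I) (d : ℤ) :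
    ∀ r ∈ RS k Ω (A ++ s :: [b] :: C) d 0, r • dgen k Ω (A ++ (s ++ [b]) :: C) d 0 = 0 := by
  rw [RS_iff']
  have h := dgen_DP (k := k) (Ω := Ω) (A ++ (s ++ [b]) :: C) d 0
  have hw : (A ++ (s ++ [b]) :: C).flatten = (A ++ s :: [b] :: C).flatten := by simp
  refine ⟨⟨?_, ?_⟩, by intro i' hi'; omega⟩
  · rw [← hw]; exact h.1
  · intro j hj
    apply h.2
    rw [Ins_append] at hj ⊢
    rcases hj with hj | hj
    · exact Or.inl hj
    · right
      rcases hj with hj | hj
      · left
        rw [List.length_append]
        omega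
      · rcases hj with hj | hj
        · simp only [List.length_singleton] at hj; omega
        · right
          rw [List.length_append, ← add_assoc]
          exact hj

variable (k Ω) in
/-- the quotient map -/
noncomputable def rho (A C : List (List I)) (s : List I) (b : I) (d : ℤ) :
    Dm k Ω (A ++ s :: [b] :: C) d 0 →ₗ[GKLR k I Ω] Dm k Ω (A ++ (s ++ [b]) :: C) d 0 :=
  clift _ _ (rho_rel A C s b d)

theorem rho_surj (A C : List (List I)) (s : List I) (b : I) (d : ℤ) :
    Function.Surjective (rho k Ω A C s b d) := clift_surj _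

theorem rho_exact (hg : GC (A ++ (s ++ [b]) :: C)) (hs : s ≠ []) (d : ℤ)
    (z : Dm k Ω (A ++ s :: [b] :: C) d 0) :
    rho k Ω A C s b d z = 0 ↔ ∃ y, phi k Ω hg hs d y = z := by
  have hgood := (hg (s ++ [b]) (by simp)).1
  obtain ⟨hb, hlast⟩ := hgood.last
  obtain ⟨t, c', rfl⟩ : ∃ t c', s = t ++ [c'] := by
    rcases List.eq_nil_or_concat s with h | ⟨t, c', h⟩
    · exact absurd h hs
    · exact ⟨t, c', by rw [h, List.concat_eq_append]⟩
  obtain ⟨harr, hfar⟩ := hlast t c' rfl
  constructor
  · intro hz
    have := ker_clift (rho_rel A C (t ++ [c']) b d) (LinearMap.range (phi k Ω hg hs d)) (by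
      intro r hr
      rcases hr with rfl | ⟨j, hj, rfl⟩ | ⟨i', hi', -⟩
      · have hw : (A ++ (t ++ [c'] ++ [b]) :: C).flatten =
            (A ++ (t ++ [c']) :: [b] :: C).flatten := by simp
        rw [hw, cgen_rel _ _ (Or.inl rfl)]
        exact Submodule.zero_mem _
      · by_cases h1 : Ins 0 (A ++ (t ++ [c']) :: [b] :: C) j
        · rw [cgen_rel _ _ (Or.inr (Or.inl ⟨j, h1, rfl⟩))]
          exact Submodule.zero_mem _
        · -- the new crossing
          have hj2 : j = A.flatten.length + t.length := by
            rw [Ins_append] at h1 hj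
            push Not at h1
            rcases hj with hj | hj
            · exact absurd hj h1.1
            · rcases hj with hj | hj
              · have h3 : ¬ (0 + A.flatten.length ≤ j ∧
                  j + 1 < 0 + A.flatten.length + (t ++ [c']).length) := by
                  intro h4
                  exact h1.2 (Or.inl h4)
                rw [List.length_append, List.length_append, List.length_singleton,
                  List.length_singleton] at hj
                rw [List.length_append, List.length_singleton] at h3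
                omega
              · exfalso
                apply h1.2
                right
                right
                rw [List.length_append, ← add_assoc] at hj
                exact hj
          subst hj2
          have hbi := (dgen_DP (k := k) (Ω := Ω) (A ++ (t ++ [c']) :: [b] :: C) d 0).1.1
          have hw : (A ++ (t ++ [c']) :: [b] :: C).flatten =
            A.flatten ++ ((t ++ [c']) ++ b :: C.flatten) := by simp
          rw [hw] at hbi
          exact hbi.undo (N := (LinearMap.range (phi k Ω hg hs d)).restrictScalars k)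
            (by
              intro j y hy
              rw [Submodule.restrictScalars_mem] at hy ⊢
              exact Submodule.smul_mem _ _ hy)
            hfar
            (by
              rw [Submodule.restrictScalars_mem]
              refine ⟨dgen k Ω _ (d + 1) 0, ?_⟩
              unfold phi
              rw [clift_gen, ldn_smul, List.length_append, List.length_singleton])
      · omega) z hz
    exact this
  · rintro ⟨y, rfl⟩
    obtain ⟨r, rfl⟩ := cy_surj y
    unfold phi rho
    rw [map_smul, clift_gen, map_smul, map_smul, clift_gen, ldn_smul, List.length_append,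
      List.length_singleton, Ops.dn_succ_apply]
    have h1 : (mops k I Ω (Dm k Ω (A ++ (t ++ [c'] ++ [b]) :: C) d 0)).t
        (A.flatten.length + t.length) (dgen k Ω (A ++ (t ++ [c'] ++ [b]) :: C) d 0) = 0 := by
      apply (dgen_DP (k := k) (Ω := Ω) (A ++ (t ++ [c'] ++ [b]) :: C) d 0).2
      rw [Ins_append]
      right
      left
      rw [List.length_append, List.length_append, List.length_singleton, List.length_singleton]
      omega
    have h2 : (mops k I Ω (Dm k Ω (A ++ (t ++ [c'] ++ [b]) :: C) d 0)).dn A.flatten.length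
        t.length ((mops k I Ω (Dm k Ω (A ++ (t ++ [c'] ++ [b]) :: C) d 0)).t
        (A.flatten.length + t.length) (dgen k Ω (A ++ (t ++ [c'] ++ [b]) :: C) d 0)) = 0 := by
      rw [h1, map_zero]
    rw [h2, smul_zero]

end

end Pool.Agent.H159
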