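import Pool.Agent.H159.Res2
import Pool.Agent.H159.MDim

/-!
# Graded modules over the quiver Hecke algebra as modules over the graded version
-/

set_option linter.unusedSectionVars false
set_option linter.style.haveILetI false

namespace Pool.Agent.H159

open KQuiver

section

variable {k I : Type} [Field k] [DecidableEq I] [KQuiver I] {Ω : Finset (List I)}

section gproj

variable {X : Type} [AddCommGroup X] [Module k X] {A : ℤ → Submodule k X}
  (hA : DirectSum.IsInternal A)

/-- the projection to a degree part -/
noncomputable def gproj (d : ℤ) : Module.End k X :=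
  (A d).subtype ∘ₗ DirectSum.component k ℤ (fun d => A d) d ∘ₗ
    (LinearEquiv.ofBijective (DirectSum.coeLinearMap A) hA).symm.toLinearMap

theorem gproj_apply {d d' : ℤ} {y : X} (hy : y ∈ A d') :
    gproj hA d y = if d = d' then y else 0 := by
  classical
  have h1 : (LinearEquiv.ofBijective (DirectSum.coeLinearMap A) hA).symm y =
      DirectSum.lof k ℤ (fun d => A d) d' ⟨y, hy⟩ := by
    rw [LinearEquiv.symm_apply_eq]
    exact (DirectSum.coeLinearMap_lof A d' ⟨y, hy⟩).symm
  unfold gproj
  rw [LinearMap.comp_apply, LinearMap.comp_apply, LinearEquiv.coe_coe, h1]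
  by_cases h : d = d'
  · subst h
    rw [if_pos rfl]
    simp [DirectSum.component.lof_self]
  · rw [if_neg h, DirectSum.component.of]
    rw [dif_neg (Ne.symm h)]
    rfl

include hA in
theorem grad_ext {W : Type} [AddCommGroup W] [Module k W] {F G : X →ₗ[k] W}
    (h : ∀ d, ∀ y ∈ A d, F y = G y) : F = G := by
  apply LinearMap.ext
  intro y
  have hy : y ∈ ⨆ d, A d := by
    rw [hA.submodule_iSup_eq_top]; trivial
  induction hy using Submodule.iSup_induction' with
  | mem d y hy => exact h d y hy
  | zero => rw [map_zero, map_zero]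
  | add y z _ _ hy hz => rw [map_add, map_add, hy, hz]

end gproj

variable {X : Type} [AddCommGroup X] [Module k X] [Module (KLR k I Ω) X]
  [IsScalarTower k (KLR k I Ω) X] {A : ℤ → Submodule k X}

/-- the degree idempotents of a grading -/
noncomputable def IsKGrading.str (h : IsKGrading k Ω A) :
    GStr (Module.End k X) (kmops k I Ω X) where
  f d := gproj h.internal d
  f_self d := by
    apply grad_ext h.internal
    intro d' y hy
    rw [Module.End.mul_apply, gproj_apply h.internal hy]
    by_cases hd : d = d'
    · subst hd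
      rw [if_pos rfl, gproj_apply h.internal hy, if_pos rfl]
    · rw [if_neg hd, map_zero]
  f_ne d d'' hne := by
    apply grad_ext h.internal
    intro d' y hy
    rw [Module.End.mul_apply, gproj_apply h.internal hy]
    by_cases hd : d'' = d'
    · subst hd
      rw [if_pos rfl, gproj_apply h.internal hy, if_neg hne]
      rfl
    · rw [if_neg hd, map_zero]
      rfl
  f_e d l := by
    apply grad_ext h.internal
    intro d' y hy
    rw [Module.End.mul_apply, Module.End.mul_apply, gproj_apply h.internal hy]
    have h1 : (kmops k I Ω X).e l y ∈ A d' := h.e_mem l d' y hy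
    rw [gproj_apply h.internal h1]
    by_cases hd : d = d'
    · rw [if_pos hd, if_pos hd]
    · rw [if_neg hd, if_neg hd, map_zero]
  x_f j d := by
    apply grad_ext h.internal
    intro d' y hy
    rw [Module.End.mul_apply, Module.End.mul_apply, gproj_apply h.internal hy]
    have h1 : (kmops k I Ω X).x j y ∈ A (d' + 2) := h.x_mem j d' y hy
    rw [gproj_apply h.internal h1]
    by_cases hd : d = d'
    · rw [if_pos hd, if_pos (by rw [hd])]
    · rw [if_neg hd, if_neg (by omega), map_zero]
  t_f p a b q d := by
    apply grad_ext h.internal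
    intro d' y hy
    show ((kmops k I Ω X).t p.length * (kmops k I Ω X).e (p ++ a :: b :: q))
      (gproj h.internal d y) = gproj h.internal (d + tdeg a b)
        (((kmops k I Ω X).t p.length * (kmops k I Ω X).e (p ++ a :: b :: q)) y)
    rw [gproj_apply h.internal hy]
    have h1 : ((kmops k I Ω X).t p.length * (kmops k I Ω X).e (p ++ a :: b :: q)) y ∈
        A (d' + tdeg a b) := h.t_mem p a b q d' y hy
    rw [gproj_apply h.internal h1]
    by_cases hd : d = d'
    · rw [if_pos hd, if_pos (by rw [hd])]
    · rw [if_neg hd, if_neg (by omega), map_zero]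

/-! ### the ungraded action on wrapped modules -/

theorem klift_kmops (r : KLR k I Ω) (y : X) :
    (klift Ω (kmops k I Ω X) kmops_sum r) y = r • y := by
  induction r using klr_induction generalizing y with
  | he l => rw [klift_e]; rfl
  | hx j => rw [klift_x]; rfl
  | ht j => rw [klift_t]; rfl
  | hc c =>
    rw [AlgHom.commutes, algebraMap_smul, Module.algebraMap_end_apply]
  | hadd a b ha hb => rw [map_add, LinearMap.add_apply, ha, hb, add_smul]
  | hmul a b ha hb => rw [map_mul, Module.End.mul_apply, hb, ha, mul_smul]

/-- the ungraded action -/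
noncomputable instance wrapKlr (G : GStr (Module.End k X) (kmops k I Ω X)) :
    Module (KLR k I Ω) (GWrap (Ω := Ω) G kmops_sum) :=
  inferInstanceAs (Module (KLR k I Ω) X)

instance (G : GStr (Module.End k X) (kmops k I Ω X)) :
    IsScalarTower (KLR k I Ω) (GKLR k I Ω) (GWrap (Ω := Ω) G kmops_sum) where
  smul_assoc r g y := by
    have h1 : (r • g) • y = (glift Ω G kmops_sum (toG k I Ω r * g) : Module.End k X) y := rfl
    rw [h1, map_mul, glift_toG]
    exact klift_kmops (X := X) r _

/-- word dimensions do not see the grading -/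
theorem wdm_wrap {V : Type} [AddCommGroup V] [Module k V] {O : Ops k I V}
    (G : GStr (Module.End k V) O) (hO : ∑ l ∈ Ω, O.e l = 1) (u : List I) :
    wdm (mops k I Ω (GWrap (Ω := Ω) G hO)) u = wdm O u := by
  have h1 : (mops k I Ω (GWrap (Ω := Ω) G hO)).e u = (O.e u : Module.End k V) := by
    apply LinearMap.ext
    intro y
    rw [mops_e, gwrap_smul, glift_e]
    rfl
  unfold wdm wsp
  rw [h1]
  rfl

/-- finite-dimensional modules which are sums of their degree parts have finitely many degrees -/
theorem LG.fu {X : Type} [AddCommGroup X] [Module k X] [Module (GKLR k I Ω) X]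
    [IsScalarTower k (GKLR k I Ω) X] [Module.Finite k X] (h : LG k Ω X) : FU k Ω X := by
  obtain ⟨s, hs⟩ := (Module.Finite.fg_top : (⊤ : Submodule k X).FG)
  choose S hS using h
  refine ⟨s.biUnion S, fun z => ?_⟩
  have hz : z ∈ Submodule.span k (s : Set X) := by rw [hs]; trivial
  induction hz using Submodule.span_induction with
  | mem z hz => exact hS z _ (Finset.subset_biUnion_of_mem S hz)
  | zero => simp
  | add z w _ _ hz hw =>
    simp only [smul_add, Finset.sum_add_distrib]
    rw [hz, hw]
  | smul c z _ hz =>
    have e2 : ∀ d, (gstr k I Ω).f d • c • z = c • ((gstr k I Ω).f d • z) := fun d =>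
      smul_comm _ _ _
    simp only [e2]
    rw [← Finset.smul_sum, hz]

/-- the wrapped module of a grading is the sum of its degree parts -/
theorem IsKGrading.lg (h : IsKGrading k Ω A) :
    LG k Ω (GWrap (Ω := Ω) h.str kmops_sum) := by
  have key : ∀ y : X, LGv (k := k) (Ω := Ω) (A := GWrap (Ω := Ω) h.str kmops_sum) y := by
    intro y
    have hy : y ∈ ⨆ d, A d := by
      rw [h.internal.submodule_iSup_eq_top]; trivial
    induction hy using Submodule.iSup_induction' with
    | mem d y hy =>
      refine ⟨{d}, fun S' hS' => ?_⟩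
      rw [Finset.singleton_subset_iff] at hS'
      obtain ⟨y', hy'⟩ : ∃ y' : GWrap (Ω := Ω) h.str kmops_sum, y' = y := ⟨y, rfl⟩
      have hf : ∀ d', (gstr k I Ω).f d' • y' = (if d' = d then y else 0 : X) := by
        intro d'
        rw [gwrap_smul, glift_f, hy']
        exact gproj_apply h.internal hy
      rw [← hy']
      rw [Finset.sum_eq_single d]
      · rw [hf, if_pos rfl]
        exact hy'.symm
      · intro d'' _ hd
        rw [hf, if_neg hd]
        rfl
      · intro h'; exact absurd hS' h'
    | zero => exact LGv.zero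
    | add y z _ _ hy hz => exact hy.add hz
  exact fun y => key y

/-! ### shifts -/

section shift

variable {Y : Type} [AddCommGroup Y] [Module k Y] [Module (GKLR k I Ω) Y]
  [IsScalarTower k (GKLR k I Ω) Y] [Module (KLR k I Ω) Y]
  [IsScalarTower (KLR k I Ω) (GKLR k I Ω) Y]

theorem klift_mops (r : KLR k I Ω) (y : Y) :
    (klift Ω (mops k I Ω Y) mops_sum r) y = r • y := by
  rw [← toG_smul]
  induction r using klr_induction generalizing y with
  | he l => rw [klift_e]; rfl
  | hx j => rw [klift_x]; rfl
  | ht j => rw [klift_t]; rfl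
  | hc c =>
    rw [AlgHom.commutes, AlgHom.commutes, algebraMap_smul, Module.algebraMap_end_apply]
  | hadd a b ha hb => rw [map_add, LinearMap.add_apply, ha, hb, map_add, add_smul]
  | hmul a b ha hb => rw [map_mul, Module.End.mul_apply, hb, ha, map_mul, mul_smul]

variable (k Ω) in
/-- the ungraded action on a shift -/
noncomputable instance shKlr (c : ℤ) : Module (KLR k I Ω) (Sh k Ω Y c) :=
  inferInstanceAs (Module (KLR k I Ω) Y)

instance (c : ℤ) : IsScalarTower (KLR k I Ω) (GKLR k I Ω) (Sh k Ω Y c) where
  smul_assoc r g y := by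
    have h1 : (r • g) • y = (glift Ω ((mstr k I Ω Y).shift c) mops_sum
      (toG k I Ω r * g) : Module.End k Y) y := rfl
    rw [h1, map_mul, glift_toG]
    exact klift_mops (Y := Y) r _

theorem FU.shift (h : FU k Ω Y) (c : ℤ) : FU k Ω (Sh k Ω Y c) := by
  classical
  obtain ⟨S, hS⟩ := h
  refine ⟨S.image (fun d => d + c), fun y => ?_⟩
  rw [Finset.sum_image (by intro a _ b _ hab; simpa using hab)]
  have h1 : ∀ d, (gstr k I Ω).f (d + c) • y = toSh k Ω c ((gstr k I Ω).f d • unSh k Ω c y) := by
    intro d
    have := sh_f (k := k) (Ω := Ω) c (d + c) (unSh k Ω c y)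
    rw [show d + c - c = d by ring] at this
    exact this
  simp only [h1]
  exact hS (unSh k Ω c y)

end shift

end

end Pool.Agent.H159
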